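import Mathlib

set_option autoImplicit false

namespace Pool.Agent.Lib.MP_614955_co.ADQ

open Finset

/-- Radius of the rooms of a given rank. -/
def rho : ℕ → ℕ
  | 0 => 1
  | j + 1 => 2 * rho j + 2

/-- Size of iterated closures. -/
def cb (n x : ℕ) : ℕ → ℕ
  | 0 => x
  | i + 1 => (n + 1) * cb n x i ^ 2

/-- The hypergraph together with the numerical parameters of the strategy. -/
structure AD (V : Type*) [DecidableEq V] where
  F : Finset (Finset V)
  n : ℕ
  d : ℕ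
  J : ℕ
  b : ℕ
  t : ℕ
  a : ℕ
  γ : ℕ
  ν : ℕ
  Lw : ℕ
  S : ℕ
  δ : V → V → ℕ
  unif : ∀ A ∈ F, A.card = n
  ad : ∀ A ∈ F, ∀ B ∈ F, A ≠ B → (A ∩ B).card ≤ 1
  deg : ∀ x, (F.filter (fun A => x ∈ A)).card ≤ 2 ^ d
  δ0 : ∀ x, δ x x = 0
  δ1 : ∀ A ∈ F, ∀ x ∈ A, ∀ y ∈ A, δ x y ≤ 1
  δt : ∀ x y z, δ x z ≤ δ x y + δ y z
  t2 : 2 ≤ t
  b2 : 2 ≤ b
  g8 : 8 ≤ γ
  h1 : 4 * cb n (1 + n * (Lw + n)) (J + 1) ^ 2 ≤ 2 ^ a
  h2 : 2 * (t * (b * (J + 1))) + 1 + a + d + 2 * (γ * 2 ^ (J + 1)) ≤ n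
  h3 : n ≤ 4 * d
  h4 : 4 * (2 * (t * (b * (J + 1))) + 1 + a + γ * 2 ^ (J + 1)) ≤ n
  h5 : n ≤ γ * ν
  h6 : 4 * (rho (J + 1) + 1 + (J + 2) * (ν + 1)) ≤ n
  h7 : (rho (J + 1) + 1) * (a + 1) + 1 ≤ γ
  h8 : (1 + n * (Lw + n)) ^ 2 < b ^ (J + 1)
  h9 : cb n (1 + n * (Lw + n)) (J + 1) ^ 2 ≤ S
  h10 : 2 * (n * S) ^ 2 < 2 ^ t

variable {V : Type*} [DecidableEq V]

/-- A step of an exploration: an edge and a flag. -/
abbrev Step (V : Type*) := Finset V × Bool

/-- Union of the edges of an exploration with the root. -/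
def XX (z : V) : List (Step V) → Finset V
  | [] => {z}
  | p :: l => p.1 ∪ XX z l

theorem XX_mono (z : V) (l : List (Step V)) : ∀ e : List (Step V), XX z l ⊆ XX z (e ++ l)
  | [] => Subset.rfl
  | _ :: e => (XX_mono z l e).trans subset_union_right

theorem sub_XX (z : V) : ∀ (l : List (Step V)) (A : Finset V), A ∈ l.map Prod.fst → A ⊆ XX z l
  | [], _, h => by simp at h
  | p :: l, A, h => by
    rcases List.mem_cons.mp h with rfl | h
    · exact subset_union_left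
    · exact (sub_XX z l A h).trans subset_union_right

theorem root_mem (z : V) (l : List (Step V)) : z ∈ XX z l := by
  have := XX_mono z [] l
  rw [List.append_nil] at this
  exact this (mem_singleton_self z)

namespace AD

variable (P : AD V)

/-- Edges with at least two points in `Z`. -/
def heavy (Z : Finset V) : Finset (Finset V) := P.F.filter (fun A => 2 ≤ (A ∩ Z).card)

/-- Iterated closure. -/
def cln (Z : Finset V) : ℕ → Finset V
  | 0 => Z
  | i + 1 => cln Z i ∪ (P.heavy (cln Z i)).biUnion id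

theorem eq_of_two {A B : Finset V} (hA : A ∈ P.F) (hB : B ∈ P.F) {x y : V} (hxy : x ≠ y)
    (h1 : x ∈ A) (h2 : y ∈ A) (h3 : x ∈ B) (h4 : y ∈ B) : A = B := by
  by_contra hne
  have h5 := P.ad A hA B hB hne
  have : 1 < (A ∩ B).card := one_lt_card.mpr ⟨x, mem_inter.mpr ⟨h1, h3⟩, y, mem_inter.mpr ⟨h2, h4⟩, hxy⟩
  omega

theorem heavy_card (Z : Finset V) : (P.heavy Z).card ≤ Z.card ^ 2 := by
  have h : ∀ A ∈ P.heavy Z, ∃ p : V × V, p.1 ∈ A ∧ p.2 ∈ A ∧ p.1 ≠ p.2 ∧ p ∈ Z ×ˢ Z := by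
    intro A hA
    have h2 := (mem_filter.mp hA).2
    obtain ⟨x, hx, y, hy, hxy⟩ := one_lt_card.mp (by omega : 1 < (A ∩ Z).card)
    exact ⟨(x, y), (mem_inter.mp hx).1, (mem_inter.mp hy).1, hxy,
      mem_product.mpr ⟨(mem_inter.mp hx).2, (mem_inter.mp hy).2⟩⟩
  rcases (P.heavy Z).eq_empty_or_nonempty with he | ⟨A0, hA0⟩
  · rw [he]; simp
  have : Nonempty (V × V) := ⟨(h A0 hA0).choose⟩
  choose! f hf using h
  have := card_le_card_of_injOn (s := P.heavy Z) (t := Z ×ˢ Z) f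
    (fun A hA => (hf A hA).2.2.2) (by
      intro A hA B hB hAB
      have h1 := hf A hA
      have h2 := hf B hB
      exact P.eq_of_two (mem_filter.mp hA).1 (mem_filter.mp hB).1 h1.2.2.1 h1.1 h1.2.1
        (by rw [hAB]; exact h2.1) (by rw [hAB]; exact h2.2.1))
  rw [card_product] at this
  nlinarith

theorem biUnion_card (G : Finset (Finset V)) (hG : G ⊆ P.F) : (G.biUnion id).card ≤ P.n * G.card := by
  have := card_biUnion_le_card_mul G id P.n (fun A hA => (P.unif A (hG hA)).le)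
  rwa [mul_comm] at this

theorem cln_card {Z : Finset V} {x : ℕ} (h : Z.card ≤ x) : ∀ i, (P.cln Z i).card ≤ cb P.n x i
  | 0 => h
  | i + 1 => by
    have h1 := cln_card h i
    have h2 := (P.biUnion_card (P.heavy (P.cln Z i)) (filter_subset _ _)).trans
      (Nat.mul_le_mul_left _ (P.heavy_card _))
    have h3 := card_union_le (P.cln Z i) ((P.heavy (P.cln Z i)).biUnion id)
    have h4 := Nat.pow_le_pow_left h1 2
    have h5 : (P.cln Z i).card ≤ (P.cln Z i).card ^ 2 := Nat.le_self_pow (by norm_num) _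
    have h6 := Nat.mul_le_mul_left P.n h4
    simp only [cln, cb]
    nlinarith

theorem sub_cln (Z : Finset V) : ∀ i, Z ⊆ P.cln Z i
  | 0 => Subset.rfl
  | i + 1 => (sub_cln Z i).trans subset_union_left

/-- Cost of one step. -/
def c1 (p : Step V) : ℕ := if p.2 then P.a else P.a + P.d

/-- Cost of an exploration. -/
def cost : List (Step V) → ℕ
  | [] => 0
  | p :: l => P.c1 p + cost l

/-- Allowed next steps. -/
def ext (z : V) (l : List (Step V)) : Finset (Step V) :=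
  (P.F ×ˢ (univ : Finset Bool)).filter (fun p =>
    if p.2 then 2 ≤ (p.1 ∩ P.cln (XX z l) (P.J + 1)).card else ¬ Disjoint p.1 (XX z l))

/-- Admissible explorations. -/
def Adm (z : V) : List (Step V) → Prop
  | [] => True
  | p :: l => p ∈ P.ext z l ∧ Adm z l

/-- The finite set of admissible explorations of a given length. -/
def AdmF (z : V) : ℕ → Finset (List (Step V))
  | 0 => {[]}
  | k + 1 => ((AdmF z k).sigma (P.ext z)).image (fun q => q.2 :: q.1)

theorem mem_AdmF (z : V) : ∀ k l, l ∈ P.AdmF z k ↔ P.Adm z l ∧ l.length = k := by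
  intro k
  induction k with
  | zero =>
    intro l
    cases l <;> simp [AdmF, Adm]
  | succ k ih =>
    intro l
    simp only [AdmF, mem_image, mem_sigma, ih]
    constructor
    · rintro ⟨⟨l', p⟩, ⟨⟨h1, h2⟩, h3⟩, rfl⟩
      exact ⟨⟨h3, h1⟩, by simpa using h2⟩
    · rintro ⟨h1, h2⟩
      cases l with
      | nil => simp at h2
      | cons p l' => exact ⟨⟨l', p⟩, ⟨⟨h1.2, by simpa using h2⟩, h1.1⟩, rfl⟩

theorem ext_F {z : V} {l : List (Step V)} {p : Step V} (h : p ∈ P.ext z l) : p.1 ∈ P.F :=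
  (mem_product.mp (mem_filter.mp h).1).1

theorem XX_card (z : V) : ∀ l : List (Step V), P.Adm z l → (XX z l).card ≤ 1 + P.n * l.length
  | [], _ => by simp [XX]
  | p :: l, h => by
    have h1 := XX_card z l h.2
    have h2 := P.unif _ (P.ext_F h.1)
    have h3 := card_union_le p.1 (XX z l)
    simp only [XX, List.length_cons, mul_add]
    omega

theorem sum_ext (z : V) (l : List (Step V)) (hA : P.Adm z l) (hK : l.length ≤ P.Lw + P.n) :
    ∑ p ∈ P.ext z l, (1 / 2 : ℝ) ^ P.c1 p ≤ 1 / 2 := by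
  set u := cb P.n (1 + P.n * (P.Lw + P.n)) (P.J + 1) with hu
  have hX : (XX z l).card ≤ 1 + P.n * (P.Lw + P.n) :=
    (P.XX_card z l hA).trans (Nat.add_le_add_left (Nat.mul_le_mul_left _ hK) 1)
  have hc := P.cln_card hX (P.J + 1)
  have h1 : ((P.ext z l).filter (fun p => p.2 = true)).card ≤ u ^ 2 := by
    refine le_trans (card_le_card_of_injOn (t := P.heavy (P.cln (XX z l) (P.J + 1))) Prod.fst
      (fun p hp => ?_) ?_) ((P.heavy_card _).trans (Nat.pow_le_pow_left hc 2))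
    · obtain ⟨a1, a2⟩ := mem_filter.mp (mem_coe.mp hp)
      have := (mem_filter.mp a1).2
      rw [if_pos a2] at this
      exact mem_coe.mpr (mem_filter.mpr ⟨P.ext_F a1, this⟩)
    · intro p hp q hq e
      exact Prod.ext e ((mem_filter.mp (mem_coe.mp hp)).2.trans (mem_filter.mp (mem_coe.mp hq)).2.symm)
  have h2 : ((P.ext z l).filter (fun p => ¬ p.2 = true)).card ≤ u ^ 2 * 2 ^ P.d := by
    refine le_trans (card_le_card_of_injOn
      (t := (XX z l).biUnion (fun x => P.F.filter (fun A => x ∈ A))) Prod.fst (fun p hp => ?_) ?_) ?_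
    · obtain ⟨a1, a2⟩ := mem_filter.mp (mem_coe.mp hp)
      have := (mem_filter.mp a1).2
      rw [if_neg a2] at this
      obtain ⟨x, hx, hx'⟩ := not_disjoint_iff.mp this
      exact mem_coe.mpr (mem_biUnion.mpr ⟨x, hx', mem_filter.mpr ⟨P.ext_F a1, hx⟩⟩)
    · intro p hp q hq e
      have b1 := (mem_filter.mp (mem_coe.mp hp)).2
      have b2 := (mem_filter.mp (mem_coe.mp hq)).2
      exact Prod.ext e (by simp only [Bool.not_eq_true] at b1 b2; rw [b1, b2])
    · refine (card_biUnion_le_card_mul _ _ _ (fun x _ => P.deg x)).trans (Nat.mul_le_mul_right _ ?_)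
      exact ((card_le_card (P.sub_cln _ _)).trans hc).trans (Nat.le_self_pow (by norm_num) _)
  have h1' : (((P.ext z l).filter (fun p => p.2 = true)).card : ℝ) ≤ u ^ 2 := by exact_mod_cast h1
  have h2' : (((P.ext z l).filter (fun p => ¬ p.2 = true)).card : ℝ) ≤ u ^ 2 * 2 ^ P.d := by
    exact_mod_cast h2
  have h4 : (4 * u ^ 2 : ℝ) ≤ 2 ^ P.a := by exact_mod_cast P.h1
  simp only [c1, pow_ite, sum_ite, sum_const, nsmul_eq_mul]
  have h5 : (u : ℝ) ^ 2 * (1 / 2) ^ P.a ≤ 1 / 4 := by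
    rw [one_div_pow, mul_one_div, div_le_iff₀ (by positivity)]; linarith
  have h6 := mul_le_mul_of_nonneg_right h1' (show (0 : ℝ) ≤ (1 / 2) ^ P.a by positivity)
  have h7 := mul_le_mul_of_nonneg_right h2' (show (0 : ℝ) ≤ (1 / 2) ^ (P.a + P.d) by positivity)
  have e : (u : ℝ) ^ 2 * 2 ^ P.d * (1 / 2) ^ (P.a + P.d) = u ^ 2 * (1 / 2) ^ P.a := by
    rw [pow_add, one_div_pow _ P.d]; field_simp
  linarith

theorem sum_AdmF (z : V) : ∀ k, k ≤ P.Lw + P.n →
    ∑ l ∈ P.AdmF z k, (1 / 2 : ℝ) ^ P.cost l ≤ (1 / 2) ^ k := by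
  intro k
  induction k with
  | zero => intro _; simp [AdmF, cost]
  | succ k ih =>
    intro hk
    simp only [AdmF]
    rw [sum_image (by
      rintro ⟨l, p⟩ _ ⟨l', p'⟩ _ h
      simp only [List.cons.injEq] at h
      obtain ⟨rfl, rfl⟩ := h
      rfl), sum_sigma, pow_succ]
    refine le_trans (sum_le_sum (g := fun l => (1 / 2 : ℝ) ^ P.cost l * (1 / 2)) (fun l hl => ?_)) ?_
    · obtain ⟨h1, h2⟩ := (P.mem_AdmF z _ _).mp hl
      have := P.sum_ext z l h1 (by omega)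
      simp only [cost, pow_add, ← sum_mul]
      rw [mul_comm]
      exact mul_le_mul_of_nonneg_left this (by positivity)
    · rw [← sum_mul]
      exact mul_le_mul_of_nonneg_right (ih (by omega)) (by norm_num)

/-- Radius of the witnesses. -/
def r0 : ℕ := rho (P.J + 1) + P.J + 2

/-- Witnesses rooted at `z`. -/
def TT (z : V) : Finset (V × List (Step V)) :=
  ((((range (P.Lw + P.n)).biUnion (fun k => P.AdmF z (k + 1))).filter
    (fun l => ∀ x ∈ XX z l, P.δ z x ≤ P.r0))).image (fun l => (z, l))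

theorem sum_TT (z : V) : ∑ q ∈ P.TT z, (1 / 2 : ℝ) ^ P.cost q.2 ≤ 1 := by
  rw [TT, sum_image (fun _ _ _ _ h => (Prod.ext_iff.mp h).2)]
  refine (sum_le_sum_of_subset_of_nonneg (filter_subset _ _) (fun _ _ _ => by positivity)).trans ?_
  rw [sum_biUnion]
  · refine (sum_le_sum (fun k hk => P.sum_AdmF z (k + 1) (mem_range.mp hk))).trans ?_
    have : ∀ m : ℕ, ∑ k ∈ range m, (1 / 2 : ℝ) ^ (k + 1) = 1 - (1 / 2) ^ m := by
      intro m
      induction m with
      | zero => simp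
      | succ m ih => rw [sum_range_succ, ih]; ring
    rw [this]
    have : (0 : ℝ) ≤ (1 / 2) ^ (P.Lw + P.n) := by positivity
    linarith
  · intro i _ j _ hij
    refine disjoint_left.mpr (fun l h1 h2 => hij ?_)
    have a1 := ((P.mem_AdmF z _ _).mp h1).2
    have a2 := ((P.mem_AdmF z _ _).mp h2).2
    omega

/-- Certificate that an edge carries many big points, up to points owned by lower certificates. -/
def Node (Mb Ok : Finset V) : ℕ → Finset V → Prop
  | 0, E => E ∈ P.F ∧ E ⊆ Ok ∧ P.n ≤ (E ∩ Mb).card + 2 * (P.t * (P.b * (P.J + 1)))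
  | l + 1, E => E ∈ P.F ∧ E ⊆ Ok ∧ ∃ Q ⊆ E,
      P.n ≤ (E ∩ Mb).card + 2 * (P.t * (P.b * (P.J + 1))) + Q.card ∧
      ∀ p ∈ Q, ∃ H, H ≠ E ∧ p ∈ H ∧ Node Mb Ok l H

variable {P}

theorem Node.base {Mb Ok : Finset V} : ∀ {l : ℕ} {E : Finset V}, P.Node Mb Ok l E → E ∈ P.F ∧ E ⊆ Ok
  | 0, _, h => ⟨h.1, h.2.1⟩
  | _ + 1, _, h => ⟨h.1, h.2.1⟩

theorem Node.mono {Mb Ok Mb' Ok' : Finset V} (h1 : Mb ⊆ Mb') (h2 : Ok ⊆ Ok') :
    ∀ {l : ℕ} {E : Finset V}, P.Node Mb Ok l E → P.Node Mb' Ok' l E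
  | 0, E, h => ⟨h.1, h.2.1.trans h2, h.2.2.trans
      (Nat.add_le_add_right (card_le_card (inter_subset_inter_left h1)) _)⟩
  | l + 1, E, h => by
    obtain ⟨a1, a2, Q, a3, a4, a5⟩ := h
    have := card_le_card (inter_subset_inter_left (s := E) h1)
    refine ⟨a1, a2.trans h2, Q, a3, by omega, fun p hp => ?_⟩
    obtain ⟨H, b1, b2, b3⟩ := a5 p hp
    exact ⟨H, b1, b2, b3.mono h1 h2⟩

theorem Node.succ {Mb Ok : Finset V} : ∀ {l : ℕ} {E : Finset V}, P.Node Mb Ok l E →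
    P.Node Mb Ok (l + 1) E
  | 0, E, h => ⟨h.1, h.2.1, ∅, empty_subset _, by simpa using h.2.2, by simp⟩
  | l + 1, E, h => by
    obtain ⟨a1, a2, Q, a3, a4, a5⟩ := h
    refine ⟨a1, a2, Q, a3, a4, fun p hp => ?_⟩
    obtain ⟨H, b1, b2, b3⟩ := a5 p hp
    exact ⟨H, b1, b2, b3.succ⟩

theorem Node.le {Mb Ok E : Finset V} {l l' : ℕ} (h : P.Node Mb Ok l E) (hl : l ≤ l') :
    P.Node Mb Ok l' E := by
  induction l', hl using Nat.le_induction with
  | base => exact h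
  | succ _ _ ih => exact ih.succ

end AD

end Pool.Agent.Lib.MP_614955_co.ADQ
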