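import Mathlib
import Pool.Agent.Lib.MP_614955_co.ADWit

set_option autoImplicit false

namespace Pool.Agent.Lib.MP_614955_co.ADQ

open Finset

variable {V : Type*} [DecidableEq V]

/-- Chains of intersecting members. -/
def Ch (mem : Finset (Finset V)) (A : Finset V) : ℕ → Finset V → Prop
  | 0, B => A = B
  | k + 1, B => Ch mem A k B ∨ ∃ B', Ch mem A k B' ∧ B' ∈ mem ∧ B ∈ mem ∧ ¬ Disjoint B' B

theorem Ch.le {mem : Finset (Finset V)} {A B : Finset V} {k k' : ℕ} (h : Ch mem A k B)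
    (hk : k ≤ k') : Ch mem A k' B := by
  induction k', hk using Nat.le_induction with
  | base => exact h
  | succ _ _ ih => exact Or.inl ih

theorem Ch.mono {mem mem' : Finset (Finset V)} (hm : mem ⊆ mem') {A : Finset V} :
    ∀ {k : ℕ} {B : Finset V}, Ch mem A k B → Ch mem' A k B
  | 0, _, h => h
  | _ + 1, _, h => h.elim (fun h => Or.inl (Ch.mono hm h))
      (fun ⟨B', h1, h2, h3, h4⟩ => Or.inr ⟨B', Ch.mono hm h1, hm h2, hm h3, h4⟩)

theorem Ch.trans {mem : Finset (Finset V)} {A B : Finset V} {k : ℕ} (h : Ch mem A k B) :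
    ∀ {k' : ℕ} {C : Finset V}, Ch mem B k' C → Ch mem A (k + k') C
  | 0, _, h' => by cases h'; exact h
  | _ + 1, _, h' => h'.elim (fun h' => Or.inl (h.trans h'))
      (fun ⟨B', h1, h2, h3, h4⟩ => Or.inr ⟨B', h.trans h1, h2, h3, h4⟩)

theorem Ch.one {mem : Finset (Finset V)} {A B : Finset V} (hA : A ∈ mem) (hB : B ∈ mem)
    (h : ¬ Disjoint A B) : Ch mem A 1 B := Or.inr ⟨A, rfl, hA, hB, h⟩

theorem Ch.symm {mem : Finset (Finset V)} {A : Finset V} :
    ∀ {k : ℕ} {B : Finset V}, Ch mem A k B → Ch mem B k A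
  | 0, _, h => Eq.symm h
  | k + 1, _, h => h.elim (fun h => Or.inl (Ch.symm h))
      (fun ⟨_, h1, h2, h3, h4⟩ => by
        have := (Ch.one h3 h2 (fun h => h4 h.symm)).trans (Ch.symm h1)
        rwa [add_comm] at this)

namespace AD

variable (P : AD V)

/-- Surplus of an exploration. -/
def sur (Mb : Finset V) (z : V) (l : List (Step V)) : ℤ :=
  ((XX z l ∩ Mb).card : ℤ) - P.cost l

/-- Admissible explorations inside `Ok` and near the root. -/
def Good (Ok : Finset V) (z : V) (l : List (Step V)) : Prop :=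
  P.Adm z l ∧ ∀ p ∈ l, p.1 ⊆ Ok ∧ ∀ x ∈ p.1, P.δ z x ≤ P.r0

variable {P} {Mb Ok : Finset V} {z : V}

theorem adm_F : ∀ {l : List (Step V)}, P.Adm z l → ∀ p ∈ l, p.1 ∈ P.F
  | [], _, _, h => by simp at h
  | _ :: _, h, p, hp => by
    rcases List.mem_cons.mp hp with rfl | hp
    · exact P.ext_F h.1
    · exact adm_F h.2 p hp

theorem cover {A : Finset V} (hA : A ∈ P.F) (l : List (Step V)) : ∀ e : List (Step V),
    P.Adm z (e ++ l) → A ∉ e.map Prod.fst → (A ∩ XX z (e ++ l)).card ≤ (A ∩ XX z l).card + e.length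
  | [], _, _ => le_rfl
  | p :: e, h, hn => by
    have h1 := cover hA l e h.2 (fun hc => hn (List.mem_cons_of_mem _ hc))
    have h2 := P.ad A hA p.1 (P.ext_F h.1) (fun hc => hn (by simp [hc]))
    have h3 := card_union_le (A ∩ p.1) (A ∩ XX z (e ++ l))
    simp only [List.cons_append, XX, inter_union_distrib_left, List.length_cons]
    omega

theorem sur_cons (p : Step V) (l : List (Step V)) :
    P.sur Mb z l + (p.1 ∩ Mb).card - (p.1 ∩ XX z l).card - P.c1 p ≤ P.sur Mb z (p :: l) ∧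
    P.sur Mb z l - P.c1 p ≤ P.sur Mb z (p :: l) := by
  have e1 := card_union_add_card_inter (p.1 ∩ Mb) (XX z l ∩ Mb)
  have e3 : (p.1 ∩ Mb ∩ (XX z l ∩ Mb)).card ≤ (p.1 ∩ XX z l).card := by
    apply card_le_card
    intro x hx
    simp only [mem_inter] at hx ⊢
    exact ⟨hx.1.1, hx.2.1⟩
  have e4 := card_le_card (subset_union_right (s₁ := p.1 ∩ Mb) (s₂ := XX z l ∩ Mb))
  simp only [sur, XX, cost, union_inter_distrib_right]
  push_cast
  omega

theorem mem_ext {l : List (Step V)} {E : Finset V} (hE : E ∈ P.F) :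
    (2 ≤ (E ∩ P.cln (XX z l) (P.J + 1)).card → (E, true) ∈ P.ext z l) ∧
    (¬ Disjoint E (XX z l) → (E, false) ∈ P.ext z l) :=
  ⟨fun h => mem_filter.mpr ⟨mem_product.mpr ⟨hE, mem_univ _⟩, by simpa using h⟩,
    fun h => mem_filter.mpr ⟨mem_product.mpr ⟨hE, mem_univ _⟩, by simpa using h⟩⟩

theorem Good.cons {l : List (Step V)} (h : P.Good Ok z l) {p : Step V} (hp : p ∈ P.ext z l)
    (h1 : p.1 ⊆ Ok) (h2 : ∀ x ∈ p.1, P.δ z x ≤ P.r0) : P.Good Ok z (p :: l) :=
  ⟨⟨hp, h.1⟩, fun q hq => by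
    rcases List.mem_cons.mp hq with rfl | hq
    · exact ⟨h1, h2⟩
    · exact h.2 q hq⟩

theorem stepE {l : List (Step V)} {E : Finset V} (hE : E ∈ P.F) {x : ℕ}
    (hx : P.n ≤ (E ∩ Mb).card + 2 * (P.t * (P.b * (P.J + 1))) + x) (hm : ¬ Disjoint E (XX z l))
    (hc : 4 * (E ∩ XX z l).card ≤ 4 + P.n) :
    ∃ b, (E, b) ∈ P.ext z l ∧
      P.sur Mb z l + 2 * (P.γ * 2 ^ (P.J + 1) : ℕ) - x ≤ P.sur Mb z ((E, b) :: l) ∧
      (2 ≤ (E ∩ XX z l).card → 2 * x ≤ P.n →
        P.sur Mb z l + (P.γ * 2 ^ (P.J + 1) : ℕ) ≤ P.sur Mb z ((E, b) :: l)) := by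
  have h2 := P.h2
  have h3 := P.h3
  have h4 := P.h4
  by_cases h : 2 ≤ (E ∩ XX z l).card
  · have h5 := (sur_cons (P := P) (Mb := Mb) (z := z) (E, true) l).1
    simp only [c1, if_true] at h5
    exact ⟨true, (mem_ext hE).1 (h.trans (card_le_card (inter_subset_inter_left (P.sub_cln _ _)))),
      by omega, fun _ _ => by omega⟩
  · have h5 := (sur_cons (P := P) (Mb := Mb) (z := z) (E, false) l).1
    simp only [c1, Bool.false_eq_true, if_false] at h5
    exact ⟨false, (mem_ext hE).2 hm, by omega, fun h' => absurd h' h⟩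

theorem owners_card {E Q : Finset V} (hE : E ∈ P.F) (hQ : Q ⊆ E) {H : V → Finset V}
    (hH : ∀ p ∈ Q, H p ≠ E ∧ p ∈ H p ∧ H p ∈ P.F) (e : List (Step V)) :
    (Q.filter (fun p => H p ∈ e.map Prod.fst)).card ≤ e.length := by
  refine le_trans (card_le_card_of_injOn (t := (e.map Prod.fst).toFinset) H (fun p hp => ?_) ?_) ?_
  · exact mem_coe.mpr (List.mem_toFinset.mpr (mem_filter.mp (mem_coe.mp hp)).2)
  · intro p hp q hq hpq
    have a1 := (mem_filter.mp (mem_coe.mp hp)).1
    have a2 := (mem_filter.mp (mem_coe.mp hq)).1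
    by_contra hne
    exact (hH p a1).1 (P.eq_of_two (hH p a1).2.2 hE hne (hH p a1).2.1
      (by rw [hpq]; exact (hH q a2).2.1) (hQ a1) (hQ a2))
  · exact (List.toFinset_card_le _).trans (by simp)

theorem payTree : ∀ (m : ℕ), m ≤ P.J + 1 → ∀ (E : Finset V) (e l0 : List (Step V)),
    P.Node Mb Ok m E → (∀ x ∈ E, P.δ z x + m ≤ P.r0) → P.Good Ok z (e ++ l0) →
    E ∉ e.map Prod.fst → (E ∩ P.cln (XX z l0) m).card ≤ 1 → ¬ Disjoint E (XX z (e ++ l0)) →
    4 * (e.length + (m + 1) * (P.ν + 1)) ≤ P.n →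
    ∃ e' : List (Step V), 0 < e'.length ∧ e'.length ≤ (m + 1) * (P.ν + 1) ∧
      P.Good Ok z (e' ++ (e ++ l0)) ∧
      P.sur Mb z (e ++ l0) + (P.γ * 2 ^ (P.J + 1 - m) * e'.length : ℕ) ≤
        P.sur Mb z (e' ++ (e ++ l0)) := by
  intro m
  induction m with
  | zero =>
    intro _ E e l0 hN hr hG he hc hm hb
    have a1 := cover hN.1 l0 e hG.1 he
    obtain ⟨b, b1, b2, -⟩ := stepE (Mb := Mb) (x := 0) hN.1 hN.2.2 hm (by simp only [cln] at hc; omega)
    refine ⟨[(E, b)], by simp, by simp, hG.cons b1 hN.2.1 (fun x hx => by have := hr x hx; omega), ?_⟩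
    simp only [Nat.sub_zero, List.length_singleton, mul_one, List.singleton_append]
    omega
  | succ m ih =>
    intro hm1 E e l0 hN hr hG he hc hm hb
    obtain ⟨hF, hO, Q, hQ, hn, hk⟩ := hN
    have a1 := cover hF l0 e hG.1 he
    have a2 := card_le_card (inter_subset_inter_left (s := E) (P.sub_cln (XX z l0) (m + 1)))
    obtain ⟨b, b1, b2, b3⟩ := stepE (Mb := Mb) hF hn hm (by omega)
    have hG1 : P.Good Ok z ((E, b) :: (e ++ l0)) := hG.cons b1 hO (fun x hx => by have := hr x hx; omega)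
    have g8 := P.g8
    have p1 : P.γ * 2 ^ (P.J + 1 - (m + 1)) ≤ P.γ * 2 ^ (P.J + 1) :=
      Nat.mul_le_mul_left _ (Nat.pow_le_pow_right (by norm_num) (by omega))
    have p2 : P.γ ≤ P.γ * 2 ^ (P.J + 1 - (m + 1)) := Nat.le_mul_of_pos_right _ (by positivity)
    have p3 : P.γ * 2 ^ (P.J + 1 - m) = 2 * (P.γ * 2 ^ (P.J + 1 - (m + 1))) := by
      rw [show P.J + 1 - m = P.J + 1 - (m + 1) + 1 by omega, pow_succ]; ring
    have eN : (m + 1 + 1) * (P.ν + 1) = (m + 1) * (P.ν + 1) + P.ν + 1 := by ring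
    by_cases hs : Q.card ≤ P.γ * 2 ^ (P.J + 1) ∨ (2 ≤ (E ∩ XX z (e ++ l0)).card ∧ 2 * Q.card ≤ P.n)
    · refine ⟨[(E, b)], by simp, by simp only [List.length_singleton]; omega, hG1, ?_⟩
      simp only [List.length_singleton, mul_one, List.singleton_append]
      rcases hs with hs | ⟨h1, h2⟩
      · omega
      · have := b3 h1 h2; omega
    rw [not_or] at hs
    choose! H hH using hk
    have hQn : Q.card ≤ P.n := (card_le_card hQ).trans (P.unif E hF).le
    have loop : ∀ k, ∃ e2 : List (Step V), P.Good Ok z (e2 ++ ((E, b) :: (e ++ l0))) ∧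
        e2.length ≤ P.ν + (m + 1) * (P.ν + 1) ∧
        P.sur Mb z ((E, b) :: (e ++ l0)) + (P.γ * 2 ^ (P.J + 1 - m) * e2.length : ℕ) ≤
          P.sur Mb z (e2 ++ ((E, b) :: (e ++ l0))) ∧ (k ≤ e2.length ∨ Q.card ≤ P.γ * e2.length) := by
      intro k
      induction k with
      | zero => exact ⟨[], hG1, by simp, by simp, Or.inl le_rfl⟩
      | succ k ihk =>
        obtain ⟨e2, c1, c2, c3, c4⟩ := ihk
        by_cases hd : Q.card ≤ P.γ * e2.length
        · exact ⟨e2, c1, c2, c3, Or.inr hd⟩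
        have c5 : e2.length < P.ν := by
          by_contra hh
          have := Nat.mul_le_mul_left P.γ (not_lt.mp hh)
          have := P.h5
          omega
        have hex : ∃ p ∈ Q, (H p ∩ P.cln (XX z l0) m).card ≤ 1 ∧ H p ∉ e2.map Prod.fst ∧
            H p ∉ e.map Prod.fst := by
          by_contra hne
          push Not at hne
          have hH' : ∀ p ∈ Q, H p ≠ E ∧ p ∈ H p ∧ H p ∈ P.F :=
            fun p hp => ⟨(hH p hp).1, (hH p hp).2.1, (hH p hp).2.2.base.1⟩
          have d1 := owners_card hF hQ hH' e2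
          have d2 := owners_card hF hQ hH' e
          have d3 : (Q.filter (fun p => H p ∈ e.map Prod.fst)).card ≤ (E ∩ XX z (e ++ l0)).card := by
            refine card_le_card (fun p hp => ?_)
            obtain ⟨f1, f2⟩ := mem_filter.mp hp
            exact mem_inter.mpr ⟨hQ f1, sub_XX z _ _ (by simp only [List.map_append, List.mem_append]; exact Or.inl f2)
              (hH p f1).2.1⟩
          have d4 : Q ⊆ (E ∩ P.cln (XX z l0) (m + 1)) ∪ (Q.filter (fun p => H p ∈ e2.map Prod.fst) ∪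
              Q.filter (fun p => H p ∈ e.map Prod.fst)) := by
            intro p hp
            simp only [mem_union, mem_filter, mem_inter]
            by_cases f1 : (H p ∩ P.cln (XX z l0) m).card ≤ 1
            · by_cases f2 : H p ∈ e2.map Prod.fst
              · exact Or.inr (Or.inl ⟨hp, f2⟩)
              · exact Or.inr (Or.inr ⟨hp, hne p hp f1 f2⟩)
            · refine Or.inl ⟨hQ hp, mem_union_right _ (mem_biUnion.mpr ⟨H p, ?_, (hH p hp).2.1⟩)⟩
              exact mem_filter.mpr ⟨(hH' p hp).2.2, by omega⟩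
          have d5 := (card_le_card d4).trans ((card_union_le _ _).trans
            (Nat.add_le_add_left (card_union_le _ _) _))
          have d6 := Nat.mul_le_mul_right e2.length g8
          have d7 := hs.1
          have d8 := hs.2
          omega
        obtain ⟨p, hp, f1, f2, f3⟩ := hex
        obtain ⟨g1, g2, g3⟩ := hH p hp
        obtain ⟨e3, i1, i2, i3, i4⟩ := ih (by omega) (H p) (e2 ++ (E, b) :: e) l0 g3
          (fun x hx => by
            have j1 := hr p (hQ hp)
            have j2 := P.δ1 _ g3.base.1 p g2 x hx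
            have j3 := P.δt z p x
            omega)
          (by simpa using c1) (by simp only [List.map_append, List.map_cons, List.mem_append,
            List.mem_cons, not_or]; exact ⟨f2, g1, f3⟩) f1
          (not_disjoint_iff.mpr ⟨p, g2, sub_XX z _ E (by simp) (hQ hp)⟩)
          (by simp only [List.length_append, List.length_cons]; omega)
        simp only [List.append_assoc, List.cons_append] at i3 i4
        refine ⟨e3 ++ e2, by simpa using i3, by simp only [List.length_append]; omega, ?_,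
          Or.inl (by simp only [List.length_append]; omega)⟩
        simp only [List.append_assoc, List.length_append, mul_add]
        push_cast at c3 i4 ⊢
        linarith
    obtain ⟨e2, c1, c2, c3, c4⟩ := loop P.ν
    have c5 : Q.card ≤ P.γ * e2.length := by
      rcases c4 with c4 | c4
      · exact hQn.trans (P.h5.trans (Nat.mul_le_mul_left _ c4))
      · exact c4
    have c6 := Nat.mul_le_mul_right e2.length p2
    refine ⟨e2 ++ [(E, b)], by simp, by simp only [List.length_append, List.length_singleton]; omega,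
      by simpa using c1, ?_⟩
    rw [p3, mul_assoc 2] at c3
    simp only [List.append_assoc, List.singleton_append, List.length_append, List.length_singleton,
      mul_add, mul_one]
    omega

theorem round {mem : Finset (Finset V)} {A0 : Finset V} (hA0 : A0 ∈ mem) (hz : z ∈ A0)
    (hmem : ∀ A ∈ mem, P.Node Mb Ok (P.J + 1) A ∧ Ch mem A0 (rho (P.J + 1)) A)
    {l0 : List (Step V)} (hl : P.Good Ok z l0) {E : Finset V} (hE : E ∈ mem) {m : ℕ}
    (hm : m ≤ P.J + 1) (hN : P.Node Mb Ok m E) (hc : (E ∩ P.cln (XX z l0) m).card ≤ 1) :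
    ∃ e : List (Step V), P.Good Ok z (e ++ l0) ∧ 0 < e.length ∧ e.length ≤ P.n ∧
      P.sur Mb z l0 + e.length ≤ P.sur Mb z (e ++ l0) := by
  have near : ∀ k A, Ch mem A0 k A → ∀ x ∈ A, P.δ z x ≤ k + 1 := by
    intro k
    induction k with
    | zero => rintro A rfl x hx; exact P.δ1 _ (hmem _ hA0).1.base.1 z hz x hx
    | succ k ih =>
      rintro A (h | ⟨B, h1, -, h3, h4⟩) x hx
      · have := ih A h x hx; omega
      · obtain ⟨p, hp1, hp2⟩ := not_disjoint_iff.mp h4
        have j1 := ih B h1 p hp1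
        have j2 := P.δ1 _ (hmem _ h3).1.base.1 p hp2 x hx
        have j3 := P.δt z p x
        omega
  have near' : ∀ A ∈ mem, ∀ x ∈ A, P.δ z x + (P.J + 1) ≤ P.r0 := fun A hA x hx => by
    have := near _ A (hmem A hA).2 x hx
    unfold r0; omega
  have h6 := P.h6
  have h7 := P.h7
  let Done : Prop := ∃ e : List (Step V), P.Good Ok z (e ++ l0) ∧ 0 < e.length ∧ e.length ≤ P.n ∧
      P.sur Mb z l0 + e.length ≤ P.sur Mb z (e ++ l0)
  let St : ℕ → List (Step V) → Prop := fun k e => P.Good Ok z (e ++ l0) ∧ E ∉ e.map Prod.fst ∧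
    e.length ≤ k ∧ P.sur Mb z l0 - (P.a * e.length : ℕ) ≤ P.sur Mb z (e ++ l0)
  have fin : ∀ (k : ℕ) (e e' : List (Step V)) (m' : ℕ), k ≤ rho (P.J + 1) → St k e → m' ≤ P.J + 1 →
      0 < e'.length → e'.length ≤ (m' + 1) * (P.ν + 1) → P.Good Ok z (e' ++ (e ++ l0)) →
      P.sur Mb z (e ++ l0) + (P.γ * 2 ^ (P.J + 1 - m') * e'.length : ℕ) ≤
        P.sur Mb z (e' ++ (e ++ l0)) → Done := by
    intro k e e' m' hk ⟨s1, s2, s3, s4⟩ hm' i1 i2 i3 i4
    have j1 : (m' + 1) * (P.ν + 1) ≤ (P.J + 2) * (P.ν + 1) := Nat.mul_le_mul_right _ (by omega)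
    have j2 : P.γ * e'.length ≤ P.γ * 2 ^ (P.J + 1 - m') * e'.length :=
      Nat.mul_le_mul_right _ (Nat.le_mul_of_pos_right _ (by positivity))
    have j3 : e.length * (P.a + 1) ≤ (rho (P.J + 1) + 1) * (P.a + 1) :=
      Nat.mul_le_mul_right _ (by omega)
    have j4 : P.γ + e'.length ≤ P.γ * e'.length + 1 := by
      obtain ⟨c, hc⟩ : ∃ c, e'.length = c + 1 := ⟨e'.length - 1, by omega⟩
      have := Nat.le_mul_of_pos_left c (show 0 < P.γ by omega)
      rw [hc, mul_add]; omega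
    refine ⟨e' ++ e, by simpa using i3, by simp only [List.length_append]; omega,
      by simp only [List.length_append]; omega, ?_⟩
    rw [mul_add, mul_comm e.length P.a] at j3
    simp only [List.append_assoc, List.length_append]
    omega
  have visit : ∀ (k : ℕ) (e : List (Step V)) (A : Finset V), k ≤ rho (P.J + 1) → St k e → A ∈ mem →
      ¬ Disjoint A (XX z (e ++ l0)) →
      Done ∨ ∃ e', St (k + 1) e' ∧ A ≠ E ∧ A ⊆ XX z (e' ++ l0) := by
    intro k e A hk hs hA hd
    by_cases hAE : A = E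
    · subst hAE
      have j1 : (m + 1) * (P.ν + 1) ≤ (P.J + 2) * (P.ν + 1) := Nat.mul_le_mul_right _ (by omega)
      obtain ⟨e', i1, i2, i3, i4⟩ := payTree m hm A e l0 hN
        (fun x hx => by have := near' A hA x hx; omega) hs.1 hs.2.1 hc hd (by have := hs.2.2.1; omega)
      exact Or.inl (fin k e e' m hk hs hm i1 i2 i3 i4)
    by_cases hch : 2 ≤ (A ∩ P.cln (XX z (e ++ l0)) (P.J + 1)).card
    · have j1 := (sur_cons (P := P) (Mb := Mb) (z := z) (A, true) (e ++ l0)).2
      refine Or.inr ⟨(A, true) :: e, ⟨hs.1.cons ((mem_ext (hmem A hA).1.base.1).1 hch)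
        (hmem A hA).1.base.2 (fun x hx => by have := near' A hA x hx; omega), ?_,
        by have := hs.2.2.1; simp only [List.length_cons]; omega, ?_⟩, hAE, subset_union_left⟩
      · simp only [List.map_cons, List.mem_cons, not_or]
        exact ⟨fun h => hAE h.symm, hs.2.1⟩
      · have := hs.2.2.2
        simp only [c1, if_true] at j1
        simp only [List.length_cons, List.cons_append, mul_add, mul_one]
        omega
    · obtain ⟨e', i1, i2, i3, i4⟩ := payTree (P.J + 1) le_rfl A [] (e ++ l0) (hmem A hA).1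
        (near' A hA) hs.1 (by simp) (by omega) hd (by simp only [List.length_nil, add_assoc, Nat.reduceAdd]; omega)
      exact Or.inl (fin k e e' _ hk hs le_rfl i1 i2 i3 i4)
  have walk : ∀ k, k ≤ rho (P.J + 1) → ∀ A, Ch mem A0 k A →
      Done ∨ ∃ e', St (k + 1) e' ∧ A ≠ E ∧ A ⊆ XX z (e' ++ l0) := by
    intro k
    induction k with
    | zero =>
      rintro hk A rfl
      exact visit 0 [] _ hk ⟨hl, by simp, le_rfl, by simp⟩ hA0
        (not_disjoint_iff.mpr ⟨z, hz, root_mem z _⟩)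
    | succ k ih =>
      rintro hk A (h | ⟨B, h1, -, h3, h4⟩)
      · refine (ih (by omega) A h).imp_right (fun ⟨e', s, j⟩ => ⟨e', ⟨s.1, s.2.1, ?_, s.2.2.2⟩, j⟩)
        have := s.2.2.1; omega
      · rcases ih (by omega) B h1 with h | ⟨e', s, -, j⟩
        · exact Or.inl h
        · exact visit (k + 1) e' A hk s h3 (fun h => h4 (h.symm.mono_left j))
  exact (walk _ le_rfl E (hmem E hE).2).resolve_right (fun ⟨_, _, h, _⟩ => h rfl)

theorem explore {mem : Finset (Finset V)} {A0 : Finset V} (hA0 : A0 ∈ mem) (hz : z ∈ A0)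
    (hmem : ∀ A ∈ mem, P.Node Mb Ok (P.J + 1) A ∧ Ch mem A0 (rho (P.J + 1)) A)
    (hbig : P.S < mem.card ∨ ∃ fnd ⊆ mem, P.b ^ (P.J + 1) ≤ fnd.card ∧ ∀ A ∈ fnd, P.Node Mb Ok 0 A) :
    ∃ q ∈ P.TT z, XX q.1 q.2 ⊆ Ok ∧ P.Lw ≤ q.2.length ∧ (XX q.1 q.2).card ≤ 1 + P.n * q.2.length ∧
      P.cost q.2 + q.2.length ≤ (XX q.1 q.2 ∩ Mb).card := by
  have target : ∀ l, P.Adm z l → l.length ≤ P.Lw + P.n → ∃ E ∈ mem, ∃ m ≤ P.J + 1,
      P.Node Mb Ok m E ∧ (E ∩ P.cln (XX z l) m).card ≤ 1 := by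
    intro l hl hlen
    have hX : (XX z l).card ≤ 1 + P.n * (P.Lw + P.n) :=
      (P.XX_card z l hl).trans (Nat.add_le_add_left (Nat.mul_le_mul_left _ hlen) 1)
    by_contra hne
    push Not at hne
    rcases hbig with h | ⟨fnd, h1, h2, h3⟩
    · have a1 : mem ⊆ P.heavy (P.cln (XX z l) (P.J + 1)) := fun A hA =>
        mem_filter.mpr ⟨(hmem A hA).1.base.1, hne A hA _ le_rfl (hmem A hA).1⟩
      have a2 := (card_le_card a1).trans ((P.heavy_card _).trans
        (Nat.pow_le_pow_left (P.cln_card hX (P.J + 1)) 2))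
      have := P.h9
      omega
    · have a1 : fnd ⊆ P.heavy (XX z l) := fun A hA =>
        mem_filter.mpr ⟨(h3 A hA).1, hne A (h1 hA) 0 (Nat.zero_le _) (h3 A hA)⟩
      have a2 := (card_le_card a1).trans ((P.heavy_card _).trans (Nat.pow_le_pow_left hX 2))
      have := P.h8
      omega
  have iter : ∀ i, ∃ l, P.Good Ok z l ∧ (l.length : ℤ) ≤ P.sur Mb z l ∧ l.length ≤ P.Lw + P.n ∧
      min i (P.Lw + 1) ≤ l.length := by
    intro i
    induction i with
    | zero => exact ⟨[], ⟨trivial, by simp⟩, by simp [sur, cost], by simp, by simp⟩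
    | succ i ih =>
      obtain ⟨l, h1, h2, h3, h4⟩ := ih
      by_cases hL : l.length ≤ P.Lw
      · obtain ⟨E, hE, m, hm, hN, hc⟩ := target l h1.1 h3
        obtain ⟨e, k1, k2, k3, k4⟩ := round hA0 hz hmem h1 hE hm hN hc
        refine ⟨e ++ l, k1, ?_, ?_, ?_⟩ <;> simp only [List.length_append] <;> omega
      · exact ⟨l, h1, h2, h3, by omega⟩
  obtain ⟨l, h1, h2, h3, h4⟩ := iter (P.Lw + 1)
  have hX : ∀ l' : List (Step V), (∀ p ∈ l', p.1 ⊆ Ok ∧ ∀ x ∈ p.1, P.δ z x ≤ P.r0) →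
      ∀ x ∈ XX z l', x ∈ Ok ∧ P.δ z x ≤ P.r0 := by
    intro l'
    induction l' with
    | nil =>
      intro _ x hx
      rw [mem_singleton.mp hx, P.δ0]
      exact ⟨(hmem A0 hA0).1.base.2 hz, Nat.zero_le _⟩
    | cons p l' ih =>
      intro h x hx
      rcases mem_union.mp hx with hx | hx
      · exact ⟨(h p (by simp)).1 hx, (h p (by simp)).2 x hx⟩
      · exact ih (fun q hq => h q (List.mem_cons_of_mem _ hq)) x hx
  refine ⟨(z, l), mem_image.mpr ⟨l, mem_filter.mpr ⟨mem_biUnion.mpr ⟨l.length - 1,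
    mem_range.mpr (by omega), (P.mem_AdmF z _ _).mpr ⟨h1.1, by omega⟩⟩,
    fun x hx => (hX l h1.2 x hx).2⟩, rfl⟩, fun x hx => (hX l h1.2 x hx).1, by simp only; omega,
    P.XX_card z l h1.1, ?_⟩
  simp only [sur] at h2 ⊢
  omega

end AD

end Pool.Agent.Lib.MP_614955_co.ADQ
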