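import Mathlib
import Pool.Agent.Lib.MP_614955_co.ADExp

set_option autoImplicit false

namespace Pool.Agent.Lib.MP_614955_co.ADQ

open Finset

/-- A room of the small board. -/
structure Room (V : Type*) where
  U : Finset V
  Uc : Finset V
  mem : Finset (Finset V)
  fnd : Finset (Finset V)
  ctr : Finset V
  rk : ℕ

variable {V : Type*} [DecidableEq V]

/-- An edge with two marked points. -/
abbrev Trm (V : Type*) := Finset V × V × V

/-- Weight of a term of a room potential. -/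
noncomputable def cw (B : Finset V) (e : Trm V → ℕ) (τ : Trm V) : ℝ :=
  if Disjoint τ.1 B then 2 ^ e τ else 0

theorem cw_nonneg (B : Finset V) (e : Trm V → ℕ) (τ : Trm V) : 0 ≤ cw B e τ := by
  unfold cw; split_ifs <;> positivity

theorem rho_mono : Monotone rho := monotone_nat_of_le_succ (fun j => by simp only [rho]; omega)

theorem rho_pos (j : ℕ) : 1 ≤ rho j := rho_mono (Nat.zero_le j)

namespace AD

variable (P : AD V)

/-- Edges with an ordered pair of distinct marked points in `U`. -/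
def terms (U : Finset V) : Finset (Trm V) :=
  (P.F ×ˢ U ×ˢ U).filter (fun τ => τ.2.1 ≠ τ.2.2 ∧ τ.2.1 ∈ τ.1 ∧ τ.2.2 ∈ τ.1)

/-- Room potential after a hypothetical move at `y`. -/
noncomputable def cpot (U B : Finset V) (e : Trm V → ℕ) (y : V) : ℝ :=
  ∑ τ ∈ P.terms U, (if y ∈ τ.1 then 2 else 1) * cw B e τ

/-- The structure of a room. -/
structure RoomOK (Mb Z : Finset V) (Dec : Finset (Finset V)) (c : Room V) : Prop where
  uc : c.Uc ⊆ c.U
  rk : c.rk ≤ P.J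
  fm : c.fnd ⊆ c.mem
  fd : c.fnd ⊆ Dec
  fc : P.b ^ c.rk ≤ c.fnd.card
  fn : ∀ A ∈ c.fnd, P.Node Mb Z 0 A
  ct : c.ctr ∈ c.mem
  mm : ∀ A ∈ c.mem, P.Node Mb Z (P.J + 1) A ∧ Ch c.mem c.ctr (rho c.rk) A
  ow : ∀ p ∈ c.U, ∃ A ∈ c.mem, A ∈ Dec ∧ p ∈ A ∧ P.Node Mb Z c.rk A
  oc : ∀ p ∈ c.Uc, ∃ k, c.rk = k + 1 ∧ ∃ A ∈ c.mem, A ∈ Dec ∧ p ∈ A ∧ P.Node Mb Z k A ∧
    Ch c.mem c.ctr (rho c.rk - 1) A
  sz : c.mem.card ≤ P.S

/-- Few points are lost outside the core of a room. -/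
def Loss (M : Finset V) (e : Trm V → ℕ) (A : Finset V) (c : Room V) : Prop :=
  (A ∩ M ∩ (c.U \ c.Uc)).card ≤ 1 ∨
    ∃ τ ∈ P.terms c.U, τ.1 = A ∧ (A ∩ M ∩ (c.U \ c.Uc)).card ≤ 1 + e τ

/-- Declared edges are protected in a room. -/
def Host (M B : Finset V) (Dec : Finset (Finset V)) (C : Finset (Room V)) (e : Trm V → ℕ) : Prop :=
  ∀ A ∈ Dec, Disjoint A B → ∃ c ∈ C, ∃ τ ∈ P.terms c.U, τ.1 = A ∧ P.t ≤ e τ + ((A ∩ c.U) \ M).card

/-- The big game as a black box. -/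
structure Big [Fintype V] where
  Pm : Finset V → Finset V → Finset V → Prop
  init : Pm univ ∅ ∅
  mono : ∀ f f' M D, Pm f M D → f' ⊆ f → Pm f' M D
  step : ∀ f M D y, Pm f M D → y ∈ f → (∀ f' ⊆ f, f'.Nonempty →
    ∃ x ∈ f', Pm f' (insert y M) (insert x D)) ∧ Pm ∅ (insert y M) D
  nowit : ∀ f M D, Pm f M D → ∀ z, ∀ q ∈ P.TT z, Disjoint (XX q.1 q.2) D → P.Lw ≤ q.2.length →
    (XX q.1 q.2).card ≤ 1 + P.n * q.2.length →
    P.cost q.2 + q.2.length ≤ (XX q.1 q.2 ∩ M).card → False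

variable {P}

theorem mem_terms {U : Finset V} {τ : Trm V} : τ ∈ P.terms U ↔
    τ.1 ∈ P.F ∧ τ.2.1 ∈ U ∧ τ.2.2 ∈ U ∧ τ.2.1 ≠ τ.2.2 ∧ τ.2.1 ∈ τ.1 ∧ τ.2.2 ∈ τ.1 := by
  simp [terms, and_assoc]

theorem terms_mono {U U' : Finset V} (h : U ⊆ U') : P.terms U ⊆ P.terms U' := by
  intro τ hτ
  rw [mem_terms] at hτ ⊢
  exact ⟨hτ.1, h hτ.2.1, h hτ.2.2.1, hτ.2.2.2⟩

theorem terms_card (U : Finset V) : (P.terms U).card ≤ U.card ^ 2 := by
  have := card_le_card_of_injOn (s := P.terms U) (t := U ×ˢ U) Prod.snd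
    (fun τ hτ => by
      have := mem_terms.mp (mem_coe.mp hτ)
      exact mem_coe.mpr (mem_product.mpr ⟨this.2.1, this.2.2.1⟩))
    (by
      rintro ⟨A, p⟩ hA ⟨B, q⟩ hB hAB
      simp only at hAB
      subst hAB
      have h1 := mem_terms.mp (mem_coe.mp hA)
      have h2 := mem_terms.mp (mem_coe.mp hB)
      exact Prod.ext (P.eq_of_two h1.1 h2.1 h1.2.2.2.1 h1.2.2.2.2.1 h1.2.2.2.2.2 h2.2.2.2.2.1
        h2.2.2.2.2.2) rfl)
  rw [card_product] at this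
  nlinarith

theorem exists_term {A U W : Finset V} (hA : A ∈ P.F) (hW : W ⊆ A) (hU : W ⊆ U)
    (h2 : 2 ≤ W.card) : ∃ τ ∈ P.terms U, τ.1 = A := by
  obtain ⟨x, hx, y, hy, hxy⟩ := one_lt_card.mp (by omega : 1 < W.card)
  exact ⟨(A, x, y), mem_terms.mpr ⟨hA, hU hx, hU hy, hxy, hW hx, hW hy⟩, rfl⟩

theorem RoomOK.mono {Mb Z Mb' Z' : Finset V} {Dec Dec' : Finset (Finset V)} {c : Room V}
    (h : P.RoomOK Mb Z Dec c) (h1 : Mb ⊆ Mb') (h2 : Z ⊆ Z') (h3 : Dec ⊆ Dec') :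
    P.RoomOK Mb' Z' Dec' c := by
  refine ⟨h.uc, h.rk, h.fm, h.fd.trans h3, h.fc, fun A hA => (h.fn A hA).mono h1 h2, h.ct,
    fun A hA => ⟨(h.mm A hA).1.mono h1 h2, (h.mm A hA).2⟩, fun p hp => ?_, fun p hp => ?_, h.sz⟩
  · obtain ⟨A, a1, a2, a3, a4⟩ := h.ow p hp
    exact ⟨A, a1, h3 a2, a3, a4.mono h1 h2⟩
  · obtain ⟨k, a0, A, a1, a2, a3, a4, a5⟩ := h.oc p hp
    exact ⟨k, a0, A, a1, h3 a2, a3, a4.mono h1 h2, a5⟩

theorem RoomOK.U_card {Mb Z : Finset V} {Dec : Finset (Finset V)} {c : Room V}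
    (h : P.RoomOK Mb Z Dec c) : c.U.card ≤ P.n * P.S := by
  have h1 : c.U ⊆ c.mem.biUnion id := fun p hp => by
    obtain ⟨A, a1, -, a3, -⟩ := h.ow p hp
    exact mem_biUnion.mpr ⟨A, a1, a3⟩
  exact (card_le_card h1).trans ((P.biUnion_card _ (fun A hA => (h.mm A hA).1.base.1)).trans
    (Nat.mul_le_mul_left _ h.sz))

theorem Host.mono {M B : Finset V} {Dec : Finset (Finset V)} {C C' : Finset (Room V)}
    {e : Trm V → ℕ} (h : P.Host M B Dec C e) (old : ∀ c ∈ C, ∃ c' ∈ C', c.U ⊆ c'.U) :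
    P.Host M B Dec C' e := by
  intro A hA ha
  obtain ⟨c, hc, τ, h1, h2, h3⟩ := h A hA ha
  obtain ⟨c', hc', h4⟩ := old c hc
  refine ⟨c', hc', τ, terms_mono h4 h1, h2, h3.trans (Nat.add_le_add_left (card_le_card ?_) _)⟩
  exact sdiff_subset_sdiff (inter_subset_inter_left h4) Subset.rfl

variable [Fintype V]

/-- The invariant of the strategy. -/
structure Inv (G : P.Big) (M B Mb Bb Z : Finset V) (Dec : Finset (Finset V)) (C : Finset (Room V))
    (e : Trm V → ℕ) : Prop where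
  dMB : Disjoint M B
  mb : Mb ⊆ M
  bb : Bb ⊆ B
  ms : ∀ x ∈ M, x ∉ Mb → ∃ c ∈ C, x ∈ c.U
  zm : Mb ⊆ Z
  zu : ∀ c ∈ C, c.U ⊆ Z
  dz : Disjoint Z Bb
  dU : ∀ c ∈ C, ∀ c' ∈ C, c ≠ c' → Disjoint c.U c'.U
  dF : ∀ c ∈ C, ∀ c' ∈ C, c ≠ c' → Disjoint c.fnd c'.fnd
  room : ∀ c ∈ C, P.RoomOK Mb Z Dec c
  e0 : ∀ τ, e τ ≠ 0 → ∃ c ∈ C, τ ∈ P.terms c.U
  e1 : ∀ τ : Trm V, Disjoint τ.1 B → e τ < P.t
  cp : ∀ c ∈ C, ∀ y, y ∉ M → y ∉ B → P.cpot c.U B e y ≤ 2 * (P.terms c.U).card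
  fr : ∀ A ∈ P.F, Disjoint A B → A ∉ Dec → P.t * (P.b * (P.J + 1)) ≤ (A \ M).card
  loss : ∀ A ∈ P.F, Disjoint A B → A ∉ Dec → ∀ c ∈ C, P.Loss M e A c
  pm : G.Pm (univ \ (M ∪ B ∪ Z)) Mb Bb

variable {G : P.Big} {M B Mb Bb Z : Finset V} {Dec : Finset (Finset V)} {C : Finset (Room V)}
  {e : Trm V → ℕ}

theorem Inv.enlarge (h : Inv G M B Mb Bb Z Dec C e) {A : Finset V} (ha : Disjoint A B) :
    Inv G M B Mb Bb (Z ∪ A) Dec C e :=
  ⟨h.dMB, h.mb, h.bb, h.ms, h.zm.trans subset_union_left,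
    fun c hc => (h.zu c hc).trans subset_union_left,
    disjoint_union_left.mpr ⟨h.dz, ha.mono_right h.bb⟩, h.dU, h.dF,
    fun c hc => (h.room c hc).mono Subset.rfl subset_union_left Subset.rfl, h.e0, h.e1, h.cp, h.fr,
    h.loss, G.mono _ _ _ _ h.pm
      (sdiff_subset_sdiff Subset.rfl (union_subset_union_right subset_union_left))⟩

theorem Inv.declare (h : Inv G M B Mb Bb Z Dec C e) (A : Finset V) :
    Inv G M B Mb Bb Z (insert A Dec) C e :=
  ⟨h.dMB, h.mb, h.bb, h.ms, h.zm, h.zu, h.dz, h.dU, h.dF,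
    fun c hc => (h.room c hc).mono Subset.rfl Subset.rfl (subset_insert _ _), h.e0, h.e1, h.cp,
    fun A' h1 h2 h3 => h.fr A' h1 h2 (fun hc => h3 (mem_insert_of_mem hc)),
    fun A' h1 h2 h3 => h.loss A' h1 h2 (fun hc => h3 (mem_insert_of_mem hc)), h.pm⟩

theorem Inv.no_big (h : Inv G M B Mb Bb Z Dec C e) {mem : Finset (Finset V)} {A0 : Finset V}
    (hA0 : A0 ∈ mem)
    (hmem : ∀ A ∈ mem, P.Node Mb Z (P.J + 1) A ∧ Ch mem A0 (rho (P.J + 1)) A)
    (hbig : P.S < mem.card ∨ ∃ fnd ⊆ mem, P.b ^ (P.J + 1) ≤ fnd.card ∧ ∀ A ∈ fnd, P.Node Mb Z 0 A) :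
    False := by
  obtain ⟨z, hz⟩ : A0.Nonempty := by
    rw [← card_pos, P.unif _ (hmem A0 hA0).1.base.1]
    have := P.h6; omega
  obtain ⟨q, hq, h1, h2, h3, h4⟩ := explore hA0 hz hmem hbig
  exact G.nowit _ _ _ h.pm z q hq (h.dz.mono_left h1) h2 h3 h4

theorem Inv.replace [DecidableEq (Room V)] (h : Inv G M B Mb Bb Z Dec C e) {D : Finset (Room V)}
    (hD : D ⊆ C) {s : Room V} {N : Finset V} (hU : s.U = D.biUnion Room.U ∪ N)
    (hN : ∀ c ∈ C, Disjoint N c.U) (hNZ : N ⊆ Z) (hF : ∀ c ∈ C, c ∉ D → Disjoint s.fnd c.fnd)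
    (hroom : P.RoomOK Mb Z Dec s)
    (hloss : ∀ A ∈ P.F, Disjoint A B → A ∉ Dec → P.Loss M e A s) :
    Inv G M B Mb Bb Z Dec (insert s (C \ D)) e ∧ ∀ c ∈ C, ∃ c' ∈ insert s (C \ D), c.U ⊆ c'.U := by
  have sub : ∀ c ∈ D, c.U ⊆ s.U := fun c hc => by
    rw [hU]; exact (subset_biUnion_of_mem Room.U hc).trans subset_union_left
  have old : ∀ c ∈ C, ∃ c' ∈ insert s (C \ D), c.U ⊆ c'.U := by
    intro c hc
    by_cases hcD : c ∈ D
    · exact ⟨s, mem_insert_self _ _, sub c hcD⟩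
    · exact ⟨c, mem_insert_of_mem (mem_sdiff.mpr ⟨hc, hcD⟩), Subset.rfl⟩
  have dsU : ∀ c ∈ C, c ∉ D → Disjoint s.U c.U := by
    intro c hc hcD
    rw [hU, disjoint_union_left, disjoint_biUnion_left]
    exact ⟨fun c' hc' => h.dU c' (hD hc') c hc (by rintro rfl; exact hcD hc'), hN c hc⟩
  refine ⟨⟨h.dMB, h.mb, h.bb, ?_, h.zm, ?_, h.dz, ?_, ?_, ?_, ?_, h.e1, ?_, h.fr, ?_, h.pm⟩, old⟩
  · intro x hx hx'
    obtain ⟨c, hc, hxc⟩ := h.ms x hx hx'
    obtain ⟨c', hc', h1⟩ := old c hc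
    exact ⟨c', hc', h1 hxc⟩
  · intro c hc
    rcases mem_insert.mp hc with rfl | hc
    · rw [hU]
      exact union_subset (biUnion_subset.mpr (fun c' hc' => h.zu c' (hD hc'))) hNZ
    · exact h.zu c (mem_sdiff.mp hc).1
  · intro c hc c' hc' hne
    rcases mem_insert.mp hc with e1 | h1 <;> rcases mem_insert.mp hc' with e2 | h2
    · exact absurd (e1.trans e2.symm) hne
    · rw [e1]; exact dsU c' (mem_sdiff.mp h2).1 (mem_sdiff.mp h2).2
    · rw [e2]; exact (dsU c (mem_sdiff.mp h1).1 (mem_sdiff.mp h1).2).symm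
    · exact h.dU c (mem_sdiff.mp h1).1 c' (mem_sdiff.mp h2).1 hne
  · intro c hc c' hc' hne
    rcases mem_insert.mp hc with e1 | h1 <;> rcases mem_insert.mp hc' with e2 | h2
    · exact absurd (e1.trans e2.symm) hne
    · rw [e1]; exact hF c' (mem_sdiff.mp h2).1 (mem_sdiff.mp h2).2
    · rw [e2]; exact (hF c (mem_sdiff.mp h1).1 (mem_sdiff.mp h1).2).symm
    · exact h.dF c (mem_sdiff.mp h1).1 c' (mem_sdiff.mp h2).1 hne
  · intro c hc
    rcases mem_insert.mp hc with rfl | hc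
    · exact hroom
    · exact h.room c (mem_sdiff.mp hc).1
  · intro τ hτ
    obtain ⟨c, hc, h1⟩ := h.e0 τ hτ
    obtain ⟨c', hc', h2⟩ := old c hc
    exact ⟨c', hc', terms_mono h2 h1⟩
  · intro c hc y hyM hyB
    rcases mem_insert.mp hc with rfl | hc
    · set f : Trm V → ℝ := fun τ => (if y ∈ τ.1 then 2 else 1) * cw B e τ - 2 with hf
      have conv : ∀ U, P.cpot U B e y ≤ 2 * (P.terms U).card ↔ ∑ τ ∈ P.terms U, f τ ≤ 0 := by
        intro U
        simp only [hf, cpot]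
        rw [sum_sub_distrib, sum_const, nsmul_eq_mul]
        constructor <;> intro <;> linarith
      rw [conv]
      have hsub : D.biUnion (fun c => P.terms c.U) ⊆ P.terms c.U :=
        biUnion_subset.mpr (fun c' hc' => terms_mono (sub c' hc'))
      rw [← sum_sdiff hsub, sum_biUnion]
      · have h1 : ∑ c ∈ D, ∑ τ ∈ P.terms c.U, f τ ≤ 0 :=
          sum_nonpos (fun c hc => (conv _).mp (h.cp c (hD hc) y hyM hyB))
        have h2 : ∑ τ ∈ P.terms c.U \ D.biUnion (fun c => P.terms c.U), f τ ≤ 0 := by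
          apply sum_nonpos
          intro τ hτ
          obtain ⟨h3, h4⟩ := mem_sdiff.mp hτ
          have h5 : e τ = 0 := by
            by_contra h5
            obtain ⟨c', hc', h6⟩ := h.e0 τ h5
            by_cases hcD : c' ∈ D
            · exact h4 (mem_biUnion.mpr ⟨c', hcD, h6⟩)
            · exact disjoint_left.mp (dsU c' hc' hcD) (mem_terms.mp h3).2.1 (mem_terms.mp h6).2.1
          simp only [hf, cw, h5]
          split_ifs <;> norm_num
        linarith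
      · intro c hc c' hc' hne
        simp only [Function.onFun]
        rw [disjoint_left]
        intro τ h1 h2
        exact disjoint_left.mp (h.dU c (hD hc) c' (hD hc') hne) (mem_terms.mp h1).2.1
          (mem_terms.mp h2).2.1
    · exact h.cp c (mem_sdiff.mp hc).1 y hyM hyB
  · intro A hA ha hm c hc
    rcases mem_insert.mp hc with rfl | hc
    · exact hloss A hA ha hm
    · exact h.loss A hA ha hm c (mem_sdiff.mp hc).1

theorem card_three (A M Mb : Finset V) (h : Mb ⊆ M) :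
    A.card = (A ∩ Mb).card + (A \ M).card + ((A ∩ M) \ Mb).card := by
  have h1 := card_sdiff_add_card_inter A M
  have h2 := card_sdiff_add_card_inter (A ∩ M) Mb
  rw [inter_assoc, inter_eq_right.mpr h] at h2
  omega

theorem Inv.nodeTop (h : Inv G M B Mb Bb Z Dec C e) {A : Finset V} (hA : A ∈ P.F) (hd : A ∉ Dec)
    (hZ : A ⊆ Z) (hr : (A \ M).card ≤ P.t * (P.b * (P.J + 1))) : P.Node Mb Z (P.J + 1) A := by
  have h1 := card_three A M Mb h.mb
  rw [P.unif A hA] at h1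
  refine ⟨hA, hZ, (A ∩ M) \ Mb, sdiff_subset.trans inter_subset_left, by omega, fun p hp => ?_⟩
  obtain ⟨c, hc, hpc⟩ := h.ms p (mem_inter.mp (mem_sdiff.mp hp).1).2 (mem_sdiff.mp hp).2
  obtain ⟨H, -, a2, a3, a4⟩ := (h.room c hc).ow p hpc
  exact ⟨H, fun e => hd (e ▸ a2), a3, a4.le (h.room c hc).rk⟩

theorem Inv.merge {A : Finset V} (hA : A ∈ P.F) (hd : A ∉ Dec) (hZ : A ⊆ Z)
    (hr : (A \ M).card ≤ P.t * (P.b * (P.J + 1))) (h : Inv G M B Mb Bb Z Dec C e) :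
    ∃ C', Inv G M B Mb Bb Z Dec C' e ∧ (∀ c ∈ C, ∃ c' ∈ C', c.U ⊆ c'.U) ∧
      ∀ j, (C'.filter (fun c => c.rk = j ∧ ¬ Disjoint A c.U)).card < P.b := by
  classical
  generalize hn : C.card = n
  induction n using Nat.strong_induction_on generalizing C with
  | _ n ih =>
    by_cases hc : ∀ j, (C.filter (fun c => c.rk = j ∧ ¬ Disjoint A c.U)).card < P.b
    · exact ⟨C, h, fun c hc => ⟨c, hc, Subset.rfl⟩, hc⟩
    push Not at hc
    obtain ⟨j, hj⟩ := hc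
    set D := C.filter (fun c => c.rk = j ∧ ¬ Disjoint A c.U) with hDdef
    have hD : D ⊆ C := filter_subset _ _
    have hDj : ∀ c ∈ D, c.rk = j ∧ ¬ Disjoint A c.U := fun c hc => (mem_filter.mp hc).2
    have b2 := P.b2
    obtain ⟨c1, hc1⟩ : D.Nonempty := card_pos.mp (by omega)
    have hjJ : j ≤ P.J := (hDj c1 hc1).1 ▸ (h.room c1 (hD hc1)).rk
    let s : Room V := ⟨D.biUnion Room.U, D.biUnion Room.U, insert A (D.biUnion Room.mem),
      D.biUnion Room.fnd, A, j + 1⟩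
    have sm : ∀ c ∈ D, c.mem ⊆ s.mem := fun c hc =>
      (subset_biUnion_of_mem Room.mem hc).trans (subset_insert _ _)
    have hch : ∀ c ∈ D, ∀ H ∈ c.mem, Ch s.mem A (rho (j + 1) - 1) H := by
      intro c hc H hH
      have r := h.room c (hD hc)
      obtain ⟨p, hp1, hp2⟩ := not_disjoint_iff.mp (hDj c hc).2
      obtain ⟨H0, a1, -, a3, -⟩ := r.ow p hp2
      have k1 : Ch s.mem A 1 H0 :=
        Ch.one (mem_insert_self _ _) (sm c hc a1) (not_disjoint_iff.mpr ⟨p, hp1, a3⟩)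
      have k2 := ((r.mm H0 a1).2.mono (sm c hc)).symm
      have k3 := (r.mm H hH).2.mono (sm c hc)
      refine ((k1.trans k2).trans k3).le ?_
      rw [(hDj c hc).1]; simp only [rho]; omega
    have hmm : ∀ H ∈ s.mem, P.Node Mb Z (P.J + 1) H ∧ Ch s.mem A (rho (j + 1)) H := by
      intro H hH
      rcases mem_insert.mp hH with rfl | hH
      · exact ⟨h.nodeTop hA hd hZ hr, Ch.le (k := 0) rfl (Nat.zero_le _)⟩
      · obtain ⟨c, hc, hH⟩ := mem_biUnion.mp hH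
        exact ⟨((h.room c (hD hc)).mm H hH).1, (hch c hc H hH).le (Nat.sub_le _ _)⟩
    have hmm' : ∀ H ∈ s.mem, P.Node Mb Z (P.J + 1) H ∧ Ch s.mem A (rho (P.J + 1)) H :=
      fun H hH => ⟨(hmm H hH).1, (hmm H hH).2.le (rho_mono (by omega))⟩
    have hfm : s.fnd ⊆ s.mem := biUnion_subset.mpr (fun c hc => (h.room c (hD hc)).fm.trans (sm c hc))
    have hfn : ∀ H ∈ s.fnd, P.Node Mb Z 0 H := fun H hH => by
      obtain ⟨c, hc, hH⟩ := mem_biUnion.mp hH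
      exact (h.room c (hD hc)).fn H hH
    have hfc : P.b ^ (j + 1) ≤ s.fnd.card := by
      have k1 : s.fnd.card = ∑ c ∈ D, c.fnd.card :=
        card_biUnion (fun c hc c' hc' hne => h.dF c (hD hc) c' (hD hc') hne)
      have k2 := card_nsmul_le_sum D (fun c => c.fnd.card) (P.b ^ j)
        (fun c hc => (hDj c hc).1 ▸ (h.room c (hD hc)).fc)
      rw [k1, pow_succ']
      exact (Nat.mul_le_mul_right _ hj).trans k2
    have hj1 : j + 1 ≤ P.J := by
      by_contra hh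
      exact h.no_big (mem_insert_self _ _) hmm'
        (Or.inr ⟨s.fnd, hfm, by rwa [← show j = P.J by omega], hfn⟩)
    have how : ∀ p ∈ D.biUnion Room.U, ∃ H ∈ s.mem, H ∈ Dec ∧ p ∈ H ∧ P.Node Mb Z j H ∧
        Ch s.mem A (rho (j + 1) - 1) H := by
      intro p hp
      obtain ⟨c, hc, hp⟩ := mem_biUnion.mp hp
      obtain ⟨H, a1, a2, a3, a4⟩ := (h.room c (hD hc)).ow p hp
      exact ⟨H, sm c hc a1, a2, a3, (hDj c hc).1 ▸ a4, hch c hc H a1⟩
    obtain ⟨h', old⟩ := h.replace hD (s := s) (N := ∅) (by simp [s]) (by simp) (by simp)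
      (fun c hc hcD => disjoint_biUnion_left _ _ _ |>.mpr
        (fun c' hc' => h.dF c' (hD hc') c hc (by rintro rfl; exact hcD hc')))
      ⟨Subset.rfl, hj1, hfm, biUnion_subset.mpr (fun c hc => (h.room c (hD hc)).fd), hfc, hfn,
        mem_insert_self _ _, hmm, fun p hp => by
          obtain ⟨H, a1, a2, a3, a4, -⟩ := how p hp
          exact ⟨H, a1, a2, a3, a4.succ⟩,
        fun p hp => ⟨j, rfl, how p hp⟩,
        not_lt.mp (fun hh => h.no_big (mem_insert_self _ _) hmm' (Or.inl hh))⟩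
      (fun A' _ _ _ => Or.inl (by simp [s]))
    obtain ⟨C', k1, k2, k3⟩ := ih _ (by
      have a1 := card_insert_le s (C \ D)
      have a2 := card_sdiff_add_card_eq_card hD
      omega) h' rfl
    refine ⟨C', k1, fun c hc => ?_, k3⟩
    obtain ⟨c', hc', a1⟩ := old c hc
    obtain ⟨c'', hc'', a2⟩ := k2 c' hc'
    exact ⟨c'', hc'', a1.trans a2⟩

end AD

end Pool.Agent.Lib.MP_614955_co.ADQ
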