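import Mathlib

set_option autoImplicit false

namespace Pool.Agent.Lib.MP_614955_co

open Finset

/-- From an invariant of positions to an explicit strategy of the second player. -/
theorem strat_of_inv {V : Type*} [Fintype V] [DecidableEq V] [Nonempty V]
    (F : Finset (Finset V)) (I : Finset V → Finset V → Prop) (h0 : I ∅ ∅)
    (hne : ∀ A ∈ F, A.Nonempty)
    (hstep : ∀ M B x, I M B → x ∉ M → x ∉ B → (∀ A ∈ F, ¬ A ⊆ insert x M) ∧
      ((∃ y, y ∉ insert x M ∧ y ∉ B) → ∃ y, y ∉ insert x M ∧ y ∉ B ∧ I (insert x M) (insert y B))) :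
    ∃ τ : List V → V, ∀ m : ℕ → V,
      (∀ k < Fintype.card V, Odd k → m k = τ (List.ofFn (fun i : Fin k => m i.val))) →
      (∀ k < Fintype.card V, Even k → ∀ i < k, m i ≠ m k) →
      (∀ k < Fintype.card V, Odd k → ∀ i < k, m i ≠ m k) ∧
      ∀ A ∈ F, ∃ k < Fintype.card V, Odd k ∧ m k ∈ A := by
  classical
  obtain ⟨v0⟩ := ‹Nonempty V›
  let σ : Finset V → Finset V → V := fun M B =>
    if h : ∃ y, y ∉ M ∧ y ∉ B ∧ I M (insert y B) then Classical.choose h else v0
  have hσ : ∀ M B, (∃ y, y ∉ M ∧ y ∉ B ∧ I M (insert y B)) →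
      σ M B ∉ M ∧ σ M B ∉ B ∧ I M (insert (σ M B) B) := by
    intro M B h
    have : σ M B = Classical.choose h := by simp only [σ]; rw [dif_pos h]
    rw [this]; exact Classical.choose_spec h
  refine ⟨fun l => σ (((range l.length).filter Even).image (fun i => l.getD i v0))
    (((range l.length).filter Odd).image (fun i => l.getD i v0)), ?_⟩
  intro m hτ hM
  set N := Fintype.card V with hN
  let Mk : ℕ → Finset V := fun k => ((range k).filter Even).image m
  let Bk : ℕ → Finset V := fun k => ((range k).filter Odd).image m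
  have hτ' : ∀ k < N, Odd k → m k = σ (Mk k) (Bk k) := by
    intro k hk ho
    rw [hτ k hk ho]
    have key : ∀ i ∈ range k, (List.ofFn (fun i : Fin k => m i.val)).getD i v0 = m i := by
      intro i hi
      have hi' : i < k := mem_range.mp hi
      rw [List.getD_eq_getElem _ _ (by simpa using hi')]
      simp
    simp only [List.length_ofFn, Mk, Bk]
    congr 1
    · exact image_congr (fun i hi => key i (mem_filter.mp hi).1)
    · exact image_congr (fun i hi => key i (mem_filter.mp hi).1)
  have hMe : ∀ k, Even k → Mk (k+1) = insert (m k) (Mk k) ∧ Bk (k+1) = Bk k := by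
    intro k hk
    have : ¬ Odd k := Nat.not_odd_iff_even.mpr hk
    simp only [Mk, Bk, range_add_one, filter_insert, if_pos hk, if_neg this, image_insert]
    simp
  have hMo : ∀ k, Odd k → Mk (k+1) = Mk k ∧ Bk (k+1) = insert (m k) (Bk k) := by
    intro k hk
    have : ¬ Even k := Nat.not_even_iff_odd.mpr hk
    simp only [Mk, Bk, range_add_one, filter_insert, if_pos hk, if_neg this, image_insert]
    simp
  have hmem : ∀ k v, (v ∉ Mk k ∧ v ∉ Bk k) ↔ ∀ i < k, m i ≠ v := by
    intro k v
    simp only [Mk, Bk, mem_image, mem_filter, mem_range, not_exists, not_and]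
    constructor
    · rintro ⟨h1, h2⟩ i hi
      rcases Nat.even_or_odd i with h | h
      · exact h1 i ⟨hi, h⟩
      · exact h2 i ⟨hi, h⟩
    · intro h
      exact ⟨fun i hi => h i hi.1, fun i hi => h i hi.1⟩
  have hfree : ∀ k < N, ∃ v, ∀ i < k, m i ≠ v := by
    intro k hk
    by_contra hcon
    push Not at hcon
    have : (univ : Finset V) ⊆ (range k).image m := by
      intro v _
      obtain ⟨i, hi, hv⟩ := hcon v
      exact mem_image.mpr ⟨i, mem_range.mpr hi, hv⟩
    have h2 := card_le_card this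
    have h3 := card_image_le (s := range k) (f := m)
    rw [card_univ, ← hN] at h2
    rw [card_range] at h3
    omega
  have main : ∀ q, 2 * q ≤ N → I (Mk (2*q)) (Bk (2*q)) ∧
      (∀ k < 2 * q, Odd k → ∀ i < k, m i ≠ m k) ∧ ∀ A ∈ F, ¬ A ⊆ Mk (2*q) := by
    intro q
    induction q with
    | zero =>
      intro _
      refine ⟨by simpa [Mk, Bk] using h0, by simp, ?_⟩
      intro A hA hsub
      obtain ⟨v, hv⟩ := hne A hA
      simpa [Mk] using hsub hv
    | succ q ih =>
      intro hq
      obtain ⟨hI, hleg, -⟩ := ih (by omega)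
      have he : Even (2*q) := even_two_mul q
      have ho : Odd (2*q+1) := odd_two_mul_add_one q
      have hx := (hmem (2*q) (m (2*q))).mpr (hM (2*q) (by omega) he)
      obtain ⟨h1, h2⟩ := hstep _ _ _ hI hx.1 hx.2
      obtain ⟨e1, e2⟩ := hMe _ he
      obtain ⟨e3, e4⟩ := hMo _ ho
      obtain ⟨v, hv⟩ := hfree (2*q+1) (by omega)
      have hv' := (hmem _ _).mpr hv
      rw [e1, e2] at hv'
      have h3 := h2 ⟨v, hv'⟩
      have h4 := hσ _ _ h3
      rw [← e1, ← e2, ← hτ' (2*q+1) (by omega) ho] at h4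
      have e5 : 2 * (q+1) = 2*q+1+1 := by ring
      rw [e5, e3, e4]
      refine ⟨h4.2.2, ?_, by rw [e1]; exact h1⟩
      intro k hk hko
      by_cases hk2 : k < 2*q
      · exact hleg k hk2 hko
      · have : k = 2*q+1 := by
          rcases hko with ⟨c, hc⟩
          omega
        subst this
        exact (hmem _ _).mp ⟨h4.1, h4.2.1⟩
  have hleg : ∀ k < N, Odd k → ∀ i < k, m i ≠ m k := by
    intro k hk ho
    obtain ⟨c, hc⟩ := ho
    exact (main (c+1) (by omega)).2.1 k (by omega) ⟨c, hc⟩
  have hfin : ∀ A ∈ F, ¬ A ⊆ Mk N := by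
    rcases Nat.even_or_odd N with ⟨c, hc⟩ | ⟨c, hc⟩
    · have := (main c (by omega)).2.2
      rwa [show 2 * c = N by omega] at this
    · obtain ⟨hI, -, -⟩ := main c (by omega)
      have he : Even (2*c) := even_two_mul c
      have hx := (hmem (2*c) (m (2*c))).mpr (hM (2*c) (by omega) he)
      have := (hstep _ _ _ hI hx.1 hx.2).1
      rw [← (hMe _ he).1, ← hc] at this
      exact this
  refine ⟨hleg, ?_⟩
  intro A hA
  obtain ⟨v, hvA, hvM⟩ := not_subset.mp (hfin A hA)
  have hinj : Set.InjOn m (range N : Finset ℕ) := by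
    intro i hi j hj hij
    have hi' : i < N := by simpa using hi
    have hj' : j < N := by simpa using hj
    by_contra hne'
    rcases lt_or_gt_of_ne hne' with h | h
    · rcases Nat.even_or_odd j with h' | h'
      · exact hM j hj' h' i h hij
      · exact hleg j hj' h' i h hij
    · rcases Nat.even_or_odd i with h' | h'
      · exact hM i hi' h' j h hij.symm
      · exact hleg i hi' h' j h hij.symm
  have huniv : (range N).image m = univ := by
    apply eq_univ_of_card
    rw [card_image_of_injOn hinj, card_range]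
  have hv : v ∈ (range N).image m := by rw [huniv]; exact mem_univ v
  obtain ⟨k, hk, rfl⟩ := mem_image.mp hv
  refine ⟨k, mem_range.mp hk, ?_, hvA⟩
  rcases Nat.even_or_odd k with h | h
  · exact absurd (mem_image.mpr ⟨k, mem_filter.mpr ⟨hk, h⟩, rfl⟩) hvM
  · exact h

/-- The one-step Erdos-Selfridge reply. -/
theorem es_reply {V ι : Type*} [DecidableEq V] (T : Finset ι) (A : ι → Finset V) (w : ι → ℝ)
    (hw : ∀ i ∈ T, 0 ≤ w i) (R : Finset V) (hR : R.Nonempty) :
    ∃ y ∈ R, ∀ z ∈ R,
      ∑ i ∈ T, (if z ∈ A i then 2 else 1) * (if y ∈ A i then 0 else w i) ≤ ∑ i ∈ T, w i := by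
  obtain ⟨y, hy, hmax⟩ := exists_max_image R (fun z => ∑ i ∈ T, if z ∈ A i then w i else 0) hR
  refine ⟨y, hy, fun z hz => ?_⟩
  have h1 := hmax z hz
  have h2 : ∑ i ∈ T, (if z ∈ A i then 2 else 1) * (if y ∈ A i then 0 else w i) ≤
      ∑ i ∈ T, (w i + (if z ∈ A i then w i else 0) - (if y ∈ A i then w i else 0)) := by
    apply sum_le_sum
    intro i hi
    have := hw i hi
    split_ifs <;> linarith
  rw [sum_sub_distrib, sum_add_distrib] at h2
  linarith

end Pool.Agent.Lib.MP_614955_co
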