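import Mathlib
import Pool.Agent.Lib.MP_614955_co.ADRoom
import Pool.Agent.Lib.MP_614955_co.Game

set_option autoImplicit false

namespace Pool.Agent.Lib.MP_614955_co.ADQ

open Finset

variable {V : Type*} [DecidableEq V]

theorem sdiff_ins (A M : Finset V) (x : V) : (A \ M).card ≤ (A \ insert x M).card + 1 := by
  rw [sdiff_insert]
  have := pred_card_le_card_erase (s := A \ M) (a := x)
  omega

theorem cw_insert (B : Finset V) (e : Trm V → ℕ) (y : V) (τ : Trm V) :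
    cw (insert y B) e τ = if y ∈ τ.1 then 0 else cw B e τ := by
  simp only [cw, disjoint_insert_right]
  by_cases h : y ∈ τ.1 <;> simp [h]

theorem alive_of {A B : Finset V} {y : V} (h : Disjoint A (insert y B)) : Disjoint A B :=
  h.mono_right (subset_insert _ _)

namespace AD

variable {P : AD V}

theorem cpot_mono (U B : Finset V) (e : Trm V → ℕ) (y z : V) :
    P.cpot U (insert y B) e z ≤ P.cpot U B e z := by
  apply sum_le_sum
  intro τ _
  rw [cw_insert]
  have := cw_nonneg B e τ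
  split_ifs <;> linarith

variable [Fintype V] {G : P.Big} {M B Mb Bb Z : Finset V} {Dec : Finset (Finset V)}
  {C : Finset (Room V)} {e : Trm V → ℕ}

theorem Inv.place (h : Inv G M B Mb Bb Z Dec C e) (hh : P.Host M B Dec C e) {A : Finset V}
    (hA : A ∈ P.F) (ha : Disjoint A B) (hd : A ∉ Dec) (hZ : A ⊆ Z)
    (hr : (A \ M).card ≤ P.t * (P.b * (P.J + 1)))
    (few : ∀ j, (C.filter (fun c => c.rk = j ∧ ¬ Disjoint A c.U)).card < P.b) :
    ∃ C', Inv G M B Mb Bb Z (insert A Dec) C' e ∧ P.Host M B (insert A Dec) C' e ∧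
      (∀ c ∈ C, ∃ c' ∈ C', c.U ⊆ c'.U) ∧ ∀ x ∈ A, x ∉ M → ∃ c ∈ C', x ∈ c.U := by
  classical
  set R := C.filter (fun c => ¬ Disjoint A c.U) with hR
  have hRc : R.card + 1 ≤ P.b * (P.J + 1) := by
    have a1 : R ⊆ (range (P.J + 1)).biUnion
        (fun j => C.filter (fun c => c.rk = j ∧ ¬ Disjoint A c.U)) := by
      intro c hc
      obtain ⟨a1, a2⟩ := mem_filter.mp hc
      exact mem_biUnion.mpr ⟨c.rk, mem_range.mpr (Nat.lt_succ_of_le (h.room c a1).rk),
        mem_filter.mpr ⟨a1, rfl, a2⟩⟩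
    have a2 := (card_le_card a1).trans (card_biUnion_le_card_mul _ _ (P.b - 1)
      (fun j _ => by have := few j; omega))
    rw [card_range] at a2
    obtain ⟨b', hb'⟩ : ∃ b', P.b = b' + 1 := ⟨P.b - 1, by have := P.b2; omega⟩
    rw [hb'] at a2 ⊢
    rw [Nat.add_sub_cancel] at a2
    nlinarith
  set Qc := (A ∩ M) ∩ C.biUnion Room.Uc with hQc
  have hn : P.n ≤ (A ∩ Mb).card + 2 * (P.t * (P.b * (P.J + 1))) + Qc.card := by
    have a1 := card_three A M Mb h.mb
    rw [P.unif A hA] at a1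
    have a2 : (A ∩ M) \ Mb ⊆ Qc ∪ R.biUnion (fun c => A ∩ M ∩ (c.U \ c.Uc)) := by
      intro x hx
      obtain ⟨b1, b2⟩ := mem_sdiff.mp hx
      obtain ⟨c, hc, hxc⟩ := h.ms x (mem_inter.mp b1).2 b2
      by_cases hu : x ∈ c.Uc
      · exact mem_union_left _ (mem_inter.mpr ⟨b1, mem_biUnion.mpr ⟨c, hc, hu⟩⟩)
      · exact mem_union_right _ (mem_biUnion.mpr ⟨c, mem_filter.mpr ⟨hc,
          not_disjoint_iff.mpr ⟨x, (mem_inter.mp b1).1, hxc⟩⟩, mem_inter.mpr ⟨b1, mem_sdiff.mpr ⟨hxc, hu⟩⟩⟩)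
    have a3 := card_biUnion_le_card_mul R (fun c => A ∩ M ∩ (c.U \ c.Uc)) P.t (fun c hc => by
      have := P.t2
      rcases h.loss A hA ha hd c (mem_filter.mp hc).1 with b | ⟨τ, -, b1, b2⟩
      · omega
      · have := h.e1 τ (b1 ▸ ha); omega)
    have a4 := (card_le_card a2).trans (card_union_le _ _)
    have a5 : R.card * P.t ≤ P.t * (P.b * (P.J + 1)) := by
      rw [mul_comm]; exact Nat.mul_le_mul_left _ (by omega)
    omega
  set N := A \ (M ∪ C.biUnion Room.U) with hN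
  have hNU : ∀ c ∈ C, Disjoint N c.U := fun c hc => disjoint_left.mpr (fun x hx hxc =>
    (mem_sdiff.mp hx).2 (mem_union_right _ (mem_biUnion.mpr ⟨c, hc, hxc⟩)))
  have hNM : ∀ x ∈ N, x ∉ M := fun x hx hxM => (mem_sdiff.mp hx).2 (mem_union_left _ hxM)
  have h1 := h.declare A
  have key : ∃ (D : Finset (Room V)) (s : Room V), D ⊆ C ∧ s.U = D.biUnion Room.U ∪ N ∧
      (∀ c ∈ C, c ∉ D → Disjoint s.fnd c.fnd) ∧ P.RoomOK Mb Z (insert A Dec) s ∧
      ∀ A' ∈ P.F, Disjoint A' B → A' ∉ insert A Dec → P.Loss M e A' s := by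
    rcases (C.filter (fun c => ¬ Disjoint (A ∩ M) c.Uc)).eq_empty_or_nonempty with he | hne
    · have a1 : Qc = ∅ := by
        rw [eq_empty_iff_forall_notMem]
        intro x hx
        obtain ⟨b1, b2⟩ := mem_inter.mp hx
        obtain ⟨c, hc, hxc⟩ := mem_biUnion.mp b2
        exact filter_eq_empty_iff.mp he hc (not_disjoint_iff.mpr ⟨x, b1, hxc⟩)
      rw [a1, card_empty, add_zero] at hn
      have n0 : P.Node Mb Z 0 A := ⟨hA, hZ, hn⟩
      refine ⟨∅, ⟨N, ∅, {A}, {A}, A, 0⟩, empty_subset _, by simp, fun c hc _ => ?_,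
        ⟨empty_subset _, Nat.zero_le _, Subset.rfl, by simp, by simp, by simpa using n0, by simp,
          ?_, fun p hp => ⟨A, by simp, by simp, (mem_sdiff.mp hp).1, n0⟩, by simp, ?_⟩, ?_⟩
      · exact disjoint_singleton_left.mpr (fun hc' => hd ((h.room c hc).fd hc'))
      · intro A' hA'
        rw [mem_singleton.mp hA']
        exact ⟨n0.le (Nat.zero_le _), Ch.le (k := 0) rfl (Nat.zero_le _)⟩
      · have a2 := P.h9
        have a3 := (card_le_card (P.sub_cln A (P.J + 1))).trans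
          (P.cln_card (Z := A) (x := 1 + P.n * (P.Lw + P.n)) (by
            rw [P.unif A hA]; nlinarith [Nat.zero_le P.Lw, Nat.le_mul_self P.n]) (P.J + 1))
        rw [P.unif A hA] at a3
        have a4 := P.h6
        simp only [card_singleton]
        exact (Nat.one_le_pow _ _ (by omega)).trans a2
      · intro A' _ _ _
        left
        rw [eq_empty_iff_forall_notMem.mpr (fun x hx =>
          hNM x (mem_sdiff.mp (mem_inter.mp hx).2).1 (mem_inter.mp (mem_inter.mp hx).1).2)]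
        simp
    · obtain ⟨c0, hc0, hmax⟩ := exists_max_image _ Room.rk hne
      obtain ⟨hc0, hm0⟩ := mem_filter.mp hc0
      have r := h.room c0 hc0
      obtain ⟨p0, hp1, hp2⟩ := not_disjoint_iff.mp hm0
      obtain ⟨k, hk, H0, a1, -, a3, -, a5⟩ := r.oc p0 hp2
      have nA : P.Node Mb Z c0.rk A := by
        rw [hk]
        refine ⟨hA, hZ, Qc, inter_subset_left.trans inter_subset_left, hn, fun p hp => ?_⟩
        obtain ⟨b1, b2⟩ := mem_inter.mp hp
        obtain ⟨c, hc, hpc⟩ := mem_biUnion.mp b2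
        obtain ⟨k', hk', H, -, c2, c3, c4, -⟩ := (h.room c hc).oc p hpc
        have := hmax c (mem_filter.mpr ⟨hc, not_disjoint_iff.mpr ⟨p, b1, hpc⟩⟩)
        exact ⟨H, fun e => hd (e ▸ c2), c3, c4.le (by omega)⟩
      have sm : c0.mem ⊆ insert A c0.mem := subset_insert _ _
      have hmm : ∀ H ∈ insert A c0.mem, P.Node Mb Z (P.J + 1) H ∧
          Ch (insert A c0.mem) c0.ctr (rho c0.rk) H := by
        intro H hH
        rcases mem_insert.mp hH with rfl | hH
        · refine ⟨nA.le (Nat.le_succ_of_le r.rk), ((a5.mono sm).trans (Ch.one (sm a1)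
            (mem_insert_self _ _) (not_disjoint_iff.mpr ⟨p0, a3, (mem_inter.mp hp1).1⟩))).le ?_⟩
          have := rho_pos c0.rk; omega
        · exact ⟨(r.mm H hH).1, (r.mm H hH).2.mono sm⟩
      refine ⟨{c0}, ⟨c0.U ∪ N, c0.Uc, insert A c0.mem, c0.fnd, c0.ctr, c0.rk⟩, by simpa using hc0,
        by simp, fun c hc hcD => h.dF c0 hc0 c hc (fun e => hcD (by simp [e])),
        ⟨r.uc.trans subset_union_left, r.rk, r.fm.trans sm, r.fd.trans (subset_insert _ _), r.fc, r.fn,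
          sm r.ct, hmm, fun p hp => ?_, fun p hp => ?_, not_lt.mp (fun hb => h.no_big (sm r.ct)
          (fun H hH => ⟨(hmm H hH).1, (hmm H hH).2.le (rho_mono (Nat.le_succ_of_le r.rk))⟩)
          (Or.inl hb))⟩, fun A' b1 b2 b3 => ?_⟩
      · rcases mem_union.mp hp with hp | hp
        · obtain ⟨H, c1, c2, c3, c4⟩ := r.ow p hp
          exact ⟨H, sm c1, mem_insert_of_mem c2, c3, c4⟩
        · exact ⟨A, mem_insert_self _ _, mem_insert_self _ _, (mem_sdiff.mp hp).1, nA⟩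
      · obtain ⟨k', hk', H, c1, c2, c3, c4, c5⟩ := r.oc p hp
        exact ⟨k', hk', H, sm c1, mem_insert_of_mem c2, c3, c4, c5.mono sm⟩
      · have e1 : A' ∩ M ∩ ((c0.U ∪ N) \ c0.Uc) = A' ∩ M ∩ (c0.U \ c0.Uc) := by
          ext x
          simp only [mem_inter, mem_sdiff, mem_union]
          exact ⟨fun ⟨d1, d2, d3⟩ => ⟨d1, d2.resolve_right (fun hx => hNM x hx d1.2), d3⟩,
            fun ⟨d1, d2, d3⟩ => ⟨d1, Or.inl d2, d3⟩⟩
        unfold Loss
        simp only [e1]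
        exact (h1.loss A' b1 b2 b3 c0 hc0).imp_right
          (fun ⟨τ, d1, d2⟩ => ⟨τ, terms_mono subset_union_left d1, d2⟩)
  obtain ⟨D, s, k1, k2, k3, k4, k5⟩ := key
  obtain ⟨h', old⟩ := h1.replace k1 k2 hNU (sdiff_subset.trans hZ) k3 k4 k5
  have hcov : ∀ x ∈ A, x ∉ M → ∃ c ∈ insert s (C \ D), c ∈ insert s R ∧ x ∈ c.U := by
    intro x hx hxM
    by_cases hxN : x ∈ N
    · exact ⟨s, mem_insert_self _ _, mem_insert_self _ _, k2 ▸ mem_union_right _ hxN⟩
    · obtain ⟨c, hc, hxc⟩ : ∃ c ∈ C, x ∈ c.U := by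
        by_contra hne
        exact hxN (mem_sdiff.mpr ⟨hx, fun hu => (mem_union.mp hu).elim hxM
          (fun hu => hne (mem_biUnion.mp hu))⟩)
      by_cases hcD : c ∈ D
      · exact ⟨s, mem_insert_self _ _, mem_insert_self _ _,
          k2 ▸ mem_union_left _ (mem_biUnion.mpr ⟨c, hcD, hxc⟩)⟩
      · exact ⟨c, mem_insert_of_mem (mem_sdiff.mpr ⟨hc, hcD⟩), mem_insert_of_mem
          (mem_filter.mpr ⟨hc, not_disjoint_iff.mpr ⟨x, hx, hxc⟩⟩), hxc⟩
  refine ⟨_, h', fun A' hA' ha' => ?_, old, fun x hx hxM => ?_⟩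
  · rcases mem_insert.mp hA' with rfl | hA'
    swap
    · exact hh.mono old A' hA' ha'
    obtain ⟨c, hc, hct⟩ : ∃ c ∈ insert s (C \ D), P.t ≤ ((A' ∩ c.U) \ M).card := by
      by_contra hne
      push Not at hne
      have a1 : A' \ M ⊆ ((insert s (C \ D)) ∩ insert s R).biUnion (fun c => (A' ∩ c.U) \ M) := by
        intro x hx
        obtain ⟨b1, b2⟩ := mem_sdiff.mp hx
        obtain ⟨c, c1, c2, c3⟩ := hcov x b1 b2
        exact mem_biUnion.mpr ⟨c, mem_inter.mpr ⟨c1, c2⟩, mem_sdiff.mpr ⟨mem_inter.mpr ⟨b1, c3⟩, b2⟩⟩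
      have a2 := (card_le_card a1).trans (card_biUnion_le_card_mul _ _ (P.t - 1)
        (fun c hc => by have := hne c (mem_inter.mp hc).1; omega))
      have a3 := (card_le_card (inter_subset_right (s₁ := insert s (C \ D)) (s₂ := insert s R))).trans
        ((card_insert_le s R).trans hRc)
      have a4 := (h.fr A' hA ha hd).trans (a2.trans (Nat.mul_le_mul_right _ a3))
      obtain ⟨t', ht'⟩ : ∃ t', P.t = t' + 1 := ⟨P.t - 1, by have := P.t2; omega⟩
      rw [ht', Nat.add_sub_cancel] at a4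
      nlinarith
    obtain ⟨τ, a1, a2⟩ := exists_term hA (W := (A' ∩ c.U) \ M) (U := c.U)
      (sdiff_subset.trans inter_subset_left) (sdiff_subset.trans inter_subset_right) (P.t2.trans hct)
    exact ⟨c, hc, τ, a1, a2, by omega⟩
  · obtain ⟨c, c1, -, c3⟩ := hcov x hx hxM
    exact ⟨c, c1, c3⟩

/-- The complete invariant. -/
def Full (G : P.Big) (M B : Finset V) : Prop :=
  ∃ Mb Bb Z Dec C e, Inv G M B Mb Bb Z Dec C e ∧ P.Host M B Dec C e ∧
    ∀ x ∈ Z, x ∉ Mb → ∃ c ∈ C, x ∈ c.U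

theorem Inv.settle (h : Inv G M B Mb Bb Z Dec C e) (hh : P.Host M B Dec C e)
    (hz : ∀ x ∈ Z, x ∉ Mb → ∃ c ∈ C, x ∈ c.U) :
    ∃ Z Dec C, Inv G M B Mb Bb Z Dec C e ∧ P.Host M B Dec C e ∧
      (∀ x ∈ Z, x ∉ Mb → ∃ c ∈ C, x ∈ c.U) ∧
      ∀ A ∈ P.F, Disjoint A B → A ∉ Dec → P.t * (P.b * (P.J + 1)) < (A \ M).card := by
  generalize hn : (P.F \ Dec).card = n
  induction n using Nat.strong_induction_on generalizing Z Dec C with
  | _ n ih =>
    by_cases hc : ∀ A ∈ P.F, Disjoint A B → A ∉ Dec → P.t * (P.b * (P.J + 1)) < (A \ M).card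
    · exact ⟨Z, Dec, C, h, hh, hz, hc⟩
    push Not at hc
    obtain ⟨A, hA, ha, hd, hr⟩ := hc
    obtain ⟨C1, h1, old1, few⟩ := (h.enlarge ha).merge hA hd subset_union_right hr
    obtain ⟨C2, h2, hh2, old2, hcov⟩ := h1.place (hh.mono old1) hA ha hd subset_union_right hr few
    refine ih _ ?_ h2 hh2 (fun x hx hxb => ?_) rfl
    · rw [← hn, sdiff_insert]
      exact card_erase_lt_of_mem (mem_sdiff.mpr ⟨hA, hd⟩)
    · by_cases hxM : x ∈ M
      · exact h2.ms x hxM hxb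
      rcases mem_union.mp hx with hx | hx
      · obtain ⟨c, hc, hxc⟩ := hz x hx hxb
        obtain ⟨c1, hc1, a1⟩ := old1 c hc
        obtain ⟨c2, hc2, a2⟩ := old2 c1 hc1
        exact ⟨c2, hc2, a2 (a1 hxc)⟩
      · exact hcov x hx hxM

theorem Inv.term_bound (h : Inv G M B Mb Bb Z Dec C e) {c : Room V} (hc : c ∈ C) {y : V}
    (hM : y ∉ M) (hB : y ∉ B) {τ : Trm V} (hτ : τ ∈ P.terms c.U) (ha : Disjoint τ.1 B)
    (hy : y ∈ τ.1) : e τ + 1 < P.t := by
  have h1 := h.cp c hc y hM hB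
  have h2 : (if y ∈ τ.1 then 2 else 1) * cw B e τ ≤ P.cpot c.U B e y :=
    single_le_sum (f := fun τ => (if y ∈ τ.1 then (2 : ℝ) else 1) * cw B e τ)
      (fun τ _ => by have := cw_nonneg B e τ; split_ifs <;> positivity) hτ
  rw [if_pos hy, cw, if_pos ha] at h2
  have h3 := terms_card (P := P) c.U
  have h4 := Nat.pow_le_pow_left (h.room c hc).U_card 2
  have h5 := P.h10
  have h6 : (2 : ℝ) * 2 ^ e τ ≤ 2 * (P.terms c.U).card := h2.trans h1
  have h7 : 2 * 2 ^ e τ ≤ 2 * (P.terms c.U).card := by exact_mod_cast h6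
  have h8 : 2 ^ (e τ + 1) < 2 ^ P.t := by rw [pow_succ]; omega
  exact (Nat.pow_lt_pow_iff_right (by norm_num)).mp h8

theorem Inv.safe (h : Inv G M B Mb Bb Z Dec C e) (hh : P.Host M B Dec C e) {x : V} (hM : x ∉ M)
    (hB : x ∉ B) : ∀ A ∈ P.F, ¬ A ⊆ insert x M := by
  intro A hA hsub
  have ha : Disjoint A B := by
    refine Disjoint.mono_left hsub ?_
    rw [disjoint_insert_left]
    exact ⟨hB, h.dMB⟩
  have h1 : A \ M ⊆ {x} := by
    intro v hv
    obtain ⟨h1, h2⟩ := mem_sdiff.mp hv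
    exact mem_singleton.mpr ((mem_insert.mp (hsub h1)).resolve_right h2)
  have h2 := card_le_card h1
  rw [card_singleton] at h2
  by_cases hm : A ∈ Dec
  · obtain ⟨c, hc, τ, hτ, rfl, h3⟩ := hh A hm ha
    have h4 := h.e1 τ ha
    have h5 : (τ.1 ∩ c.U) \ M ⊆ τ.1 \ M := sdiff_subset_sdiff inter_subset_left Subset.rfl
    have h6 := card_le_card h5
    obtain ⟨v, hv⟩ := card_pos.mp (by omega : 0 < (τ.1 \ M).card)
    have h5 := mem_singleton.mp (h1 hv)
    subst h5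
    have := h.term_bound hc hM hB hτ ha (mem_sdiff.mp hv).1
    omega
  · have h3 := h.fr A hA ha hm
    have h4 := P.t2
    have h5 := P.b2
    have : 2 * (2 * 1) ≤ P.t * (P.b * (P.J + 1)) :=
      Nat.mul_le_mul h4 (Nat.mul_le_mul h5 (by omega))
    omega

theorem Inv.big (h : Inv G M B Mb Bb Z Dec C e) (hh : P.Host M B Dec C e)
    (hz : ∀ x ∈ Z, x ∉ Mb → ∃ c ∈ C, x ∈ c.U)
    (hs : ∀ A ∈ P.F, Disjoint A B → A ∉ Dec → P.t * (P.b * (P.J + 1)) < (A \ M).card) {x : V}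
    (hxM : x ∉ M) (hxB : x ∉ B) (hxU : ∀ c ∈ C, x ∉ c.U) (hy : ∃ y, y ∉ insert x M ∧ y ∉ B) :
    ∃ y, y ∉ insert x M ∧ y ∉ B ∧ Full G (insert x M) (insert y B) := by
  have hxZ : x ∉ Z := fun hx => by
    obtain ⟨c, hc, hxc⟩ := hz x hx (fun hb => hxM (h.mb hb))
    exact hxU c hc hxc
  obtain ⟨q1, q2⟩ := G.step _ _ _ x h.pm (by simp [hxM, hxB, hxZ])
  obtain ⟨y, Bb', y1, y2, y3, y4, y5⟩ : ∃ y Bb', y ∉ insert x M ∧ y ∉ B ∧ Bb' ⊆ insert y B ∧
      Disjoint (insert x Z) Bb' ∧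
      G.Pm (univ \ (insert x M ∪ insert y B ∪ insert x Z)) (insert x Mb) Bb' := by
    have hd : Disjoint (insert x Z) Bb := disjoint_insert_left.mpr ⟨fun hb => hxB (h.bb hb), h.dz⟩
    have hsub : ∀ y, univ \ (insert x M ∪ insert y B ∪ insert x Z) ⊆
        univ \ (insert x M ∪ B ∪ insert x Z) := fun y => sdiff_subset_sdiff Subset.rfl
      (union_subset_union_left (union_subset_union_right (subset_insert _ _)))
    rcases (univ \ (insert x M ∪ B ∪ insert x Z)).eq_empty_or_nonempty with he | hne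
    · obtain ⟨y, y1, y2⟩ := hy
      exact ⟨y, Bb, y1, y2, h.bb.trans (subset_insert _ _), hd, G.mono _ _ _ _ q2 (he ▸ hsub y)⟩
    · obtain ⟨y, y1, y2⟩ := q1 _ (sdiff_subset_sdiff Subset.rfl (union_subset_union
        (union_subset_union_left (subset_insert _ _)) (subset_insert _ _))) hne
      have y3 := (mem_sdiff.mp y1).2
      rw [mem_union, mem_union, not_or, not_or] at y3
      exact ⟨y, insert y Bb, y3.1.1, y3.1.2, insert_subset_insert _ h.bb,
        disjoint_insert_right.mpr ⟨y3.2, hd⟩, G.mono _ _ _ _ y2 (hsub y)⟩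
  refine ⟨y, y1, y2, insert x Mb, Bb', insert x Z, Dec, C, e, ⟨?_, insert_subset_insert _ h.mb, y3, ?_,
    insert_subset_insert _ h.zm, fun c hc => (h.zu c hc).trans (subset_insert _ _), y4, h.dU, h.dF,
    fun c hc => (h.room c hc).mono (subset_insert _ _) (subset_insert _ _) Subset.rfl, h.e0,
    fun τ ha => h.e1 τ (alive_of ha), ?_, ?_, ?_, y5⟩, ?_, ?_⟩
  · rw [disjoint_insert_right, disjoint_insert_left]
    exact ⟨y1, hxB, h.dMB⟩
  · intro v hv hv'
    rw [mem_insert, not_or] at hv'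
    exact h.ms v ((mem_insert.mp hv).resolve_left hv'.1) hv'.2
  · exact fun c hc z z1 z2 => (cpot_mono _ _ _ _ _).trans
      (h.cp c hc z (fun hh => z1 (mem_insert_of_mem hh)) (fun hh => z2 (mem_insert_of_mem hh)))
  · intro A hA ha hm
    have := hs A hA (alive_of ha) hm
    have := sdiff_ins A M x
    omega
  · intro A hA ha hm c hc
    have e1 : A ∩ insert x M ∩ (c.U \ c.Uc) = A ∩ M ∩ (c.U \ c.Uc) := by
      rw [inter_assoc, insert_inter_of_notMem (fun hx => hxU c hc (mem_sdiff.mp hx).1), inter_assoc]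
    unfold Loss
    rw [e1]
    exact h.loss A hA (alive_of ha) hm c hc
  · intro A hA ha
    obtain ⟨c, hc, τ, a1, a2, a3⟩ := hh A hA (alive_of ha)
    refine ⟨c, hc, τ, a1, a2, ?_⟩
    rwa [sdiff_insert_of_notMem (fun hx => hxU c hc (mem_inter.mp hx).2)]
  · intro v hv hv'
    rw [mem_insert, not_or] at hv'
    exact hz v ((mem_insert.mp hv).resolve_left hv'.1) hv'.2

theorem Inv.small (h : Inv G M B Mb Bb Z Dec C e) (hh : P.Host M B Dec C e)
    (hz : ∀ x ∈ Z, x ∉ Mb → ∃ c ∈ C, x ∈ c.U)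
    (hs : ∀ A ∈ P.F, Disjoint A B → A ∉ Dec → P.t * (P.b * (P.J + 1)) < (A \ M).card) {x : V}
    (hxM : x ∉ M) (hxB : x ∉ B) {c0 : Room V} (hc0 : c0 ∈ C) (hx0 : x ∈ c0.U)
    (hy : ∃ y, y ∉ insert x M ∧ y ∉ B) :
    ∃ y, y ∉ insert x M ∧ y ∉ B ∧ Full G (insert x M) (insert y B) := by
  let e' : Trm V → ℕ := fun τ => if τ ∈ P.terms c0.U ∧ x ∈ τ.1 then e τ + 1 else e τ
  have he1 : ∀ τ, e τ ≤ e' τ := by
    intro τ; simp only [e']; split_ifs <;> omega
  have he2 : ∀ τ ∈ P.terms c0.U, x ∈ τ.1 → e' τ = e τ + 1 := by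
    intro τ h1 h2; simp only [e']; rw [if_pos ⟨h1, h2⟩]
  have he3 : ∀ τ, ¬ (τ ∈ P.terms c0.U ∧ x ∈ τ.1) → e' τ = e τ := by
    intro τ h1; simp only [e']; rw [if_neg h1]
  have huniq : ∀ c ∈ C, x ∈ c.U → c = c0 := by
    intro c hc hxc
    by_contra hne
    exact disjoint_left.mp (h.dU c hc c0 hc0 hne) hxc hx0
  have k1 : ∑ τ ∈ P.terms c0.U, cw B e' τ ≤ 2 * (P.terms c0.U).card := by
    refine le_trans (le_of_eq ?_) (h.cp c0 hc0 x hxM hxB)
    apply sum_congr rfl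
    intro τ hτ
    by_cases h1 : x ∈ τ.1
    · simp only [cw, he2 τ hτ h1, if_pos h1, pow_succ]
      split_ifs <;> ring
    · simp only [cw, he3 τ (fun hh => h1 hh.2), if_neg h1, one_mul]
  set R := (univ : Finset V).filter (fun z => z ∉ insert x M ∧ z ∉ B) with hR
  have mR : ∀ z, z ∈ R ↔ z ∉ insert x M ∧ z ∉ B := by
    intro z; rw [hR, mem_filter]; simp only [mem_univ, true_and]
  have hRn : R.Nonempty := by
    obtain ⟨y, hy⟩ := hy
    exact ⟨y, (mR y).mpr hy⟩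
  obtain ⟨y, hy, hES⟩ := es_reply (P.terms c0.U) (fun τ => τ.1) (cw B e')
    (fun τ _ => cw_nonneg _ _ _) R hRn
  obtain ⟨y1, y2⟩ := (mR y).mp hy
  refine ⟨y, y1, y2, Mb, Bb, Z, Dec, C, e', ⟨?_, h.mb.trans (subset_insert _ _),
    h.bb.trans (subset_insert _ _), ?_, h.zm, h.zu, h.dz, h.dU, h.dF, h.room, ?_, ?_, ?_, ?_, ?_,
    G.mono _ _ _ _ h.pm (sdiff_subset_sdiff Subset.rfl (union_subset_union_left
      (union_subset_union (subset_insert _ _) (subset_insert _ _))))⟩, ?_, hz⟩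
  · rw [disjoint_insert_right, disjoint_insert_left]
    exact ⟨y1, hxB, h.dMB⟩
  · intro v hv hv'
    rcases mem_insert.mp hv with rfl | hv
    · exact ⟨c0, hc0, hx0⟩
    · exact h.ms v hv hv'
  · intro τ hτ
    by_cases h1 : τ ∈ P.terms c0.U ∧ x ∈ τ.1
    · exact ⟨c0, hc0, h1.1⟩
    · rw [he3 τ h1] at hτ
      exact h.e0 τ hτ
  · intro τ ha
    by_cases h1 : τ ∈ P.terms c0.U ∧ x ∈ τ.1
    · rw [he2 τ h1.1 h1.2]
      exact h.term_bound hc0 hxM hxB h1.1 (alive_of ha) h1.2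
    · rw [he3 τ h1]
      exact h.e1 τ (alive_of ha)
  · intro c hc z z1 z2
    by_cases hcc : c = c0
    · subst hcc
      have hz : z ∈ R := (mR z).mpr ⟨z1, fun hh => z2 (mem_insert_of_mem hh)⟩
      refine le_trans ?_ ((hES z hz).trans k1)
      simp only [cpot, cw_insert]
      exact le_rfl
    · refine (cpot_mono _ _ _ _ _).trans (le_trans (le_of_eq ?_)
        (h.cp c hc z (fun hh => z1 (mem_insert_of_mem hh)) (fun hh => z2 (mem_insert_of_mem hh))))
      apply sum_congr rfl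
      intro τ hτ
      have : e' τ = e τ := he3 τ (fun hh => disjoint_left.mp (h.dU c hc c0 hc0 hcc)
        (mem_terms.mp hτ).2.1 (mem_terms.mp hh.1).2.1)
      simp only [cw, this]
  · intro A hA ha hm
    have := hs A hA (alive_of ha) hm
    have := sdiff_ins A M x
    omega
  · intro A hA ha hm c hc
    have k0 := h.loss A hA (alive_of ha) hm c hc
    unfold Loss at k0 ⊢
    by_cases hxA : x ∈ A ∧ x ∈ c.U \ c.Uc
    · have := huniq c hc (mem_sdiff.mp hxA.2).1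
      subst this
      have k2 : (A ∩ insert x M ∩ (c.U \ c.Uc)).card ≤ (A ∩ M ∩ (c.U \ c.Uc)).card + 1 := by
        rw [inter_insert_of_mem hxA.1, insert_inter_of_mem hxA.2]; exact card_insert_le _ _
      by_cases k3 : (A ∩ insert x M ∩ (c.U \ c.Uc)).card ≤ 1
      · exact Or.inl k3
      right
      rcases k0 with k0 | ⟨τ, k4, k5, k6⟩
      · obtain ⟨τ, k7, k8⟩ := exists_term hA (W := A ∩ insert x M ∩ (c.U \ c.Uc)) (U := c.U)
          (inter_subset_left.trans inter_subset_left) (inter_subset_right.trans sdiff_subset) (by omega)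
        refine ⟨τ, k7, k8, ?_⟩
        rw [he2 τ k7 (by rw [k8]; exact hxA.1)]
        omega
      · refine ⟨τ, k4, k5, ?_⟩
        rw [he2 τ k4 (by rw [k5]; exact hxA.1)]
        omega
    · have k2 : A ∩ insert x M ∩ (c.U \ c.Uc) = A ∩ M ∩ (c.U \ c.Uc) := by
        ext v
        simp only [mem_inter, mem_insert]
        constructor
        · rintro ⟨⟨a, rfl | b⟩, c⟩
          · exact absurd ⟨a, c⟩ hxA
          · exact ⟨⟨a, b⟩, c⟩
        · rintro ⟨⟨a, b⟩, c⟩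
          exact ⟨⟨a, Or.inr b⟩, c⟩
      rw [k2]
      exact k0.imp_right (fun ⟨τ, k4, k5, k6⟩ => ⟨τ, k4, k5, by have := he1 τ; omega⟩)
  · intro A hA ha
    obtain ⟨c, hc, τ, k2, k3, k4⟩ := hh A hA (alive_of ha)
    refine ⟨c, hc, τ, k2, k3, ?_⟩
    by_cases hxA : x ∈ A ∩ c.U
    · have := huniq c hc (mem_inter.mp hxA).2
      subst this
      rw [he2 τ k2 (by rw [k3]; exact (mem_inter.mp hxA).1)]
      have := sdiff_ins (A ∩ c.U) M x
      omega
    · rw [sdiff_insert_of_notMem hxA]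
      have := he1 τ
      omega

theorem strong_draw [Nonempty V] (G : P.Big) :
    ∃ τ : List V → V, ∀ m : ℕ → V,
      (∀ k < Fintype.card V, Odd k → m k = τ (List.ofFn (fun i : Fin k => m i.val))) →
      (∀ k < Fintype.card V, Even k → ∀ i < k, m i ≠ m k) →
      (∀ k < Fintype.card V, Odd k → ∀ i < k, m i ≠ m k) ∧
      ∀ A ∈ P.F, ∃ k < Fintype.card V, Odd k ∧ m k ∈ A := by
  refine strat_of_inv P.F (Full G) ⟨∅, ∅, ∅, ∅, ∅, fun _ => 0, ⟨by simp, by simp, by simp, by simp,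
    by simp, by simp, by simp, by simp, by simp, by simp, by simp,
    fun _ _ => by have := P.t2; omega, by simp, fun A hA _ _ => ?_, by simp,
    by simpa using G.init⟩, by simp [Host], by simp⟩
    (fun A hA => by rw [← card_pos, P.unif A hA]; have := P.h6; omega) ?_
  · rw [sdiff_empty, P.unif A hA]; have := P.h2; omega
  rintro M B x ⟨Mb, Bb, Z, Dec, C, e, h, hh, hz⟩ hM hB
  refine ⟨h.safe hh hM hB, fun hy => ?_⟩
  obtain ⟨Z, Dec, C, h, hh, hz, hs⟩ := h.settle hh hz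
  by_cases hx : ∃ c ∈ C, x ∈ c.U
  · obtain ⟨c, hc, hxc⟩ := hx
    exact h.small hh hz hs hM hB hc hxc hy
  · push Not at hx
    exact h.big hh hz hs hM hB hx hy

end AD

end Pool.Agent.Lib.MP_614955_co.ADQ
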