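import Mathlib

set_option autoImplicit false

namespace Pool.Agent.Lib.MP_614955_co.Mach

open Finset Real

/-- A board with a pseudo distance of bounded growth, and the constants of the machine. -/
structure Geo (V : Type*) [Fintype V] where
  d : V → V → ℕ
  L : ℝ
  η : ℝ
  r0 : ℕ
  r1 : ℕ
  K : ℕ
  Q : ℕ
  d_self : ∀ a, d a a = 0
  d_symm : ∀ a b, d a b = d b a
  d_tri : ∀ a b c, d a c ≤ d a b + d b c
  L1 : 1 ≤ L
  grow : ∀ a (r : ℕ), 1 ≤ r → ((univ.filter (fun b => d a b ≤ r)).card : ℝ) ≤ exp (L * r)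
  η0 : 0 < η
  η1 : η ≤ 1 / 4
  r1pos : 1 ≤ r1
  hr : 4000 * (r0 : ℝ) ≤ η * r1
  K1 : 1 ≤ K
  top : ∀ a b, d a b ≤ r1 * 10 ^ (K - 1)
  hQ : 100 * ((K : ℝ) * Fintype.card V) ≤ η * Q
  Q1 : 1 ≤ Q

/-- The hidden state of the machine. -/
structure St (V : Type*) where
  v : ℕ → V → ℝ
  s : ℕ → V → ℝ
  C : ℕ → Finset V
  ρ : ℕ → V → V → ℝ
  g : ℕ → V → ℕ → ℝ

variable {V : Type*} [Fintype V] [LinearOrder V]

namespace Geo

variable (G : Geo V)

/-- Support radius of the terms of level `k`. -/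
def r : ℕ → ℕ
  | 0 => G.r0
  | k + 1 => G.r1 * 10 ^ k

/-- Radius of the tuples of level `k`. -/
def R (k : ℕ) : ℕ := if k = 0 then 0 else 9 * G.r k

/-- Bound for the sensitivities of level `k`. -/
noncomputable def θ (k : ℕ) : ℝ := G.η / 20000 / 2 ^ k

/-- Balls. -/
def ball (a : V) (r : ℕ) : Finset V := univ.filter (fun b => G.d a b ≤ r)

/-- Well separated tuples. -/
def Tup (k : ℕ) (w : V) : Finset (Finset V) :=
  (powersetCard (if k = 0 then 1 else 100) (G.ball w (G.R k))).filter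
    (fun τ => ∀ a ∈ τ, ∀ b ∈ τ, a ≠ b → 2 * G.r k < G.d a b)

/-- Logarithmic volume scale of the games of level `k`. -/
noncomputable def lam (k : ℕ) : ℝ := G.L * G.r (k + 1)

/-- Shift of the records of level `k`. -/
noncomputable def nn (k : ℕ) : ℝ := 2 + 99 * (5 * G.lam k + 1)

/-- Weight of a tuple. -/
noncomputable def wt (σ : St V) (k : ℕ) (τ : Finset V) : ℝ :=
  exp (1 / 2 * ∑ T ∈ τ, (σ.v k T + G.nn k))

/-- The term of level `k + 1`. -/
noncomputable def U (σ : St V) (k : ℕ) (w : V) : ℝ := ∑ τ ∈ G.Tup k w, G.wt σ k τ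

/-- Sensitivities of all levels. -/
noncomputable def sens (σ : St V) (u : V → V → ℝ) : ℕ → V → V → ℝ
  | 0 => u
  | k + 1 => fun w p => if w ∈ σ.C k then 0 else
      1 / 2 * (∑ τ ∈ G.Tup k w, G.wt σ k τ * ∑ T ∈ τ, sens σ u k T p) / σ.s k w

/-- Admissible sensitivities of level `k`. -/
def Adm (k : ℕ) (u : V → V → ℝ) : Prop :=
  ∀ T p, 0 ≤ u T p ∧ u T p ≤ G.θ k ∧ (u T p ≠ 0 → G.d T p ≤ G.r k)

theorem mem_ball {a b : V} {r : ℕ} : b ∈ G.ball a r ↔ G.d a b ≤ r := by simp [ball]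

theorem r0_le : G.r0 ≤ G.r1 := by
  have h1 := G.hr
  have h2 := G.η1
  have h3 : (0 : ℝ) ≤ G.r1 := by positivity
  have : (G.r0 : ℝ) ≤ G.r1 := by nlinarith
  exact_mod_cast this

theorem r_succ_pos (k : ℕ) : 1 ≤ G.r (k + 1) := by
  have := G.r1pos
  simp only [r]
  exact Nat.mul_pos this (by positivity)

theorem r_succ (k : ℕ) : G.r (k + 2) = 10 * G.r (k + 1) := by simp only [r]; ring

theorem r_le_succ (k : ℕ) : G.r k ≤ G.r (k + 1) := by
  cases k with
  | zero => simpa [r] using G.r0_le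
  | succ k => rw [r_succ]; omega

theorem r_mono : Monotone G.r := monotone_nat_of_le_succ G.r_le_succ

theorem r_add_R (k : ℕ) : G.r k + G.R k ≤ G.r (k + 1) := by
  cases k with
  | zero => simpa [r, R] using G.r0_le
  | succ k => rw [r_succ]; simp [R]; omega

theorem top' (a b : V) : G.d a b ≤ G.r G.K := by
  obtain ⟨k, hk⟩ : ∃ k, G.K = k + 1 := ⟨G.K - 1, by have := G.K1; omega⟩
  have := G.top a b
  rw [hk] at this ⊢
  simpa [r] using this

theorem θ_pos (k : ℕ) : 0 < G.θ k := by unfold θ; have := G.η0; positivity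

theorem θ_succ (k : ℕ) : G.θ (k + 1) = G.θ k / 2 := by unfold θ; rw [pow_succ]; field_simp

theorem θ_le (k : ℕ) : G.θ k ≤ G.θ 0 := by
  induction k with
  | zero => exact le_rfl
  | succ k ih => rw [θ_succ]; have := G.θ_pos k; linarith

theorem θ_zero : G.θ 0 = G.η / 20000 := by simp [θ]

theorem θ_small (k : ℕ) : G.θ k ≤ 1 / 80000 := by
  have := G.θ_le k; rw [θ_zero] at this; have := G.η1; linarith

theorem sum_θ (k : ℕ) : ∑ i ∈ range k, G.θ i = 2 * G.θ 0 - 2 * G.θ k := by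
  induction k with
  | zero => simp
  | succ k ih => rw [sum_range_succ, ih, θ_succ]; ring

theorem lam_one (k : ℕ) : 1 ≤ G.lam k := by
  have h1 : (1 : ℝ) ≤ G.r (k + 1) := by exact_mod_cast G.r_succ_pos k
  have := G.L1
  unfold lam; nlinarith

theorem wt_pos (σ : St V) (k : ℕ) (τ : Finset V) : 0 < G.wt σ k τ := exp_pos _

theorem U_nonneg (σ : St V) (k : ℕ) (w : V) : 0 ≤ G.U σ k w :=
  sum_nonneg (fun τ _ => (G.wt_pos σ k τ).le)

theorem tup_sum {k : ℕ} {u : V → V → ℝ} (hu : G.Adm k u) {w : V} {τ : Finset V}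
    (hτ : τ ∈ G.Tup k w) (p : V) : 0 ≤ ∑ T ∈ τ, u T p ∧ ∑ T ∈ τ, u T p ≤ G.θ k ∧
      (∑ T ∈ τ, u T p ≠ 0 → G.d w p ≤ G.r (k + 1)) := by
  obtain ⟨h1, h2⟩ := mem_filter.mp hτ
  have h3 := (mem_powersetCard.mp h1).1
  refine ⟨sum_nonneg (fun T _ => (hu T p).1), ?_, fun h => ?_⟩
  · by_cases h : ∃ T ∈ τ, u T p ≠ 0
    · obtain ⟨T, hT, hne⟩ := h
      rw [sum_eq_single_of_mem T hT]
      · exact (hu T p).2.1
      · intro T' hT' hTT
        by_contra hne'
        have a1 := (hu T p).2.2 hne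
        have a2 := (hu T' p).2.2 hne'
        have a3 := h2 T' hT' T hT hTT
        have a4 := G.d_tri T' p T
        rw [G.d_symm p T] at a4
        omega
    · push Not at h
      rw [sum_eq_zero h]; exact (G.θ_pos k).le
  · obtain ⟨T, hT, hne⟩ := exists_ne_zero_of_sum_ne_zero h
    have a1 := (hu T p).2.2 hne
    have a2 := G.mem_ball.mp (h3 hT)
    have a3 := G.d_tri w T p
    have := G.r_add_R k
    omega

/-- The running maxima dominate the terms. -/
def Dom (σ : St V) : Prop := ∀ k < G.K, ∀ w, 0 < σ.s k w ∧ G.U σ k w ≤ σ.s k w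

theorem sens_adm {σ : St V} (hσ : G.Dom σ) {u : V → V → ℝ} (hu : G.Adm 0 u) :
    ∀ k ≤ G.K, G.Adm k (G.sens σ u k) := by
  intro k
  induction k with
  | zero => intro _; exact hu
  | succ k ih =>
    intro hk w p
    have ih' := ih (by omega)
    obtain ⟨s0, s1⟩ := hσ k (by omega) w
    simp only [sens]
    split_ifs with hw
    · exact ⟨le_rfl, (G.θ_pos _).le, fun h => absurd rfl h⟩
    have h0 : 0 ≤ ∑ τ ∈ G.Tup k w, G.wt σ k τ * ∑ T ∈ τ, G.sens σ u k T p :=
      sum_nonneg (fun τ hτ => mul_nonneg (G.wt_pos σ k τ).le (G.tup_sum ih' hτ p).1)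
    refine ⟨by positivity, ?_, fun h => ?_⟩
    · have h1 : ∑ τ ∈ G.Tup k w, G.wt σ k τ * ∑ T ∈ τ, G.sens σ u k T p ≤ G.U σ k w * G.θ k := by
        unfold U
        rw [sum_mul]
        exact sum_le_sum (fun τ hτ =>
          mul_le_mul_of_nonneg_left (G.tup_sum ih' hτ p).2.1 (G.wt_pos σ k τ).le)
      rw [div_le_iff₀ s0, θ_succ]
      have := G.θ_pos k
      nlinarith
    · have h1 : ∑ τ ∈ G.Tup k w, G.wt σ k τ * ∑ T ∈ τ, G.sens σ u k T p ≠ 0 := by
        intro h0; apply h; rw [h0]; simp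
      obtain ⟨τ, hτ, hne⟩ := exists_ne_zero_of_sum_ne_zero h1
      exact (G.tup_sum ih' hτ p).2.2 (right_ne_zero_of_mul hne)

/-- Linear comparison of sensitivities. -/
theorem sens_le_add {σ : St V} (hσ : G.Dom σ) {u u' : V → V → ℝ} {p y : V} {c : ℝ}
    (h : ∀ T, u' T p ≤ u T p + c * u T y) :
    ∀ k ≤ G.K, ∀ T, G.sens σ u' k T p ≤ G.sens σ u k T p + c * G.sens σ u k T y := by
  intro k
  induction k with
  | zero => intro _; exact h
  | succ k ih =>
    intro hk w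
    have s0 := (hσ k (by omega) w).1
    simp only [sens]
    split_ifs with hw
    · simp
    have h1 : ∑ τ ∈ G.Tup k w, G.wt σ k τ * ∑ T ∈ τ, G.sens σ u' k T p ≤
        ∑ τ ∈ G.Tup k w, G.wt σ k τ * ∑ T ∈ τ, G.sens σ u k T p +
        c * ∑ τ ∈ G.Tup k w, G.wt σ k τ * ∑ T ∈ τ, G.sens σ u k T y := by
      rw [mul_sum, ← sum_add_distrib]
      apply sum_le_sum
      intro τ _
      have h2 : ∑ T ∈ τ, G.sens σ u' k T p ≤
          ∑ T ∈ τ, G.sens σ u k T p + c * ∑ T ∈ τ, G.sens σ u k T y := by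
        rw [mul_sum, ← sum_add_distrib]
        exact sum_le_sum (fun T _ => ih (by omega) T)
      have := mul_le_mul_of_nonneg_left h2 (G.wt_pos σ k τ).le
      linarith
    rw [← mul_div_assoc, ← add_div]
    apply div_le_div_of_nonneg_right _ s0.le
    linarith

theorem exp_le_two {x : ℝ} (h0 : 0 ≤ x) (h1 : x ≤ 1) : exp x ≤ 1 + 2 * x := by
  have h := Real.abs_exp_sub_one_le (x := x) (by rw [abs_of_nonneg h0]; exact h1)
  rw [abs_of_nonneg h0] at h
  have := (abs_le.mp h).2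
  linarith

theorem exp_quad {x y : ℝ} (hx : |x| ≤ 1 / 2) (hy : |y| ≤ 1 / 2) :
    exp (x - y) ≤ 1 + (x + 2 * x ^ 2) - (y - 2 * y ^ 2) := by
  have h1 : |x - y| ≤ 1 := (abs_sub x y).trans (by linarith)
  have h := Real.abs_exp_sub_one_sub_id_le h1
  have := (abs_le.mp h).2
  nlinarith [sq_nonneg (x + y)]

/-- The indicator of the ball of level `j`. -/
noncomputable def ind (y p : V) (j : ℕ) : ℝ := if G.d y p ≤ 2 * G.r j then 1 else 0

theorem ind_nonneg (y p : V) (j : ℕ) : 0 ≤ G.ind y p j := by unfold ind; split_ifs <;> norm_num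

theorem ind_le (y p : V) (j : ℕ) : G.ind y p j ≤ 1 := by unfold ind; split_ifs <;> norm_num

/-- Sensitivities after the weights have changed. -/
theorem sens_new {σ σ' : St V} (hσ : G.Dom σ) (hσ' : G.Dom σ') (hC : σ'.C = σ.C)
    (hs : ∀ k < G.K, ∀ w, σ.s k w ≤ σ'.s k w) {u u' : V → V → ℝ} (hu : G.Adm 0 u)
    (hu' : G.Adm 0 u') {y : V}
    (hv : ∀ k < G.K, ∀ T, σ'.v k T ≤ σ.v k T + 7 * G.sens σ u k T y) (p : V) :
    ∀ k ≤ G.K, ∀ T, G.sens σ' u' k T p ≤ G.sens σ u' k T p +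
      (∑ j ∈ range (k + 1), 14 * G.θ j * G.ind y p j) * G.sens σ u k T y := by
  intro k
  induction k with
  | zero =>
    intro _ T
    have := (hu T y).1
    have h2 := G.θ_pos 0
    have h3 := G.ind_nonneg y p 0
    simp only [sens, zero_add, range_one, sum_singleton]
    have : 0 ≤ 14 * G.θ 0 * G.ind y p 0 * u T y := by positivity
    linarith
  | succ k ih =>
    intro hk w
    have s0 := (hσ k (by omega) w).1
    have s1 := hs k (by omega) w
    have a1 := G.sens_adm hσ hu k (by omega)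
    have a2 := G.sens_adm hσ' hu' k (by omega)
    have a3 := G.sens_adm hσ hu' k (by omega)
    simp only [sens, hC]
    split_ifs with hw
    · simp
    set c := ∑ j ∈ range (k + 1), 14 * G.θ j * G.ind y p j with hc
    have h1 : ∑ τ ∈ G.Tup k w, G.wt σ' k τ * ∑ T ∈ τ, G.sens σ' u' k T p ≤
        ∑ τ ∈ G.Tup k w, G.wt σ k τ * ∑ T ∈ τ, G.sens σ u' k T p +
        (c + 14 * G.θ (k + 1) * G.ind y p (k + 1)) *
          ∑ τ ∈ G.Tup k w, G.wt σ k τ * ∑ T ∈ τ, G.sens σ u k T y := by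
      rw [mul_sum, ← sum_add_distrib]
      apply sum_le_sum
      intro τ hτ
      obtain ⟨x0, x1, x2⟩ := G.tup_sum a1 hτ y
      obtain ⟨y0, y1, y2⟩ := G.tup_sum a2 hτ p
      set X := ∑ T ∈ τ, G.sens σ u k T y
      set Y := ∑ T ∈ τ, G.sens σ' u' k T p
      have h2 : Y ≤ ∑ T ∈ τ, G.sens σ u' k T p + c * X := by
        rw [mul_sum, ← sum_add_distrib]
        exact sum_le_sum (fun T _ => ih (by omega) T)
      have h3 : G.wt σ' k τ ≤ G.wt σ k τ * (1 + 7 * X) := by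
        have h4 : ∑ T ∈ τ, (σ'.v k T + G.nn k) ≤ ∑ T ∈ τ, (σ.v k T + G.nn k) + 7 * X := by
          rw [mul_sum, ← sum_add_distrib]
          exact sum_le_sum (fun T _ => by have := hv k (by omega) T; linarith)
        have h5 := G.θ_small k
        have h6 := exp_le_two (x := 1 / 2 * (7 * X)) (by positivity) (by linarith)
        calc G.wt σ' k τ ≤ exp (1 / 2 * ∑ T ∈ τ, (σ.v k T + G.nn k) + 1 / 2 * (7 * X)) :=
              exp_le_exp.mpr (by linarith)
          _ = G.wt σ k τ * exp (1 / 2 * (7 * X)) := by rw [exp_add]; rfl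
          _ ≤ _ := mul_le_mul_of_nonneg_left (by linarith) (G.wt_pos σ k τ).le
      have h7 : X * Y ≤ 2 * G.θ (k + 1) * G.ind y p (k + 1) * X := by
        by_cases hX : X = 0
        · simp [hX]
        by_cases hY : Y = 0
        · have := G.θ_pos (k + 1); have := G.ind_nonneg y p (k + 1)
          rw [hY, mul_zero]; positivity
        have b1 := x2 hX
        have b2 := y2 hY
        have b3 := G.d_tri y w p
        rw [G.d_symm y w] at b3
        have : G.ind y p (k + 1) = 1 := by unfold ind; rw [if_pos (by omega)]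
        rw [this, θ_succ]
        nlinarith
      have w0 := G.wt_pos σ k τ
      calc G.wt σ' k τ * Y ≤ G.wt σ k τ * (1 + 7 * X) * Y := mul_le_mul_of_nonneg_right h3 y0
        _ = G.wt σ k τ * (Y + 7 * (X * Y)) := by ring
        _ ≤ G.wt σ k τ * ((∑ T ∈ τ, G.sens σ u' k T p + c * X) +
            7 * (2 * G.θ (k + 1) * G.ind y p (k + 1) * X)) :=
          mul_le_mul_of_nonneg_left (by linarith) w0.le
        _ = _ := by ring
    have h0 : 0 ≤ ∑ τ ∈ G.Tup k w, G.wt σ' k τ * ∑ T ∈ τ, G.sens σ' u' k T p :=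
      sum_nonneg (fun τ hτ => mul_nonneg (G.wt_pos σ' k τ).le (G.tup_sum a2 hτ p).1)
    rw [sum_range_succ, ← mul_div_assoc, ← add_div]
    calc _ ≤ 1 / 2 * (∑ τ ∈ G.Tup k w, G.wt σ' k τ * ∑ T ∈ τ, G.sens σ' u' k T p) / σ.s k w :=
          div_le_div_of_nonneg_left (by positivity) s0 s1
      _ ≤ _ := div_le_div_of_nonneg_right (by linarith) s0.le

/-- Change of a term in one round. -/
theorem U_change {σ σ' : St V} (hσ : G.Dom σ) {u u' : V → V → ℝ} (hu : G.Adm 0 u)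
    (hu' : G.Adm 0 u') {y x : V} {k : ℕ} (hk : k < G.K) {a b : ℝ} (ha : |a| ≤ 7) (hb0 : 0 ≤ b)
    (hb1 : b ≤ 1)
    (hv : ∀ T, σ'.v k T = σ.v k T + a * G.sens σ u k T y - b * G.sens σ u' k T x) (w : V) :
    (w ∉ σ.C k → G.U σ' k w - G.U σ k w ≤ σ.s k w * ((a + 49 * G.θ k) * G.sens σ u (k + 1) w y -
      (b - G.θ k * b) * G.sens σ u' (k + 1) w x)) ∧ G.U σ' k w ≤ 2 * G.U σ k w ∧
      ((G.d w y ≤ G.r (k + 1) → a ≤ 0) → G.U σ' k w ≤ G.U σ k w) := by
  have s0 := (hσ k hk w).1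
  have a1 := G.sens_adm hσ hu k hk.le
  have a2 := G.sens_adm hσ hu' k hk.le
  have hθ := G.θ_small k
  have hθ0 := G.θ_pos k
  have key : ∀ τ, G.wt σ' k τ = G.wt σ k τ * exp (1 / 2 * a * (∑ T ∈ τ, G.sens σ u k T y) -
      1 / 2 * b * ∑ T ∈ τ, G.sens σ u' k T x) := by
    intro τ
    unfold wt
    rw [← exp_add]
    congr 1
    simp only [hv, mul_sum, ← sum_add_distrib, ← sum_sub_distrib]
    exact sum_congr rfl (fun T _ => by ring)
  obtain ⟨ha1, ha2⟩ := abs_le.mp ha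
  refine ⟨fun hw => ?_, ?_, fun h => ?_⟩
  · simp only [sens, if_neg hw]
    have h1 : G.U σ' k w - G.U σ k w ≤
        (a + 49 * G.θ k) * (1 / 2 * ∑ τ ∈ G.Tup k w, G.wt σ k τ * ∑ T ∈ τ, G.sens σ u k T y) -
        (b - G.θ k * b) * (1 / 2 * ∑ τ ∈ G.Tup k w, G.wt σ k τ * ∑ T ∈ τ, G.sens σ u' k T x) := by
      unfold U
      simp only [mul_sum (s := G.Tup k w), ← sum_sub_distrib]
      apply sum_le_sum
      intro τ hτ
      obtain ⟨x0, x1, -⟩ := G.tup_sum a1 hτ y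
      obtain ⟨y0, y1, -⟩ := G.tup_sum a2 hτ x
      rw [key]
      set X := ∑ T ∈ τ, G.sens σ u k T y
      set Y := ∑ T ∈ τ, G.sens σ u' k T x
      have e1 : |1 / 2 * a * X| ≤ 1 / 2 := by rw [abs_le]; constructor <;> nlinarith
      have e2 : |1 / 2 * b * Y| ≤ 1 / 2 := by rw [abs_le]; constructor <;> nlinarith
      have e3 := exp_quad e1 e2
      have e4 : 2 * (1 / 2 * a * X) ^ 2 ≤ 49 * G.θ k * (1 / 2 * X) := by
        have : a ^ 2 ≤ 49 := by nlinarith
        have h5 : X * X ≤ G.θ k * X := by nlinarith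
        nlinarith [mul_nonneg x0 x0]
      have e5 : 2 * (1 / 2 * b * Y) ^ 2 ≤ G.θ k * b * (1 / 2 * Y) := by
        have h5 : Y * Y ≤ G.θ k * Y := by nlinarith
        have h6 : b * b ≤ b := by nlinarith
        have h7 : (b * b) * (Y * Y) ≤ b * (G.θ k * Y) :=
          mul_le_mul h6 h5 (mul_nonneg y0 y0) hb0
        nlinarith
      have w0 := G.wt_pos σ k τ
      have e6 : exp (1 / 2 * a * X - 1 / 2 * b * Y) - 1 ≤
          (a + 49 * G.θ k) * (1 / 2 * X) - (b - G.θ k * b) * (1 / 2 * Y) := by nlinarith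
      have := mul_le_mul_of_nonneg_left e6 w0.le
      nlinarith
    calc _ ≤ _ := h1
      _ = _ := by field_simp
  · unfold U
    rw [mul_sum]
    apply sum_le_sum
    intro τ hτ
    obtain ⟨x0, x1, -⟩ := G.tup_sum a1 hτ y
    obtain ⟨y0, y1, -⟩ := G.tup_sum a2 hτ x
    rw [key, mul_comm]
    apply mul_le_mul_of_nonneg_right _ (G.wt_pos σ k τ).le
    have h2 := exp_le_two (x := 1 / 2) (by norm_num) (by norm_num)
    refine le_trans (exp_le_exp.mpr ?_) (by linarith)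
    have := mul_nonneg hb0 y0
    nlinarith
  · unfold U
    apply sum_le_sum
    intro τ hτ
    obtain ⟨x0, x1, x2⟩ := G.tup_sum a1 hτ y
    obtain ⟨y0, y1, -⟩ := G.tup_sum a2 hτ x
    rw [key]
    apply mul_le_of_le_one_right (G.wt_pos σ k τ).le
    rw [exp_le_one_iff]
    have := mul_nonneg hb0 y0
    by_cases hX : ∑ T ∈ τ, G.sens σ u k T y = 0
    · rw [hX]; linarith
    · have := h (x2 hX)
      nlinarith

end Geo

end Pool.Agent.Lib.MP_614955_co.Mach
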