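import Mathlib
import Pool.Agent.Lib.MP_614955_co.MachDefs

set_option autoImplicit false

namespace Pool.Agent.Lib.MP_614955_co.Mach

open Finset Real

variable {V : Type*} [Fintype V] [LinearOrder V]

/-- The share of the game `(k, z)` among the games of level at least `j`. -/
noncomputable def pi (C : ℕ → Finset V) (f : ℕ → V → ℝ) (j k : ℕ) (z : V) : ℝ :=
  f k z * (∏ z' ∈ C k with z' < z, (1 - f k z')) * ∏ k' ∈ Ico j k, ∏ z' ∈ C k', (1 - f k' z')

/-- Values in the unit interval. -/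
def Unit01 (f : ℕ → V → ℝ) : Prop := ∀ k z, 0 ≤ f k z ∧ f k z ≤ 1

theorem prod_nn {f : ℕ → V → ℝ} (hf : Unit01 f) (k : ℕ) (s : Finset V) :
    0 ≤ ∏ z' ∈ s, (1 - f k z') := prod_nonneg (fun z _ => by have := (hf k z).2; linarith)

theorem prod_le1 {f : ℕ → V → ℝ} (hf : Unit01 f) (k : ℕ) (s : Finset V) :
    ∏ z' ∈ s, (1 - f k z') ≤ 1 :=
  prod_le_one (fun z _ => by have := (hf k z).2; linarith) (fun z _ => by have := (hf k z).1; linarith)

theorem pi_nonneg {C : ℕ → Finset V} {f : ℕ → V → ℝ} (hf : Unit01 f) (j k : ℕ) (z : V) :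
    0 ≤ pi C f j k z :=
  mul_nonneg (mul_nonneg (hf k z).1 (prod_nn hf k _)) (prod_nonneg (fun k' _ => prod_nn hf k' _))

theorem pi_le_f {C : ℕ → Finset V} {f : ℕ → V → ℝ} (hf : Unit01 f) (j k : ℕ) (z : V) :
    pi C f j k z ≤ f k z := by
  have h1 := prod_le1 hf k ((C k).filter (· < z))
  have h2 : ∏ k' ∈ Ico j k, ∏ z' ∈ C k', (1 - f k' z') ≤ 1 :=
    prod_le_one (fun k' _ => prod_nn hf k' _) (fun k' _ => prod_le1 hf k' _)
  exact (mul_le_of_le_one_right (mul_nonneg (hf k z).1 (prod_nn hf k _)) h2).trans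
    (mul_le_of_le_one_right (hf k z).1 h1)

theorem sum_pi (C : ℕ → Finset V) (f : ℕ → V → ℝ) (j : ℕ) : ∀ K, j ≤ K →
    ∑ k ∈ Ico j K, ∑ z ∈ C k, pi C f j k z = 1 - ∏ k ∈ Ico j K, ∏ z ∈ C k, (1 - f k z) := by
  intro K hK
  induction K, hK using Nat.le_induction with
  | base => simp
  | succ K hK ih =>
    rw [sum_Ico_succ_top hK, prod_Ico_succ_top hK, ih, prod_one_sub_ordered (C K)]
    simp only [pi, ← sum_mul]
    ring

theorem pi_le {C : ℕ → Finset V} {f l : ℕ → V → ℝ} (hf : Unit01 f) (hl : Unit01 l) {j k : ℕ}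
    (hjk : j ≤ k) (h : ∀ k', j ≤ k' → ∀ z, l k' z ≤ f k' z) {z : V} {e : ℝ} (he : 0 ≤ e)
    (hz : f k z ≤ l k z + e) : pi C f 0 k z ≤ pi C l j k z + e := by
  have h1 : ∏ z' ∈ C k with z' < z, (1 - f k z') ≤ ∏ z' ∈ C k with z' < z, (1 - l k z') :=
    prod_le_prod (fun z' _ => by have := (hf k z').2; linarith)
      (fun z' _ => by have := h k hjk z'; linarith)
  have h2 : ∏ k' ∈ Ico 0 k, ∏ z' ∈ C k', (1 - f k' z') ≤
      ∏ k' ∈ Ico j k, ∏ z' ∈ C k', (1 - l k' z') := by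
    refine le_trans (prod_le_prod_of_subset_of_le_one (Ico_subset_Ico (Nat.zero_le j) le_rfl)
      (fun k' _ => prod_nn hf k' _) (fun k' _ _ => prod_le1 hf k' _)) ?_
    refine prod_le_prod (fun k' _ => prod_nn hf k' _) (fun k' hk' => ?_)
    exact prod_le_prod (fun z' _ => by have := (hf k' z').2; linarith)
      (fun z' _ => by have := h k' (mem_Ico.mp hk').1 z'; linarith)
  have a1 := prod_nn hf k ((C k).filter (· < z))
  have a2 : 0 ≤ ∏ k' ∈ Ico 0 k, ∏ z' ∈ C k', (1 - f k' z') := prod_nonneg (fun k' _ => prod_nn hf k' _)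
  have a3 := prod_le1 hl k ((C k).filter (· < z))
  have a4 : ∏ k' ∈ Ico j k, ∏ z' ∈ C k', (1 - l k' z') ≤ 1 :=
    prod_le_one (fun k' _ => prod_nn hl k' _) (fun k' _ => prod_le1 hl k' _)
  unfold pi
  set A := ∏ z' ∈ C k with z' < z, (1 - l k z')
  set B := ∏ k' ∈ Ico j k, ∏ z' ∈ C k', (1 - l k' z')
  have hA : 0 ≤ A := a1.trans h1
  have hB : 0 ≤ B := a2.trans h2
  have hAB : A * B ≤ 1 := mul_le_one₀ a3 hB a4
  calc _ ≤ (l k z + e) * A * B :=
        mul_le_mul (mul_le_mul hz h1 a1 (by have := (hl k z).1; linarith)) h2 a2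
          (mul_nonneg (by have := (hl k z).1; linarith) hA)
    _ = l k z * A * B + e * (A * B) := by ring
    _ ≤ _ := by nlinarith

theorem pi_mono {C C' : ℕ → Finset V} {f : ℕ → V → ℝ} (hf : Unit01 f) (h : ∀ k, C k ⊆ C' k)
    (j k : ℕ) (z : V) : pi C' f j k z ≤ pi C f j k z := by
  have h1 : ∀ k' (s t : Finset V), s ⊆ t → ∏ z' ∈ t, (1 - f k' z') ≤ ∏ z' ∈ s, (1 - f k' z') :=
    fun k' s t hst => prod_le_prod_of_subset_of_le_one hst
      (fun z _ => by have := (hf k' z).2; linarith) (fun z _ _ => by have := (hf k' z).1; linarith)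
  unfold pi
  refine mul_le_mul (mul_le_mul_of_nonneg_left (h1 k _ _ (filter_subset_filter _ (h k))) (hf k z).1)
    (prod_le_prod (fun k' _ => prod_nn hf k' _) (fun k' _ => h1 k' _ _ (h k')))
    (prod_nonneg (fun k' _ => prod_nn hf k' _)) (mul_nonneg (hf k z).1 (prod_nn hf k _))

theorem pi_zero {C : ℕ → Finset V} {f : ℕ → V → ℝ} {k k' : ℕ} {z z' : V} (hk : k' < k)
    (hz : z' ∈ C k') (h1 : f k' z' = 1) : pi C f 0 k z = 0 := by
  unfold pi
  rw [prod_eq_zero (i := k') (mem_Ico.mpr ⟨Nat.zero_le _, hk⟩) (prod_eq_zero hz (by rw [h1]; ring)),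
    mul_zero]

theorem sum_pi_one {C : ℕ → Finset V} {f : ℕ → V → ℝ} {k K : ℕ} {z : V} (hk : k < K)
    (hz : z ∈ C k) (h1 : f k z = 1) : ∑ k ∈ range K, ∑ z ∈ C k, pi C f 0 k z = 1 := by
  rw [range_eq_Ico, sum_pi C f 0 K (Nat.zero_le _),
    prod_eq_zero (i := k) (mem_Ico.mpr ⟨Nat.zero_le _, hk⟩) (prod_eq_zero hz (by rw [h1]; ring))]
  ring

namespace Geo

variable (G : Geo V)

/-- The fuzzy territory of a game. -/
noncomputable def ff (y : V) (k : ℕ) (z : V) : ℝ :=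
  max 0 (min 1 (4 - (G.d z y : ℝ) / G.r (k + 1)))

theorem ff_unit (y : V) : Unit01 (G.ff y) := fun _ _ =>
  ⟨le_max_left _ _, max_le zero_le_one (min_le_left _ _)⟩

theorem rpos (k : ℕ) : (0 : ℝ) < G.r (k + 1) := by exact_mod_cast G.r_succ_pos k

theorem ff_one {y z : V} {k : ℕ} (h : G.d z y ≤ 3 * G.r (k + 1)) : G.ff y k z = 1 := by
  have h1 : (G.d z y : ℝ) / G.r (k + 1) ≤ 3 := by
    rw [div_le_iff₀ (G.rpos k)]; exact_mod_cast h
  unfold ff
  rw [min_eq_left (by linarith), max_eq_right zero_le_one]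

theorem ff_zero {y z : V} {k : ℕ} (h : 4 * G.r (k + 1) ≤ G.d z y) : G.ff y k z = 0 := by
  have h1 : 4 ≤ (G.d z y : ℝ) / G.r (k + 1) := by
    rw [le_div_iff₀ (G.rpos k)]; exact_mod_cast h
  unfold ff
  exact max_eq_left ((min_le_right _ _).trans (by linarith))

theorem ff_lip (y p : V) (k : ℕ) (z : V) : G.ff p k z ≤ G.ff y k z + (G.d y p : ℝ) / G.r (k + 1) := by
  have h1 : (G.d z y : ℝ) ≤ G.d z p + G.d y p := by
    have := G.d_tri z p y
    rw [G.d_symm p y] at this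
    exact_mod_cast this
  have h2 : (G.d z y : ℝ) / G.r (k + 1) ≤ (G.d z p : ℝ) / G.r (k + 1) + (G.d y p : ℝ) / G.r (k + 1) := by
    rw [← add_div]; exact div_le_div_of_nonneg_right h1 (G.rpos k).le
  have h3 : 0 ≤ (G.d y p : ℝ) / G.r (k + 1) := by have := G.rpos k; positivity
  unfold ff
  apply max_le
  · have := le_max_left 0 (min 1 (4 - (G.d z y : ℝ) / G.r (k + 1))); linarith
  · have := le_max_right 0 (min 1 (4 - (G.d z y : ℝ) / G.r (k + 1)))
    rcases le_total 1 (4 - (G.d z y : ℝ) / G.r (k + 1)) with h | h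
    · rw [min_eq_left h] at this ⊢
      have := min_le_left 1 (4 - (G.d z p : ℝ) / G.r (k + 1)); linarith
    · rw [min_eq_right h] at this ⊢
      have := min_le_right 1 (4 - (G.d z p : ℝ) / G.r (k + 1)); linarith

/-- Oscillation of a territory on the ball of level `j`. -/
noncomputable def eps (y : V) (j k : ℕ) (z : V) : ℝ :=
  if G.d y z ≤ 9 * G.r (k + 1) then 2 * (G.r j : ℝ) / G.r (k + 1) else 0

/-- Lower envelope of a territory on the ball of level `j`. -/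
noncomputable def low (y : V) (j k : ℕ) (z : V) : ℝ := max 0 (G.ff y k z - G.eps y j k z)

/-- Upper bound for the share on the ball of level `j`. -/
noncomputable def SS (C : ℕ → Finset V) (y : V) (j k : ℕ) (z : V) : ℝ :=
  pi C (G.low y j) j k z + 2 * G.eps y j k z

theorem eps_nonneg (y : V) (j k : ℕ) (z : V) : 0 ≤ G.eps y j k z := by
  unfold eps; have := G.rpos k; split_ifs <;> positivity

theorem low_unit (y : V) (j : ℕ) : Unit01 (G.low y j) := fun k z =>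
  ⟨le_max_left _ _, max_le zero_le_one (by
    have := (G.ff_unit y k z).2; have := G.eps_nonneg y j k z; linarith)⟩

theorem SS_nonneg (C : ℕ → Finset V) (y : V) (j k : ℕ) (z : V) : 0 ≤ G.SS C y j k z := by
  have := pi_nonneg (C := C) (G.low_unit y j) j k z
  have := G.eps_nonneg y j k z
  unfold SS; linarith

theorem ff_osc {y p : V} {j k : ℕ} (hjk : j ≤ k) (hp : G.d y p ≤ 2 * G.r j) (z : V) :
    G.ff p k z ≤ G.ff y k z + G.eps y j k z ∧ G.ff y k z ≤ G.ff p k z + G.eps y j k z := by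
  unfold eps
  split_ifs with h
  · have h1 : (G.d y p : ℝ) / G.r (k + 1) ≤ 2 * (G.r j : ℝ) / G.r (k + 1) :=
      div_le_div_of_nonneg_right (by exact_mod_cast hp) (G.rpos k).le
    have h2 := G.ff_lip y p k z
    have h3 := G.ff_lip p y k z
    rw [G.d_symm p y] at h3
    constructor <;> linarith
  · have h1 : G.r j ≤ G.r (k + 1) := G.r_mono (by omega)
    have h2 := G.d_tri y p z
    rw [G.d_symm p z] at h2
    rw [G.ff_zero (y := p) (by omega), G.ff_zero (y := y) (by rw [G.d_symm]; omega)]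
    simp

theorem pi_le_SS (C : ℕ → Finset V) {y p : V} {j k : ℕ} (hjk : j ≤ k) (hp : G.d y p ≤ 2 * G.r j)
    (z : V) : pi C (G.ff p) 0 k z ≤ G.SS C y j k z := by
  refine pi_le (G.ff_unit p) (G.low_unit y j) hjk (fun k' hk' z' => ?_)
    (by have := G.eps_nonneg y j k z; linarith) ?_
  · exact max_le (G.ff_unit p k' z').1 (by have := (G.ff_osc hk' hp z').2; linarith)
  · have h1 := (G.ff_osc hjk hp z).1
    have h2 : G.ff y k z - G.eps y j k z ≤ G.low y j k z := le_max_right _ _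
    linarith

theorem sum_inv_r (j : ℕ) : ∀ K, j ≤ K →
    ∑ k ∈ Ico j K, 1 / (G.r (k + 1) : ℝ) + 2 / G.r (K + 1) ≤ 2 / G.r (j + 1) := by
  intro K hK
  induction K, hK using Nat.le_induction with
  | base => simp
  | succ K hK ih =>
    rw [sum_Ico_succ_top hK, r_succ]
    have := G.rpos K
    have e : (2 : ℝ) / ((10 * G.r (K + 1) : ℕ) : ℝ) = 1 / 5 * (1 / G.r (K + 1)) := by
      push_cast; field_simp; ring
    have e2 : (2 : ℝ) / G.r (K + 1) = 2 * (1 / G.r (K + 1)) := by ring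
    have : 0 < 1 / (G.r (K + 1) : ℝ) := by positivity
    rw [e]; rw [e2] at ih; linarith

theorem sum_SS (C : ℕ → Finset V) (y : V) {j : ℕ} (hj : j ≤ G.K)
    (hc : ∀ k < G.K, ((C k).filter (fun z => G.d y z ≤ 9 * G.r (k + 1))).card ≤ 99) :
    ∑ k ∈ Ico j G.K, ∑ z ∈ C k, G.SS C y j k z ≤ 1 + 792 * (G.r j : ℝ) / G.r (j + 1) := by
  simp only [SS, sum_add_distrib]
  have h1 : ∑ k ∈ Ico j G.K, ∑ z ∈ C k, pi C (G.low y j) j k z ≤ 1 := by
    rw [sum_pi C _ j _ hj]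
    have : 0 ≤ ∏ k ∈ Ico j G.K, ∏ z ∈ C k, (1 - G.low y j k z) :=
      prod_nonneg (fun k _ => prod_nn (G.low_unit y j) k _)
    linarith
  have h2 : ∑ k ∈ Ico j G.K, ∑ z ∈ C k, 2 * G.eps y j k z ≤
      ∑ k ∈ Ico j G.K, 396 * (G.r j : ℝ) * (1 / (G.r (k + 1) : ℝ)) := by
    apply sum_le_sum
    intro k hk
    have h3 : (((C k).filter (fun z => G.d y z ≤ 9 * G.r (k + 1))).card : ℝ) ≤ 99 := by
      exact_mod_cast hc k (mem_Ico.mp hk).2
    simp only [eps, ← mul_sum, ← sum_filter, sum_const, nsmul_eq_mul]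
    have h4 : 0 ≤ 2 * (G.r j : ℝ) / G.r (k + 1) := by have := G.rpos k; positivity
    calc _ ≤ 2 * (99 * (2 * (G.r j : ℝ) / G.r (k + 1))) := by nlinarith
      _ = _ := by ring
  rw [← mul_sum] at h2
  have h5 := G.sum_inv_r j G.K hj
  have h6 : 0 ≤ (2 : ℝ) / G.r (G.K + 1) := by positivity
  have h7 : 396 * (G.r j : ℝ) * ∑ k ∈ Ico j G.K, 1 / (G.r (k + 1) : ℝ) ≤
      396 * (G.r j : ℝ) * (2 / G.r (j + 1)) := mul_le_mul_of_nonneg_left (by linarith) (by positivity)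
  have e : 396 * (G.r j : ℝ) * (2 / G.r (j + 1)) = 792 * (G.r j : ℝ) / G.r (j + 1) := by ring
  linarith

theorem var_zero : 792 * (G.r 0 : ℝ) / G.r (0 + 1) ≤ G.η / 5 := by
  have h := G.hr
  have h1 := G.rpos 0
  simp only [r, pow_zero, mul_one] at h1 ⊢
  rw [div_le_iff₀ h1]
  have : (0 : ℝ) ≤ G.r0 := by positivity
  nlinarith

theorem var_le (j : ℕ) : 792 * (G.r j : ℝ) / G.r (j + 1) ≤ 80 := by
  cases j with
  | zero => have := G.var_zero; have := G.η1; linarith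
  | succ j =>
    rw [div_le_iff₀ (G.rpos _), r_succ]
    have := G.rpos j
    push_cast; linarith

end Geo

end Pool.Agent.Lib.MP_614955_co.Mach
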