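import Mathlib
import Pool.Agent.Lib.MP_614955_co.MachPi

set_option autoImplicit false

namespace Pool.Agent.Lib.MP_614955_co.Mach

open Finset Real

variable {V : Type*} [Fintype V] [LinearOrder V]

/-- Centres among the terms of level `k`. -/
def cen (σ : St V) : ℕ → Finset V
  | 0 => ∅
  | k + 1 => σ.C k

namespace Geo

variable (G : Geo V)

/-- Value of a point for a game. -/
noncomputable def W (σ : St V) (u : V → V → ℝ) (k : ℕ) (z p : V) : ℝ :=
  ∑ T ∈ G.ball z (5 * G.r (k + 1)), exp (σ.ρ k z T) * G.sens σ u k T p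

/-- Main part of the potential of a game. -/
noncomputable def Φ (σ : St V) (k : ℕ) (z : V) : ℝ :=
  ∑ T ∈ G.ball z (5 * G.r (k + 1)), exp (σ.ρ k z T)

/-- Logarithmic size of the terms. -/
noncomputable def psi (σ : St V) (ψ : V → ℝ) : ℕ → V → ℝ
  | 0 => ψ
  | k + 1 => fun w => G.U σ k w / σ.s k w + log (σ.s k w)

/-- Games tracking a term. -/
def near (σ : St V) (k : ℕ) (T : V) : Finset V :=
  (σ.C k).filter (fun z => G.d z T ≤ 5 * G.r (k + 1))

/-- The invariant of the machine. -/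
structure Inv0 (free : Finset V) (u : V → V → ℝ) (ψ : V → ℝ) (σ : St V) : Prop where
  adm : G.Adm 0 u
  dom : G.Dom σ
  U1 : ∀ k < G.K, ∀ w, G.U σ k w < 1
  ctr : ∀ k, k + 1 < G.K → ∀ z ∈ σ.C k, 0 ≤ σ.v (k + 1) z + G.nn (k + 1)
  sep : ∀ k < G.K, ∀ a ∈ σ.C k, ∀ b ∈ σ.C k, a ≠ b → 2 * G.r (k + 1) < G.d a b
  top : (σ.C (G.K - 1)).Nonempty
  rcd : ∀ k < G.K, ∀ T, T ∉ cen σ k → G.psi σ ψ k T ≤ σ.v k T + ∑ z ∈ G.near σ k T, σ.ρ k z T
  g0 : ∀ k < G.K, ∀ z ∈ σ.C k, ∀ i, 0 ≤ σ.g k z i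
  lay : ∀ k < G.K, ∀ z ∈ σ.C k, ∀ p ∈ free, ∀ i : ℕ, (i : ℝ) < G.Q * pi σ.C (G.ff p) 0 k z →
    G.W σ u k z p ≤ σ.g k z i
  phi : ∀ k < G.K, ∀ z ∈ σ.C k,
    G.Φ σ k z + (1 - G.η) / G.Q * ∑ i ∈ range G.Q, σ.g k z i ≤ 2 * exp (5 * G.lam k)

/-- Every large term is covered by a game. -/
def Cov (σ : St V) : Prop :=
  ∀ k < G.K, ∀ w, (∃ z ∈ σ.C k, G.d z w ≤ 2 * G.r (k + 1)) ∨ log (σ.s k w) < -2

variable {G} {free : Finset V} {u : V → V → ℝ} {ψ : V → ℝ} {σ : St V}

theorem Inv0.count (h : G.Inv0 free u ψ σ) {k : ℕ} (hk : k < G.K) (w : V) :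
    ((σ.C k).filter (fun z => G.d w z ≤ 9 * G.r (k + 1))).card ≤ 99 := by
  by_contra hc
  by_cases hk' : k + 1 < G.K
  · obtain ⟨τ, hτ, hcard⟩ := exists_subset_card_eq (s := (σ.C k).filter
      (fun z => G.d w z ≤ 9 * G.r (k + 1))) (n := 100) (by omega)
    have hT : τ ∈ G.Tup (k + 1) w := by
      refine mem_filter.mpr ⟨mem_powersetCard.mpr ⟨fun z hz => ?_, by simpa using hcard⟩, ?_⟩
      · rw [mem_ball]; simpa [R] using (mem_filter.mp (hτ hz)).2
      · exact fun a ha b hb => h.sep k hk a (mem_filter.mp (hτ ha)).1 b (mem_filter.mp (hτ hb)).1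
    have h1 : G.wt σ (k + 1) τ ≤ G.U σ (k + 1) w :=
      single_le_sum (f := G.wt σ (k + 1)) (fun τ _ => (G.wt_pos σ _ τ).le) hT
    have h2 : 1 ≤ G.wt σ (k + 1) τ := by
      apply one_le_exp
      have := sum_nonneg (s := τ) (f := fun T => σ.v (k + 1) T + G.nn (k + 1))
        (fun z hz => h.ctr k hk' z (mem_filter.mp (hτ hz)).1)
      linarith
    have := h.U1 (k + 1) hk' w
    linarith
  · obtain ⟨a, ha, b, hb, hab⟩ := one_lt_card.mp (by omega : 1 < ((σ.C k).filter
      (fun z => G.d w z ≤ 9 * G.r (k + 1))).card)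
    have h1 := h.sep k hk a (mem_filter.mp ha).1 b (mem_filter.mp hb).1 hab
    have h2 := G.top' a b
    rw [show G.K = k + 1 by omega] at h2
    omega

theorem Inv0.sum_rho (h : G.Inv0 free u ψ σ) {k : ℕ} (hk : k < G.K) (T : V) :
    ∑ z ∈ G.near σ k T, σ.ρ k z T ≤ 99 * (5 * G.lam k + 1) := by
  have h1 : ∀ z ∈ G.near σ k T, σ.ρ k z T ≤ 5 * G.lam k + 1 := by
    intro z hz
    obtain ⟨hz1, hz2⟩ := mem_filter.mp hz
    have a1 : exp (σ.ρ k z T) ≤ G.Φ σ k z :=
      single_le_sum (f := fun T => exp (σ.ρ k z T)) (fun _ _ => (exp_pos _).le) (G.mem_ball.mpr hz2)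
    have a2 := h.phi k hk z hz1
    have a3 : 0 ≤ (1 - G.η) / G.Q * ∑ i ∈ range G.Q, σ.g k z i :=
      mul_nonneg (div_nonneg (by have := G.η1; linarith) (by positivity))
        (sum_nonneg (fun i _ => h.g0 k hk z hz1 i))
    have a4 : (2 : ℝ) ≤ exp 1 := by have := add_one_le_exp (1 : ℝ); linarith
    rw [← exp_le_exp, exp_add]
    nlinarith [exp_pos (5 * G.lam k)]
  have h2 : (G.near σ k T).card ≤ 99 := by
    refine le_trans (card_le_card (fun z hz => ?_)) (h.count hk T)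
    obtain ⟨hz1, hz2⟩ := mem_filter.mp hz
    exact mem_filter.mpr ⟨hz1, by rw [G.d_symm]; omega⟩
  have h3 := sum_le_card_nsmul _ _ _ h1
  rw [nsmul_eq_mul] at h3
  have h4 : ((G.near σ k T).card : ℝ) ≤ 99 := by exact_mod_cast h2
  have := G.lam_one k
  nlinarith

theorem Inv0.bound (h : G.Inv0 free u ψ σ) (T : V) : ψ T ≤ 0 := by
  have hK : 0 < G.K := G.K1
  have h1 := h.rcd 0 hK T (by simp [cen])
  have h2 := h.sum_rho hK T
  have hT : {T} ∈ G.Tup 0 T := by
    refine mem_filter.mpr ⟨mem_powersetCard.mpr ⟨?_, by simp⟩, by simp⟩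
    simp [mem_ball, G.d_self]
  have h3 : G.wt σ 0 {T} ≤ G.U σ 0 T :=
    single_le_sum (f := G.wt σ 0) (fun τ _ => (G.wt_pos σ _ τ).le) hT
  have h4 := h3.trans_lt (h.U1 0 hK T)
  simp only [wt, sum_singleton, exp_lt_one_iff, nn] at h4
  simp only [psi] at h1
  linarith

theorem sens_mono {σ σ' : St V} (hσ : G.Dom σ) (hv : σ'.v = σ.v) (hs : σ'.s = σ.s)
    (hC : ∀ k, σ.C k ⊆ σ'.C k) {u u' : V → V → ℝ} (hu : G.Adm 0 u) (h : ∀ T p, u' T p ≤ u T p) :
    ∀ k ≤ G.K, ∀ T p, G.sens σ' u' k T p ≤ G.sens σ u k T p := by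
  intro k
  induction k with
  | zero => intro _; exact h
  | succ k ih =>
    intro hk w p
    have s0 := (hσ k (by omega) w).1
    have a1 := (G.sens_adm hσ hu (k + 1) hk w p).1
    simp only [sens] at a1 ⊢
    by_cases hw : w ∈ σ'.C k
    · rw [if_pos hw]; exact a1
    rw [if_neg hw, if_neg (fun h => hw (hC k h)), hs]
    apply div_le_div_of_nonneg_right _ s0.le
    apply mul_le_mul_of_nonneg_left _ (by norm_num)
    apply sum_le_sum
    intro τ _
    have : G.wt σ' k τ = G.wt σ k τ := by unfold wt; rw [hv]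
    rw [this]
    exact mul_le_mul_of_nonneg_left (sum_le_sum (fun T _ => ih (by omega) T p)) (G.wt_pos σ k τ).le

theorem Inv0.mono (h : G.Inv0 free u ψ σ) {free' : Finset V} {u' : V → V → ℝ} {ψ' : V → ℝ}
    (hf : free' ⊆ free) (hu : G.Adm 0 u') (hle : ∀ T p, u' T p ≤ u T p) (hψ : ∀ T, ψ' T ≤ ψ T) :
    G.Inv0 free' u' ψ' σ := by
  refine ⟨hu, h.dom, h.U1, h.ctr, h.sep, h.top, fun k hk T hT => le_trans ?_ (h.rcd k hk T hT),
    h.g0, fun k hk z hz p hp i hi => le_trans ?_ (h.lay k hk z hz p (hf hp) i hi), h.phi⟩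
  · cases k with
    | zero => exact hψ T
    | succ k => exact le_rfl
  · exact sum_le_sum (fun T _ => mul_le_mul_of_nonneg_left
      (sens_mono h.dom rfl rfl (fun _ => Subset.rfl) h.adm hle k hk.le T p) (exp_pos _).le)

theorem fresh_game (hd : G.Dom σ) (hu : G.Adm 0 u) {k : ℕ} (hk : k < G.K) {z : V}
    (hρ : ∀ T, σ.ρ k z T = 0) (hg : ∀ i, σ.g k z i = exp (5 * G.lam k)) :
    (∀ p i, G.W σ u k z p ≤ σ.g k z i) ∧
    G.Φ σ k z + (1 - G.η) / G.Q * ∑ i ∈ range G.Q, σ.g k z i ≤ 2 * exp (5 * G.lam k) := by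
  have h1 : G.Φ σ k z ≤ exp (5 * G.lam k) := by
    have := G.grow z (5 * G.r (k + 1)) (by have := G.r_succ_pos k; omega)
    simp only [Φ, hρ, exp_zero, sum_const, nsmul_eq_mul, mul_one]
    refine this.trans (le_of_eq ?_)
    unfold lam; push_cast; ring_nf
  refine ⟨fun p i => ?_, ?_⟩
  · rw [hg]
    refine le_trans (sum_le_sum (fun T _ => ?_)) h1
    have := (G.sens_adm hd hu k hk.le T p).2.1
    have := G.θ_small k
    exact mul_le_of_le_one_right (exp_pos _).le (by linarith)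
  · have hQ : (0 : ℝ) < G.Q := by exact_mod_cast G.Q1
    simp only [hg, sum_const, card_range, nsmul_eq_mul]
    have e : (1 - G.η) / G.Q * (G.Q * exp (5 * G.lam k)) = (1 - G.η) * exp (5 * G.lam k) := by
      field_simp
    rw [e]
    nlinarith [exp_pos (5 * G.lam k), G.η0]

theorem Inv0.create (h : G.Inv0 free u ψ σ) {k : ℕ} (hk : k < G.K) {z : V}
    (hz : ∀ z' ∈ σ.C k, 2 * G.r (k + 1) < G.d z' z) (hs : -2 ≤ log (σ.s k z)) :
    ∃ σ', G.Inv0 free u ψ σ' ∧ ∀ k', σ'.C k' = if k' = k then insert z (σ.C k) else σ.C k' := by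
  have hzC : z ∉ σ.C k := fun hc => by have := hz z hc; rw [G.d_self] at this; omega
  have hk1 : k + 1 < G.K := by
    by_contra hc
    obtain ⟨z0, hz0⟩ := h.top
    rw [show G.K - 1 = k by omega] at hz0
    have h1 := hz z0 hz0
    have h2 := G.top' z0 z
    rw [show G.K = k + 1 by omega] at h2
    omega
  let σ' : St V := ⟨σ.v, σ.s, fun k' => if k' = k then insert z (σ.C k) else σ.C k',
    fun k' z' T => if k' = k ∧ z' = z then 0 else σ.ρ k' z' T,
    fun k' z' i => if k' = k ∧ z' = z then exp (5 * G.lam k) else σ.g k' z' i⟩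
  have hC : ∀ k', σ.C k' ⊆ σ'.C k' := by
    intro k'
    simp only [σ']
    split_ifs with e
    · rw [e]; exact subset_insert _ _
    · exact Subset.rfl
  have hmem : ∀ k' z', z' ∈ σ'.C k' → (k' = k ∧ z' = z) ∨ (¬ (k' = k ∧ z' = z) ∧ z' ∈ σ.C k') := by
    intro k' z' hz'
    by_cases e : k' = k ∧ z' = z
    · exact Or.inl e
    refine Or.inr ⟨e, ?_⟩
    simp only [σ'] at hz'
    split_ifs at hz' with e'
    · subst e'
      exact (mem_insert.mp hz').resolve_left (fun e2 => e ⟨rfl, e2⟩)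
    · exact hz'
  have hdom : G.Dom σ' := h.dom
  have hfresh := fresh_game (σ := σ') hdom h.adm hk (z := z) (by simp [σ']) (by simp [σ'])
  refine ⟨σ', ⟨h.adm, hdom, h.U1, ?_, ?_, h.top.mono (hC _), ?_, ?_, ?_, ?_⟩, fun _ => rfl⟩
  · intro k' hk' z' hz'
    rcases hmem k' z' hz' with ⟨rfl, rfl⟩ | ⟨-, h2⟩
    · have a1 := h.rcd (k' + 1) hk1 z' hzC
      have a2 := h.sum_rho hk1 z'
      obtain ⟨s0, -⟩ := h.dom k' hk z'
      have a3 : 0 ≤ G.U σ k' z' / σ.s k' z' := div_nonneg (G.U_nonneg _ _ _) s0.le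
      simp only [psi] at a1
      show 0 ≤ σ.v (k' + 1) z' + G.nn (k' + 1)
      unfold nn; linarith
    · exact h.ctr k' hk' z' h2
  · intro k' hk' a ha b hb hab
    rcases hmem k' a ha with ⟨rfl, rfl⟩ | ⟨e1, h2⟩ <;>
      rcases hmem _ b hb with ⟨e, rfl⟩ | ⟨e2, h3⟩
    · exact absurd rfl hab
    · rw [G.d_symm]; exact hz b h3
    · subst e; exact hz a h2
    · exact h.sep k' hk' a h2 b h3 hab
  · intro k' hk' T hT
    have hT' : T ∉ cen σ k' := by
      cases k' with
      | zero => exact hT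
      | succ k' => exact fun hc => hT (hC k' hc)
    have e1 : G.psi σ' ψ k' T = G.psi σ ψ k' T := by cases k' <;> rfl
    have e2 : ∑ z' ∈ G.near σ' k' T, σ'.ρ k' z' T = ∑ z' ∈ G.near σ k' T, σ.ρ k' z' T := by
      have hsub : G.near σ k' T ⊆ G.near σ' k' T := filter_subset_filter _ (hC k')
      rw [← sum_subset hsub]
      · refine sum_congr rfl (fun z' hz' => ?_)
        simp only [σ']
        rw [if_neg]
        rintro ⟨rfl, rfl⟩
        exact hzC (mem_filter.mp hz').1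
      · intro z' hz' hn
        rcases hmem k' z' (mem_filter.mp hz').1 with e | ⟨-, h2⟩
        · simp only [σ']; rw [if_pos e]
        · exact absurd (mem_filter.mpr ⟨h2, (mem_filter.mp hz').2⟩) hn
    rw [e1, e2]
    exact h.rcd k' hk' T hT'
  · intro k' hk' z' hz' i
    rcases hmem k' z' hz' with e | ⟨e, h2⟩
    · simp only [σ']; rw [if_pos e]; exact (exp_pos _).le
    · simp only [σ']; rw [if_neg e]; exact h.g0 k' hk' z' h2 i
  · intro k' hk' z' hz' p hp i hi
    rcases hmem k' z' hz' with ⟨rfl, rfl⟩ | ⟨e, h2⟩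
    · exact hfresh.1 p i
    · have hQ : (0 : ℝ) ≤ G.Q := by positivity
      have a1 := h.lay k' hk' z' h2 p hp i (hi.trans_le (mul_le_mul_of_nonneg_left
        (pi_mono (G.ff_unit p) hC 0 k' z') hQ))
      have a2 : σ'.g k' z' i = σ.g k' z' i := by simp only [σ']; rw [if_neg e]
      rw [a2]
      refine le_trans (sum_le_sum (fun T _ => ?_)) a1
      have a3 : σ'.ρ k' z' T = σ.ρ k' z' T := by simp only [σ']; rw [if_neg e]
      rw [a3]
      exact mul_le_mul_of_nonneg_left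
        (sens_mono (σ' := σ') h.dom rfl rfl hC h.adm (fun _ _ => le_rfl) k' hk'.le T p) (exp_pos _).le
  · intro k' hk' z' hz'
    rcases hmem k' z' hz' with ⟨rfl, rfl⟩ | ⟨e, h2⟩
    · exact hfresh.2
    · have := h.phi k' hk' z' h2
      simpa only [Φ, σ', if_neg e] using this

theorem Inv0.settle (h : G.Inv0 free u ψ σ) : ∃ σ', G.Inv0 free u ψ σ' ∧ G.Cov σ' := by
  generalize hn : ((range G.K ×ˢ (univ : Finset V)).filter (fun q => q.2 ∉ σ.C q.1)).card = n
  induction n using Nat.strong_induction_on generalizing σ with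
  | _ n ih =>
    by_cases hc : G.Cov σ
    · exact ⟨σ, h, hc⟩
    unfold Cov at hc
    push Not at hc
    obtain ⟨k, hk, z, h1, h2⟩ := hc
    obtain ⟨σ', h', hC⟩ := h.create hk h1 h2
    refine ih _ ?_ h' rfl
    rw [← hn]
    apply card_lt_card
    have hzC : z ∉ σ.C k := fun hc => by have := h1 z hc; rw [G.d_self] at this; omega
    refine ⟨fun q hq => ?_, fun hs => ?_⟩
    · obtain ⟨a1, a2⟩ := mem_filter.mp hq
      refine mem_filter.mpr ⟨a1, fun hc => a2 ?_⟩
      rw [hC]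
      split_ifs with e
      · rw [e] at hc; exact mem_insert_of_mem hc
      · exact hc
    · have := (mem_filter.mp (hs (mem_filter.mpr ⟨mem_product.mpr ⟨mem_range.mpr hk, mem_univ z⟩,
        hzC⟩ : (k, z) ∈ _))).2
      rw [hC] at this
      simp at this

theorem tup_card (k : ℕ) (w : V) :
    ((G.Tup k w).card : ℝ) ≤ exp (if k = 0 then G.lam 0 else 90 * G.lam k) := by
  have h1 : (G.Tup k w).card ≤ (G.ball w (G.R k)).card ^ (if k = 0 then 1 else 100) := by
    refine (card_filter_le _ _).trans ?_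
    rw [card_powersetCard]
    exact Nat.choose_le_pow _ _
  have h2 : ((G.Tup k w).card : ℝ) ≤ ((G.ball w (G.R k)).card : ℝ) ^ (if k = 0 then 1 else 100) := by
    exact_mod_cast h1
  refine h2.trans ?_
  cases k with
  | zero =>
    have a1 := G.grow w (G.r 1) (G.r_succ_pos 0)
    simp only [if_true, pow_one]
    refine le_trans ?_ a1
    exact_mod_cast card_le_card (fun b hb => by
      have := G.mem_ball.mp hb
      simp only [R, if_true] at this
      exact mem_filter.mpr ⟨mem_univ _, by omega⟩)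
  | succ k =>
    have a1 := G.grow w (9 * G.r (k + 1)) (by have := G.r_succ_pos k; omega)
    simp only [Nat.succ_ne_zero, if_false, R]
    refine (pow_le_pow_left₀ (by positivity) a1 100).trans (le_of_eq ?_)
    rw [← exp_nat_mul]
    congr 1
    unfold lam
    rw [r_succ]; push_cast; ring

theorem init [Nonempty V] (hu : G.Adm 0 u) (hψ : ∀ T, ψ T ≤ -(16000 * G.lam 0)) :
    ∃ σ, G.Inv0 free u ψ σ := by
  obtain ⟨z0⟩ := ‹Nonempty V›
  let σ : St V := ⟨fun k _ => if k = 0 then -(16000 * G.lam 0) else 1 - 750 * G.lam k,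
    fun k _ => exp (-(7500 * G.lam k)), fun k => if k + 1 = G.K then {z0} else ∅,
    fun _ _ _ => 0, fun k _ _ => exp (5 * G.lam k)⟩
  have hU : ∀ k w, G.U σ k w ≤ exp (-(7500 * G.lam k)) := by
    intro k w
    have h1 : ∀ τ ∈ G.Tup k w, G.wt σ k τ = exp (1 / 2 * ((if k = 0 then 1 else 100) *
        ((if k = 0 then -(16000 * G.lam 0) else 1 - 750 * G.lam k) + G.nn k))) := by
      intro τ hτ
      have := (mem_powersetCard.mp (mem_filter.mp hτ).1).2
      simp only [wt, σ, sum_const, this, nsmul_eq_mul]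
      split_ifs <;> simp
    unfold U
    rw [sum_congr rfl h1, sum_const, nsmul_eq_mul]
    refine (mul_le_mul_of_nonneg_right (tup_card k w) (exp_pos _).le).trans ?_
    rw [← exp_add, exp_le_exp]
    have := G.lam_one k
    unfold nn
    split_ifs with e
    · subst e; linarith
    · linarith
  have hdom : G.Dom σ := fun k _ w => ⟨exp_pos _, hU k w⟩
  have hlam : ∀ k, G.lam (k + 1) = 10 * G.lam k := by
    intro k; unfold lam; rw [r_succ]; push_cast; ring
  refine ⟨σ, hu, hdom, fun k _ w => (hU k w).trans_lt ?_, ?_, ?_, ?_, ?_, fun _ _ _ _ _ => (exp_pos _).le,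
    fun k hk z _ p _ i _ => (fresh_game hdom hu hk (fun _ => rfl) (fun _ => rfl)).1 p i,
    fun k hk z _ => (fresh_game hdom hu hk (fun _ => rfl) (fun _ => rfl)).2⟩
  · rw [exp_lt_one_iff]; have := G.lam_one k; linarith
  · intro k hk z hz
    simp only [σ] at hz
    rw [if_neg (by omega)] at hz
    simp at hz
  · intro k _ a ha b hb hab
    simp only [σ] at ha hb
    split_ifs at ha hb
    · exact absurd ((mem_singleton.mp ha).trans (mem_singleton.mp hb).symm) hab
    · simp at ha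
  · simp only [σ]
    rw [if_pos (by have := G.K1; omega)]
    exact singleton_nonempty _
  · intro k _ T _
    cases k with
    | zero => simpa [psi, σ] using hψ T
    | succ k =>
      have a1 : G.U σ k T / σ.s k T ≤ 1 := (div_le_one (exp_pos _)).mpr (hU k T)
      have a2 : log (σ.s k T) = -(7500 * G.lam k) := log_exp _
      simp only [psi]
      rw [a2]
      simp only [σ, Nat.succ_ne_zero, if_false, sum_const_zero, hlam] at a1 ⊢
      linarith

end Geo

end Pool.Agent.Lib.MP_614955_co.Mach
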