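import Mathlib
import Pool.Agent.Lib.MP_614955_co.MachInv

set_option autoImplicit false

namespace Pool.Agent.Lib.MP_614955_co.Mach

open Finset Real

variable {V : Type*} [Fintype V] [LinearOrder V]

theorem exists_mu {M w : ℝ} (hM : 0 ≤ M) :
    ∃ μ, 0 ≤ μ ∧ μ ≤ 2 ∧ μ * w ≤ M ∧ (M ≤ μ * w ∨ μ = 2) := by
  by_cases h : 2 * w ≤ M
  · exact ⟨2, by norm_num, le_rfl, h, Or.inr rfl⟩
  · have hw' : 0 < w := by linarith
    have e : M / w * w = M := by field_simp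
    exact ⟨M / w, by positivity, by rw [div_le_iff₀ hw']; linarith, e.le, Or.inl e.ge⟩

theorem runmax {s U : ℝ} (hs : 0 < s) : U / max s U + log (max s U) ≤ U / s + log s := by
  rcases le_total U s with h | h
  · rw [max_eq_left h]
  · have hU : 0 < U := hs.trans_le h
    rw [max_eq_right h, div_self hU.ne']
    have := log_le_sub_one_of_pos (div_pos hU hs)
    rw [log_div hU.ne' hs.ne'] at this
    linarith

/-- Indicator of the layers below `a`. -/
noncomputable def lyr (Q : ℕ) (a : ℝ) (i : ℕ) : ℝ := if (i : ℝ) < Q * a then 1 else 0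

theorem lyr_nonneg (Q : ℕ) (a : ℝ) (i : ℕ) : 0 ≤ lyr Q a i := by
  unfold lyr; split_ifs <;> norm_num

/-- Rounded share. -/
noncomputable def rnd (Q : ℕ) (a : ℝ) : ℝ := (∑ i ∈ range Q, lyr Q a i) / Q

theorem rnd_le {Q : ℕ} (hQ : 1 ≤ Q) {a : ℝ} (ha : 0 ≤ a) : rnd Q a ≤ a + 1 / Q := by
  have hQ' : (0 : ℝ) < Q := by exact_mod_cast hQ
  have h1 : ∑ i ∈ range Q, lyr Q a i ≤ Q * a + 1 := by
    simp only [lyr, sum_boole]
    have h2 : ((range Q).filter (fun i : ℕ => (i : ℝ) < Q * a)) ⊆ range ⌈Q * a⌉₊ :=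
      fun i hi => mem_range.mpr (Nat.lt_ceil.mpr (mem_filter.mp hi).2)
    have h3 := card_le_card h2
    rw [card_range] at h3
    have h4 := Nat.ceil_lt_add_one (a := Q * a) (by positivity)
    have h5 : (((range Q).filter (fun i : ℕ => (i : ℝ) < Q * a)).card : ℝ) ≤ ⌈Q * a⌉₊ := by
      exact_mod_cast h3
    linarith
  unfold rnd
  rw [div_le_iff₀ hQ']
  have e : (a + 1 / Q) * Q = Q * a + 1 := by field_simp
  linarith

theorem le_rnd {Q : ℕ} (hQ : 1 ≤ Q) {a : ℝ} (ha : a ≤ 1) : a ≤ rnd Q a := by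
  have hQ' : (0 : ℝ) < Q := by exact_mod_cast hQ
  unfold rnd
  rw [le_div_iff₀ hQ']
  simp only [lyr, sum_boole]
  have h2 : range ⌈Q * a⌉₊ ⊆ ((range Q).filter (fun i : ℕ => (i : ℝ) < Q * a)) := by
    intro i hi
    have h3 := Nat.lt_ceil.mp (mem_range.mp hi)
    refine mem_filter.mpr ⟨mem_range.mpr ?_, h3⟩
    have : (i : ℝ) < Q := by nlinarith
    exact_mod_cast this
  have h3 := card_le_card h2
  rw [card_range] at h3
  have h4 := Nat.le_ceil (Q * a)
  have h5 : (⌈Q * a⌉₊ : ℝ) ≤ ((range Q).filter (fun i : ℕ => (i : ℝ) < Q * a)).card := by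
    exact_mod_cast h3
  linarith

theorem rnd_zero (Q : ℕ) : rnd Q 0 = 0 := by
  unfold rnd
  rw [sum_eq_zero, zero_div]
  intro i _
  unfold lyr
  rw [if_neg]
  rw [mul_zero]; exact not_lt.mpr (by positivity)

namespace Geo

variable {G : Geo V}

theorem W_nonneg {σ : St V} (hσ : G.Dom σ) {u : V → V → ℝ} (hu : G.Adm 0 u) {k : ℕ} (hk : k < G.K)
    (z p : V) : 0 ≤ G.W σ u k z p :=
  sum_nonneg (fun T _ => mul_nonneg (exp_pos _).le (G.sens_adm hσ hu k hk.le T p).1)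

theorem W_base {σ : St V} (hσ : G.Dom σ) {u u1 : V → V → ℝ} (hu : G.Adm 0 u) (hu1 : G.Adm 0 u1)
    {y : V} (h1 : ∀ T p, u1 T p ≤ u T p + u T y) {k : ℕ} (hk : k < G.K) (z p : V) :
    G.W σ u1 k z p ≤ G.W σ u k z p + G.ind y p 0 * G.W σ u k z y := by
  have h2 : ∀ T, u1 T p ≤ u T p + G.ind y p 0 * u T y := by
    intro T
    unfold ind
    split_ifs with h
    · simpa using h1 T p
    by_cases e1 : u T y = 0
    · simpa [e1] using h1 T p
    by_cases e2 : u1 T p = 0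
    · simpa [e2] using (hu T p).1
    have a1 := (hu T y).2.2 e1
    have a2 := (hu1 T p).2.2 e2
    have a3 := G.d_tri y T p
    rw [G.d_symm y T] at a3
    omega
  unfold W
  rw [mul_sum, ← sum_add_distrib]
  refine sum_le_sum (fun T _ => ?_)
  have := mul_le_mul_of_nonneg_left (G.sens_le_add hσ h2 k hk.le T) (exp_pos (σ.ρ k z T)).le
  linarith

theorem game_step {σ σ' : St V} (hσ : G.Dom σ) (hσ' : G.Dom σ') (hC : σ'.C = σ.C)
    (hs : ∀ k < G.K, ∀ w, σ.s k w ≤ σ'.s k w) {u u1 : V → V → ℝ} (hu : G.Adm 0 u)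
    (hu1 : G.Adm 0 u1) {y x : V}
    (hv : ∀ k < G.K, ∀ T, σ'.v k T ≤ σ.v k T + 7 * G.sens σ u k T y) {k : ℕ} (hk : k < G.K) {z : V}
    {t b : ℝ} (ht : |t| ≤ 7) (hb0 : 0 ≤ b) (hb1 : b ≤ 1)
    (hρ : ∀ T, σ'.ρ k z T = σ.ρ k z T + t * G.sens σ u k T y - b * G.sens σ u1 k T x) :
    G.Φ σ' k z ≤ G.Φ σ k z + (t + 2 * G.θ 0 * t ^ 2) * G.W σ u k z y -
      (b - 2 * G.θ 0 * b) * G.W σ u1 k z x ∧
    ∀ p, G.W σ' u1 k z p ≤ G.W σ u1 k z p +
      (∑ j ∈ range (k + 1), 28 * G.θ j * G.ind y p j) * G.W σ u k z y := by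
  have a1 := G.sens_adm hσ hu k hk.le
  have a2 := G.sens_adm hσ hu1 k hk.le
  have a3 := G.sens_adm hσ' hu1 k hk.le
  have hθ := G.θ_small k
  have hθ0 := G.θ_le k
  have hθ1 := G.θ_pos k
  obtain ⟨ht1, ht2⟩ := abs_le.mp ht
  refine ⟨?_, fun p => ?_⟩
  · unfold Φ W
    simp only [mul_sum, ← sum_add_distrib, ← sum_sub_distrib]
    refine sum_le_sum (fun T _ => ?_)
    obtain ⟨x0, x1, -⟩ := a1 T y
    obtain ⟨y0, y1, -⟩ := a2 T x
    rw [hρ, add_sub_assoc, exp_add]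
    set X := G.sens σ u k T y
    set Y := G.sens σ u1 k T x
    have e1 : |t * X| ≤ 1 / 2 := by rw [abs_le]; constructor <;> nlinarith
    have e2 : |b * Y| ≤ 1 / 2 := by rw [abs_le]; constructor <;> nlinarith
    have e3 := exp_quad e1 e2
    have e4 : (t * X) ^ 2 ≤ G.θ 0 * t ^ 2 * X := by
      have h5 : X * X ≤ G.θ 0 * X := by nlinarith
      nlinarith [mul_le_mul_of_nonneg_left h5 (sq_nonneg t)]
    have e5 : (b * Y) ^ 2 ≤ G.θ 0 * b * Y := by
      have h5 : Y * Y ≤ G.θ 0 * Y := by nlinarith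
      have h6 : b * b ≤ b := by nlinarith
      have h7 : (b * b) * (Y * Y) ≤ b * (G.θ 0 * Y) := mul_le_mul h6 h5 (mul_nonneg y0 y0) hb0
      nlinarith
    have e6 : exp (t * X - b * Y) ≤
        1 + (t + 2 * G.θ 0 * t ^ 2) * X - (b - 2 * G.θ 0 * b) * Y := by nlinarith
    have := mul_le_mul_of_nonneg_left e6 (exp_pos (σ.ρ k z T)).le
    nlinarith
  · unfold W
    rw [mul_sum, ← sum_add_distrib]
    refine sum_le_sum (fun T _ => ?_)
    obtain ⟨x0, x1, x2⟩ := a1 T y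
    obtain ⟨y0, -, -⟩ := a2 T x
    obtain ⟨z0, z1, z2⟩ := a3 T p
    have b1 := G.sens_new hσ hσ' hC hs hu hu1 hv p k hk.le T
    set X := G.sens σ u k T y
    set Z := G.sens σ' u1 k T p
    have b2 : exp (σ'.ρ k z T) ≤ exp (σ.ρ k z T) * (1 + 14 * X) := by
      have h6 := exp_le_two (x := 7 * X) (by positivity) (by linarith)
      have h7 := mul_nonneg hb0 y0
      calc _ ≤ exp (σ.ρ k z T + 7 * X) := by rw [hρ, exp_le_exp]; nlinarith
        _ = exp (σ.ρ k z T) * exp (7 * X) := exp_add _ _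
        _ ≤ _ := mul_le_mul_of_nonneg_left (by linarith) (exp_pos _).le
    have b3 : X * Z ≤ G.θ k * G.ind y p k * X := by
      by_cases hX : X = 0
      · simp [hX]
      by_cases hZ : Z = 0
      · have := G.ind_nonneg y p k
        rw [hZ, mul_zero]; positivity
      have c1 := x2 hX
      have c2 := z2 hZ
      have c3 := G.d_tri y T p
      rw [G.d_symm y T] at c3
      have : G.ind y p k = 1 := by unfold ind; rw [if_pos (by omega)]
      rw [this]; nlinarith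
    have b4 : 14 * G.θ k * G.ind y p k ≤ ∑ j ∈ range (k + 1), 14 * G.θ j * G.ind y p j :=
      single_le_sum (f := fun j => 14 * G.θ j * G.ind y p j) (fun j _ => by
        have := G.θ_pos j; have := G.ind_nonneg y p j; positivity) (self_mem_range_succ k)
    have b5 : ∑ j ∈ range (k + 1), 28 * G.θ j * G.ind y p j =
        2 * ∑ j ∈ range (k + 1), 14 * G.θ j * G.ind y p j := by
      rw [mul_sum]; exact sum_congr rfl (fun j _ => by ring)
    rw [b5]
    set c := ∑ j ∈ range (k + 1), 14 * G.θ j * G.ind y p j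
    have w0 := exp_pos (σ.ρ k z T)
    calc exp (σ'.ρ k z T) * Z ≤ exp (σ.ρ k z T) * (1 + 14 * X) * Z := mul_le_mul_of_nonneg_right b2 z0
      _ = exp (σ.ρ k z T) * (Z + 14 * (X * Z)) := by ring
      _ ≤ exp (σ.ρ k z T) * (G.sens σ u1 k T p + 2 * c * X) :=
        mul_le_mul_of_nonneg_left (by nlinarith) w0.le
      _ = _ := by ring

variable (G)

/-- Costs of a game in a round. -/
noncomputable def cost (C : ℕ → Finset V) (y : V) (k : ℕ) (z : V) : ℝ :=
  ∑ j ∈ range (k + 1), 28 * G.θ j * (G.SS C y j k z + 1 / G.Q) +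
    (G.SS C y 0 k z - pi C (G.ff y) 0 k z + 1 / G.Q)

theorem pi_le_SS0 (C : ℕ → Finset V) (y : V) (k : ℕ) (z : V) :
    pi C (G.ff y) 0 k z ≤ G.SS C y 0 k z :=
  G.pi_le_SS C (Nat.zero_le k) (by rw [G.d_self]; omega) z

theorem cost_nonneg (C : ℕ → Finset V) (y : V) (k : ℕ) (z : V) : 0 ≤ G.cost C y k z := by
  have h1 := G.pi_le_SS0 C y k z
  have h2 : 0 ≤ ∑ j ∈ range (k + 1), 28 * G.θ j * (G.SS C y j k z + 1 / G.Q) :=
    sum_nonneg (fun j _ => by have := G.θ_pos j; have := G.SS_nonneg C y j k z; positivity)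
  have h3 : (0 : ℝ) ≤ 1 / G.Q := by positivity
  unfold cost; linarith

theorem sum_invQ (C : ℕ → Finset V) (s : Finset ℕ) (hs : s ⊆ range G.K) :
    ∑ k ∈ s, ∑ _z ∈ C k, (1 / G.Q : ℝ) ≤ G.η / 100 := by
  have hQ : (0 : ℝ) < G.Q := by exact_mod_cast G.Q1
  have h1 : ∑ k ∈ s, ∑ _z ∈ C k, (1 / G.Q : ℝ) ≤ ∑ _k ∈ range G.K, Fintype.card V * (1 / G.Q : ℝ) := by
    refine le_trans (sum_le_sum (fun k _ => ?_)) (sum_le_sum_of_subset_of_nonneg hs
      (fun _ _ _ => by positivity))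
    rw [sum_const, nsmul_eq_mul]
    exact mul_le_mul_of_nonneg_right (by exact_mod_cast card_le_univ _) (by positivity)
  rw [sum_const, card_range, nsmul_eq_mul] at h1
  refine h1.trans ?_
  rw [← mul_assoc, mul_one_div, div_le_iff₀ hQ]
  have := G.hQ
  linarith

theorem sum_cost (C : ℕ → Finset V) (y : V)
    (hc : ∀ k < G.K, ((C k).filter (fun z => G.d y z ≤ 9 * G.r (k + 1))).card ≤ 99)
    (h1 : ∑ k ∈ range G.K, ∑ z ∈ C k, pi C (G.ff y) 0 k z = 1) :
    ∑ k ∈ range G.K, ∑ z ∈ C k, G.cost C y k z ≤ G.η / 2 := by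
  have a1 := G.sum_SS C y (Nat.zero_le _) hc
  have a2 := G.var_zero
  have a3 := G.sum_invQ C _ Subset.rfl
  have hη := G.η1
  have a4 : ∑ k ∈ range G.K, ∑ z ∈ C k, ∑ j ∈ range (k + 1),
      28 * G.θ j * (G.SS C y j k z + 1 / G.Q) ≤ ∑ j ∈ range G.K, 28 * 82 * G.θ j := by
    rw [sum_congr rfl (fun k _ => sum_comm (s := C k) (t := range (k + 1)))]
    simp only [range_eq_Ico]
    rw [← sum_Ico_Ico_comm 0 G.K (fun j k => ∑ z ∈ C k, 28 * G.θ j * (G.SS C y j k z + 1 / G.Q))]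
    refine sum_le_sum (fun j hj => ?_)
    have b1 := G.sum_SS C y (mem_Ico.mp hj).2.le hc
    have b2 := G.var_le j
    have b3 := G.sum_invQ C (Ico j G.K) (fun k hk => mem_range.mpr (mem_Ico.mp hk).2)
    simp only [← mul_sum, sum_add_distrib]
    have := G.θ_pos j
    nlinarith
  rw [← mul_sum, sum_θ, θ_zero] at a4
  have a5 := G.θ_pos G.K
  rw [← range_eq_Ico] at a1
  simp only [cost, sum_add_distrib, sum_sub_distrib]
  have := G.η0
  linarith

end Geo

end Pool.Agent.Lib.MP_614955_co.Mach
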