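import Mathlib
import Pool.Agent.Lib.MP_614955_co.MachGame

set_option autoImplicit false

namespace Pool.Agent.Lib.MP_614955_co.Mach

open Finset Real

variable {V : Type*} [Fintype V] [LinearOrder V]

/-- Indicator of the game that replies. -/
noncomputable def io (j : ℕ) (zo : V) (k : ℕ) (z : V) : ℝ := if k = j ∧ z = zo then 1 else 0

theorem io_nonneg (j : ℕ) (zo : V) (k : ℕ) (z : V) : 0 ≤ io j zo k z := by
  unfold io; split_ifs <;> norm_num

theorem io_le (j : ℕ) (zo : V) (k : ℕ) (z : V) : io j zo k z ≤ 1 := by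
  unfold io; split_ifs <;> norm_num

theorem sum_io {C : ℕ → Finset V} {j n : ℕ} {zo : V} (hj : j < n) (hz : zo ∈ C j) (f : ℕ → V → ℝ) :
    ∑ k ∈ range n, ∑ z ∈ C k, io j zo k z * f k z = f j zo := by
  rw [sum_eq_single_of_mem j (mem_range.mpr hj), sum_eq_single_of_mem zo hz]
  · simp [io]
  · intro z _ hne; simp [io, hne]
  · intro k _ hne; simp [io, hne]

theorem dsum_mono {C : ℕ → Finset V} {n K : ℕ} (h : n ≤ K) {f : ℕ → V → ℝ} (hf : ∀ k z, 0 ≤ f k z) :
    ∑ k ∈ range n, ∑ z ∈ C k, f k z ≤ ∑ k ∈ range K, ∑ z ∈ C k, f k z :=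
  sum_le_sum_of_subset_of_nonneg (range_mono h) (fun k _ _ => sum_nonneg (fun z _ => hf k z))

namespace Geo

variable (G : Geo V) (C : ℕ → Finset V) (y : V) (μ : ℕ → V → ℝ) (j : ℕ) (zo : V)

/-- Activity of a game. -/
noncomputable def act (k : ℕ) (z : V) : ℝ :=
  rnd G.Q (pi C (G.ff y) 0 k z) + G.cost C y k z + io j zo k z

/-- Affordable record of a game. -/
noncomputable def aff (k : ℕ) (z : V) : ℝ :=
  (1 - G.η) * (1 - μ k z) * rnd G.Q (pi C (G.ff y) 0 k z) - G.cost C y k z +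
    io j zo k z * ((1 - 4 * G.θ 0) * μ k z)

/-- Record of a game. -/
noncomputable def rec0 (k : ℕ) (z : V) : ℝ := G.aff C y μ j zo k z - 30 * G.θ 0 * G.act C y j zo k z

/-- Remaining record. -/
noncomputable def rem (k : ℕ) : ℝ :=
  1 - 2 * G.η + 98 * (G.θ 0 - G.θ k) - ∑ i ∈ range (k + 1), ∑ z ∈ C i, G.rec0 C y μ j zo i z

variable {G C y μ j zo}

theorem coef (hc : ∀ k < G.K, ((C k).filter (fun z => G.d y z ≤ 9 * G.r (k + 1))).card ≤ 99)
    (h1 : ∑ k ∈ range G.K, ∑ z ∈ C k, pi C (G.ff y) 0 k z = 1)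
    (hμ : ∀ k z, 0 ≤ μ k z ∧ μ k z ≤ 2) (hj : j < G.K) (hzo : zo ∈ C j)
    (hpos : 0 < pi C (G.ff y) 0 j zo)
    (hmax : ∀ k < G.K, ∀ z ∈ C k, 0 < pi C (G.ff y) 0 k z → μ k z ≤ μ j zo) :
    (∀ k < G.K, ∀ z ∈ C k, |G.rec0 C y μ j zo k z| ≤ 7 ∧
      G.rec0 C y μ j zo k z + 2 * G.θ 0 * G.rec0 C y μ j zo k z ^ 2 ≤ G.aff C y μ j zo k z) ∧
    (∀ k < G.K, |G.rem C y μ j zo k| ≤ 7) ∧
    (∀ k < G.K, ∀ z ∈ C k, G.ff y k z = 1 → G.rem C y μ j zo k ≤ 0) ∧
    (∀ k z, G.ff y k z = 0 → G.rec0 C y μ j zo k z ≤ 0) := by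
  have hu := G.ff_unit y
  have hη0 := G.η0
  have hη1 := G.η1
  have hθ := G.θ_zero
  have p0 : ∀ k z, 0 ≤ pi C (G.ff y) 0 k z := pi_nonneg hu 0
  have r1 : ∀ k z, pi C (G.ff y) 0 k z ≤ rnd G.Q (pi C (G.ff y) 0 k z) := fun k z =>
    le_rnd G.Q1 ((pi_le_f hu 0 k z).trans (hu k z).2)
  have r2 : ∀ k z, rnd G.Q (pi C (G.ff y) 0 k z) ≤ pi C (G.ff y) 0 k z + 1 / G.Q := fun k z =>
    rnd_le G.Q1 (p0 k z)
  have c0 := G.cost_nonneg C y
  have w0 : ∀ k z, 0 ≤ G.act C y j zo k z := fun k z => by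
    have := p0 k z; have := r1 k z; have := c0 k z; have := io_nonneg j zo k z
    unfold act; linarith
  have hcost := G.sum_cost C y hc h1
  have hw : ∑ k ∈ range G.K, ∑ z ∈ C k, G.act C y j zo k z ≤ 11 / 5 := by
    have a1 : ∑ k ∈ range G.K, ∑ z ∈ C k, rnd G.Q (pi C (G.ff y) 0 k z) ≤
        ∑ k ∈ range G.K, ∑ z ∈ C k, (pi C (G.ff y) 0 k z + 1 / G.Q) :=
      sum_le_sum (fun k _ => sum_le_sum (fun z _ => r2 k z))
    have a2 := G.sum_invQ C _ Subset.rfl
    have a3 := sum_io hj hzo (fun _ _ => 1)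
    simp only [mul_one] at a3
    simp only [act, sum_add_distrib] at a1 ⊢
    linarith
  have ht : ∀ k z, |G.rec0 C y μ j zo k z| ≤ 201 / 100 * G.act C y j zo k z := by
    intro k z
    have a1 := p0 k z
    have a2 := r1 k z
    have a3 := c0 k z
    have a4 := io_nonneg j zo k z
    obtain ⟨a5, a6⟩ := hμ k z
    have a7 := w0 k z
    have b1 : |(1 - G.η) * (1 - μ k z)| ≤ 1 := by rw [abs_le]; constructor <;> nlinarith
    have b2 : 0 ≤ (1 - 4 * G.θ 0) * μ k z ∧ (1 - 4 * G.θ 0) * μ k z ≤ 2 := by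
      constructor <;> nlinarith
    obtain ⟨b3, b4⟩ := abs_le.mp b1
    have b5 : 30 * G.θ 0 * G.act C y j zo k z ≤ 1 / 100 * G.act C y j zo k z := by nlinarith
    have b6 : 0 ≤ 30 * G.θ 0 * G.act C y j zo k z := by rw [hθ]; positivity
    have b7 : |G.aff C y μ j zo k z| ≤ 2 * G.act C y j zo k z := by
      unfold aff act
      rw [abs_le]; constructor <;> nlinarith
    obtain ⟨b8, b9⟩ := abs_le.mp b7
    unfold rec0
    rw [abs_le]; constructor <;> linarith
  refine ⟨fun k hk z hz => ?_, fun k hk => ?_, fun k hk z hz hf => ?_, fun k z hf => ?_⟩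
  · have a1 : G.act C y j zo k z ≤ 11 / 5 := by
      refine le_trans ?_ hw
      refine le_trans (single_le_sum (f := G.act C y j zo k) (fun z _ => w0 k z) hz) ?_
      exact single_le_sum (f := fun k => ∑ z ∈ C k, G.act C y j zo k z)
        (fun k _ => sum_nonneg (fun z _ => w0 k z)) (mem_range.mpr hk)
    have a2 := ht k z
    have a3 := w0 k z
    refine ⟨by linarith, ?_⟩
    have a4 : G.rec0 C y μ j zo k z ^ 2 ≤ 15 * G.act C y j zo k z := by
      rw [← sq_abs]
      nlinarith [abs_nonneg (G.rec0 C y μ j zo k z)]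
    have a5 := G.θ_pos 0
    have a6 := mul_le_mul_of_nonneg_left a4 a5.le
    have e : G.rec0 C y μ j zo k z = G.aff C y μ j zo k z - 30 * G.θ 0 * G.act C y j zo k z := rfl
    nlinarith
  · have a1 : |∑ i ∈ range (k + 1), ∑ z ∈ C i, G.rec0 C y μ j zo i z| ≤
        ∑ i ∈ range (k + 1), ∑ z ∈ C i, 201 / 100 * G.act C y j zo i z :=
      (abs_sum_le_sum_abs _ _).trans (sum_le_sum (fun i _ =>
        (abs_sum_le_sum_abs _ _).trans (sum_le_sum (fun z _ => ht i z))))
    simp only [← mul_sum] at a1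
    have a2 := dsum_mono (C := C) (show k + 1 ≤ G.K by omega) w0
    obtain ⟨a3, a4⟩ := abs_le.mp a1
    have := G.θ_le k
    have := G.θ_pos k
    unfold rem
    rw [abs_le]; constructor <;> linarith
  · have a1 := sum_pi_one (C := C) (Nat.lt_succ_self k) hz hf
    have hjk : j < k + 1 := by
      by_contra hh
      rw [pi_zero (by omega) hz hf] at hpos
      exact lt_irrefl _ hpos
    have a2 := sum_io (C := C) hjk hzo (fun k z => (1 - 4 * G.θ 0) * μ k z)
    have a3 := dsum_mono (C := C) (show k + 1 ≤ G.K by omega) w0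
    have a4 := dsum_mono (C := C) (show k + 1 ≤ G.K by omega) c0
    have a5 := G.sum_invQ C (range (k + 1)) (range_mono (by omega))
    have a6 : ∑ i ∈ range (k + 1), ∑ z ∈ C i, ((1 - μ j zo) * pi C (G.ff y) 0 i z - 1 / G.Q) ≤
        ∑ i ∈ range (k + 1), ∑ z ∈ C i, (1 - μ i z) * rnd G.Q (pi C (G.ff y) 0 i z) := by
      refine sum_le_sum (fun i hi => sum_le_sum (fun z hz => ?_))
      have b1 := r1 i z
      have b2 := r2 i z
      obtain ⟨b3, b4⟩ := hμ i z
      have b5 : (1 - μ j zo) * pi C (G.ff y) 0 i z ≤ (1 - μ i z) * pi C (G.ff y) 0 i z := by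
        rcases (p0 i z).eq_or_lt with e | e
        · rw [← e]; simp
        · have := hmax i (by have := mem_range.mp hi; omega) z hz e
          nlinarith
      nlinarith
    simp only [sum_sub_distrib, ← mul_sum] at a6
    rw [a1] at a6
    obtain ⟨b3, b4⟩ := hμ j zo
    have a7 := G.θ_pos k
    have a8 := mul_le_mul_of_nonneg_left a6 (show 0 ≤ 1 - G.η by linarith)
    simp only [rem, rec0, aff, sum_sub_distrib, sum_add_distrib, mul_assoc (1 - G.η), ← mul_sum, a2]
    nlinarith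
  · have a1 : pi C (G.ff y) 0 k z = 0 := le_antisymm (hf ▸ pi_le_f hu 0 k z) (p0 k z)
    have a2 : io j zo k z = 0 := by
      unfold io
      rw [if_neg]
      rintro ⟨rfl, rfl⟩
      rw [a1] at hpos
      exact lt_irrefl _ hpos
    have a3 := c0 k z
    have a4 := mul_nonneg (G.θ_pos 0).le (w0 k z)
    unfold rec0 aff
    rw [a1, a2, rnd_zero]
    linarith

variable {free : Finset V} {u : V → V → ℝ} {ψ : V → ℝ} {σ : St V}

theorem Inv0.step (h : G.Inv0 free u ψ σ) (hcov : G.Cov σ) (hy : y ∈ free) {u1 : V → V → ℝ}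
    (hu1 : G.Adm 0 u1) (h1 : ∀ T p, u1 T p ≤ u T p + u T y) {Y : Finset V}
    (hYs : Y ⊆ free) (hY : Y.Nonempty) :
    ∃ x ∈ Y, ∃ σ', G.Inv0 Y u1
      (fun T => ψ T + (1 - 2 * G.η) * u T y - u1 T x) σ' := by
  have hsel : ∀ k z, ∃ x ∈ Y, ∃ μ : ℝ, (0 ≤ μ ∧ μ ≤ 2) ∧ (k < G.K →
      μ * G.W σ u k z y ≤ G.W σ u1 k z x ∧
        ((∀ p ∈ Y, G.W σ u1 k z p ≤ μ * G.W σ u k z y) ∨ μ = 2)) := by
    intro k z
    obtain ⟨x, hx, hmax⟩ := exists_max_image _ (G.W σ u1 k z) hY
    by_cases hk : k < G.K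
    · obtain ⟨μ, a1, a2, a3, a4⟩ := exists_mu (w := G.W σ u k z y) (W_nonneg h.dom hu1 hk z x)
      exact ⟨x, hx, μ, ⟨a1, a2⟩, fun _ => ⟨a3, a4.imp_left (fun a p hp => (hmax p hp).trans a)⟩⟩
    · exact ⟨x, hx, 0, by norm_num, fun h => absurd h hk⟩
  choose xg hxg μ hμ hμ' using hsel
  have hK := G.K1
  have hsum : ∑ k ∈ range G.K, ∑ z ∈ σ.C k, pi σ.C (G.ff y) 0 k z = 1 := by
    obtain ⟨z0, hz0⟩ := h.top
    refine sum_pi_one (k := G.K - 1) (by omega) hz0 (G.ff_one ?_)
    have := G.top' z0 y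
    rw [show G.K - 1 + 1 = G.K by omega]; omega
  obtain ⟨⟨j, zo⟩, ho, hmax⟩ := exists_max_image ((range G.K ×ˢ (univ : Finset V)).filter
    (fun q => q.2 ∈ σ.C q.1 ∧ 0 < pi σ.C (G.ff y) 0 q.1 q.2)) (fun q => μ q.1 q.2) (by
      by_contra hne
      rw [not_nonempty_iff_eq_empty, filter_eq_empty_iff] at hne
      rw [sum_eq_zero] at hsum
      · norm_num at hsum
      intro k hk
      refine sum_eq_zero (fun z hz => le_antisymm ?_ (pi_nonneg (G.ff_unit y) 0 k z))
      exact not_lt.mp (fun hp => hne (x := (k, z)) (mem_product.mpr ⟨hk, mem_univ _⟩) ⟨hz, hp⟩))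
  obtain ⟨ho1, hzo, hpos⟩ := mem_filter.mp ho
  have hj : j < G.K := mem_range.mp (mem_product.mp ho1).1
  obtain ⟨c1, c2, c3, c4⟩ := coef (fun k hk => h.count hk y) hsum hμ hj hzo hpos
    (fun k hk z hz hp => hmax (k, z)
      (mem_filter.mpr ⟨mem_product.mpr ⟨mem_range.mpr hk, mem_univ _⟩, hz, hp⟩))
  set t := G.rec0 σ.C y μ j zo with ht
  set a := G.rem σ.C y μ j zo with ha
  set x := xg j zo with hx
  let b : ℕ → ℝ := fun k => 1 - 2 * G.θ 0 + 2 * G.θ k
  have hb : ∀ k, 1 - 2 * G.θ 0 ≤ b k ∧ b k ≤ 1 := fun k => by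
    have := G.θ_pos k; have := G.θ_le k; constructor <;> simp only [b] <;> linarith
  have hθ0 := G.θ_small 0
  have hθ1 := G.θ_pos 0
  let b' : ℕ → ℝ := fun k => if k < j then b k else 0
  have hb' : ∀ k, 0 ≤ b' k ∧ b' k ≤ 1 := fun k => by
    have := hb k; simp only [b']; split_ifs <;> constructor <;> linarith
  let σ0 : St V := ⟨fun k T => σ.v k T + a k * G.sens σ u k T y - b' k * G.sens σ u1 k T x,
    σ.s, σ.C, σ.ρ, σ.g⟩
  let σ' : St V := ⟨σ0.v, fun k w => max (σ.s k w) (G.U σ0 k w), σ.C,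
    fun k z T => σ.ρ k z T + t k z * G.sens σ u k T y - (io j zo k z * b k) * G.sens σ u1 k T x,
    fun k z i => σ.g k z i + G.W σ u k z y *
      (∑ j' ∈ range (k + 1), 28 * G.θ j' * lyr G.Q (G.SS σ.C y j' k z) i +
        ((μ k z - 2) * lyr G.Q (pi σ.C (G.ff y) 0 k z) i + lyr G.Q (G.SS σ.C y 0 k z) i))⟩
  have hdom : G.Dom σ' := fun k hk w => ⟨(h.dom k hk w).1.trans_le (le_max_left _ _), le_max_right _ _⟩
  have hU := fun k (hk : k < G.K) w => G.U_change (σ' := σ') (y := y) (x := x) h.dom h.adm hu1 hk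
    (c2 k hk) (hb' k).1 (hb' k).2 (fun _ => rfl) w
  have su := G.sens_adm h.dom h.adm
  have su1 := G.sens_adm h.dom hu1
  have hv : ∀ k < G.K, ∀ T, σ'.v k T ≤ σ.v k T + 7 * G.sens σ u k T y := by
    intro k hk T
    have a1 := (su k hk.le T y).1
    have a2 := mul_nonneg (hb' k).1 (su1 k hk.le T x).1
    have a3 := (abs_le.mp (c2 k hk)).2
    show σ.v k T + a k * G.sens σ u k T y - b' k * G.sens σ u1 k T x ≤ _
    nlinarith
  have hg := fun k (hk : k < G.K) z (hz : z ∈ σ.C k) => game_step (x := x) h.dom hdom rfl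
    (fun k _ w => le_max_left _ _) h.adm hu1 hv hk (z := z) (c1 k hk z hz).1
    (mul_nonneg (io_nonneg j zo k z) (by have := (hb k).1; linarith))
    (mul_le_one₀ (io_le j zo k z) (by have := (hb k).1; linarith) (hb k).2) (fun _ => rfl)
  have hQ : (0 : ℝ) < G.Q := by exact_mod_cast G.Q1
  have hlyr : ∀ {a b : ℝ} {i : ℕ}, (i : ℝ) < G.Q * a → a ≤ b → lyr G.Q b i = 1 := by
    intro a b i h1 h2
    unfold lyr
    rw [if_pos (h1.trans_le (mul_le_mul_of_nonneg_left h2 hQ.le))]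
  have hsn : ∀ k z i, 0 ≤ ∑ j' ∈ range (k + 1), 28 * G.θ j' * lyr G.Q (G.SS σ.C y j' k z) i :=
    fun k z i => sum_nonneg (fun j' _ => by
      have := G.θ_pos j'; have := lyr_nonneg G.Q (G.SS σ.C y j' k z) i; positivity)
  refine ⟨x, hxg j zo, σ', hu1, hdom, ?_, ?_, h.sep, h.top, ?_, ?_, ?_, ?_⟩
  · intro k hk w
    rcases hcov k hk w with ⟨z, hz, hd⟩ | hs
    · refine ((hU k hk w).2.2 (fun hw => c3 k hk z hz (G.ff_one ?_))).trans_lt (h.U1 k hk w)
      have := G.d_tri z w y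
      omega
    · obtain ⟨s0, s1⟩ := h.dom k hk w
      have a1 : σ.s k w < exp (-2) := by rwa [log_lt_iff_lt_exp s0] at hs
      have a2 : exp (-2 : ℝ) ≤ 1 / 3 := by
        rw [exp_neg, inv_eq_one_div]
        exact one_div_le_one_div_of_le (by norm_num) (by have := add_one_le_exp (2 : ℝ); linarith)
      have := (hU k hk w).2.1
      linarith
  · intro k hk z hz
    have hz' : z ∈ σ.C k := hz
    have := h.ctr k hk z hz
    simpa only [σ', σ0, sens, if_pos hz', mul_zero, add_zero, sub_zero] using this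
  · intro k hk T hT
    have hT' : T ∉ cen σ k := by cases k <;> exact hT
    have a1 := h.rcd k hk T hT'
    obtain ⟨x0, -, x2⟩ := su k hk.le T y
    obtain ⟨y0, -, -⟩ := su1 k hk.le T x
    have a2 : G.psi σ' (fun T => ψ T + (1 - 2 * G.η) * u T y - u1 T x) k T ≤ G.psi σ ψ k T +
        (a k + ∑ z ∈ σ.C k, t k z) * G.sens σ u k T y -
          (if k ≤ j then b k else 0) * G.sens σ u1 k T x := by
      cases k with
      | zero =>
        have e : a 0 + ∑ z ∈ σ.C 0, t 0 z = 1 - 2 * G.η := by simp [ha, rem, ht]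
        have e2 : b 0 = 1 := by simp [b]
        rw [e, if_pos (Nat.zero_le _), e2]
        simp [psi, sens]
      | succ k =>
        have s0 := (h.dom k (by omega) T).1
        have b1 := (hU k (by omega) T).1 hT'
        have b2 : G.U σ' k T / σ'.s k T + log (σ'.s k T) ≤ G.U σ' k T / σ.s k T + log (σ.s k T) :=
          runmax s0
        have b3 : G.U σ' k T / σ.s k T - G.U σ k T / σ.s k T ≤
            (a k + 49 * G.θ k) * G.sens σ u (k + 1) T y -
              (b' k - G.θ k * b' k) * G.sens σ u1 (k + 1) T x := by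
          rw [← sub_div, div_le_iff₀ s0]; linarith
        have e : a (k + 1) + ∑ z ∈ σ.C (k + 1), t (k + 1) z = a k + 49 * G.θ k := by
          simp only [ha, rem, ht, sum_range_succ _ (k + 1), θ_succ]; ring
        have b4 : (if k + 1 ≤ j then b (k + 1) else 0) ≤ b' k - G.θ k * b' k := by
          simp only [b', Nat.succ_le_iff]
          split_ifs
          · have := (hb k).2
            have := G.θ_pos k
            have e : b (k + 1) = b k - G.θ k := by simp only [b, θ_succ]; ring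
            nlinarith
          · simp
        have b5 := mul_le_mul_of_nonneg_right b4 y0
        simp only [psi]
        rw [e]
        linarith
    have a3 : (∑ z ∈ σ.C k, t k z) * G.sens σ u k T y ≤
        (∑ z ∈ G.near σ k T, t k z) * G.sens σ u k T y := by
      by_cases e : G.sens σ u k T y = 0
      · simp [e]
      refine mul_le_mul_of_nonneg_right ?_ x0
      rw [← sum_filter_add_sum_filter_not (σ.C k) (fun z => G.d z T ≤ 5 * G.r (k + 1))]
      refine add_le_of_nonpos_right (sum_nonpos (fun z hz => c4 k z (G.ff_zero ?_)))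
      have b1 := (mem_filter.mp hz).2
      have b2 := x2 e
      have b3 := G.d_tri z y T
      rw [G.d_symm y T] at b3
      have := G.r_le_succ k
      omega
    have a4 : b' k + ∑ z ∈ G.near σ k T, io j zo k z * b k ≤ if k ≤ j then b k else 0 := by
      have b0 : 0 ≤ b k := by have := (hb k).1; linarith
      rcases lt_trichotomy k j with e | e | e
      · simp [b', io, e, e.le, e.ne]
      · subst e
        simp only [b', lt_irrefl, if_false, le_refl, if_true, zero_add, ← sum_mul, io, true_and,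
          sum_ite_eq']
        split_ifs <;> linarith
      · simp [b', io, e.ne', e.not_gt, e.not_ge]
    have a5 := mul_le_mul_of_nonneg_right a4 y0
    have e : ∑ z ∈ G.near σ' k T, σ'.ρ k z T = ∑ z ∈ G.near σ k T, σ.ρ k z T +
        (∑ z ∈ G.near σ k T, t k z) * G.sens σ u k T y -
          (∑ z ∈ G.near σ k T, io j zo k z * b k) * G.sens σ u1 k T x := by
      simp only [sum_mul, ← sum_add_distrib, ← sum_sub_distrib]
      rfl
    rw [e]
    show _ ≤ σ.v k T + a k * G.sens σ u k T y - b' k * G.sens σ u1 k T x + _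
    linarith
  · intro k hk z hz i
    have a1 := h.g0 k hk z hz i
    have a2 := W_nonneg h.dom h.adm hk z y
    have a3 := hsn k z i
    obtain ⟨a4, a5⟩ := hμ k z
    show 0 ≤ σ.g k z i + _
    by_cases hi : (i : ℝ) < G.Q * pi σ.C (G.ff y) 0 k z
    · rw [hlyr hi le_rfl, hlyr hi (G.pi_le_SS0 σ.C y k z)]
      have := h.lay k hk z hz y hy i hi
      nlinarith
    · have a6 := lyr_nonneg G.Q (G.SS σ.C y 0 k z) i
      have e : lyr G.Q (pi σ.C (G.ff y) 0 k z) i = 0 := if_neg hi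
      rw [e]
      have := mul_nonneg a2 (add_nonneg a3 a6)
      linarith
  · intro k hk z hz p hp i hi
    have a1 := (hg k hk z hz).2 p
    have a2 := W_nonneg h.dom h.adm hk z y
    have a3 := h.lay k hk z hz p (hYs hp) i hi
    have a4 := W_base h.dom h.adm hu1 h1 hk z p
    have a5 : ∀ j' ≤ k, G.ind y p j' ≤ lyr G.Q (G.SS σ.C y j' k z) i := by
      intro j' hj'
      unfold ind
      split_ifs with e
      · exact (hlyr hi (G.pi_le_SS σ.C hj' e z)).ge
      · exact lyr_nonneg _ _ _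
    have a6 : ∑ j' ∈ range (k + 1), 28 * G.θ j' * G.ind y p j' ≤
        ∑ j' ∈ range (k + 1), 28 * G.θ j' * lyr G.Q (G.SS σ.C y j' k z) i :=
      sum_le_sum (fun j' hj' => mul_le_mul_of_nonneg_left (a5 j' (by have := mem_range.mp hj'; omega))
        (by have := G.θ_pos j'; positivity))
    have a7 := mul_le_mul_of_nonneg_right a6 a2
    show _ ≤ σ.g k z i + _
    by_cases hi' : (i : ℝ) < G.Q * pi σ.C (G.ff y) 0 k z
    · rw [hlyr hi' le_rfl, hlyr hi' (G.pi_le_SS0 σ.C y k z)]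
      have a8 := h.lay k hk z hz y hy i hi'
      rcases (hμ' k z hk).2 with e | e
      · have := e p hp
        linarith
      · have := mul_le_mul_of_nonneg_right (G.ind_le y p 0) a2
        rw [e]; linarith
    · have e : lyr G.Q (pi σ.C (G.ff y) 0 k z) i = 0 := if_neg hi'
      rw [e]
      have := mul_le_mul_of_nonneg_right (a5 0 (Nat.zero_le _)) a2
      linarith
  · intro k hk z hz
    have a1 := (hg k hk z hz).1
    have a2 := W_nonneg h.dom h.adm hk z y
    have a3 := h.phi k hk z hz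
    have a4 := mul_le_mul_of_nonneg_right (c1 k hk z hz).2 a2
    have e : (1 - G.η) / G.Q * ∑ i ∈ range G.Q, σ'.g k z i =
        (1 - G.η) / G.Q * ∑ i ∈ range G.Q, σ.g k z i + (1 - G.η) * G.W σ u k z y *
          (∑ j' ∈ range (k + 1), 28 * G.θ j' * rnd G.Q (G.SS σ.C y j' k z) +
            ((μ k z - 2) * rnd G.Q (pi σ.C (G.ff y) 0 k z) + rnd G.Q (G.SS σ.C y 0 k z))) := by
      simp only [σ', sum_add_distrib, ← mul_sum, rnd]
      rw [sum_comm]
      simp only [← mul_sum, ← mul_div_assoc, ← sum_div]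
      field_simp
    have a5 : ∑ j' ∈ range (k + 1), 28 * G.θ j' * rnd G.Q (G.SS σ.C y j' k z) ≤
        ∑ j' ∈ range (k + 1), 28 * G.θ j' * (G.SS σ.C y j' k z + 1 / G.Q) :=
      sum_le_sum (fun j' _ => mul_le_mul_of_nonneg_left (rnd_le G.Q1 (G.SS_nonneg _ _ _ _ _))
        (by have := G.θ_pos j'; positivity))
    have a6 := rnd_le G.Q1 (G.SS_nonneg σ.C y 0 k z)
    have a7 := le_rnd G.Q1 ((pi_le_f (C := σ.C) (G.ff_unit y) 0 k z).trans (G.ff_unit y k z).2)
    have a8 : (1 - G.η) * G.W σ u k z y *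
          (∑ j' ∈ range (k + 1), 28 * G.θ j' * rnd G.Q (G.SS σ.C y j' k z) +
            ((μ k z - 2) * rnd G.Q (pi σ.C (G.ff y) 0 k z) + rnd G.Q (G.SS σ.C y 0 k z))) ≤
        (1 - G.η) * G.W σ u k z y *
          ((μ k z - 1) * rnd G.Q (pi σ.C (G.ff y) 0 k z) + G.cost σ.C y k z) := by
      refine mul_le_mul_of_nonneg_left ?_ (mul_nonneg (by have := G.η1; linarith) a2)
      unfold cost; linarith
    have a9 : 0 ≤ G.η * G.W σ u k z y * G.cost σ.C y k z := by
      have := G.η0; have := G.cost_nonneg σ.C y k z; positivity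
    have a10 : io j zo k z * ((1 - 4 * G.θ 0) * μ k z) * G.W σ u k z y ≤
        (io j zo k z * b k - 2 * G.θ 0 * (io j zo k z * b k)) * G.W σ u1 k z x := by
      unfold io
      split_ifs with e'
      · obtain ⟨rfl, rfl⟩ := e'
        have b1 := (hμ' k z hk).1
        have b2 := W_nonneg h.dom hu1 hk z x
        obtain ⟨b3, b4⟩ := hb k
        have b5 : (1 - 4 * G.θ 0) ≤ b k - 2 * G.θ 0 * b k := by nlinarith
        have b6 := mul_le_mul_of_nonneg_right b5 b2
        have b7 := mul_le_mul_of_nonneg_left b1 (show 0 ≤ 1 - 4 * G.θ 0 by linarith)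
        linarith
      · simp
    rw [e]
    unfold aff at a4
    linarith

end Geo

end Pool.Agent.Lib.MP_614955_co.Mach
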