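import Mathlib
import Pool.Agent.Lib.MP_614955_co.MachRound

set_option autoImplicit false

namespace Pool.Agent.Lib.MP_614955_co.Mach

open Finset Real

/-- The machine as a black box. -/
theorem machine {V : Type*} [Fintype V] [Nonempty V] (G : Geo V) :
    ∃ I : Finset V → (V → V → ℝ) → (V → ℝ) → Prop,
      (∀ f u ψ, G.Adm 0 u → (∀ T, ψ T ≤ -(16000 * G.lam 0)) → I f u ψ) ∧
      (∀ f u ψ f' u' ψ', I f u ψ → f' ⊆ f → G.Adm 0 u' → (∀ T p, u' T p ≤ u T p) →
        (∀ T, ψ' T ≤ ψ T) → I f' u' ψ') ∧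
      (∀ f u ψ y u1 Y, I f u ψ → y ∈ f → G.Adm 0 u1 → (∀ T p, u1 T p ≤ u T p + u T y) → Y ⊆ f →
        Y.Nonempty → ∃ x ∈ Y, I Y u1 (fun T => ψ T + (1 - 2 * G.η) * u T y - u1 T x)) ∧
      ∀ f u ψ, I f u ψ → ∀ T, ψ T ≤ 0 := by
  letI : LinearOrder V := LinearOrder.lift' (Fintype.equivFin V) (Fintype.equivFin V).injective
  refine ⟨fun f u ψ => ∃ σ, G.Inv0 f u ψ σ, fun f u ψ h1 h2 => Geo.init h1 h2, ?_, ?_, ?_⟩
  · rintro f u ψ f' u' ψ' ⟨σ, h⟩ h1 h2 h3 h4
    exact ⟨σ, h.mono h1 h2 h3 h4⟩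
  · rintro f u ψ y u1 Y ⟨σ, h⟩ h1 h2 h3 h4 h5
    obtain ⟨σ', h', hc⟩ := h.settle
    exact h'.step hc h1 h2 h3 h4 h5
  · rintro f u ψ ⟨σ, h⟩ T
    exact h.bound T

section

variable {V ι : Type*} [DecidableEq V] (Y : ι → Finset V) (w : ι → ℝ) (l : ℝ)

/-- Weight of a big set. -/
noncomputable def tm (M D : Finset V) (q : ι) : ℝ :=
  if Disjoint (Y q) D then w q * l ^ (Y q ∩ M).card else 0

/-- Mass through a point. -/
noncomputable def ms (S : Finset ι) (M D : Finset V) (p : V) : ℝ :=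
  ∑ q ∈ S, if p ∈ Y q then tm Y w l M D q else 0

variable {Y w l}

theorem tm_nonneg (hw : ∀ q, 0 ≤ w q) (hl : 0 ≤ l) (M D : Finset V) (q : ι) : 0 ≤ tm Y w l M D q := by
  have := hw q
  unfold tm; split_ifs <;> positivity

theorem tm_insert_M (hw : ∀ q, 0 ≤ w q) (hl : 1 ≤ l) (M D : Finset V) (y : V) (q : ι) :
    tm Y w l (insert y M) D q ≤
      tm Y w l M D q + (l - 1) * (if y ∈ Y q then tm Y w l M D q else 0) := by
  have h0 := hw q
  unfold tm
  split_ifs with h1 h2
  · have h3 : (Y q ∩ insert y M).card ≤ (Y q ∩ M).card + 1 := by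
      rw [inter_insert_of_mem h2]; exact card_insert_le _ _
    have h4 := mul_le_mul_of_nonneg_left (pow_le_pow_right₀ hl h3) h0
    rw [pow_succ] at h4
    linarith
  · rw [inter_insert_of_notMem h2]; simp
  · simp
  · simp

theorem tm_insert_D (M D : Finset V) (x : V) (q : ι) :
    tm Y w l M (insert x D) q = tm Y w l M D q - (if x ∈ Y q then tm Y w l M D q else 0) := by
  unfold tm
  simp only [disjoint_insert_right]
  by_cases h : x ∈ Y q <;> simp [h]

theorem ms_nonneg (hw : ∀ q, 0 ≤ w q) (hl : 0 ≤ l) (S : Finset ι) (M D : Finset V) (p : V) :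
    0 ≤ ms Y w l S M D p :=
  sum_nonneg (fun q _ => by have := tm_nonneg (Y := Y) hw hl M D q; split_ifs <;> linarith)

theorem ms_le (hw : ∀ q, 0 ≤ w q) (hl : 0 ≤ l) (S : Finset ι) (M D : Finset V) (p : V) :
    ms Y w l S M D p ≤ ∑ q ∈ S, tm Y w l M D q :=
  sum_le_sum (fun q _ => by have := tm_nonneg (Y := Y) hw hl M D q; split_ifs <;> linarith)

end

/-- A local form of the Erdos-Selfridge potential argument. -/
theorem localES {V ι : Type*} [Fintype V] [DecidableEq V] [Nonempty V]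
    (d : V → V → ℕ) (d_self : ∀ a, d a a = 0) (d_symm : ∀ a b, d a b = d b a)
    (d_tri : ∀ a b c, d a c ≤ d a b + d b c) (L : ℝ) (hL : 1 ≤ L)
    (grow : ∀ a (r : ℕ), 1 ≤ r → ((univ.filter (fun b => d a b ≤ r)).card : ℝ) ≤ exp (L * r))
    (N : ℕ) (hN : ∀ a b, d a b ≤ N) (η : ℝ) (η0 : 0 < η) (η1 : η ≤ 1 / 4) (r0 : ℕ) (hr0 : 1 ≤ r0)
    (T : V → Finset ι) (Y : ι → Finset V) (w : ι → ℝ) (hw : ∀ q, 0 ≤ w q)
    (hsupp : ∀ z, ∀ q ∈ T z, ∀ p ∈ Y q, d z p ≤ r0) (hsum : ∀ z, ∑ q ∈ T z, w q ≤ 1) :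
    ∃ P : Finset V → Finset V → Finset V → Prop, P univ ∅ ∅ ∧
      (∀ f f' M D, P f M D → f' ⊆ f → P f' M D) ∧
      (∀ f M D y, P f M D → y ∈ f → (∀ f' ⊆ f, f'.Nonempty →
        ∃ x ∈ f', P f' (insert y M) (insert x D)) ∧ P ∅ (insert y M) D) ∧
      ∀ f M D, P f M D → ∀ z, ∀ q ∈ T z, Disjoint (Y q) D →
        w q * (2 - 2 * η) ^ (Y q ∩ M).card ≤ exp (2 * 10 ^ 12 * L * r0 / η ^ 2) := by
  have hr0' : (1 : ℝ) ≤ r0 := by exact_mod_cast hr0
  have hc1 := Nat.le_ceil (4000 * (r0 : ℝ) / η)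
  have hc2 := Nat.ceil_lt_add_one (a := 4000 * (r0 : ℝ) / η) (by positivity)
  have hc3 := Nat.le_ceil (100 * (((N + 1 : ℕ) : ℝ) * Fintype.card V) / η)
  rw [div_le_iff₀ η0] at hc1 hc3
  let G : Geo V :=
    { d := d, L := L, η := η, r0 := r0, r1 := ⌈4000 * (r0 : ℝ) / η⌉₊, K := N + 1,
      Q := ⌈100 * (((N + 1 : ℕ) : ℝ) * Fintype.card V) / η⌉₊ + 1,
      d_self := d_self, d_symm := d_symm, d_tri := d_tri, L1 := hL, grow := grow, η0 := η0,
      η1 := η1, r1pos := Nat.ceil_pos.mpr (by positivity), hr := by linarith, K1 := by omega,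
      top := fun a b => by
        have h1 := hN a b
        have h2 : N < 10 ^ N := Nat.lt_pow_self (by norm_num)
        have h3 : 1 ≤ ⌈4000 * (r0 : ℝ) / η⌉₊ := Nat.ceil_pos.mpr (by positivity)
        rw [Nat.add_sub_cancel]
        nlinarith
      hQ := by push_cast at hc3 ⊢; linarith
      Q1 := by omega }
  obtain ⟨I, i1, i2, i3, i4⟩ := machine G
  set l := 2 - 2 * η with hl
  have l1 : 1 ≤ l := by linarith
  have l0 : 0 ≤ l := by linarith
  set θ := η / 20000 with hθ
  have θ0 : 0 < θ := by positivity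
  have eθ : G.θ 0 = θ := by simp [Geo.θ, G, hθ]
  set κ := 1 + 16000 * G.lam 0 / θ with hκ
  have hκ' : κ + 1 ≤ 2 * 10 ^ 12 * L * r0 / η ^ 2 := by
    have a1 : (⌈4000 * (r0 : ℝ) / η⌉₊ : ℝ) ≤ 4001 * r0 / η := by
      have : 1 ≤ (r0 : ℝ) / η := by rw [le_div_iff₀ η0]; linarith
      have e : 4001 * (r0 : ℝ) / η = 4000 * r0 / η + r0 / η := by ring
      linarith
    have a2 : G.lam 0 ≤ L * (4001 * r0 / η) := by
      simp only [Geo.lam, Geo.r, G, pow_zero, mul_one]
      exact mul_le_mul_of_nonneg_left a1 (by linarith)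
    have a3 : 16000 * G.lam 0 / θ ≤ 16000 * (L * (4001 * r0 / η)) / θ :=
      div_le_div_of_nonneg_right (by linarith) θ0.le
    have a4 : 16000 * (L * (4001 * r0 / η)) / θ = 320000000 * 4001 * (L * r0 / η ^ 2) := by
      rw [hθ]; field_simp; norm_num
    have a5 : 1 ≤ L * r0 / η ^ 2 := by
      rw [le_div_iff₀ (by positivity)]; nlinarith
    have e : 2 * 10 ^ 12 * L * r0 / η ^ 2 = 2 * 10 ^ 12 * (L * r0 / η ^ 2) := by ring
    linarith
  let E : Finset V → Finset V → V → ℝ := fun M D z => ∑ q ∈ T z, tm Y w l M D q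
  let uu : Finset V → Finset V → (V → ℝ) → V → V → ℝ :=
    fun M D s z p => θ * (ms Y w l (T z) M D p / s z)
  let pp : Finset V → Finset V → (V → ℝ) → V → ℝ :=
    fun M D s z => θ * (E M D z / s z + log (s z) - κ)
  have hadm : ∀ M D s, (∀ z, 0 < s z ∧ E M D z ≤ s z) → G.Adm 0 (uu M D s) := by
    intro M D s hs z p
    obtain ⟨s0, s1⟩ := hs z
    have a1 := ms_nonneg (Y := Y) hw l0 (T z) M D p
    refine ⟨by positivity, ?_, fun h => ?_⟩
    · rw [eθ]
      exact mul_le_of_le_one_right θ0.le ((div_le_one s0).mpr ((ms_le hw l0 _ _ _ _).trans s1))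
    · have a2 : ms Y w l (T z) M D p ≠ 0 := fun e => h (by simp [uu, e])
      obtain ⟨q, hq, hne⟩ := exists_ne_zero_of_sum_ne_zero a2
      exact hsupp z q hq p (by by_contra hp; exact hne (if_neg hp))
  let P0 : Finset V → Finset V → Finset V → Prop := fun f M D =>
    ∃ s : V → ℝ, (∀ z, 0 < s z ∧ E M D z ≤ s z) ∧ I f (uu M D s) (pp M D s)
  have hE0 : ∀ M D z, 0 ≤ E M D z := fun M D z => sum_nonneg (fun q _ => tm_nonneg hw l0 M D q)
  have hbd : ∀ f M D, P0 f M D → ∀ z, E M D z ≤ exp κ := by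
    rintro f M D ⟨s, hs, hI⟩ z
    obtain ⟨s0, s1⟩ := hs z
    have a1 : E M D z / s z + log (s z) - κ ≤ 0 := by
      have := i4 _ _ _ hI z
      by_contra hc
      have := mul_pos θ0 (not_le.mp hc)
      simp only [pp] at *
      linarith
    have a2 := div_nonneg (hE0 M D z) s0.le
    exact s1.trans ((log_le_iff_le_exp s0).mp (by linarith))
  have hEM : ∀ M D y z, E (insert y M) D z ≤ E M D z + (l - 1) * ms Y w l (T z) M D y := by
    intro M D y z
    simp only [E, ms, mul_sum, ← sum_add_distrib]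
    exact sum_le_sum (fun q _ => tm_insert_M hw l1 M D y q)
  refine ⟨fun f M D => P0 f M D ∨ (f = ∅ ∧ ∀ z, E M D z ≤ 2 * exp κ), Or.inl ⟨fun _ => 1, ?_⟩,
    ?_, ?_, ?_⟩
  · have hs : ∀ z, 0 < (fun _ => 1 : V → ℝ) z ∧ E ∅ ∅ z ≤ (fun _ => 1 : V → ℝ) z :=
      fun z => ⟨one_pos, by simpa [E, tm] using hsum z⟩
    refine ⟨hs, i1 _ _ _ (hadm _ _ _ hs) (fun z => ?_)⟩
    have a1 := (hs z).2
    have e : θ * κ = θ + 16000 * G.lam 0 := by rw [hκ]; field_simp
    simp only [pp, log_one, div_one] at a1 ⊢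
    nlinarith
  · rintro f f' M D (⟨s, hs, hI⟩ | ⟨rfl, h⟩) hf
    · exact Or.inl ⟨s, hs, i2 _ _ _ _ _ _ hI hf (hadm _ _ _ hs) (fun _ _ => le_rfl) (fun _ => le_rfl)⟩
    · exact Or.inr ⟨subset_empty.mp hf, h⟩
  · rintro f M D y (hP | ⟨rfl, -⟩) hy
    swap
    · simp at hy
    refine ⟨fun f' hf hne => ?_, Or.inr ⟨rfl, fun z => ?_⟩⟩
    · obtain ⟨s, hs, hI⟩ := hP
      let s' : V → ℝ := fun z => max (s z) (E (insert y M) D z)
      have hs' : ∀ z, 0 < s' z ∧ E (insert y M) D z ≤ s' z :=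
        fun z => ⟨(hs z).1.trans_le (le_max_left _ _), le_max_right _ _⟩
      obtain ⟨x, hx, hI'⟩ := i3 f _ _ y (uu (insert y M) D s') f' hI hy (hadm _ _ _ hs')
        (fun z p => by
          have a1 : ms Y w l (T z) (insert y M) D p ≤ ms Y w l (T z) M D p + ms Y w l (T z) M D y := by
            simp only [ms, ← sum_add_distrib]
            refine sum_le_sum (fun q _ => ?_)
            have b1 := tm_insert_M (Y := Y) hw l1 M D y q
            have b2 := tm_nonneg (Y := Y) hw l0 M D q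
            split_ifs at b1 ⊢ <;> nlinarith
          simp only [uu]
          rw [← mul_add, ← add_div]
          refine mul_le_mul_of_nonneg_left ?_ θ0.le
          exact (div_le_div_of_nonneg_left (ms_nonneg hw l0 _ _ _ _) (hs z).1 (le_max_left _ _)).trans
            (div_le_div_of_nonneg_right a1 (hs z).1.le)) hf hne
      have hED : ∀ z, E (insert y M) (insert x D) z =
          E (insert y M) D z - ms Y w l (T z) (insert y M) D x := by
        intro z
        simp only [E, ms, tm_insert_D, sum_sub_distrib]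
      have hs'' : ∀ z, 0 < s' z ∧ E (insert y M) (insert x D) z ≤ s' z := fun z =>
        ⟨(hs' z).1, by have := ms_nonneg (Y := Y) hw l0 (T z) (insert y M) D x
                       have := (hs' z).2
                       rw [hED]; linarith⟩
      refine ⟨x, hx, Or.inl ⟨s', hs'', i2 _ _ _ _ _ _ hI' Subset.rfl (hadm _ _ _ hs'')
        (fun z p => ?_) (fun z => ?_)⟩⟩
      · refine mul_le_mul_of_nonneg_left (div_le_div_of_nonneg_right ?_ (hs' z).1.le) θ0.le
        refine sum_le_sum (fun q _ => ?_)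
        have b2 := tm_nonneg (Y := Y) hw l0 (insert y M) D q
        rw [tm_insert_D]
        split_ifs <;> linarith
      · have a1 : E (insert y M) D z / s' z + log (s' z) ≤ E (insert y M) D z / s z + log (s z) :=
          runmax (hs z).1
        have a2 := div_le_div_of_nonneg_right (hEM M D y z) (hs z).1.le
        have e : G.η = η := rfl
        rw [add_div, mul_div_assoc] at a2
        simp only [pp, uu, hED, sub_div, e]
        have e2 : l - 1 = 1 - 2 * η := by rw [hl]; ring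
        rw [e2] at a2
        nlinarith
    · have a1 := hbd _ _ _ hP z
      have a2 := hEM M D y z
      have a3 := ms_le (Y := Y) hw l0 (T z) M D y
      have a4 := ms_nonneg (Y := Y) hw l0 (T z) M D y
      have a5 : E M D z = ∑ q ∈ T z, tm Y w l M D q := rfl
      nlinarith
  · intro f M D hP z q hq hd
    have a1 : E M D z ≤ 2 * exp κ := by
      rcases hP with hP | ⟨-, h⟩
      · have := hbd _ _ _ hP z; have := exp_pos κ; linarith
      · exact h z
    have a2 : tm Y w l M D q ≤ E M D z :=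
      single_le_sum (f := tm Y w l M D) (fun q _ => tm_nonneg hw l0 M D q) hq
    have a3 : (2 : ℝ) ≤ exp 1 := by have := add_one_le_exp (1 : ℝ); linarith
    have a4 := exp_le_exp.mpr hκ'
    rw [exp_add] at a4
    unfold tm at a2
    rw [if_pos hd] at a2
    nlinarith [exp_pos κ]

/-- The distance of the graph of points lying in a common set. -/
theorem exists_dist {V : Type*} [Fintype V] [DecidableEq V] (F : Finset (Finset V)) (n D : ℕ)
    (hn : ∀ A ∈ F, A.card ≤ n) (hD : ∀ x : V, (F.filter (fun A => x ∈ A)).card ≤ D) (L : ℝ)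
    (hL1 : 1 ≤ L) (hL : (n * D + 1 : ℝ) ≤ exp L) :
    ∃ d : V → V → ℕ, (∀ a, d a a = 0) ∧ (∀ a b, d a b = d b a) ∧
      (∀ a b c, d a c ≤ d a b + d b c) ∧
      (∀ a (r : ℕ), 1 ≤ r → ((univ.filter (fun b => d a b ≤ r)).card : ℝ) ≤ exp (L * r)) ∧
      (∀ a b, d a b ≤ Fintype.card V) ∧ ∀ A ∈ F, ∀ a ∈ A, ∀ b ∈ A, d a b ≤ 1 := by
  classical
  let G : SimpleGraph V := SimpleGraph.fromRel (fun a b => ∃ A ∈ F, a ∈ A ∧ b ∈ A)
  set N := Fintype.card V with hN
  have hfin : ∀ a b, min (G.edist a b) (N : ℕ∞) ≠ ⊤ := fun a b =>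
    ne_top_of_le_ne_top (ENat.coe_ne_top N) (min_le_right _ _)
  have hle : ∀ a b (r : ℕ), (min (G.edist a b) (N : ℕ∞)).toNat ≤ r ↔ min (G.edist a b) (N : ℕ∞) ≤ r := by
    intro a b r
    rw [← ENat.coe_toNat (hfin a b), ENat.toNat_coe, Nat.cast_le]
  have hball : ∀ a (r : ℕ), (univ.filter (fun b => G.edist a b ≤ r)).card ≤ (n * D + 1) ^ r := by
    intro a r
    induction r with
    | zero =>
      rw [pow_zero, card_le_one]
      intro b hb c hc
      have h1 := (mem_filter.mp hb).2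
      have h2 := (mem_filter.mp hc).2
      simp only [Nat.cast_zero, nonpos_iff_eq_zero, SimpleGraph.edist_eq_zero_iff] at h1 h2
      exact h1.symm.trans h2
    | succ r ih =>
      have hs : univ.filter (fun b => G.edist a b ≤ (r + 1 : ℕ)) ⊆
          (univ.filter (fun b => G.edist a b ≤ r)).biUnion
            (fun c => insert c ((F.filter (fun A => c ∈ A)).biUnion id)) := by
        intro b hb
        have h1 := (mem_filter.mp hb).2
        obtain ⟨p, hp⟩ := SimpleGraph.exists_walk_of_edist_ne_top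
          (ne_top_of_le_ne_top (ENat.coe_ne_top _) h1)
        rw [← hp, Nat.cast_le] at h1
        simp only [mem_biUnion, mem_filter, mem_univ, true_and, mem_insert, id]
        cases hq : p.reverse with
        | nil => exact ⟨a, by simp, Or.inl rfl⟩
        | @cons _ c _ h q =>
          have h2 : p.length = q.length + 1 := by
            rw [← SimpleGraph.Walk.length_reverse, hq]; simp
          refine ⟨c, ?_, Or.inr ?_⟩
          · rw [SimpleGraph.edist_comm]
            exact (SimpleGraph.edist_le q).trans (by exact_mod_cast (by omega : q.length ≤ r))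
          · rcases ((SimpleGraph.fromRel_adj _ _ _).mp h).2 with ⟨A, h3, h4, h5⟩ | ⟨A, h3, h4, h5⟩
            · exact ⟨A, ⟨h3, h5⟩, h4⟩
            · exact ⟨A, ⟨h3, h4⟩, h5⟩
      refine (card_le_card hs).trans ((card_biUnion_le_card_mul _ _ (n * D + 1) ?_).trans ?_)
      · intro c _
        refine (card_insert_le _ _).trans (Nat.succ_le_succ ?_)
        refine (card_biUnion_le_card_mul _ _ n (fun A hA => hn A (mem_filter.mp hA).1)).trans ?_
        rw [mul_comm]; exact Nat.mul_le_mul_left _ (hD c)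
      · rw [pow_succ]; exact Nat.mul_le_mul_right _ ih
  refine ⟨fun a b => (min (G.edist a b) (N : ℕ∞)).toNat, fun a => by simp, fun a b => by
    simp only [SimpleGraph.edist_comm], fun a b c => ?_, fun a r hr => ?_,
    fun a b => (hle a b N).mpr (min_le_right _ _), fun A hA a ha b hb => (hle a b 1).mpr ?_⟩
  · rw [hle, Nat.cast_add, ENat.coe_toNat (hfin a b), ENat.coe_toNat (hfin b c)]
    have h1 : G.edist a c ≤ G.edist a b + G.edist b c := SimpleGraph.edist_triangle
    rcases le_total (G.edist a b) N with h2 | h2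
    · rcases le_total (G.edist b c) N with h3 | h3
      · rw [min_eq_left h2, min_eq_left h3]; exact (min_le_left _ _).trans h1
      · rw [min_eq_right h3]; exact (min_le_right _ _).trans le_add_self
    · rw [min_eq_right h2]; exact (min_le_right _ _).trans le_self_add
  · by_cases h : N ≤ r
    · have h1 : ((univ.filter (fun b => (min (G.edist a b) (N : ℕ∞)).toNat ≤ r)).card : ℝ) ≤ r := by
        exact_mod_cast (card_le_univ _).trans h
      have h2 := add_one_le_exp (L * r)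
      have h3 : (0 : ℝ) ≤ r := by positivity
      nlinarith
    · have h1 : univ.filter (fun b => (min (G.edist a b) (N : ℕ∞)).toNat ≤ r) ⊆
          univ.filter (fun b => G.edist a b ≤ r) := by
        intro b hb
        have h2 := (hle a b r).mp (mem_filter.mp hb).2
        exact mem_filter.mpr ⟨mem_univ _, (min_le_iff.mp h2).resolve_right
          (fun h3 => h (by exact_mod_cast h3))⟩
      have h2 : ((univ.filter (fun b => (min (G.edist a b) (N : ℕ∞)).toNat ≤ r)).card : ℝ) ≤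
          (n * D + 1 : ℝ) ^ r := by exact_mod_cast (card_le_card h1).trans (hball a r)
      refine h2.trans ((pow_le_pow_left₀ (by positivity) hL r).trans (le_of_eq ?_))
      rw [← exp_nat_mul, mul_comm]
  · refine (min_le_left _ _).trans ?_
    by_cases e : a = b
    · simp [e]
    · exact (SimpleGraph.edist_eq_one_iff_adj.mpr
        ((SimpleGraph.fromRel_adj _ _ _).mpr ⟨e, Or.inl ⟨A, hA, ha, hb⟩⟩)).le

end Pool.Agent.Lib.MP_614955_co.Mach
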