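import Mathlib
import Pool.Agent.Lib.MP_614955_co.ADMove
import Pool.Agent.Lib.MP_614955_co.LocalES

set_option autoImplicit false

namespace Pool.Agent.Lib.MP_614955_co.ADQ

open Finset Pool.Agent.Lib.MP_614955_co.Mach

theorem cb_le {n x u : ℕ} (hn : n + 1 ≤ 2 ^ u) (hx : x ≤ 2 ^ u) :
    ∀ i, cb n x i * 2 ^ u ≤ 2 ^ (2 ^ (i + 1) * u)
  | 0 => by
    simp only [cb, zero_add, pow_one, two_mul, pow_add]
    exact Nat.mul_le_mul_right _ hx
  | i + 1 => by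
    have h := Nat.pow_le_pow_left (cb_le hn hx i) 2
    rw [← pow_mul, mul_comm _ 2, ← mul_assoc, ← pow_succ'] at h
    refine le_trans ?_ h
    simp only [cb]
    calc (n + 1) * cb n x i ^ 2 * 2 ^ u ≤ 2 ^ u * cb n x i ^ 2 * 2 ^ u :=
          Nat.mul_le_mul_right _ (Nat.mul_le_mul_right _ hn)
      _ = _ := by ring

theorem AD.exists_big {V : Type*} [DecidableEq V] [Fintype V] [Nonempty V] (P : AD V)
    (hs : ∀ a b, P.δ a b = P.δ b a)
    (hg : ∀ a (r : ℕ), 1 ≤ r →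
      ((univ.filter (fun b => P.δ a b ≤ r)).card : ℝ) ≤ Real.exp (2 * P.n * r))
    (hN : ∀ a b, P.δ a b ≤ Fintype.card V) (hL : 2 * 10 ^ 14 * P.r0 * P.n ^ 3 ≤ P.Lw) :
    Nonempty P.Big := by
  have hn : 1 ≤ P.n := by have := P.h6; omega
  have hn' : (1 : ℝ) ≤ P.n := by exact_mod_cast hn
  have hr : 1 ≤ P.r0 := by unfold AD.r0; omega
  have hr' : (1 : ℝ) ≤ P.r0 := by exact_mod_cast hr
  have η1 : 1 / (4 * P.n : ℝ) ≤ 1 / 4 := one_div_le_one_div_of_le (by norm_num) (by linarith)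
  obtain ⟨Pm, p1, p2, p3, p4⟩ := localES P.δ P.δ0 hs P.δt (2 * P.n) (by linarith) hg _ hN
    (1 / (4 * P.n)) (by positivity) η1 P.r0 hr P.TT (fun q => XX q.1 q.2)
    (fun q => (1 / 2 : ℝ) ^ P.cost q.2) (fun _ => by positivity)
    (fun z q hq p hp => by
      obtain ⟨l, hl, rfl⟩ := mem_image.mp hq
      simp only [mem_filter] at hl
      exact hl.2 p hp) P.sum_TT
  refine ⟨⟨Pm, p1, p2, p3, fun f M D hP z q hq hd h1 h2 h3 => ?_⟩⟩
  have h4 := p4 f M D hP z q hq hd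
  set m := (XX q.1 q.2 ∩ M).card with hm
  set len := q.2.length
  have h5 : m ≤ P.n * (len + 1) := by
    have := card_le_card (inter_subset_left (s₁ := XX q.1 q.2) (s₂ := M))
    rw [mul_add]; omega
  have a0 : (0 : ℝ) ≤ 1 - 1 / (4 * P.n) := by linarith
  have a1 : (3 / 4 : ℝ) ≤ (1 - 1 / (4 * P.n)) ^ P.n := by
    have := one_add_mul_le_pow (a := -(1 / (4 * P.n) : ℝ)) (by linarith) P.n
    have e : (1 : ℝ) + P.n * -(1 / (4 * P.n)) = 3 / 4 := by field_simp; ring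
    rw [e, ← sub_eq_add_neg] at this
    exact this
  have a2 : (3 / 4 : ℝ) ^ (len + 1) ≤ (1 - 1 / (4 * P.n)) ^ m := by
    refine (pow_le_pow_left₀ (by norm_num) a1 _).trans ?_
    rw [← pow_mul]
    exact pow_le_pow_of_le_one a0 (by have : (0 : ℝ) ≤ 1 / (4 * P.n) := by positivity
                                      linarith) h5
  have a3 : (2 : ℝ) ^ len ≤ (1 / 2) ^ P.cost q.2 * 2 ^ m := by
    rw [one_div_pow, one_div_mul_eq_div, le_div_iff₀ (by positivity), ← pow_add, add_comm]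
    exact pow_le_pow_right₀ (by norm_num) h3
  have a4 : Real.exp (1 / 3) ≤ 3 / 2 := by
    have := Real.exp_bound_div_one_sub_of_interval' (x := 1 / 3) (by norm_num) (by norm_num)
    linarith
  have a5 : Real.exp (len * (1 / 3)) ≤ (3 / 2 : ℝ) ^ len := by
    rw [Real.exp_nat_mul]; exact pow_le_pow_left₀ (Real.exp_pos _).le a4 len
  have a6 : (2 - 2 * (1 / (4 * P.n)) : ℝ) ^ m = 2 ^ m * (1 - 1 / (4 * P.n)) ^ m := by
    rw [← mul_pow]; congr 1; ring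
  have a7 : (3 / 4 : ℝ) * (3 / 2) ^ len = 2 ^ len * (3 / 4) ^ (len + 1) := by
    rw [pow_succ, ← mul_assoc, ← mul_pow]; norm_num; ring
  rw [a6, ← mul_assoc] at h4
  have a8 := (mul_le_mul a3 a2 (by positivity) (by positivity)).trans h4
  have a9 : Real.exp (-1) ≤ 3 / 4 := by
    have := Real.exp_neg_one_lt_d9; linarith
  have a10 : Real.exp (-1 + len * (1 / 3)) ≤ 3 / 4 * (3 / 2) ^ len := by
    rw [Real.exp_add]; exact mul_le_mul a9 a5 (Real.exp_pos _).le (by norm_num)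
  rw [← a7] at a8
  have a11 := Real.exp_le_exp.mp (a10.trans a8)
  have e : 2 * 10 ^ 12 * (2 * P.n) * P.r0 / (1 / (4 * P.n) : ℝ) ^ 2 =
      64 * 10 ^ 12 * (P.r0 * P.n ^ 3) := by field_simp; ring
  have a12 : (2 * 10 ^ 14 * P.r0 * P.n ^ 3 : ℝ) ≤ len := by exact_mod_cast hL.trans h1
  have a13 : (1 : ℝ) ≤ P.r0 * P.n ^ 3 := one_le_mul_of_one_le_of_one_le hr' (one_le_pow₀ hn')
  rw [e] at a11
  nlinarith

theorem draw_of_params (J : ℕ) : ∃ C : ℕ, 1 ≤ C ∧ ∀ (V : Type*) [Fintype V] [DecidableEq V]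
    [Nonempty V] (F : Finset (Finset V)) (n b m : ℕ), 1 ≤ n → n < 2 ^ m →
    (C * n ^ 4) ^ 2 < b ^ (J + 1) → 2 ≤ b → 4 * (C * m * b) ≤ n → (∀ A ∈ F, A.card = n) →
    (∀ A ∈ F, ∀ B ∈ F, A ≠ B → (A ∩ B).card ≤ 1) →
    (∀ x : V, (F.filter (fun A => x ∈ A)).card ≤ 2 ^ (n - C * m * b)) →
    ∃ τ : List V → V, ∀ m : ℕ → V,
      (∀ k < Fintype.card V, Odd k → m k = τ (List.ofFn (fun i : Fin k => m i.val))) →
      (∀ k < Fintype.card V, Even k → ∀ i < k, m i ≠ m k) →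
      (∀ k < Fintype.card V, Odd k → ∀ i < k, m i ≠ m k) ∧
      ∀ A ∈ F, ∃ k < Fintype.card V, Odd k ∧ m k ∈ A := by
  obtain ⟨ρ, hρ⟩ : ∃ ρ, ρ = rho (J + 1) := ⟨_, rfl⟩
  obtain ⟨c, hc⟩ : ∃ c, c = 2 * 10 ^ 14 * (ρ + J + 2) := ⟨_, rfl⟩
  obtain ⟨κ, hκ⟩ : ∃ κ, κ = 2 ^ (J + 2) * (c + 6) := ⟨_, rfl⟩
  obtain ⟨Γ, hΓ⟩ : ∃ Γ, Γ = (ρ + 1) * (2 * κ + 3) + 8 * (J + 2) + 1 := ⟨_, rfl⟩
  obtain ⟨C1, hC1⟩ : ∃ C1, C1 = 2 * ((4 * κ + 4) * (J + 1)) := ⟨_, rfl⟩
  obtain ⟨C2, hC2⟩ : ∃ C2, C2 = 1 + (2 * κ + 2) + 2 * (Γ * 2 ^ (J + 1)) := ⟨_, rfl⟩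
  obtain ⟨C3, hC3⟩ : ∃ C3, C3 = c + 2 + 2 * (ρ + 1 + 2 * (J + 2)) := ⟨_, rfl⟩
  refine ⟨C1 + C2 + C3, by omega, ?_⟩
  intro V _ _ _ F n b m hn hm hb b2 hC hunif had hdeg
  have m1 : 1 ≤ m := by
    by_contra h
    rw [show m = 0 by omega] at hm
    omega
  have hx : 1 + n * (c * n ^ 3 + n) ≤ (c + 2) * n ^ 4 := by
    have a1 : 1 ≤ n ^ 4 := Nat.one_le_pow _ _ hn
    have a2 : n ^ 2 ≤ n ^ 4 := Nat.pow_le_pow_right hn (by norm_num)
    nlinarith
  have hu1 : n + 1 ≤ 2 ^ ((c + 6) * m) :=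
    (Nat.succ_le_of_lt hm).trans (Nat.pow_le_pow_right (by norm_num) (Nat.le_mul_of_pos_left _ (by omega)))
  have hu2 : 1 + n * (c * n ^ 3 + n) ≤ 2 ^ ((c + 6) * m) := by
    have a1 : c + 2 ≤ 2 ^ ((c + 2) * m) := Nat.lt_two_pow_self.le.trans
      (Nat.pow_le_pow_right (by norm_num) (Nat.le_mul_of_pos_right _ m1))
    have a2 := Nat.pow_le_pow_left hm.le 4
    rw [← pow_mul] at a2
    refine hx.trans ((Nat.mul_le_mul a1 a2).trans (le_of_eq ?_))
    rw [← pow_add]; congr 1; ring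
  have hcb : cb n (1 + n * (c * n ^ 3 + n)) (J + 1) ^ 2 ≤ 2 ^ (2 * κ * m) := by
    have a1 := (Nat.le_mul_of_pos_right _ (by positivity)).trans (cb_le hu1 hu2 (J + 1))
    have a2 := Nat.pow_le_pow_left a1 2
    rw [← pow_mul] at a2
    refine a2.trans (le_of_eq ?_)
    rw [hκ]; congr 1; ring
  have hg : 2 * ((4 * κ + 4) * m * (b * (J + 1))) + 1 + (2 * κ + 2) * m + 2 * (Γ * m * 2 ^ (J + 1)) +
      C3 ≤ (C1 + C2 + C3) * m * b := by
    have a1 : 2 * ((4 * κ + 4) * m * (b * (J + 1))) = C1 * m * b := by rw [hC1]; ring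
    have a2 : 1 + (2 * κ + 2) * m + 2 * (Γ * m * 2 ^ (J + 1)) ≤ C2 * m := by
      rw [hC2]; nlinarith
    have a3 : C2 * m ≤ C2 * m * b := Nat.le_mul_of_pos_right _ (by omega)
    have a4 : C3 ≤ C3 * m * b := (Nat.le_mul_of_pos_right _ m1).trans
      (Nat.le_mul_of_pos_right _ (by omega))
    have e : (C1 + C2 + C3) * m * b = C1 * m * b + C2 * m * b + C3 * m * b := by ring
    omega
  have hΓm : Γ ≤ Γ * m := Nat.le_mul_of_pos_right _ m1
  have hn' : (1 : ℝ) ≤ n := by exact_mod_cast hn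
  obtain ⟨δ, d1, d2, d3, d4, d5, d6⟩ := exists_dist F n (2 ^ n) (fun A hA => (hunif A hA).le)
    (fun x => (hdeg x).trans (Nat.pow_le_pow_right (by norm_num) (Nat.sub_le _ _))) (2 * n)
    (by linarith) (by
      have a1 := Real.add_one_le_exp (n : ℝ)
      have a2 : (2 : ℝ) ^ n ≤ Real.exp n := by
        rw [← mul_one (n : ℝ), Real.exp_nat_mul]
        exact pow_le_pow_left₀ (by norm_num) (by have := Real.add_one_le_exp (1 : ℝ); linarith) n
      have a3 : (1 : ℝ) ≤ 2 ^ n := one_le_pow₀ (by norm_num)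
      rw [two_mul, Real.exp_add]
      push_cast
      nlinarith)
  let P : AD V :=
    { F := F, n := n, d := n - (C1 + C2 + C3) * m * b, J := J, b := b, t := (4 * κ + 4) * m,
      a := (2 * κ + 2) * m, γ := Γ * m, ν := n / (Γ * m) + 1, Lw := c * n ^ 3, S := 2 ^ (2 * κ * m),
      δ := δ, unif := hunif, ad := had, deg := hdeg, δ0 := d1, δ1 := d6, δt := d3,
      t2 := by nlinarith, b2 := b2, g8 := by omega,
      h1 := by
        refine (Nat.mul_le_mul_left 4 hcb).trans ?_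
        rw [show 4 = 2 ^ 2 by norm_num, ← pow_add]
        exact Nat.pow_le_pow_right (by norm_num) (by nlinarith)
      h2 := by omega
      h3 := by omega
      h4 := by omega
      h5 := (Nat.lt_mul_div_succ n (by omega)).le
      h6 := by
        have a1 := Nat.mul_div_le n (Γ * m)
        have a2 := Nat.mul_le_mul_right (n / (Γ * m)) (show 8 * (J + 2) ≤ Γ * m by omega)
        have e : (J + 2) * (n / (Γ * m) + 1 + 1) = (J + 2) * (n / (Γ * m)) + 2 * (J + 2) := by ring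
        rw [mul_assoc] at a2
        omega
      h7 := by
        have a1 : (ρ + 1) * ((2 * κ + 2) * m + 1) ≤ (ρ + 1) * ((2 * κ + 3) * m) :=
          Nat.mul_le_mul_left _ (by nlinarith)
        have e : Γ * m = (ρ + 1) * ((2 * κ + 3) * m) + (8 * (J + 2) + 1) * m := by rw [hΓ]; ring
        have a2 : 1 ≤ (8 * (J + 2) + 1) * m := Nat.mul_pos (by omega) m1
        rw [← hρ]; omega
      h8 := lt_of_le_of_lt (Nat.pow_le_pow_left (hx.trans (Nat.mul_le_mul_right _ (by omega))) 2) hb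
      h9 := hcb
      h10 := by
        have a1 : n * 2 ^ (2 * κ * m) < 2 ^ m * 2 ^ (2 * κ * m) :=
          Nat.mul_lt_mul_of_pos_right hm (by positivity)
        have a2 := Nat.pow_lt_pow_left a1 (show 2 ≠ 0 by norm_num)
        rw [← pow_add, ← pow_mul] at a2
        have a3 : 2 ^ ((m + 2 * κ * m) * 2 + 1) ≤ 2 ^ ((4 * κ + 4) * m) :=
          Nat.pow_le_pow_right (by norm_num) (by nlinarith)
        rw [pow_succ] at a3
        omega }
  obtain ⟨G⟩ := P.exists_big d2 d4 d5 (by simp only [P, AD.r0, ← hρ, hc]; exact le_rfl)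
  exact AD.strong_draw G

end Pool.Agent.Lib.MP_614955_co.ADQ
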