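import Mathlib

set_option autoImplicit false

namespace Pool.Agent.Lib.MP_614955_co.Cx

open Finset

/-- From invariants of positions to an explicit winning strategy of the first player. -/
theorem first_of_inv {V : Type} [Fintype V] [DecidableEq V] [Nonempty V] (F : Finset (Finset V))
    (PM PB : Finset V → Finset V → Prop) (h0 : PM ∅ ∅)
    (h1 : ∀ M B, PM M B → (∃ x, x ∉ M ∧ x ∉ B) → ∃ x, x ∉ M ∧ x ∉ B ∧ PB (insert x M) B)
    (h2 : ∀ M B y, PB M B → y ∉ M → y ∉ B → PM M (insert y B))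
    (h3 : ∀ M B, PM M B ∨ PB M B → (∀ x, x ∈ M ∨ x ∈ B) → ∃ A ∈ F, A ⊆ M) :
    ∃ σ : List V → V, ∀ m : ℕ → V,
      (∀ k < Fintype.card V, Even k → m k = σ (List.ofFn (fun i : Fin k => m i.val))) →
      (∀ k < Fintype.card V, Odd k → ∀ i < k, m i ≠ m k) →
      (∀ k < Fintype.card V, Even k → ∀ i < k, m i ≠ m k) ∧
      ∃ A ∈ F, ∀ x ∈ A, ∃ k < Fintype.card V, Even k ∧ m k = x := by
  classical
  obtain ⟨v0⟩ := ‹Nonempty V›
  let s : Finset V → Finset V → V := fun M B =>
    if h : ∃ x, x ∉ M ∧ x ∉ B ∧ PB (insert x M) B then Classical.choose h else v0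
  have hs : ∀ M B, (∃ x, x ∉ M ∧ x ∉ B ∧ PB (insert x M) B) →
      s M B ∉ M ∧ s M B ∉ B ∧ PB (insert (s M B) M) B := by
    intro M B h
    have : s M B = Classical.choose h := by simp only [s]; rw [dif_pos h]
    rw [this]; exact Classical.choose_spec h
  refine ⟨fun l => s (((range l.length).filter Even).image (fun i => l.getD i v0))
    (((range l.length).filter Odd).image (fun i => l.getD i v0)), ?_⟩
  intro m hσ hB
  set N := Fintype.card V with hN
  let Mk : ℕ → Finset V := fun k => ((range k).filter Even).image m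
  let Bk : ℕ → Finset V := fun k => ((range k).filter Odd).image m
  have hσ' : ∀ k < N, Even k → m k = s (Mk k) (Bk k) := by
    intro k hk ho
    rw [hσ k hk ho]
    have key : ∀ i ∈ range k, (List.ofFn (fun i : Fin k => m i.val)).getD i v0 = m i := by
      intro i hi
      have hi' : i < k := mem_range.mp hi
      rw [List.getD_eq_getElem _ _ (by simpa using hi')]
      simp
    simp only [List.length_ofFn, Mk, Bk]
    congr 1
    · exact image_congr (fun i hi => key i (mem_filter.mp hi).1)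
    · exact image_congr (fun i hi => key i (mem_filter.mp hi).1)
  have hMe : ∀ k, Even k → Mk (k+1) = insert (m k) (Mk k) ∧ Bk (k+1) = Bk k := by
    intro k hk
    have : ¬ Odd k := Nat.not_odd_iff_even.mpr hk
    simp only [Mk, Bk, range_add_one, filter_insert, if_pos hk, if_neg this, image_insert]
    simp
  have hMo : ∀ k, Odd k → Mk (k+1) = Mk k ∧ Bk (k+1) = insert (m k) (Bk k) := by
    intro k hk
    have : ¬ Even k := Nat.not_even_iff_odd.mpr hk
    simp only [Mk, Bk, range_add_one, filter_insert, if_pos hk, if_neg this, image_insert]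
    simp
  have hmem : ∀ k v, (v ∉ Mk k ∧ v ∉ Bk k) ↔ ∀ i < k, m i ≠ v := by
    intro k v
    simp only [Mk, Bk, mem_image, mem_filter, mem_range, not_exists, not_and]
    constructor
    · rintro ⟨h1, h2⟩ i hi
      rcases Nat.even_or_odd i with h | h
      · exact h1 i ⟨hi, h⟩
      · exact h2 i ⟨hi, h⟩
    · intro h
      exact ⟨fun i hi => h i hi.1, fun i hi => h i hi.1⟩
  have hfree : ∀ k < N, ∃ v, ∀ i < k, m i ≠ v := by
    intro k hk
    by_contra hcon
    push Not at hcon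
    have : (univ : Finset V) ⊆ (range k).image m := by
      intro v _
      obtain ⟨i, hi, hv⟩ := hcon v
      exact mem_image.mpr ⟨i, mem_range.mpr hi, hv⟩
    have h2 := card_le_card this
    have h3 := card_image_le (s := range k) (f := m)
    rw [card_univ, ← hN] at h2
    rw [card_range] at h3
    omega
  have main : ∀ k ≤ N, (Even k → PM (Mk k) (Bk k)) ∧ (Odd k → PB (Mk k) (Bk k)) ∧
      ∀ j < k, Even j → ∀ i < j, m i ≠ m j := by
    intro k
    induction k with
    | zero => intro _; exact ⟨fun _ => by simpa [Mk, Bk] using h0, by simp, by simp⟩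
    | succ k ih =>
      intro hk
      obtain ⟨i1, i2, i3⟩ := ih (by omega)
      rcases Nat.even_or_odd k with he | ho
      · obtain ⟨v, hv⟩ := hfree k (by omega)
        have h4 := hs _ _ (h1 _ _ (i1 he) ⟨v, (hmem _ _).mpr hv⟩)
        rw [← hσ' k (by omega) he] at h4
        obtain ⟨e1, e2⟩ := hMe _ he
        refine ⟨fun h => absurd he (Nat.even_add_one.mp h), fun _ => by rw [e1, e2]; exact h4.2.2,
          fun j hj hje => ?_⟩
        rcases Nat.lt_succ_iff_lt_or_eq.mp hj with h | rfl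
        · exact i3 j h hje
        · exact (hmem _ _).mp ⟨h4.1, h4.2.1⟩
      · have hx := (hmem k (m k)).mpr (hB k (by omega) ho)
        obtain ⟨e1, e2⟩ := hMo _ ho
        refine ⟨fun _ => by rw [e1, e2]; exact h2 _ _ _ (i2 ho) hx.1 hx.2,
          fun h => absurd ho (Nat.odd_add_one.mp h), fun j hj hje => ?_⟩
        rcases Nat.lt_succ_iff_lt_or_eq.mp hj with h | rfl
        · exact i3 j h hje
        · exact absurd hje (Nat.not_even_iff_odd.mpr ho)
  obtain ⟨m1, m2, hleg⟩ := main N le_rfl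
  refine ⟨hleg, ?_⟩
  have hinj : Set.InjOn m (range N : Finset ℕ) := by
    intro i hi j hj hij
    have hi' : i < N := by simpa using hi
    have hj' : j < N := by simpa using hj
    by_contra hne'
    rcases lt_or_gt_of_ne hne' with h | h
    · rcases Nat.even_or_odd j with h' | h'
      · exact hleg j hj' h' i h hij
      · exact hB j hj' h' i h hij
    · rcases Nat.even_or_odd i with h' | h'
      · exact hleg i hi' h' j h hij.symm
      · exact hB i hi' h' j h hij.symm
  have huniv : (range N).image m = univ := by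
    apply eq_univ_of_card
    rw [card_image_of_injOn hinj, card_range]
  obtain ⟨A, hA, hAM⟩ := h3 (Mk N) (Bk N) ((Nat.even_or_odd N).imp m1 m2) (fun x => by
    by_contra hc
    rw [not_or] at hc
    have hv : x ∈ (range N).image m := by rw [huniv]; exact mem_univ x
    obtain ⟨k, hk, rfl⟩ := mem_image.mp hv
    exact (hmem _ _).mp hc k (mem_range.mp hk) rfl)
  refine ⟨A, hA, fun x hx => ?_⟩
  obtain ⟨k, hk, rfl⟩ := mem_image.mp (hAM hx)
  exact ⟨k, mem_range.mp (mem_filter.mp hk).1, (mem_filter.mp hk).2, rfl⟩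

variable {V : Type} [DecidableEq V]

/-- Positions that the first player wins by a pairing inside labelled classes. -/
def Pair (F : Finset (Finset V)) (M B : Finset V) : Prop :=
  ∃ (Λ : Type) (lab : V → Λ) (D : Λ → Prop),
    (∀ l, D l → (∃ x ∈ M, lab x = l) ∨ ∃ x y, x ≠ y ∧ lab x = l ∧ lab y = l ∧ x ∉ B ∧ y ∉ B) ∧
    ∀ M', M ⊆ M' → (∀ l, D l → ∃ x ∈ M', lab x = l) → ∃ A ∈ F, A ⊆ M'

variable {F : Finset (Finset V)} {M B : Finset V}

theorem Pair.ins (h : Pair F M B) (x : V) : Pair F (insert x M) B := by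
  obtain ⟨Λ, lab, D, h1, h2⟩ := h
  exact ⟨Λ, lab, D, fun l hl => (h1 l hl).imp_left (fun ⟨y, hy, e⟩ => ⟨y, mem_insert_of_mem hy, e⟩),
    fun M' hM => h2 M' ((subset_insert _ _).trans hM)⟩

theorem Pair.full (h : Pair F M B) (hf : ∀ x, x ∈ M ∨ x ∈ B) : ∃ A ∈ F, A ⊆ M := by
  obtain ⟨Λ, lab, D, h1, h2⟩ := h
  refine h2 M Subset.rfl (fun l hl => ?_)
  rcases h1 l hl with h | ⟨x, -, -, e, -, hx, -⟩
  · exact h
  · exact ⟨x, (hf x).resolve_right hx, e⟩

theorem Pair.step (h : Pair F M B) (y : V) : Pair F M (insert y B) ∨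
    ∃ z, z ∉ M ∧ z ∉ insert y B ∧ Pair F (insert z M) (insert y B) := by
  obtain ⟨Λ, lab, D, h1, h2⟩ := h
  have key : ∀ l, D l → l ≠ lab y →
      (∃ x ∈ M, lab x = l) ∨ ∃ x z, x ≠ z ∧ lab x = l ∧ lab z = l ∧ x ∉ insert y B ∧ z ∉ insert y B := by
    intro l hl hne
    refine (h1 l hl).imp_right (fun ⟨x, z, a1, a2, a3, a4, a5⟩ => ⟨x, z, a1, a2, a3, ?_, ?_⟩)
    · rw [mem_insert, not_or]; exact ⟨fun e => hne (by rw [← a2, e]), a4⟩
    · rw [mem_insert, not_or]; exact ⟨fun e => hne (by rw [← a3, e]), a5⟩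
  by_cases hc : D (lab y) ∧ ¬ ∃ x ∈ M, lab x = lab y
  · obtain ⟨x, z, a1, a2, a3, a4, a5⟩ := (h1 _ hc.1).resolve_left hc.2
    have : ∃ w, w ≠ y ∧ lab w = lab y ∧ w ∉ B := by
      by_cases e : x = y
      · exact ⟨z, fun e' => a1 (e.trans e'.symm), a3, a5⟩
      · exact ⟨x, e, a2, a4⟩
    obtain ⟨w, b1, b2, b3⟩ := this
    refine Or.inr ⟨w, fun hw => hc.2 ⟨w, hw, b2⟩, by rw [mem_insert, not_or]; exact ⟨b1, b3⟩,
      Λ, lab, D, fun l hl => ?_, fun M' hM => h2 M' ((subset_insert _ _).trans hM)⟩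
    by_cases e : l = lab y
    · exact Or.inl ⟨w, mem_insert_self _ _, by rw [e, b2]⟩
    · exact (key l hl e).imp_left (fun ⟨u, hu, e⟩ => ⟨u, mem_insert_of_mem hu, e⟩)
  · refine Or.inl ⟨Λ, lab, D, fun l hl => ?_, h2⟩
    by_cases e : l = lab y
    · subst e
      exact Or.inl (not_not.mp (fun h => hc ⟨hl, h⟩))
    · exact key l hl e

/-- Good positions with the first player to move. -/
def Good (F : Finset (Finset V)) (J : Finset V → Finset V → Prop) (M B : Finset V) : Prop :=
  Pair F M B ∨ ∃ z, z ∉ M ∧ z ∉ B ∧ J (insert z M) B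

theorem first_of_good [Fintype V] [Nonempty V] (F : Finset (Finset V))
    (J : Finset V → Finset V → Prop) (h0 : Good F J ∅ ∅) (h1 : ∀ M B, J M B → Good F J M B)
    (h2 : ∀ M B y, J M B → y ∉ M → y ∉ B → Good F J M (insert y B)) :
    ∃ σ : List V → V, ∀ m : ℕ → V,
      (∀ k < Fintype.card V, Even k → m k = σ (List.ofFn (fun i : Fin k => m i.val))) →
      (∀ k < Fintype.card V, Odd k → ∀ i < k, m i ≠ m k) →
      (∀ k < Fintype.card V, Even k → ∀ i < k, m i ≠ m k) ∧
      ∃ A ∈ F, ∀ x ∈ A, ∃ k < Fintype.card V, Even k ∧ m k = x := by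
  have lift : ∀ M B, Good F J M B → Good F (fun M B => Pair F M B ∨ J M B) M B :=
    fun M B h => h.imp_right (fun ⟨z, a1, a2, a3⟩ => ⟨z, a1, a2, Or.inr a3⟩)
  have fl : ∀ (J' : Finset V → Finset V → Prop) M B, Good F J' M B → (∀ x, x ∈ M ∨ x ∈ B) →
      ∃ A ∈ F, A ⊆ M := by
    rintro J' M B (h | ⟨z, a1, a2, -⟩) hf
    · exact h.full hf
    · exact absurd (hf z) (not_or.mpr ⟨a1, a2⟩)
  refine first_of_inv F (Good F (fun M B => Pair F M B ∨ J M B)) (fun M B => Pair F M B ∨ J M B)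
    (lift _ _ h0) ?_ ?_ ?_
  · rintro M B (h | h) ⟨x, a1, a2⟩
    · exact ⟨x, a1, a2, Or.inl (h.ins x)⟩
    · exact h
  · rintro M B y (h | h) a1 a2
    · exact (h.step y).imp_right (fun ⟨z, b1, b2, b3⟩ => ⟨z, b1, b2, Or.inl b3⟩)
    · exact lift _ _ (h2 M B y h a1 a2)
  · rintro M B (h | h | h) hf
    · exact fl _ _ _ h hf
    · exact h.full hf
    · exact fl _ _ _ (h1 M B h) hf

/-- Greedy hitting sets. -/
theorem exists_hitting {X ι : Type} [Fintype X] [DecidableEq X] [Nonempty X] (I : Finset ι)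
    (A : ι → Finset X) (θ : ℝ) (h1 : θ ≤ 1) (hθ : ∀ i ∈ I, θ * Fintype.card X ≤ (A i).card) :
    ∀ L : ℕ, ∃ C : Finset X, C.card ≤ L ∧
      ((I.filter (fun i => Disjoint C (A i))).card : ℝ) ≤ I.card * (1 - θ) ^ L
  | 0 => ⟨∅, by simp, by simp⟩
  | L + 1 => by
    obtain ⟨C, c1, c2⟩ := exists_hitting I A θ h1 hθ L
    set U := I.filter (fun i => Disjoint C (A i)) with hU
    have e1 : ∑ _x : X, θ * U.card ≤ ∑ x : X, ((U.filter (fun i => x ∈ A i)).card : ℝ) := by
      have e2 : ∑ x : X, ((U.filter (fun i => x ∈ A i)).card : ℝ) = ∑ i ∈ U, ((A i).card : ℝ) := by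
        simp only [card_filter, Nat.cast_sum]
        rw [sum_comm]
        refine sum_congr rfl (fun i _ => ?_)
        simp
      rw [e2, sum_const, card_univ, nsmul_eq_mul]
      have := card_nsmul_le_sum U (fun i => ((A i).card : ℝ)) (θ * Fintype.card X)
        (fun i hi => hθ i (mem_filter.mp hi).1)
      rw [nsmul_eq_mul] at this
      linarith
    obtain ⟨x, -, hx⟩ := exists_le_of_sum_le univ_nonempty e1
    refine ⟨insert x C, (card_insert_le _ _).trans (by omega), ?_⟩
    have e3 : I.filter (fun i => Disjoint (insert x C) (A i)) = U.filter (fun i => ¬ x ∈ A i) := by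
      rw [hU, filter_filter]
      exact filter_congr (fun i _ => by rw [disjoint_insert_left, and_comm])
    have e4 : ((U.filter (fun i => x ∈ A i)).card : ℝ) + (U.filter (fun i => ¬ x ∈ A i)).card =
        U.card := by exact_mod_cast card_filter_add_card_filter_not (s := U) (fun i => x ∈ A i)
    rw [e3, pow_succ, ← mul_assoc]
    have := mul_le_mul_of_nonneg_right c2 (sub_nonneg.mpr h1)
    linarith

/-- A small code meeting all large boxes. -/
theorem exists_code (Γ : Type) [Fintype Γ] [DecidableEq Γ] (q p : ℕ) (hd : Fintype.card Γ = q + p)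
    (hp : 1 ≤ p) : ∃ C : Finset (Γ → Bool × Bool), C.card ≤ 3 * (q + p) * 2 ^ q ∧
      ∀ S : Γ → Finset (Bool × Bool), 2 ^ (q + 2 * p) ≤ ∏ γ, (S γ).card → ∃ x ∈ C, ∀ γ, x γ ∈ S γ := by
  classical
  set I : Finset (Γ → Finset (Bool × Bool)) :=
    univ.filter (fun S => 2 ^ (q + 2 * p) ≤ ∏ γ, (S γ).card) with hI
  have p2 : (0 : ℝ) < 2 ^ q := by positivity
  have t1 : (1 : ℝ) / 2 ^ q ≤ 1 := by
    rw [div_le_one p2]; exact one_le_pow₀ (by norm_num)
  obtain ⟨C, c1, c2⟩ := exists_hitting I Fintype.piFinset (1 / 2 ^ q) t1 (fun S hS => by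
    have a1 := (mem_filter.mp hS).2
    rw [← Fintype.card_piFinset] at a1
    have a2 : ((2 : ℝ)) ^ (q + 2 * p) ≤ (Fintype.piFinset S).card := by exact_mod_cast a1
    refine le_trans (le_of_eq ?_) a2
    rw [Fintype.card_fun, hd]
    simp only [Fintype.card_prod, Fintype.card_bool]
    push_cast
    rw [show (4 : ℝ) = 2 ^ 2 by norm_num, ← pow_mul, show 2 * (q + p) = q + (q + 2 * p) by ring, pow_add]
    field_simp) (3 * (q + p) * 2 ^ q)
  refine ⟨C, c1, fun S hS => ?_⟩
  have a1 : (I.card : ℝ) ≤ 16 ^ (q + p) := by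
    have := card_le_univ I
    rw [Fintype.card_fun, Fintype.card_finset, hd] at this
    simp only [Fintype.card_prod, Fintype.card_bool] at this
    exact_mod_cast this
  have a2 : (1 - (1 : ℝ) / 2 ^ q) ^ (3 * (q + p) * 2 ^ q) ≤ (1 / 17) ^ (q + p) := by
    have b1 : (1 - (1 : ℝ) / 2 ^ q) ≤ Real.exp (-(1 / 2 ^ q)) := by
      have := Real.add_one_le_exp (-((1 : ℝ) / 2 ^ q)); linarith
    refine (pow_le_pow_left₀ (sub_nonneg.mpr t1) b1 _).trans ?_
    rw [← Real.exp_nat_mul]
    have b2 : ((3 * (q + p) * 2 ^ q : ℕ) : ℝ) * -(1 / 2 ^ q) = ((q + p : ℕ) : ℝ) * (-3) := by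
      push_cast; field_simp
    rw [b2, Real.exp_nat_mul]
    refine pow_le_pow_left₀ (Real.exp_pos _).le ?_ _
    rw [Real.exp_neg, one_div]
    refine inv_anti₀ (by norm_num) ?_
    have b3 := Real.exp_one_gt_d9
    have b4 : Real.exp 3 = Real.exp 1 ^ 3 := by rw [← Real.exp_nat_mul]; norm_num
    rw [b4]
    refine le_trans (by norm_num) (pow_le_pow_left₀ (by norm_num) b3.le 3)
  have a3 : ((I.filter (fun i => Disjoint C (Fintype.piFinset i))).card : ℝ) < 1 := by
    refine lt_of_le_of_lt (c2.trans (mul_le_mul a1 a2 (pow_nonneg (sub_nonneg.mpr t1) _)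
      (by positivity))) ?_
    rw [← mul_pow]
    exact pow_lt_one₀ (by norm_num) (by norm_num) (by omega)
  have a4 : (I.filter (fun i => Disjoint C (Fintype.piFinset i))).card = 0 := by
    have : (I.filter (fun i => Disjoint C (Fintype.piFinset i))).card < 1 := by exact_mod_cast a3
    omega
  have a5 := filter_eq_empty_iff.mp (card_eq_zero.mp a4) (x := S) (mem_filter.mpr ⟨mem_univ _, hS⟩)
  obtain ⟨x, b1, b2⟩ := not_disjoint_iff.mp a5
  exact ⟨x, b1, Fintype.mem_piFinset.mp b2⟩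

end Pool.Agent.Lib.MP_614955_co.Cx
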