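import Mathlib

set_option autoImplicit false
set_option linter.unusedSectionVars false

namespace Pool.Agent.Lib.MP_614955_co.Cx

open Finset

/-- The cells of one room: level, group, pair, side. -/
abbrev Cell (L G : Type) := L × G × Bool × Bool

variable {L G : Type} [Fintype L] [DecidableEq L] [Fintype G] [DecidableEq G]

/-- The groups met by a set of cells. -/
def hitS (Y : Finset (Cell L G)) : Finset (L × G) := Y.image (fun c => (c.1, c.2.1))

/-- Number of cells of `X` on level `i`. -/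
def cnt (X : Finset (Cell L G)) (i : L) : ℕ := (univ.filter (fun v => (i, v) ∈ X)).card

/-- One if level `i` has a free cell. -/
def nf (X Y : Finset (Cell L G)) (i : L) : ℕ := if ∃ v, (i, v) ∉ X ∧ (i, v) ∉ Y then 1 else 0

/-- Deficit of the levels outside `S`. -/
def del (X Y : Finset (Cell L G)) (S : Finset L) : ℕ := ∑ i ∈ Sᶜ, (cnt Y i + nf X Y i - cnt X i)

/-- Value of a room. -/
def val (H : ℕ) (X Y : Finset (Cell L G)) (S : Finset L) : ℤ :=
  (8 + (H - (hitS Y).card : ℕ)) * (4 * Fintype.card G - del X Y S)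

def alive (Y : Finset (Cell L G)) (S : Finset L) (ω : L → G × Bool × Bool) : Prop :=
  ∀ i ∈ S, (i, ω i) ∉ Y

instance (Y : Finset (Cell L G)) (S : Finset L) (ω : L → G × Bool × Bool) :
    Decidable (alive Y S ω) := by unfold alive; infer_instance

def grp (H : ℕ) (X Y : Finset (Cell L G)) : Prop :=
  (hitS Y).card < H → ∀ i μ, (∃ s t, (i, μ, s, t) ∈ X) ∨ ∃ s, ∀ t, (i, μ, s, t) ∉ Y

def ok (H : ℕ) (X Y : Finset (Cell L G)) (S : Finset L) (i : L) (ω : L → G × Bool × Bool) : Prop :=
  Disjoint X Y ∧ (alive Y (insert i S) ω → (∀ l ∈ S, (l, ω l) ∈ X) ∧ grp H X Y ∧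
    del X Y (insert i S) ≤ 4 * H + Fintype.card L)

def uu (H : ℕ) (X Y : Finset (Cell L G)) (S : Finset L) (i : L) (ω : L → G × Bool × Bool) : ℤ :=
  if alive Y (insert i S) ω then (if (i, ω i) ∈ X then 2 else 1) * val H X Y (insert i S) else 0

def pend (X Y : Finset (Cell L G)) (S : Finset L) (i : L) (ω : L → G × Bool × Bool) : Prop :=
  alive Y (insert i S) ω ∧ (i, ω i) ∉ X

variable {H : ℕ} {X Y : Finset (Cell L G)} {S : Finset L} {i : L} {ω : L → G × Bool × Bool}

theorem cnt_insert {c : Cell L G} (hc : c ∉ X) (l : L) :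
    cnt (insert c X) l = cnt X l + if c.1 = l then 1 else 0 := by
  unfold cnt
  split_ifs with h
  · subst h
    rw [← card_insert_of_notMem (a := c.2) (by simpa using hc)]
    congr 1
    ext v
    simp [Prod.ext_iff]
  · rw [add_zero]
    congr 1
    ext v
    simp [Prod.ext_iff, Ne.symm h]

theorem nf_le (l : L) : nf X Y l ≤ 1 := by unfold nf; split_ifs <;> simp

theorem nf_anti {X' Y' : Finset (Cell L G)} (h1 : X ⊆ X') (h2 : Y ⊆ Y') (l : L) :
    nf X' Y' l ≤ nf X Y l := by
  unfold nf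
  split_ifs with a b
  · rfl
  · obtain ⟨v, a1, a2⟩ := a
    exact absurd ⟨v, fun h => a1 (h1 h), fun h => a2 (h2 h)⟩ b
  · simp
  · rfl

theorem del_exch {c z : Cell L G} (hc : c ∉ Y) (hz : z ∉ X) (e : z.1 = c.1) (S : Finset L) :
    del (insert z X) (insert c Y) S ≤ del X Y S := by
  refine sum_le_sum (fun l _ => ?_)
  have := nf_anti (subset_insert z X) (subset_insert c Y) l
  rw [cnt_insert hc, cnt_insert hz, e]
  omega

theorem del_real {c : Cell L G} (hc : c ∉ Y) (S : Finset L) :
    del X (insert c Y) S ≤ del X Y S + 1 := by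
  have h : ∑ l ∈ Sᶜ, (if c.1 = l then 1 else 0) ≤ 1 := by
    rw [sum_ite_eq]; split_ifs <;> simp
  refine le_trans (sum_le_sum (fun l _ => ?_)) (sum_add_distrib.le.trans (Nat.add_le_add_left h _))
  have := nf_anti (Subset.refl X) (subset_insert c Y) l
  rw [cnt_insert hc]
  omega

theorem del_full {c : Cell L G} (hx : c ∉ X) (hc : c ∉ Y)
    (hf : ¬ ∃ v, (c.1, v) ∉ X ∧ (c.1, v) ∉ insert c Y) (S : Finset L) :
    del X (insert c Y) S ≤ del X Y S := by
  refine sum_le_sum (fun l _ => ?_)
  have := nf_anti (Subset.refl X) (subset_insert c Y) l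
  rw [cnt_insert hc]
  split_ifs with h
  · subst h
    have a1 : nf X (insert c Y) c.1 = 0 := if_neg hf
    have a2 : nf X Y c.1 = 1 := if_pos ⟨c.2, hx, hc⟩
    omega
  · omega

theorem del_bound (S : Finset L) : del X Y S ≤ 4 * (hitS Y).card + Fintype.card L := by
  have h1 : Y.card ≤ 4 * (hitS Y).card := by
    refine card_le_mul_card_image Y 4 (fun g _ => ?_)
    refine le_trans (card_le_card_of_injOn (fun c => c.2.2) (t := univ) (by simp) ?_) (by simp)
    intro a ha b hb e
    have a1 := (mem_filter.mp ha).2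
    have b1 := (mem_filter.mp hb).2
    rw [← b1] at a1
    simp only [Prod.mk.injEq] at a1
    exact Prod.ext a1.1 (Prod.ext a1.2 e)
  have h2 : ∑ l, cnt Y l = Y.card := by
    simp only [cnt, card_filter]
    rw [← Fintype.sum_prod_type' (fun l v => if (l, v) ∈ Y then 1 else 0)]
    simp
  calc del X Y S ≤ ∑ l ∈ Sᶜ, (cnt Y l + 1) := sum_le_sum (fun l _ => by
          have := nf_le (X := X) (Y := Y) l; omega)
    _ ≤ ∑ l, (cnt Y l + 1) := sum_le_sum_of_subset (subset_univ _)
    _ = Y.card + Fintype.card L := by rw [sum_add_distrib, h2]; simp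
    _ ≤ _ := by omega

theorem hit_insert (c : Cell L G) : hitS (insert c Y) = insert (c.1, c.2.1) (hitS Y) :=
  image_insert _ _ _

theorem alive_anti {c : Cell L G} (h : alive (insert c Y) S ω) : alive Y S ω :=
  fun l hl e => h l hl (mem_insert_of_mem e)

theorem val_ge (hm : 2 * (4 * H + Fintype.card L) ≤ 4 * Fintype.card G)
    (h : del X Y S ≤ 4 * H + Fintype.card L) : 16 * (Fintype.card G : ℤ) ≤ val H X Y S := by
  unfold val
  have a : (2 * Fintype.card G : ℤ) ≤ 4 * Fintype.card G - del X Y S := by omega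
  have b : (0 : ℤ) ≤ (H - (hitS Y).card : ℕ) := by positivity
  nlinarith

theorem uu_nonneg (hm : 2 * (4 * H + Fintype.card L) ≤ 4 * Fintype.card G)
    (h : ok H X Y S i ω) : 0 ≤ uu H X Y S i ω := by
  unfold uu
  split_ifs with a b
  · have := val_ge hm (h.2 a).2.2; omega
  · have := val_ge hm (h.2 a).2.2; omega
  · rfl

/-- An exchange of moves on one level. -/
theorem exch (ho : ok H X Y S i ω) (hm : 2 * (4 * H + Fintype.card L) ≤ 4 * Fintype.card G)
    {c z : Cell L G} (hx : c ∉ X) (hy : c ∉ Y) (z1 : z ∉ X)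
    (z2 : z ∉ insert c Y) (e : z.1 = c.1) (ha : alive (insert c Y) (insert i S) ω)
    (hh : H - (hitS (insert c Y)).card = H - (hitS Y).card) (hg : grp H (insert z X) (insert c Y)) :
    ok H (insert z X) (insert c Y) S i ω ∧ uu H X Y S i ω ≤ uu H (insert z X) (insert c Y) S i ω ∧
      (pend (insert z X) (insert c Y) S i ω → pend X Y S i ω) := by
  obtain ⟨o1, o2, o3⟩ := ho.2 (alive_anti ha)
  have hd := del_exch hy z1 e (insert i S)
  refine ⟨⟨?_, fun _ => ⟨fun l hl => mem_insert_of_mem (o1 l hl), hg, hd.trans o3⟩⟩, ?_,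
    fun h => ⟨alive_anti ha, fun h' => h.2 (mem_insert_of_mem h')⟩⟩
  · rw [disjoint_insert_left, disjoint_insert_right]
    exact ⟨z2, hx, ho.1⟩
  · have v1 := val_ge hm o3
    have v2 : val H X Y (insert i S) ≤ val H (insert z X) (insert c Y) (insert i S) := by
      unfold val
      rw [hh]
      exact mul_le_mul_of_nonneg_left (by omega) (by positivity)
    unfold uu
    rw [if_pos ha, if_pos (alive_anti ha)]
    split_ifs with a b
    · omega
    · exact absurd (mem_insert_of_mem a) b
    · omega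
    · omega

/-- An unanswered move which does not kill the room. -/
theorem real (ho : ok H X Y S i ω) (hm : 2 * (4 * H + Fintype.card L) ≤ 4 * Fintype.card G)
    (hm' : 8 + H ≤ 4 * Fintype.card G) {c : Cell L G} (hx : c ∉ X) (hy : c ∉ Y)
    (ha : alive (insert c Y) (insert i S) ω) (hg : grp H X (insert c Y))
    (hd : del X (insert c Y) (insert i S) ≤ 4 * H + Fintype.card L) :
    ok H X (insert c Y) S i ω ∧
      uu H X Y S i ω - 16 * Fintype.card G ≤ uu H X (insert c Y) S i ω ∧
      (pend X (insert c Y) S i ω → pend X Y S i ω) := by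
  obtain ⟨o1, o2, o3⟩ := ho.2 (alive_anti ha)
  refine ⟨⟨disjoint_insert_right.mpr ⟨hx, ho.1⟩, fun _ => ⟨o1, hg, hd⟩⟩, ?_,
    fun h => ⟨alive_anti ha, h.2⟩⟩
  have v2 : val H X Y (insert i S) - 8 * Fintype.card G ≤ val H X (insert c Y) (insert i S) := by
    unfold val
    have a1 := del_real (X := X) hy (insert i S)
    have a2 : (hitS (insert c Y)).card ≤ (hitS Y).card + 1 := by
      rw [hit_insert]; exact card_insert_le _ _
    set A : ℕ := H - (hitS Y).card
    set A' : ℕ := H - (hitS (insert c Y)).card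
    have a3 : (8 + A : ℤ) - 1 ≤ 8 + A' := by omega
    have a4 : (4 * Fintype.card G - del X Y (insert i S) : ℤ) - 1 ≤
      4 * Fintype.card G - del X (insert c Y) (insert i S) := by omega
    have a5 := mul_le_mul a3 a4 (by omega) (by positivity)
    have a6 : (A : ℤ) ≤ H := by omega
    have a7 : (8 : ℤ) + H ≤ 4 * Fintype.card G := by omega
    have a8 : (0 : ℤ) ≤ del X Y (insert i S) := by positivity
    nlinarith
  unfold uu
  rw [if_pos ha, if_pos (alive_anti ha)]
  split_ifs <;> omega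

theorem kill (ho : ok H X Y S i ω) (hm : 2 * (4 * H + Fintype.card L) ≤ 4 * Fintype.card G)
    (hm' : 8 + H ≤ 4 * Fintype.card G) {c : Cell L G} (hx : c ∉ X) (hy : c ∉ Y) :
    (∃ z, z ∉ X ∧ z ∉ insert c Y ∧ ok H (insert z X) (insert c Y) S i ω ∧
      uu H X Y S i ω ≤ uu H (insert z X) (insert c Y) S i ω ∧
      (pend (insert z X) (insert c Y) S i ω → pend X Y S i ω)) ∨
    (ok H X (insert c Y) S i ω ∧ (uu H X Y S i ω - 16 * Fintype.card G ≤ uu H X (insert c Y) S i ω ∨
      (pend X Y S i ω ∧ 0 ≤ uu H X (insert c Y) S i ω))) := by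
  by_cases ha : alive (insert c Y) (insert i S) ω
  swap
  · refine Or.inr ⟨⟨disjoint_insert_right.mpr ⟨hx, ho.1⟩, fun h => absurd h ha⟩, ?_⟩
    have u0 : uu H X (insert c Y) S i ω = 0 := if_neg ha
    by_cases hb : alive Y (insert i S) ω
    · refine Or.inr ⟨⟨hb, fun h => ha (fun l hl e => ?_)⟩, u0.ge⟩
      rcases mem_insert.mp e with e | e
      · refine hx (e ▸ ?_)
        rcases mem_insert.mp hl with rfl | hl
        · exact h
        · exact (ho.2 hb).1 l hl
      · exact hb l hl e
    · have u1 : uu H X Y S i ω = 0 := if_neg hb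
      left; omega
  obtain ⟨o1, o2, o3⟩ := ho.2 (alive_anti ha)
  have hc1 : (hitS Y).card ≤ (hitS (insert c Y)).card := by
    rw [hit_insert]; exact card_le_card (subset_insert _ _)
  have hc2 : (hitS (insert c Y)).card ≤ (hitS Y).card + 1 := by
    rw [hit_insert]; exact card_insert_le _ _
  by_cases hh : (hitS Y).card < H
  · have og := o2 hh
    have oth : ∀ l μ, (l, μ) ≠ (c.1, c.2.1) →
        (∃ s t, (l, μ, s, t) ∈ X) ∨ ∃ s, ∀ t, (l, μ, s, t) ∉ insert c Y := by
      intro l μ hne
      refine (og l μ).imp_right (fun ⟨s, hs⟩ => ⟨s, fun t e => ?_⟩)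
      rcases mem_insert.mp e with e | e
      · exact hne (by rw [← e])
      · exact hs t e
    by_cases hg : (∃ s t, (c.1, c.2.1, s, t) ∈ X) ∨ ∃ s, ∀ t, (c.1, c.2.1, s, t) ∉ insert c Y
    · have := del_bound (X := X) (Y := insert c Y) (insert i S)
      obtain ⟨r1, r2, -⟩ := real ho hm hm' hx hy ha (fun _ l μ => by
        by_cases e : (l, μ) = (c.1, c.2.1)
        · obtain ⟨rfl, rfl⟩ := Prod.mk.inj e
          exact hg
        · exact oth l μ e) (by omega)
      exact Or.inr ⟨r1, Or.inl r2⟩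
    · obtain ⟨l, μ, s, t⟩ := c
      rw [not_or] at hg
      obtain ⟨g1, g2⟩ := hg
      simp only [not_exists, not_forall, not_not] at g1 g2
      obtain ⟨s', hs'⟩ := (og l μ).resolve_left (by simpa using g1)
      have es : s' = s := by
        obtain ⟨t', ht'⟩ := g2 s'
        rcases mem_insert.mp ht' with e | e
        · simp only [Prod.mk.injEq] at e; exact e.2.2.1
        · exact absurd e (hs' t')
      subst es
      have z2 : (l, μ, s', !t) ∉ insert (l, μ, s', t) Y := by
        rw [mem_insert, not_or]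
        exact ⟨by simp, hs' _⟩
      refine Or.inl ⟨(l, μ, s', !t), g1 _ _, z2, exch ho hm hx hy (g1 _ _) z2 rfl ha ?_ ?_⟩
      · obtain ⟨t', ht'⟩ := g2 (!s')
        have : (l, μ, !s', t') ∈ Y := (mem_insert.mp ht').resolve_left (by simp)
        have e : (l, μ) ∈ hitS Y := mem_image.mpr ⟨_, this, rfl⟩
        rw [hit_insert, insert_eq_of_mem e]
      · intro _ l' μ'
        by_cases e : (l', μ') = (l, μ)
        · obtain ⟨rfl, rfl⟩ := Prod.mk.inj e
          exact Or.inl ⟨_, _, mem_insert_self _ _⟩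
        · exact (oth l' μ' e).imp_left (fun ⟨a, b, h⟩ => ⟨a, b, mem_insert_of_mem h⟩)
  · by_cases hf : ∃ v, (c.1, v) ∉ X ∧ (c.1, v) ∉ insert c Y
    · obtain ⟨v, v1, v2⟩ := hf
      exact Or.inl ⟨_, v1, v2, exch ho hm hx hy v1 v2 rfl ha (by omega) (fun h => by omega)⟩
    · obtain ⟨r1, r2, -⟩ := real ho hm hm' hx hy ha (fun h => by omega)
        ((del_full hx hy hf _).trans o3)
      exact Or.inr ⟨r1, Or.inl r2⟩

theorem sched (ho : ok H X Y S i ω) (hm : 2 * (4 * H + Fintype.card L) ≤ 4 * Fintype.card G)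
    (hp : pend X Y S i ω) : ok H (insert (i, ω i) X) Y S i ω ∧
      uu H (insert (i, ω i) X) Y S i ω = 2 * uu H X Y S i ω ∧
      16 * (Fintype.card G : ℤ) ≤ uu H X Y S i ω := by
  obtain ⟨o1, o2, o3⟩ := ho.2 hp.1
  have hd : del (insert (i, ω i) X) Y (insert i S) = del X Y (insert i S) := by
    refine sum_congr rfl (fun l hl => ?_)
    have hl' : i ≠ l := fun e => (mem_compl.mp hl) (e ▸ mem_insert_self _ _)
    have e : nf (insert (i, ω i) X) Y l = nf X Y l := by
      unfold nf
      refine if_congr (exists_congr (fun v => ?_)) rfl rfl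
      rw [mem_insert, not_or, and_iff_right (fun e => hl' (Prod.mk.inj e).1.symm)]
    rw [cnt_insert hp.2, if_neg hl', e, add_zero]
  refine ⟨⟨disjoint_insert_left.mpr ⟨hp.1 i (mem_insert_self _ _), ho.1⟩, fun _ =>
    ⟨fun l hl => mem_insert_of_mem (o1 l hl), fun h l μ => (o2 h l μ).imp_left
      (fun ⟨a, b, h⟩ => ⟨a, b, mem_insert_of_mem h⟩), hd ▸ o3⟩⟩, ?_, ?_⟩
  · unfold uu val
    rw [if_pos hp.1, if_pos hp.1, if_pos (mem_insert_self _ _), if_neg hp.2, hd, one_mul]
  · unfold uu
    rw [if_pos hp.1, if_neg hp.2, one_mul]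
    exact val_ge hm o3

theorem reveal (ho : ok H X Y S i ω) (hm : 2 * (4 * H + Fintype.card L) ≤ 4 * Fintype.card G)
    (hp : ¬ pend X Y S i ω) {j : L} (hj : j ∉ insert i S) :
    (∀ v, ok H X Y (insert i S) j (Function.update ω j v)) ∧
      4 * Fintype.card G * uu H X Y S i ω ≤
        2 * ∑ v, uu H X Y (insert i S) j (Function.update ω j v) := by
  have hu : ∀ v, ∀ l ∈ insert i S, Function.update ω j v l = ω l :=
    fun v l hl => Function.update_of_ne (fun e : l = j => hj (e ▸ hl)) _ _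
  have hal : ∀ v, alive Y (insert j (insert i S)) (Function.update ω j v) ↔
      (j, v) ∉ Y ∧ alive Y (insert i S) ω := by
    intro v
    unfold alive
    rw [forall_mem_insert, Function.update_self]
    exact and_congr_right (fun _ => forall₂_congr (fun l hl => by rw [hu v l hl]))
  have hd : del X Y (insert i S) =
      (cnt Y j + nf X Y j - cnt X j) + del X Y (insert j (insert i S)) := by
    unfold del
    rw [compl_insert (a := j)]
    exact (add_sum_erase _ (fun i => cnt Y i + nf X Y i - cnt X i) (mem_compl.mpr hj)).symm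
  have hok : ∀ v, ok H X Y (insert i S) j (Function.update ω j v) := by
    refine fun v => ⟨ho.1, fun h => ?_⟩
    have ha := ((hal v).mp h).2
    obtain ⟨o1, o2, o3⟩ := ho.2 ha
    refine ⟨fun l hl => ?_, o2, by omega⟩
    rw [hu v l hl]
    rcases mem_insert.mp hl with rfl | hl
    · exact not_not.mp (fun h => hp ⟨ha, h⟩)
    · exact o1 l hl
  refine ⟨hok, ?_⟩
  by_cases ha : alive Y (insert i S) ω
  swap
  · have : uu H X Y S i ω = 0 := if_neg ha
    rw [this, mul_zero]
    exact mul_nonneg (by norm_num) (sum_nonneg (fun v _ => uu_nonneg hm (hok v)))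
  obtain ⟨o1, o2, o3⟩ := ho.2 ha
  have e1 : ∀ v, uu H X Y (insert i S) j (Function.update ω j v) =
      (1 + (if (j, v) ∈ X then 1 else 0) - if (j, v) ∈ Y then 1 else 0) *
        val H X Y (insert j (insert i S)) := by
    intro v
    unfold uu
    rw [Function.update_self]
    by_cases h : (j, v) ∈ Y
    · rw [if_neg (fun h' => ((hal v).mp h').1 h), if_pos h,
        if_neg (fun h' => disjoint_left.mp ho.1 h' h)]
      simp
    · rw [if_pos ((hal v).mpr ⟨h, ha⟩), if_neg h]
      split_ifs <;> simp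
  have e2 : ∑ v : G × Bool × Bool, ((1 : ℤ) + (if (j, v) ∈ X then 1 else 0) -
      if (j, v) ∈ Y then 1 else 0) = 4 * Fintype.card G + cnt X j - cnt Y j := by
    simp [sum_sub_distrib, sum_add_distrib, cnt, mul_comm]
  simp only [e1]
  rw [← sum_mul, e2]
  unfold uu val
  rw [if_pos ha, if_pos (not_not.mp (fun h => hp ⟨ha, h⟩)), hd]
  set D : ℕ := cnt Y j + nf X Y j - cnt X j
  set E := del X Y (insert j (insert i S))
  have a1 : (4 * Fintype.card G - D : ℤ) ≤ 4 * Fintype.card G + cnt X j - cnt Y j := by omega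
  have a2 : (0 : ℤ) ≤ 4 * Fintype.card G - E := by omega
  have a3 := mul_le_mul_of_nonneg_right a1 a2
  have a4 : (0 : ℤ) ≤ D * E := by positivity
  have a5 : (4 * Fintype.card G : ℤ) * (4 * Fintype.card G - (D + E : ℕ)) ≤
      (4 * Fintype.card G + cnt X j - cnt Y j) * (4 * Fintype.card G - E) := by
    push_cast; nlinarith
  have a6 := mul_le_mul_of_nonneg_left a5
    (show (0 : ℤ) ≤ 8 + (H - (hitS Y).card : ℕ) by positivity)
  nlinarith

end Pool.Agent.Lib.MP_614955_co.Cx
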