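import Mathlib
import Pool.Agent.Lib.MP_614955_co.CxGame
import Pool.Agent.Lib.MP_614955_co.CxRoom

set_option autoImplicit false
set_option linter.unusedSectionVars false

namespace Pool.Agent.Lib.MP_614955_co.Cx

open Finset

section final

variable {T G R : Type} [Fintype T] [DecidableEq T] [Fintype G] [DecidableEq G] [DecidableEq R]

/-- The final pairing inside a living room with few hit groups. -/
theorem pair_main (F : Finset (Finset (R × Cell (T × Bool) G))) (H p : ℕ) (j : R)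
    (hT : 3 * H + 2 * p ≤ Fintype.card T)
    (hF : ∀ Z : (T × Bool) × G → Finset (Bool × Bool),
      2 ^ (Fintype.card ((T × Bool) × G) + p) ≤ ∏ γ, (Z γ).card →
      ∃ A ∈ F, ∀ x ∈ A, x.1 = j ∧ x.2.2.2 ∈ Z (x.2.1, x.2.2.1))
    (M B : Finset (R × Cell (T × Bool) G)) (X Y : Finset (Cell (T × Bool) G))
    (hX : ∀ c, c ∈ X ↔ (j, c) ∈ M) (hY : ∀ c, c ∈ Y ↔ (j, c) ∈ B)
    (ω : T × Bool → G × Bool × Bool) (ho : ∀ l, (l, ω l) ∈ X) (hh : (hitS Y).card < H)
    (hg : grp H X Y) : Pair F M B := by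
  classical
  let clean : T → Prop := fun t => ∀ a, ((t, a), (ω (t, a)).1) ∉ hitS Y
  let lab : R × Cell (T × Bool) G → (R × (T × Bool) × G × Bool) ⊕ (R × T) := fun x =>
    if clean x.2.1.1 ∧ (x.2.2.1, x.2.2.2.1, !x.2.2.2.2) = ω x.2.1 then Sum.inr (x.1, x.2.1.1)
    else Sum.inl (x.1, x.2.1, x.2.2.1, x.2.2.2.1)
  have hfree : ∀ l μ, (l, μ) ∉ hitS Y → ∀ s t, (l, μ, s, t) ∉ Y :=
    fun l μ h s t e => h (mem_image.mpr ⟨_, e, rfl⟩)
  refine ⟨_, lab, Sum.elim (fun a => a.1 = j ∧ ∀ t, (a.2.1, a.2.2.1, a.2.2.2, t) ∉ Y)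
    (fun a => a.1 = j ∧ clean a.2), ?_, ?_⟩
  · rintro (⟨j', l, μ, s⟩ | ⟨j', t⟩) ⟨rfl, hd⟩
    · by_cases hc : clean l.1 ∧ μ = (ω l).1 ∧ s = (ω l).2.1
      · obtain ⟨-, rfl, rfl⟩ := hc
        refine Or.inl ⟨(_, l, ω l), (hX _).mp (ho l), if_neg (fun h => ?_)⟩
        have := congrArg (fun v => v.2.2) h.2
        simp at this
      · have hn : ∀ t, lab (j', l, μ, s, t) = Sum.inl (j', l, μ, s) := fun t =>
          if_neg (fun h => hc ⟨h.1, by rw [← h.2], by rw [← h.2]⟩)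
        exact Or.inr ⟨(j', l, μ, s, false), (j', l, μ, s, true), by simp, hn _, hn _,
          fun h => hd _ ((hY _).mpr h), fun h => hd _ ((hY _).mpr h)⟩
    · have hn : ∀ a, lab (j', (t, a), (ω (t, a)).1, (ω (t, a)).2.1, !(ω (t, a)).2.2) =
          Sum.inr (j', t) := fun a => if_pos ⟨hd, by simp⟩
      exact Or.inr ⟨_, _, by simp, hn false, hn true,
        fun h => hfree _ _ (hd _) _ _ ((hY _).mpr h), fun h => hfree _ _ (hd _) _ _ ((hY _).mpr h)⟩
  intro M' hM hD
  let Z : (T × Bool) × G → Finset (Bool × Bool) :=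
    fun γ => univ.filter (fun v => (j, γ.1, γ.2, v) ∈ M')
  have hpair : ∀ l μ s, (∀ t, (l, μ, s, t) ∉ Y) → ∃ t, (s, t) ∈ Z (l, μ) := by
    intro l μ s h
    obtain ⟨⟨j', l', μ', s', t⟩, x1, x2⟩ := hD (Sum.inl (j, l, μ, s)) ⟨rfl, h⟩
    simp only [lab] at x2
    split_ifs at x2
    simp only [Sum.inl.injEq, Prod.mk.injEq] at x2
    obtain ⟨rfl, rfl, rfl, rfl⟩ := x2
    exact ⟨t, mem_filter.mpr ⟨mem_univ _, x1⟩⟩
  have z1 : ∀ γ, 1 ≤ (Z γ).card := by
    rintro ⟨l, μ⟩
    rcases hg hh l μ with ⟨s, t, h⟩ | ⟨s, h⟩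
    · exact card_pos.mpr ⟨(s, t), mem_filter.mpr ⟨mem_univ _, hM ((hX _).mp h)⟩⟩
    · obtain ⟨t, h⟩ := hpair l μ s h
      exact card_pos.mpr ⟨_, h⟩
  have z2 : ∀ γ, γ ∉ hitS Y → 2 ≤ (Z γ).card := by
    rintro ⟨l, μ⟩ h
    obtain ⟨t, a⟩ := hpair l μ false (hfree l μ h _)
    obtain ⟨t', a'⟩ := hpair l μ true (hfree l μ h _)
    exact one_lt_card.mpr ⟨_, a, _, a', by simp⟩
  set T3 := univ.filter (fun γ => 3 ≤ (Z γ).card) with hT3
  have z3 : Fintype.card T ≤ T3.card + (hitS Y).card := by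
    have : (univ : Finset T) ⊆ T3.image (fun γ => γ.1.1) ∪ (hitS Y).image (fun γ => γ.1.1) := by
      intro t _
      rw [mem_union]
      by_cases hc : clean t
      · obtain ⟨⟨j', l, μ, s, u⟩, x1, x2⟩ := hD (Sum.inr (j, t)) ⟨rfl, hc⟩
        simp only [lab] at x2
        split_ifs at x2 with h
        simp only [Sum.inr.injEq, Prod.mk.injEq] at x2
        obtain ⟨rfl, rfl⟩ := x2
        refine Or.inl (mem_image.mpr ⟨(l, μ), mem_filter.mpr ⟨mem_univ _, ?_⟩, rfl⟩)
        have a1 : (s, !u) ∈ Z (l, μ) :=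
          mem_filter.mpr ⟨mem_univ _, hM ((hX _).mp (by have := ho l; rwa [← h.2] at this))⟩
        have a2 : (l, μ) ∉ hitS Y := by have := hc l.2; rwa [← h.2] at this
        obtain ⟨t', a3⟩ := hpair l μ (!s) (hfree l μ a2 _)
        exact two_lt_card_iff.mpr ⟨(s, u), _, _, mem_filter.mpr ⟨mem_univ _, x1⟩, a1, a3,
          by simp, by simp, by simp⟩
      · simp only [clean, not_forall, not_not] at hc
        obtain ⟨a, ha⟩ := hc
        exact Or.inr (mem_image.mpr ⟨_, ha, rfl⟩)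
    exact (card_le_card this).trans ((card_union_le _ _).trans
      (Nat.add_le_add card_image_le card_image_le))
  have key : ∏ γ : (T × Bool) × G, (4 * if γ ∈ T3 then 2 else 1) ≤
      ∏ γ, ((Z γ).card ^ 2 * if γ ∈ hitS Y then 4 else 1) := by
    refine prod_le_prod' (fun γ _ => ?_)
    have b1 := z1 γ
    have b2 := z2 γ
    split_ifs with a b b
    · have := (mem_filter.mp a).2; nlinarith
    · have := (mem_filter.mp a).2; nlinarith
    · nlinarith
    · have := b2 b; nlinarith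
  rw [prod_mul_distrib, prod_mul_distrib, prod_pow, prod_ite_mem, prod_ite_mem, univ_inter,
    univ_inter, prod_const, prod_const, prod_const, card_univ] at key
  obtain ⟨A, hA, h⟩ := hF Z (by
    refine (pow_le_pow_iff_left₀ (Nat.zero_le _) (Nat.zero_le _) two_ne_zero).mp
      (Nat.le_of_mul_le_mul_right (le_trans ?_ key) (by positivity))
    rw [show (4 : ℕ) = 2 ^ 2 by norm_num, ← pow_mul, ← pow_mul, ← pow_mul, ← pow_add, ← pow_add]
    exact Nat.pow_le_pow_right (by norm_num) (by omega))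
  refine ⟨A, hA, fun x hx => ?_⟩
  obtain ⟨rfl, h2⟩ := h x hx
  exact (mem_filter.mp h2).2

end final

variable {L G R : Type} [Fintype L] [DecidableEq L] [Fintype G] [DecidableEq G] [Fintype R]
  [DecidableEq R]

/-- The cells of room `j` in a set of points. -/
def rm (M : Finset (R × Cell L G)) (j : R) : Finset (Cell L G) := univ.filter (fun c => (j, c) ∈ M)

theorem mem_rm {M : Finset (R × Cell L G)} {j : R} {c : Cell L G} : c ∈ rm M j ↔ (j, c) ∈ M := by
  simp [rm]

theorem rm_same (M : Finset (R × Cell L G)) (j : R) (c : Cell L G) :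
    rm (insert (j, c) M) j = insert c (rm M j) := by
  ext; simp [mem_rm]

theorem rm_ne (M : Finset (R × Cell L G)) {j j' : R} (c : Cell L G) (h : j' ≠ j) :
    rm (insert (j, c) M) j' = rm M j' := by
  ext; simp [mem_rm, h]

theorem sum_upd (f g : R → ℤ) (j : R) (h : ∀ j', j' ≠ j → g j' = f j') :
    ∑ x, g x = ∑ x, f x + (g j - f j) := by
  rw [← add_sum_erase _ g (mem_univ j), ← add_sum_erase _ f (mem_univ j),
    sum_congr rfl (fun x hx => h x (ne_of_mem_erase hx))]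
  ring

/-- Positions with the second player to move. -/
def JB (H : ℕ) (τ : ℤ) (M B : Finset (R × Cell L G)) : Prop :=
  ∃ (S : Finset L) (i : L) (ω : L → G × Bool × Bool) (κ : ℤ), i ∉ S ∧
    (∀ j, ok H (rm M j) (rm B j) S i ω) ∧ 16 * (Fintype.card G : ℤ) ≤ κ ∧
    (∀ j, pend (rm M j) (rm B j) S i ω → uu H (rm M j) (rm B j) S i ω ≤ κ) ∧
    τ ≤ 2 ^ S.card * (∑ j, uu H (rm M j) (rm B j) S i ω - κ)

variable {H : ℕ} {τ : ℤ} {F : Finset (Finset (R × Cell L G))}

theorem good_M (hm : 2 * (4 * H + Fintype.card L) ≤ 4 * Fintype.card G) [Nonempty G]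
    (M B : Finset (R × Cell L G))
    (hend : ∀ S i ω, i ∉ S → insert i S = univ → (∀ j, ok H (rm M j) (rm B j) S i ω) →
      (∀ j, ¬ pend (rm M j) (rm B j) S i ω) →
      τ ≤ 2 ^ S.card * ∑ j, uu H (rm M j) (rm B j) S i ω → Pair F M B) :
    ∀ (n : ℕ) S i ω, (Sᶜ).card = n → i ∉ S → (∀ j, ok H (rm M j) (rm B j) S i ω) →
      τ ≤ 2 ^ S.card * ∑ j, uu H (rm M j) (rm B j) S i ω → Good F (JB H τ) M B := by
  classical
  intro n
  induction n using Nat.strong_induction_on with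
  | _ n ih =>
  intro S i ω hn hi ho ht
  by_cases hp : ∃ j, pend (rm M j) (rm B j) S i ω
  · obtain ⟨j, j1, j2⟩ := exists_max_image (univ.filter (fun j => pend (rm M j) (rm B j) S i ω))
      (fun j => uu H (rm M j) (rm B j) S i ω) (hp.imp (fun j h => mem_filter.mpr ⟨mem_univ _, h⟩))
    have j3 := (mem_filter.mp j1).2
    obtain ⟨s1, s2, s3⟩ := sched (ho j) hm j3
    refine Or.inr ⟨(j, i, ω i), fun h => j3.2 (mem_rm.mpr h),
      fun h => j3.1 i (mem_insert_self _ _) (mem_rm.mpr h), S, i, ω, _, hi, fun j' => ?_, s3,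
      fun j' => ?_, ?_⟩
    · by_cases e : j' = j
      · rw [e, rm_same]; exact s1
      · rw [rm_ne _ _ e]; exact ho j'
    · by_cases e : j' = j
      · rw [e, rm_same]; exact fun h => absurd (mem_insert_self _ _) h.2
      · rw [rm_ne _ _ e]; exact fun h => j2 j' (mem_filter.mpr ⟨mem_univ _, h⟩)
    · rw [sum_upd (fun j => uu H (rm M j) (rm B j) S i ω) _ j (fun j' e => by rw [rm_ne _ _ e]),
        rm_same, s2]
      exact ht.trans (le_of_eq (by ring))
  rw [not_exists] at hp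
  by_cases hu : insert i S = univ
  · exact Or.inl (hend S i ω hi hu ho hp ht)
  obtain ⟨l, hl⟩ : ∃ l, l ∉ insert i S := not_forall.mp (fun h => hu (eq_univ_iff_forall.mpr h))
  have r := fun j => reveal (ho j) hm (hp j) hl
  have e1 : ∑ _v : G × Bool × Bool, ∑ j, uu H (rm M j) (rm B j) S i ω ≤
      ∑ v, 2 * ∑ j, uu H (rm M j) (rm B j) (insert i S) l (Function.update ω l v) := by
    rw [← mul_sum, sum_comm (β := ℤ), sum_comm (β := ℤ) (s := (univ : Finset (G × Bool × Bool))),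
      mul_sum]
    refine sum_le_sum (fun j _ => le_trans (le_of_eq ?_) (r j).2)
    simp [mul_comm]
  obtain ⟨v, -, hv⟩ := exists_le_of_sum_le univ_nonempty e1
  refine ih _ ?_ (insert i S) l _ rfl hl (fun j => (r j).1 v) ?_
  · rw [← hn, compl_insert]
    exact card_erase_lt_of_mem (mem_compl.mpr hi)
  · rw [card_insert_of_notMem hi, pow_succ, mul_assoc]
    exact ht.trans (mul_le_mul_of_nonneg_left hv (by positivity))

theorem good_B (hm : 2 * (4 * H + Fintype.card L) ≤ 4 * Fintype.card G)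
    (hm' : 8 + H ≤ 4 * Fintype.card G)
    (hM : ∀ M B S i ω, i ∉ S → (∀ j, ok H (rm M j) (rm B j) S i ω) →
      τ ≤ 2 ^ S.card * ∑ j, uu H (rm M j) (rm B j) S i ω → Good F (JB H τ) M B)
    (M B : Finset (R × Cell L G)) (h : JB H τ M B) : Good F (JB H τ) M B ∧
      ∀ y, y ∉ M → y ∉ B → Good F (JB H τ) M (insert y B) := by
  obtain ⟨S, i, ω, κ, hi, ho, k1, k2, ht⟩ := h
  refine ⟨hM M B S i ω hi ho (ht.trans (mul_le_mul_of_nonneg_left (by omega) (by positivity))), ?_⟩
  rintro ⟨j, c⟩ y1 y2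
  rcases kill (ho j) hm hm' (c := c) (fun h => y1 (mem_rm.mp h)) (fun h => y2 (mem_rm.mp h)) with
    ⟨z, z1, z2, z3, z4, z5⟩ | ⟨z1, z2⟩
  · refine Or.inr ⟨(j, z), fun h => z1 (mem_rm.mpr h), fun h => z2 (by
      rw [← rm_same]; exact mem_rm.mpr h), S, i, ω, κ + (uu H (insert z (rm M j))
        (insert c (rm B j)) S i ω - uu H (rm M j) (rm B j) S i ω), hi, fun j' => ?_, by omega,
        fun j' => ?_, ?_⟩
    · by_cases e : j' = j
      · rw [e, rm_same, rm_same]; exact z3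
      · rw [rm_ne _ _ e, rm_ne _ _ e]; exact ho j'
    · by_cases e : j' = j
      · rw [e, rm_same, rm_same]
        intro h
        have := k2 j (z5 h)
        omega
      · rw [rm_ne _ _ e, rm_ne _ _ e]
        intro h
        have := k2 j' h
        omega
    · rw [sum_upd (fun j => uu H (rm M j) (rm B j) S i ω) _ j
        (fun j' e => by rw [rm_ne _ _ e, rm_ne _ _ e]), rm_same, rm_same]
      exact ht.trans (le_of_eq (by ring))
  · refine hM M _ S i ω hi (fun j' => ?_) ?_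
    · by_cases e : j' = j
      · rw [e, rm_same]; exact z1
      · rw [rm_ne _ _ e]; exact ho j'
    · rw [sum_upd (fun j => uu H (rm M j) (rm B j) S i ω) _ j (fun j' e => by rw [rm_ne _ _ e]),
        rm_same]
      refine ht.trans (mul_le_mul_of_nonneg_left ?_ (by positivity))
      rcases z2 with h | ⟨h, h'⟩
      · omega
      · have := k2 j h
        omega

end Pool.Agent.Lib.MP_614955_co.Cx
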