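import Mathlib
import Pool.Agent.Lib.MP_614955_co.CxPlay

set_option autoImplicit false
set_option linter.unusedSectionVars false

namespace Pool.Agent.Lib.MP_614955_co.Cx

open Finset

theorem win {T G R : Type} [Fintype T] [DecidableEq T] [Fintype G] [DecidableEq G] [Fintype R]
    [DecidableEq R] [Nonempty T] [Nonempty G] [Nonempty R]
    (F : Finset (Finset (R × Cell (T × Bool) G))) (H p b : ℕ)
    (hm : 2 * (4 * H + Fintype.card (T × Bool)) ≤ 4 * Fintype.card G)
    (hm' : 8 + H ≤ 4 * Fintype.card G) (hT : 3 * H + 2 * p ≤ Fintype.card T)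
    (hN : (2 : ℤ) ^ Fintype.card (T × Bool) * (32 * Fintype.card G) * b ≤
      Fintype.card R * ((8 + H) * (4 * Fintype.card G - Fintype.card (T × Bool))))
    (hsec : ∀ (e : Finset R) (ω : T × Bool → G × Bool × Bool), e.card = b →
      ∃ A ∈ F, ∀ x ∈ A, x.1 ∈ e ∧ x.2.2 = ω x.2.1)
    (hmain : ∀ (j : R) (Z : (T × Bool) × G → Finset (Bool × Bool)),
      2 ^ (Fintype.card ((T × Bool) × G) + p) ≤ ∏ γ, (Z γ).card →
      ∃ A ∈ F, ∀ x ∈ A, x.1 = j ∧ x.2.2.2 ∈ Z (x.2.1, x.2.2.1)) :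
    ∃ σ : List (R × Cell (T × Bool) G) → R × Cell (T × Bool) G, ∀ m : ℕ → R × Cell (T × Bool) G,
      (∀ k < Fintype.card (R × Cell (T × Bool) G), Even k →
        m k = σ (List.ofFn (fun i : Fin k => m i.val))) →
      (∀ k < Fintype.card (R × Cell (T × Bool) G), Odd k → ∀ i < k, m i ≠ m k) →
      (∀ k < Fintype.card (R × Cell (T × Bool) G), Even k → ∀ i < k, m i ≠ m k) ∧
      ∃ A ∈ F, ∀ x ∈ A, ∃ k < Fintype.card (R × Cell (T × Bool) G), Even k ∧ m k = x := by
  classical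
  set τ : ℤ := Fintype.card R * ((8 + H) * (4 * Fintype.card G - Fintype.card (T × Bool))) with hτ
  have hM : ∀ M B S i ω, i ∉ S → (∀ j, ok H (rm M j) (rm B j) S i ω) →
      τ ≤ 2 ^ S.card * ∑ j, uu H (rm M j) (rm B j) S i ω → Good F (JB H τ) M B := by
    refine fun M B S i ω => good_M hm M B (fun S i ω hi hu ho hp ht => ?_) _ S i ω rfl
    have own : ∀ j, alive (rm B j) (insert i S) ω → ∀ l, (l, ω l) ∈ rm M j := by
      intro j ha l
      rcases mem_insert.mp (hu ▸ mem_univ l : l ∈ insert i S) with rfl | hl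
      · exact not_not.mp (fun h => hp j ⟨ha, h⟩)
      · exact ((ho j).2 ha).1 l hl
    by_cases hx : ∃ j, alive (rm B j) (insert i S) ω ∧ (hitS (rm B j)).card < H
    · obtain ⟨j, j1, j2⟩ := hx
      exact pair_main F H p j hT (hmain j) M B _ _ (fun _ => mem_rm) (fun _ => mem_rm) ω (own j j1)
        j2 ((ho j).2 j1).2.1
    set E := univ.filter (fun j => alive (rm B j) (insert i S) ω) with hE
    have e1 : ∑ j, uu H (rm M j) (rm B j) S i ω = E.card * (2 * (32 * Fintype.card G)) := by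
      unfold uu
      rw [← sum_filter, ← nsmul_eq_mul, ← sum_const]
      refine sum_congr rfl (fun j hj => ?_)
      have ha := (mem_filter.mp hj).2
      have h0 : H - (hitS (rm B j)).card = 0 := Nat.sub_eq_zero_of_le (not_lt.mp (fun h => hx ⟨j, ha, h⟩))
      rw [if_pos (own j ha i), val, h0, del, hu]
      simp
      ring
    have e2 : Fintype.card (T × Bool) = S.card + 1 := by
      rw [← card_insert_of_notMem hi, hu, card_univ]
    have e3 : b ≤ E.card := by
      have a1 := hN.trans ht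
      rw [e1, e2, pow_succ] at a1
      have a2 : (0 : ℤ) < 2 ^ S.card * 2 * (32 * Fintype.card G) := by
        have := Fintype.card_pos (α := G); positivity
      have a3 : (b : ℤ) ≤ E.card := le_of_mul_le_mul_left (a1.trans (le_of_eq (by ring))) a2
      exact_mod_cast a3
    obtain ⟨e, e4, e5⟩ := exists_subset_card_eq e3
    obtain ⟨A, hA, h⟩ := hsec e ω e5
    refine ⟨Unit, fun _ => (), fun _ => False, fun _ h => h.elim, fun M' hM' _ => ⟨A, hA, ?_⟩⟩
    rintro ⟨j, l, v⟩ hx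
    obtain ⟨h1, h2⟩ := h _ hx
    obtain rfl : v = ω l := h2
    exact hM' (mem_rm.mp (own j (mem_filter.mp (e4 h1)).2 l))
  refine first_of_good F (JB H τ) ?_ (fun M B h => (good_B hm hm' hM M B h).1)
    (fun M B y h => (good_B hm hm' hM M B h).2 y)
  have r0 : ∀ j, rm (∅ : Finset (R × Cell (T × Bool) G)) j = ∅ := fun j => by simp [rm]
  have i0 : T × Bool := Classical.ofNonempty
  have d0 := del_bound (X := (∅ : Finset (Cell (T × Bool) G))) (Y := ∅) (insert i0 ∅)
  have h0 : (hitS (∅ : Finset (Cell (T × Bool) G))).card = 0 := by simp [hitS]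
  refine hM ∅ ∅ ∅ i0 Classical.ofNonempty (notMem_empty _) (fun j => ?_) ?_
  · rw [r0]
    exact ⟨disjoint_empty_left _, fun _ => ⟨by simp, fun _ _ _ => Or.inr ⟨false, by simp⟩, by omega⟩⟩
  · rw [card_empty, pow_zero, one_mul, hτ, ← nsmul_eq_mul, ← card_univ]
    refine card_nsmul_le_sum _ _ _ (fun j _ => ?_)
    rw [r0, uu, if_pos (by exact fun _ _ => notMem_empty _), if_neg (notMem_empty _), one_mul, val,
      h0]
    exact mul_le_mul_of_nonneg_left (by omega) (by positivity)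

theorem choose_mul_pow_le (N b : ℕ) : N.choose b * b ^ b ≤ (3 * N) ^ b := by
  have h1 : (N.choose b : ℝ) ≤ (N : ℝ) ^ b / b.factorial := by
    exact_mod_cast Nat.choose_le_pow_div (α := ℝ) b N
  have h2 := Real.pow_div_factorial_le_exp (b : ℝ) (by positivity) b
  have h3 : Real.exp b ≤ 3 ^ b := by
    rw [← Real.exp_one_pow]
    exact pow_le_pow_left₀ (Real.exp_pos _).le (by have := Real.exp_one_lt_d9; linarith) _
  have h4 : (N.choose b : ℝ) * (b : ℝ) ^ b ≤ (3 * N) ^ b :=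
    calc (N.choose b : ℝ) * (b : ℝ) ^ b ≤ (N : ℝ) ^ b / b.factorial * (b : ℝ) ^ b :=
          mul_le_mul_of_nonneg_right h1 (by positivity)
      _ = (b : ℝ) ^ b / b.factorial * (N : ℝ) ^ b := by ring
      _ ≤ 3 ^ b * (N : ℝ) ^ b := mul_le_mul_of_nonneg_right (h2.trans h3) (by positivity)
      _ = _ := by rw [mul_pow]
  exact_mod_cast h4

theorem sec_count (k : ℕ) (hk : 2359296 ≤ k) :
    (256 * 2 ^ k).choose (2 * k) * (8 * k) ^ k * 2 ^ k ≤ 2 ^ (2 * k * k) := by
  refine Nat.le_of_mul_le_mul_right ?_ (show 0 < (2 * k) ^ (2 * k) by positivity)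
  calc _ = (256 * 2 ^ k).choose (2 * k) * (2 * k) ^ (2 * k) * ((8 * k) ^ k * 2 ^ k) := by ring
    _ ≤ (3 * (256 * 2 ^ k)) ^ (2 * k) * ((8 * k) ^ k * 2 ^ k) :=
        Nat.mul_le_mul_right _ (choose_mul_pow_le _ _)
    _ = ((3 * (256 * 2 ^ k)) ^ 2 * (8 * k * 2)) ^ k := by rw [pow_mul, ← mul_pow, ← mul_pow]
    _ ≤ (2 ^ (2 * k) * (2 * k) ^ 2) ^ k := by
        refine Nat.pow_le_pow_left ?_ _
        rw [mul_comm 2 k, pow_mul]
        have := Nat.mul_le_mul_left ((2 ^ k) ^ 2 * (4 * k)) hk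
        nlinarith
    _ = _ := by rw [mul_pow, ← pow_mul, ← pow_mul]

theorem lt_two_pow (w : ℕ) (hw : 73728 ≤ w) : 1 + 3 * (2048 * w ^ 2) < 2 ^ w := by
  have h1 : w / 4 < 2 ^ (w / 4) := Nat.lt_two_pow_self
  have h2 : (w / 4) ^ 4 < (2 ^ (w / 4)) ^ 4 := Nat.pow_lt_pow_left h1 (by norm_num)
  have h3 : (2 ^ (w / 4)) ^ 4 ≤ 2 ^ w := by
    rw [← pow_mul]; exact Nat.pow_le_pow_right (by norm_num) (by omega)
  refine lt_of_le_of_lt ?_ (h2.trans_le h3)
  set a := w / 4
  have a1 : w ≤ 5 * a := by omega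
  have a2 : 1000 ≤ a := by omega
  have a3 : w ^ 2 ≤ (5 * a) ^ 2 := Nat.pow_le_pow_left a1 2
  have a4 : 1000 ^ 2 ≤ a ^ 2 := Nat.pow_le_pow_left a2 2
  nlinarith

/-- The construction. -/
theorem exists_family (w : ℕ) (hw : 73728 ≤ w) : ∃ (V : Type) (_ : Fintype V) (_ : DecidableEq V)
    (F : Finset (Finset V)), (∀ A ∈ F, A.card = 2048 * w ^ 2) ∧
    (∀ x : V, (F.filter (fun A => x ∈ A)).card * 2 ^ w < 2 ^ (2048 * w ^ 2)) ∧
    ∃ σ : List V → V, ∀ m : ℕ → V,
      (∀ k < Fintype.card V, Even k → m k = σ (List.ofFn (fun i : Fin k => m i.val))) →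
      (∀ k < Fintype.card V, Odd k → ∀ i < k, m i ≠ m k) →
      (∀ k < Fintype.card V, Even k → ∀ i < k, m i ≠ m k) ∧
      ∃ A ∈ F, ∀ x ∈ A, ∃ k < Fintype.card V, Even k ∧ m k = x := by
  classical
  obtain ⟨T, _, _, cT⟩ : ∃ (T : Type) (_ : Fintype T) (_ : DecidableEq T),
    Fintype.card T = 16 * w := ⟨Fin _, inferInstance, inferInstance, Fintype.card_fin _⟩
  obtain ⟨G, _, _, cG⟩ : ∃ (T : Type) (_ : Fintype T) (_ : DecidableEq T),
    Fintype.card T = 64 * w := ⟨Fin _, inferInstance, inferInstance, Fintype.card_fin _⟩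
  obtain ⟨R, _, _, cR⟩ : ∃ (T : Type) (_ : Fintype T) (_ : DecidableEq T),
    Fintype.card T = 256 * 2 ^ (32 * w) := ⟨Fin _, inferInstance, inferInstance, Fintype.card_fin _⟩
  haveI : Nonempty T := Fintype.card_pos_iff.mp (by omega)
  haveI : Nonempty G := Fintype.card_pos_iff.mp (by omega)
  haveI : Nonempty R := Fintype.card_pos_iff.mp (by rw [cR]; positivity)
  have cL : Fintype.card (T × Bool) = 32 * w := by simp [cT]; ring
  have cΓ : Fintype.card ((T × Bool) × G) = 2048 * w ^ 2 := by rw [Fintype.card_prod, cL, cG]; ring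
  obtain ⟨q, hq⟩ : ∃ q, 2048 * w ^ 2 = q + 2 * w := ⟨_, (Nat.sub_add_cancel (by nlinarith)).symm⟩
  obtain ⟨C, c1, c2⟩ := exists_code ((T × Bool) × G) q (2 * w) (cΓ.trans hq) (by omega)
  let E1 : Finset R × (T × Bool → G × Bool × Bool) → Finset (R × Cell (T × Bool) G) :=
    fun a => (a.1 ×ˢ univ).image (fun y : R × T × Bool => (y.1, y.2, a.2 y.2))
  let E2 : R × ((T × Bool) × G → Bool × Bool) → Finset (R × Cell (T × Bool) G) :=
    fun a => univ.image (fun γ : (T × Bool) × G => (a.1, γ.1, γ.2, a.2 γ))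
  set F1 := (powersetCard (64 * w) univ ×ˢ univ).image E1 with hF1
  refine ⟨R × Cell (T × Bool) G, inferInstance, inferInstance, F1 ∪ (univ ×ˢ C).image E2, ?_, ?_,
    win _ (4 * w) (2 * w) (64 * w) (by omega) (by omega) (by omega) ?_ ?_ ?_⟩
  · intro A hA
    rcases mem_union.mp hA with h | h
    · obtain ⟨a, ha, rfl⟩ := mem_image.mp h
      rw [card_image_of_injective, card_product, (mem_powersetCard.mp (mem_product.mp ha).1).2,
        card_univ, cL]
      · ring
      · intro y z e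
        simp only [Prod.mk.injEq] at e
        exact Prod.ext e.1 e.2.1
    · obtain ⟨a, ha, rfl⟩ := mem_image.mp h
      rw [card_image_of_injective, card_univ, cΓ]
      intro y z e
      simp only [Prod.mk.injEq] at e
      exact Prod.ext e.2.1 e.2.2.1
  · intro x
    have a1 : (F1 ∪ (univ ×ˢ C).image E2).filter (fun A => x ∈ A) ⊆
        F1 ∪ C.image (fun c => E2 (x.1, c)) := by
      intro A hA
      obtain ⟨h, hx⟩ := mem_filter.mp hA
      refine mem_union.mpr ((mem_union.mp h).imp_right (fun h => ?_))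
      obtain ⟨a, ha, rfl⟩ := mem_image.mp h
      obtain ⟨γ, -, rfl⟩ := mem_image.mp hx
      exact mem_image.mpr ⟨a.2, (mem_product.mp ha).2, rfl⟩
    have a2 : F1.card ≤ (256 * 2 ^ (32 * w)).choose (2 * (32 * w)) * (8 * (32 * w)) ^ (32 * w) := by
      refine card_image_le.trans (le_of_eq ?_)
      rw [card_product, card_powersetCard, card_univ, card_univ, Fintype.card_fun, cL, cR]
      simp only [Fintype.card_prod, Fintype.card_bool, cG]
      congr 2 <;> ring
    have a3 := (card_le_card a1).trans ((card_union_le _ _).trans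
      (Nat.add_le_add a2 (card_image_le.trans c1)))
    have a4 := sec_count (32 * w) (by omega)
    have a5 := lt_two_pow w hw
    rw [show 2 * (32 * w) * (32 * w) = 2048 * w ^ 2 by ring] at a4
    have a6 := (Nat.mul_le_mul_left _ (Nat.pow_le_pow_right (by norm_num)
      (show 2 * w ≤ 32 * w by omega))).trans a4
    have a7 : 2 ^ (2048 * w ^ 2) = 2 ^ q * 2 ^ (2 * w) := by rw [hq, pow_add]
    refine lt_of_mul_lt_mul_right ?_ (Nat.zero_le (2 ^ w))
    rw [mul_assoc, ← pow_add, ← two_mul]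
    refine lt_of_le_of_lt ((Nat.mul_le_mul_right _ a3).trans ?_)
      (Nat.mul_lt_mul_of_pos_left a5 (by positivity))
    rw [← hq, add_mul, mul_assoc _ (2 ^ q), ← a7, mul_add, mul_one, mul_comm (2 ^ (2048 * w ^ 2))]
    exact Nat.add_le_add_right a6 _
  · rw [cL, cG, cR]
    push_cast
    have : (0 : ℤ) ≤ 2 ^ (32 * w) * w := by positivity
    have : (0 : ℤ) ≤ 2 ^ (32 * w) * w * w := by positivity
    nlinarith
  · intro e ω he
    refine ⟨E1 (e, ω), mem_union_left _ (mem_image_of_mem _ (mem_product.mpr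
      ⟨mem_powersetCard.mpr ⟨subset_univ _, he⟩, mem_univ _⟩)), fun x hx => ?_⟩
    obtain ⟨y, hy, rfl⟩ := mem_image.mp hx
    exact ⟨(mem_product.mp hy).1, rfl⟩
  · intro j Z hZ
    obtain ⟨c, b1, b2⟩ := c2 Z (by rwa [cΓ, hq, add_assoc, ← two_mul] at hZ)
    refine ⟨E2 (j, c), mem_union_right _ (mem_image_of_mem _ (mem_product.mpr ⟨mem_univ _, b1⟩)),
      fun x hx => ?_⟩
    obtain ⟨y, -, rfl⟩ := mem_image.mp hx
    exact ⟨rfl, b2 y⟩

/-- The construction on a board `Fin N`. -/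
theorem exists_fin (w n : ℕ) (hw : 73728 ≤ w) (hn : n = 2048 * w ^ 2) :
    ∃ (N : ℕ) (F : Finset (Finset (Fin N))), (∀ A ∈ F, A.card = n) ∧
    (∀ x : Fin N, (F.filter (fun A => x ∈ A)).card * 2 ^ w < 2 ^ n) ∧
    ∃ σ : List (Fin N) → Fin N, ∀ m : ℕ → Fin N,
      (∀ k < N, Even k → m k = σ (List.ofFn (fun i : Fin k => m i.val))) →
      (∀ k < N, Odd k → ∀ i < k, m i ≠ m k) →
      (∀ k < N, Even k → ∀ i < k, m i ≠ m k) ∧
      ∃ A ∈ F, ∀ x ∈ A, ∃ k < N, Even k ∧ m k = x := by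
  obtain ⟨V, _, _, F, h1, h2, σ, h3⟩ := exists_family w hw
  rw [← hn] at h1 h2
  have e := Fintype.equivFin V
  refine ⟨_, F.image (fun A => A.map e.toEmbedding), fun A hA => ?_, fun x => ?_,
    fun l => e (σ (l.map e.symm)), fun m m1 m2 => ?_⟩
  · obtain ⟨B, hB, rfl⟩ := mem_image.mp hA
    rw [card_map, h1 B hB]
  · refine lt_of_le_of_lt (Nat.mul_le_mul_right _ ?_) (h2 (e.symm x))
    rw [filter_image]
    exact card_image_le.trans (le_of_eq (by simp [mem_map_equiv]))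
  · obtain ⟨a1, A, hA, a2⟩ := h3 (fun k => e.symm (m k))
      (fun k hk he => by rw [m1 k hk he, e.symm_apply_apply, List.map_ofFn]; rfl)
      (fun k hk ho i hi h => m2 k hk ho i hi (e.symm.injective h))
    refine ⟨fun k hk he i hi h => a1 k hk he i hi (by rw [h]), _, mem_image_of_mem _ hA,
      fun x hx => ?_⟩
    obtain ⟨k, b1, b2, b3⟩ := a2 _ (mem_map_equiv.mp hx)
    exact ⟨k, b1, b2, e.symm.injective b3⟩

theorem lt_rpow (a w n : ℕ) (hn : n = 2048 * w ^ 2) (h : a * 2 ^ w < 2 ^ n) :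
    (a : ℝ) < (2 : ℝ) ^ ((n : ℝ) - Real.sqrt n / 46) := by
  have hs : Real.sqrt n / 46 ≤ w := by
    rw [div_le_iff₀ (by norm_num), Real.sqrt_le_left (by positivity), hn]
    push_cast
    nlinarith [sq_nonneg (w : ℝ)]
  have a1 : (a : ℝ) * 2 ^ w < 2 ^ n := by exact_mod_cast h
  refine lt_of_lt_of_le ((lt_div_iff₀ (by positivity)).mpr a1) ?_
  rw [← Real.rpow_natCast, ← Real.rpow_natCast, ← Real.rpow_sub (by norm_num)]
  exact Real.rpow_le_rpow_of_exponent_le (by norm_num) (by linarith)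

end Pool.Agent.Lib.MP_614955_co.Cx
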