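import Mathlib

set_option autoImplicit false

namespace Pool.Agent.Lib.MP_614955_co

open Finset

/-- The hypergraph together with the numerical parameters of the strategy. -/
structure Setup (V : Type*) [DecidableEq V] where
  F : Finset (Finset V)
  n : ℕ
  r : ℕ
  j : ℕ
  S : ℕ
  a : ℕ
  d : ℕ
  g : ℕ
  L : ℕ
  K : ℕ
  z : ℕ
  unif : ∀ A ∈ F, A.card = n
  ad : ∀ A ∈ F, ∀ B ∈ F, A ≠ B → (A ∩ B).card ≤ 1
  deg : ∀ x, (F.filter (x ∈ ·)).card ≤ 2 ^ d
  j2 : 2 ≤ j
  r2 : 2 ≤ r
  p2 : 2 * (n * S) ^ 2 < 2 ^ r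
  p3 : 2 * r + j + a + g + 3 ≤ n
  p4 : d + a + r + 2 + 2 * g ≤ n
  p5 : 2 * (r + 1) ≤ g
  p5' : a + d + 1 + g ≤ 2 * j
  p6 : (n * L) ^ 2 ≤ S
  p6' : n + n * (n * S) ≤ z
  p6'' : n * L + n + z ≤ K
  p7 : 4 * (n * (n * (n * K) ^ 2) ^ 2) ≤ 2 ^ a
  p8 : 2 * ((K + 1) * (F.card + 1)) < 2 ^ L

variable {V : Type*} [DecidableEq V]

theorem Setup.n3 (P : Setup V) : 3 ≤ P.n := by have := P.p3; omega

/-- Edges with at least two points in `Z`. -/
def heavy (F : Finset (Finset V)) (Z : Finset V) : Finset (Finset V) :=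
  F.filter (fun A => 2 ≤ (A ∩ Z).card)

/-- Union of the edges with at least two points in `Z`. -/
def cl (F : Finset (Finset V)) (Z : Finset V) : Finset V := (heavy F Z).biUnion id

theorem heavy_card (P : Setup V) (Z : Finset V) : (heavy P.F Z).card ≤ Z.card ^ 2 := by
  have h : ∀ A ∈ heavy P.F Z, ∃ p : V × V, p.1 ∈ A ∧ p.2 ∈ A ∧ p.1 ≠ p.2 ∧ p ∈ Z ×ˢ Z := by
    intro A hA
    have h2 := (mem_filter.mp hA).2
    obtain ⟨x, hx, y, hy, hxy⟩ := one_lt_card.mp (by omega : 1 < (A ∩ Z).card)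
    exact ⟨(x, y), (mem_inter.mp hx).1, (mem_inter.mp hy).1, hxy,
      mem_product.mpr ⟨(mem_inter.mp hx).2, (mem_inter.mp hy).2⟩⟩
  rcases (heavy P.F Z).eq_empty_or_nonempty with he | ⟨A0, hA0⟩
  · rw [he]; simp
  have : Nonempty (V × V) := ⟨(h A0 hA0).choose⟩
  choose! f hf using h
  have := card_le_card_of_injOn (s := heavy P.F Z) (t := Z ×ˢ Z) f
    (fun A hA => (hf A hA).2.2.2) (by
      intro A hA B hB hAB
      by_contra hne
      have h1 := hf A hA
      have h2 := hf B hB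
      have h3 := P.ad A (mem_filter.mp hA).1 B (mem_filter.mp hB).1 hne
      have : 1 < (A ∩ B).card := one_lt_card.mpr ⟨(f A).1, mem_inter.mpr ⟨h1.1, by rw [hAB]; exact h2.1⟩,
        (f A).2, mem_inter.mpr ⟨h1.2.1, by rw [hAB]; exact h2.2.1⟩, h1.2.2.1⟩
      omega)
  rw [card_product] at this
  nlinarith

theorem biUnion_card (P : Setup V) (G : Finset (Finset V)) (hG : G ⊆ P.F) :
    (G.biUnion id).card ≤ P.n * G.card := by
  have := card_biUnion_le_card_mul G id P.n (fun A hA => (P.unif A (hG hA)).le)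
  rwa [mul_comm] at this

theorem cl_card (P : Setup V) (Z : Finset V) : (cl P.F Z).card ≤ P.n * Z.card ^ 2 :=
  (biUnion_card P _ (filter_subset _ _)).trans (Nat.mul_le_mul_left _ (heavy_card P Z))

theorem sub_cl {F : Finset (Finset V)} {Z A : Finset V} (hA : A ∈ F) (h : 2 ≤ (A ∩ Z).card) :
    A ⊆ cl F Z := fun _ hx => mem_biUnion.mpr ⟨A, mem_filter.mpr ⟨hA, h⟩, hx⟩

theorem sub_cl_of_sub (P : Setup V) {Z A : Finset V} (hA : A ∈ P.F) (h : A ⊆ Z) :
    A ⊆ cl P.F Z := by
  apply sub_cl hA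
  rw [inter_eq_left.mpr h, P.unif A hA]
  have := P.n3; omega

theorem meet_card (P : Setup V) (Z : Finset V) :
    (P.F.filter (fun A => ¬ Disjoint A Z)).card ≤ Z.card * 2 ^ P.d := by
  have h : P.F.filter (fun A => ¬ Disjoint A Z) ⊆ Z.biUnion (fun x => P.F.filter (x ∈ ·)) := by
    intro A hA
    obtain ⟨h1, h2⟩ := mem_filter.mp hA
    obtain ⟨x, hx, hx'⟩ := not_disjoint_iff.mp h2
    exact mem_biUnion.mpr ⟨x, hx', mem_filter.mpr ⟨h1, hx⟩⟩
  exact (card_le_card h).trans (card_biUnion_le_card_mul _ _ _ (fun x _ => P.deg x))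

/-- A step of an exploration: an edge, a flag cheap and a flag counted. -/
abbrev Step (V : Type*) := Finset V × Bool × Bool

/-- Union of all edges of an exploration. -/
def XX : List (Step V) → Finset V
  | [] => ∅
  | p :: l => p.1 ∪ XX l

/-- Union of the counted edges of an exploration. -/
def YY : List (Step V) → Finset V
  | [] => ∅
  | p :: l => if p.2.2 then p.1 ∪ YY l else YY l

/-- Cost of one step. -/
def c1 (P : Setup V) (p : Step V) : ℕ := if p.2.1 then P.a else P.a + P.d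

/-- Cost of an exploration. -/
def cost (P : Setup V) : List (Step V) → ℕ
  | [] => 0
  | p :: l => c1 P p + cost P l

/-- Allowed next steps. -/
def ext (P : Setup V) (l : List (Step V)) : Finset (Step V) :=
  (P.F ×ˢ (univ : Finset (Bool × Bool))).filter (fun p => l = [] ∨
    (if p.2.1 then 2 ≤ (p.1 ∩ cl P.F (XX l)).card else ¬ Disjoint p.1 (cl P.F (cl P.F (XX l)))))

/-- Admissible explorations. -/
def Adm (P : Setup V) : List (Step V) → Prop
  | [] => True
  | p :: l => p ∈ ext P l ∧ Adm P l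

/-- The finite set of admissible explorations of a given length. -/
def AdmF (P : Setup V) : ℕ → Finset (List (Step V))
  | 0 => {[]}
  | k + 1 => ((AdmF P k).sigma (ext P)).image (fun q => q.2 :: q.1)

theorem mem_AdmF (P : Setup V) : ∀ k l, l ∈ AdmF P k ↔ Adm P l ∧ l.length = k := by
  intro k
  induction k with
  | zero =>
    intro l
    cases l <;> simp [AdmF, Adm]
  | succ k ih =>
    intro l
    simp only [AdmF, mem_image, mem_sigma]
    constructor
    · rintro ⟨q, ⟨h1, h2⟩, rfl⟩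
      rw [ih] at h1
      exact ⟨⟨h2, h1.1⟩, by simp [h1.2]⟩
    · rintro ⟨h1, h2⟩
      cases l with
      | nil => simp at h2
      | cons p l =>
        exact ⟨⟨l, p⟩, ⟨(ih l).mpr ⟨h1.2, by simpa using h2⟩, h1.1⟩, rfl⟩

theorem YY_sub_XX : ∀ l : List (Step V), YY l ⊆ XX l
  | [] => by simp [YY, XX]
  | p :: l => by
    have := YY_sub_XX l
    simp only [YY, XX]
    split_ifs
    · exact union_subset_union_right this
    · exact this.trans subset_union_right

theorem ext_F (P : Setup V) {l : List (Step V)} {p : Step V} (h : p ∈ ext P l) : p.1 ∈ P.F :=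
  (mem_product.mp (mem_filter.mp h).1).1

theorem XX_card (P : Setup V) : ∀ l : List (Step V), Adm P l → (XX l).card ≤ P.n * l.length
  | [], _ => by simp [XX]
  | p :: l, h => by
    have h1 := XX_card P l h.2
    have h2 := P.unif _ (ext_F P h.1)
    have h3 := card_union_le p.1 (XX l)
    simp only [XX, List.length_cons]
    nlinarith

theorem sum_c1 (P : Setup V) (G : Finset (Step V)) :
    ∑ p ∈ G, (1/2 : ℝ) ^ c1 P p =
      (1/2 : ℝ) ^ P.a * (((G.filter (fun p => p.2.1 = true)).card : ℝ) +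
        ((G.filter (fun p => ¬ p.2.1 = true)).card : ℝ) * (1/2) ^ P.d) := by
  rw [← sum_filter_add_sum_filter_not G (fun p => p.2.1 = true)]
  have h1 : ∑ p ∈ G.filter (fun p => p.2.1 = true), (1/2 : ℝ) ^ c1 P p =
      ∑ p ∈ G.filter (fun p => p.2.1 = true), (1/2 : ℝ) ^ P.a :=
    sum_congr rfl (fun p hp => by simp [c1, (mem_filter.mp hp).2])
  have h2 : ∑ p ∈ G.filter (fun p => ¬ p.2.1 = true), (1/2 : ℝ) ^ c1 P p =
      ∑ p ∈ G.filter (fun p => ¬ p.2.1 = true), (1/2 : ℝ) ^ (P.a + P.d) :=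
    sum_congr rfl (fun p hp => by
      have := (mem_filter.mp hp).2
      simp only [c1, if_neg this])
  rw [h1, h2, sum_const, sum_const, nsmul_eq_mul, nsmul_eq_mul, pow_add]
  ring

omit [DecidableEq V] in
theorem card_filter_step (G : Finset (Step V)) (H : Finset (Finset V)) (b : Bool)
    (h : ∀ p ∈ G, p.2.1 = b → p.1 ∈ H) : (G.filter (fun p => p.2.1 = b)).card ≤ 2 * H.card := by
  have : G.filter (fun p => p.2.1 = b) ⊆ H ×ˢ ({(b, true), (b, false)} : Finset (Bool × Bool)) := by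
    intro p hp
    obtain ⟨h1, h2⟩ := mem_filter.mp hp
    refine mem_product.mpr ⟨h p h1 h2, ?_⟩
    obtain ⟨A, b1, b2⟩ := p
    simp only at h2
    subst h2
    cases b2 <;> simp
  have h2 := card_le_card this
  rw [card_product] at h2
  have h3 : ({(b, true), (b, false)} : Finset (Bool × Bool)).card = 2 := by
    rw [card_pair]; simp
  rw [h3] at h2
  omega

theorem four_le_pow (P : Setup V) : 4 ≤ 2 ^ P.a := by
  have h := P.p7
  have h3 := P.n3
  have hK : 1 ≤ P.K := by have := P.p6''; omega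
  have : 1 ≤ P.n * (P.n * (P.n * P.K) ^ 2) ^ 2 := Nat.one_le_iff_ne_zero.mpr (by positivity)
  omega

theorem sum_ext_nil (P : Setup V) : ∑ p ∈ ext P [], (1/2 : ℝ) ^ c1 P p ≤ P.F.card := by
  rw [sum_c1]
  have h1 := card_filter_step (ext P []) P.F true (fun p hp _ => ext_F P hp)
  have h2 := card_filter_step (ext P []) P.F false (fun p hp _ => ext_F P hp)
  have e : (ext P []).filter (fun p => ¬ p.2.1 = true) = (ext P []).filter (fun p => p.2.1 = false) := by
    apply filter_congr; intro p _; simp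
  rw [e]
  have h1' : (((ext P []).filter (fun p => p.2.1 = true)).card : ℝ) ≤ 2 * P.F.card := by exact_mod_cast h1
  have h2' : (((ext P []).filter (fun p => p.2.1 = false)).card : ℝ) ≤ 2 * P.F.card := by exact_mod_cast h2
  have h4 : (4 : ℝ) ≤ 2 ^ P.a := by exact_mod_cast four_le_pow P
  have h5 : (1/2 : ℝ) ^ P.d ≤ 1 := pow_le_one₀ (by norm_num) (by norm_num)
  have h6 : (0 : ℝ) ≤ (1/2 : ℝ) ^ P.d := by positivity
  have h7 : (1/2 : ℝ) ^ P.a ≤ 1/4 := by
    rw [one_div_pow]
    exact one_div_le_one_div_of_le (by norm_num) h4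
  have h8 : (0 : ℝ) ≤ (((ext P []).filter (fun p => p.2.1 = false)).card : ℝ) := by positivity
  have h9 : (((ext P []).filter (fun p => p.2.1 = false)).card : ℝ) * (1/2) ^ P.d ≤ 2 * P.F.card := by
    nlinarith
  have h10 : (0 : ℝ) ≤ P.F.card := by positivity
  calc _ ≤ (1/4 : ℝ) * (4 * P.F.card) := by
        apply mul_le_mul h7 (by linarith) (by positivity) (by norm_num)
    _ = _ := by ring

theorem sum_ext_cons (P : Setup V) (l : List (Step V)) (hl : l ≠ []) (hA : Adm P l)
    (hK : l.length ≤ P.K) : ∑ p ∈ ext P l, (1/2 : ℝ) ^ c1 P p ≤ 1 := by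
  rw [sum_c1]
  have h1 := card_filter_step (ext P l) (heavy P.F (cl P.F (XX l))) true (fun p hp hb => by
    have := (mem_filter.mp hp).2
    simp only [hl, hb, false_or, if_true] at this
    exact mem_filter.mpr ⟨ext_F P hp, this⟩)
  have h2 := card_filter_step (ext P l) (P.F.filter (fun A => ¬ Disjoint A (cl P.F (cl P.F (XX l)))))
    false (fun p hp hb => by
    have := (mem_filter.mp hp).2
    simp only [hl, hb, false_or] at this
    exact mem_filter.mpr ⟨ext_F P hp, by simpa using this⟩)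
  have e : (ext P l).filter (fun p => ¬ p.2.1 = true) = (ext P l).filter (fun p => p.2.1 = false) := by
    apply filter_congr; intro p _; simp
  rw [e]
  set u := P.n * (P.n * (P.n * P.K) ^ 2) ^ 2 with hu
  have hX : (XX l).card ≤ P.n * P.K := (XX_card P l hA).trans (Nat.mul_le_mul_left _ hK)
  have hc1 : (cl P.F (XX l)).card ≤ P.n * (P.n * P.K) ^ 2 :=
    (cl_card P _).trans (Nat.mul_le_mul_left _ (Nat.pow_le_pow_left hX 2))
  have hc2 : (cl P.F (cl P.F (XX l))).card ≤ u :=
    (cl_card P _).trans (Nat.mul_le_mul_left _ (Nat.pow_le_pow_left hc1 2))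
  have hh : (heavy P.F (cl P.F (XX l))).card ≤ u := by
    refine (heavy_card P _).trans ((Nat.pow_le_pow_left hc1 2).trans ?_)
    have := P.n3
    exact Nat.le_mul_of_pos_left _ (by omega)
  have hm := meet_card P (cl P.F (cl P.F (XX l)))
  have h1n : ((ext P l).filter (fun p => p.2.1 = true)).card ≤ 2 * u := by omega
  have h2n : ((ext P l).filter (fun p => p.2.1 = false)).card ≤ 2 * u * 2 ^ P.d := by
    have := Nat.mul_le_mul_right (2 ^ P.d) hc2
    nlinarith
  have h1' : (((ext P l).filter (fun p => p.2.1 = true)).card : ℝ) ≤ 2 * u := by exact_mod_cast h1n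
  have h2' : (((ext P l).filter (fun p => p.2.1 = false)).card : ℝ) ≤ 2 * u * 2 ^ P.d := by
    exact_mod_cast h2n
  have h4 : (4 * u : ℝ) ≤ 2 ^ P.a := by exact_mod_cast P.p7
  have h9 : (((ext P l).filter (fun p => p.2.1 = false)).card : ℝ) * (1/2) ^ P.d ≤ 2 * u := by
    rw [one_div_pow, mul_one_div, div_le_iff₀ (by positivity)]
    exact h2'
  rw [one_div_pow, one_div_mul_eq_div, div_le_one (by positivity)]
  linarith

theorem sum_AdmF (P : Setup V) : ∀ k, k ≤ P.K →
    ∑ l ∈ AdmF P (k+1), (1/2 : ℝ) ^ cost P l ≤ P.F.card := by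
  have step : ∀ k, ∑ l ∈ AdmF P (k+1), (1/2 : ℝ) ^ cost P l =
      ∑ l ∈ AdmF P k, (1/2 : ℝ) ^ cost P l * ∑ p ∈ ext P l, (1/2 : ℝ) ^ c1 P p := by
    intro k
    simp only [AdmF]
    rw [sum_image (by
      rintro ⟨l, p⟩ _ ⟨l', p'⟩ _ h
      simp only [List.cons.injEq] at h
      obtain ⟨rfl, rfl⟩ := h
      rfl), sum_sigma]
    apply sum_congr rfl
    intro l _
    rw [mul_sum]
    apply sum_congr rfl
    intro p _
    simp only [cost, pow_add]
    ring
  intro k
  induction k with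
  | zero =>
    intro _
    rw [step]
    simpa [AdmF, cost] using sum_ext_nil P
  | succ k ih =>
    intro hk
    rw [step]
    refine le_trans (sum_le_sum ?_) (ih (by omega))
    intro l hl
    obtain ⟨h1, h2⟩ := (mem_AdmF P _ _).mp hl
    have := sum_ext_cons P l (by rintro rfl; simp at h2) h1 (by omega)
    have h0 : (0 : ℝ) ≤ (1/2 : ℝ) ^ cost P l := by positivity
    nlinarith

/-- Index set of the global potential. -/
def TT (P : Setup V) : Finset (Σ _ : ℕ, List (Step V)) := (range (P.K + 1)).sigma (AdmF P)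

theorem sum_TT (P : Setup V) :
    ∑ q ∈ TT P, (1/2 : ℝ) ^ cost P q.2 ≤ (P.K + 1) * (P.F.card + 1) := by
  rw [TT, sum_sigma]
  have : ∀ k ∈ range (P.K + 1), ∑ l ∈ AdmF P k, (1/2 : ℝ) ^ cost P l ≤ P.F.card + 1 := by
    intro k hk
    cases k with
    | zero => simp [AdmF, cost]
    | succ k =>
      have := sum_AdmF P k (by have := mem_range.mp hk; omega)
      linarith
  have h := sum_le_card_nsmul _ _ _ this
  rw [card_range, nsmul_eq_mul] at h
  simpa using h

end Pool.Agent.Lib.MP_614955_co
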