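import Mathlib
import Pool.Agent.Lib.MP_614955_co.Witness

set_option autoImplicit false

namespace Pool.Agent.Lib.MP_614955_co

open Finset

variable {V : Type*} [DecidableEq V]

/-- Recursive certificate that the edge `E` carries many big points of the first player,
up to losses paid for by children with pairwise disjoint certificates, all inside `Z`. -/
inductive Tree (P : Setup V) (Mb : Finset V) : Finset V → Finset V → Prop
  | mk (E Z : Finset V) (K : Finset (Finset V × Finset V)) (hF : E ∈ P.F) (hEZ : E ⊆ Z)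
    (hT : ∀ p ∈ K, Tree P Mb p.1 p.2) (hK : ∀ p ∈ K, p.1 ≠ E ∧ ¬ Disjoint p.1 E ∧ p.2 ⊆ Z)
    (hD : ∀ p ∈ K, ∀ q ∈ K, p ≠ q → Disjoint p.2 q.2)
    (h1 : P.n ≤ (E ∩ Mb).card + P.r + (P.r + 1) * K.card)
    (h2 : P.n ≤ (E ∩ Mb).card + 2 * P.r + P.j) : Tree P Mb E Z

theorem Tree.mono_M {P : Setup V} {Mb Mb' : Finset V} (h : Mb ⊆ Mb') {E Z : Finset V}
    (t : Tree P Mb E Z) : Tree P Mb' E Z := by
  induction t with
  | mk E Z K hF hEZ hT hK hD h1 h2 ih =>
    have : (E ∩ Mb).card ≤ (E ∩ Mb').card := card_le_card (inter_subset_inter_left h)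
    exact Tree.mk E Z K hF hEZ ih hK hD (by omega) (by omega)

theorem Tree.mono_Z {P : Setup V} {Mb : Finset V} {E Z Z' : Finset V} (h : Z ⊆ Z')
    (t : Tree P Mb E Z) : Tree P Mb E Z' := by
  cases t with
  | mk _ _ K hF hEZ hT hK hD h1 h2 =>
    exact Tree.mk E Z' K hF (hEZ.trans h) hT
      (fun p hp => ⟨(hK p hp).1, (hK p hp).2.1, (hK p hp).2.2.trans h⟩) hD h1 h2

theorem Tree.sub {P : Setup V} {Mb : Finset V} {E Z : Finset V} (t : Tree P Mb E Z) :
    E ∈ P.F ∧ E ⊆ Z := by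
  cases t with
  | mk _ _ K hF hEZ hT hK hD h1 h2 => exact ⟨hF, hEZ⟩

/-- `K` is a family of children of `B` with disjoint certificates inside `Z`. -/
def Kids (P : Setup V) (Mb B Z : Finset V) (K : Finset (Finset V × Finset V)) : Prop :=
  (∀ p ∈ K, Tree P Mb p.1 p.2 ∧ p.1 ≠ B ∧ ¬ Disjoint p.1 B ∧ p.2 ⊆ Z) ∧
    ∀ p ∈ K, ∀ q ∈ K, p ≠ q → Disjoint p.2 q.2

theorem Kids.mono {P : Setup V} {Mb Mb' B Z Z' : Finset V} {K : Finset (Finset V × Finset V)}
    (hM : Mb ⊆ Mb') (hZ : Z ⊆ Z') (h : Kids P Mb B Z K) : Kids P Mb' B Z' K :=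
  ⟨fun p hp => ⟨(h.1 p hp).1.mono_M hM, (h.1 p hp).2.1, (h.1 p hp).2.2.1, (h.1 p hp).2.2.2.trans hZ⟩,
    h.2⟩

/-- Surplus of an exploration. -/
def sur (P : Setup V) (Mb : Finset V) (l : List (Step V)) : ℤ :=
  ((YY l ∩ Mb).card : ℤ) - cost P l - l.length

/-- `l'` continues `l` inside `Z` and gains surplus `s`. -/
def Rel (P : Setup V) (Mb Z : Finset V) (l l' : List (Step V)) (s : ℤ) : Prop :=
  Adm P l' ∧ XX l ⊆ XX l' ∧ XX l' ⊆ XX l ∪ Z ∧ YY l' ⊆ YY l ∪ Z ∧
    l'.length + (XX l).card ≤ l.length + (XX l').card ∧ l.length ≤ l'.length ∧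
    sur P Mb l + s ≤ sur P Mb l'

theorem Rel.trans {P : Setup V} {Mb Z Z1 Z2 : Finset V} {l l1 l2 : List (Step V)} {s s1 s2 : ℤ}
    (h1 : Rel P Mb Z1 l l1 s1) (h2 : Rel P Mb Z2 l1 l2 s2) (hZ1 : Z1 ⊆ Z) (hZ2 : Z2 ⊆ Z)
    (hs : s ≤ s1 + s2) : Rel P Mb Z l l2 s := by
  obtain ⟨a1, a2, a3, a4, a5, a6, a7⟩ := h1
  obtain ⟨b1, b2, b3, b4, b5, b6, b7⟩ := h2
  refine ⟨b1, a2.trans b2, ?_, ?_, by omega, by omega, by omega⟩
  · refine b3.trans (union_subset (a3.trans (union_subset_union_right hZ1)) ?_)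
    exact hZ2.trans subset_union_right
  · refine b4.trans (union_subset (a4.trans (union_subset_union_right hZ1)) ?_)
    exact hZ2.trans subset_union_right

theorem rel_cons_X {P : Setup V} {l : List (Step V)} {p : Step V} (hp : p ∈ ext P l)
    (h2 : (p.1 ∩ XX l).card ≤ 2) : (p :: l).length + (XX l).card ≤ l.length + (XX (p :: l)).card := by
  have h1 := P.unif _ (ext_F P hp)
  have h3 := card_union_add_card_inter p.1 (XX l)
  have := P.n3
  simp only [XX, List.length_cons]
  omega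

theorem rel_cons_true {P : Setup V} (Mb : Finset V) {l : List (Step V)} {E : Finset V} {b : Bool}
    (hl : Adm P l) (hp : (E, b, true) ∈ ext P l) (h2 : (E ∩ XX l).card ≤ 2) :
    Rel P Mb E l ((E, b, true) :: l)
      (((E ∩ Mb).card : ℤ) - (E ∩ XX l).card - c1 P (E, b, true) - 1) := by
  refine ⟨⟨hp, hl⟩, by simp [XX], by simp [XX, union_comm], by simp [YY, union_comm],
    rel_cons_X hp h2, by simp, ?_⟩
  have h1 : (YY l ∩ Mb).card + (E ∩ Mb).card ≤ ((E ∪ YY l) ∩ Mb).card + (E ∩ XX l).card := by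
    have e1 := card_union_add_card_inter (E ∩ Mb) (YY l ∩ Mb)
    have e2 : (E ∪ YY l) ∩ Mb = E ∩ Mb ∪ YY l ∩ Mb := union_inter_distrib_right _ _ _
    have e3 : (E ∩ Mb ∩ (YY l ∩ Mb)).card ≤ (E ∩ XX l).card := by
      apply card_le_card
      intro x hx
      simp only [mem_inter] at hx ⊢
      exact ⟨hx.1.1, YY_sub_XX l hx.2.1⟩
    rw [e2]
    omega
  simp only [sur, YY, cost, List.length_cons, if_true]
  push_cast
  omega

theorem rel_cons_false {P : Setup V} (Mb : Finset V) {l : List (Step V)} {E : Finset V} {b : Bool}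
    (hl : Adm P l) (hp : (E, b, false) ∈ ext P l) (h2 : (E ∩ XX l).card ≤ 2) :
    Adm P ((E, b, false) :: l) ∧ YY ((E, b, false) :: l) = YY l ∧
      sur P Mb ((E, b, false) :: l) = sur P Mb l - c1 P (E, b, false) - 1 ∧
      ((E, b, false) :: l).length + (XX l).card ≤ l.length + (XX ((E, b, false) :: l)).card := by
  refine ⟨⟨hp, hl⟩, by simp [YY], ?_, rel_cons_X hp h2⟩
  simp only [sur, YY, cost, List.length_cons]
  push_cast
  ring

/-- The conclusion of the exploration lemma. -/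
def Expl (P : Setup V) (Mb E Z : Finset V) : Prop :=
  E ∈ P.F ∧ E ⊆ Z ∧ ∀ l, Adm P l → (E ∩ XX l).card ≤ 2 →
    (l = [] ∨ ¬ Disjoint E (cl P.F (cl P.F (XX l)))) →
    ∃ l', Rel P Mb Z l l' P.g ∧ E ⊆ XX l' ∧ l.length < l'.length

theorem kids_explore (P : Setup V) (Mb : Finset V) {E X0 : Finset V} (hE : E ∈ P.F)
    (l1 : List (Step V)) (hl1 : Adm P l1) (hX : XX l1 = E ∪ X0)
    (K : Finset (Finset V × Finset V))
    (hK : ∀ p ∈ K, Expl P Mb p.1 p.2 ∧ p.1 ≠ E ∧ ¬ Disjoint p.1 E ∧ (p.1 ∩ X0).card ≤ 1)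
    (hD : ∀ p ∈ K, ∀ q ∈ K, p ≠ q → Disjoint p.2 q.2) :
    ∃ l', Rel P Mb (K.biUnion Prod.snd) l1 l' (P.g * K.card) := by
  induction K using Finset.induction_on with
  | empty => exact ⟨l1, hl1, Subset.rfl, by simp, by simp, by omega, le_rfl, by simp⟩
  | insert p K hp ih =>
    obtain ⟨l2, h2⟩ := ih (fun q hq => hK q (mem_insert_of_mem hq))
      (fun q hq q' hq' => hD q (mem_insert_of_mem hq) q' (mem_insert_of_mem hq'))
    obtain ⟨⟨hpF, hpZ, hpE⟩, hne, hmeet, hX0⟩ := hK p (mem_insert_self _ _)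
    have hc : (p.1 ∩ XX l2).card ≤ 2 := by
      have hsub : p.1 ∩ XX l2 ⊆ (p.1 ∩ E) ∪ (p.1 ∩ X0) := by
        intro x hx
        obtain ⟨hx1, hx2⟩ := mem_inter.mp hx
        have := h2.2.2.1 hx2
        rw [hX] at this
        simp only [mem_union, mem_inter, mem_biUnion] at this ⊢
        rcases this with (h | h) | ⟨q, hq, hxq⟩
        · exact Or.inl ⟨hx1, h⟩
        · exact Or.inr ⟨hx1, h⟩
        · exact absurd hxq (disjoint_left.mp (hD p (mem_insert_self _ _) q (mem_insert_of_mem hq)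
            (by rintro rfl; exact hp hq)) (hpZ hx1))
      have h3 := card_le_card hsub
      have h4 := card_union_le (p.1 ∩ E) (p.1 ∩ X0)
      have h5 := P.ad _ hpF _ hE hne
      omega
    have hE2 : E ⊆ cl P.F (cl P.F (XX l2)) := by
      apply sub_cl_of_sub P hE
      apply sub_cl_of_sub P hE
      refine Subset.trans ?_ h2.2.1
      rw [hX]; exact subset_union_left
    obtain ⟨l3, h3, -, -⟩ := hpE l2 h2.1 hc (Or.inr (fun h => hmeet (h.mono_right hE2)))
    refine ⟨l3, h2.trans h3 ?_ ?_ ?_⟩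
    · rw [biUnion_insert]; exact subset_union_right
    · rw [biUnion_insert]; exact subset_union_left
    · rw [card_insert_of_notMem hp]; push_cast; linarith

theorem few_bad (P : Setup V) {E X0 : Finset V} (K : Finset (Finset V × Finset V))
    (hK : ∀ p ∈ K, p.1 ∈ P.F ∧ p.1 ⊆ p.2 ∧ ¬ Disjoint p.1 E)
    (hD : ∀ p ∈ K, ∀ q ∈ K, p ≠ q → Disjoint p.2 q.2) (h1 : (E ∩ cl P.F X0).card ≤ 1) :
    K.card ≤ (K.filter (fun p => (p.1 ∩ X0).card ≤ 1)).card + 1 := by
  have h2 := card_filter_add_card_filter_not (s := K) (fun p => (p.1 ∩ X0).card ≤ 1)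
  have h3 : (K.filter (fun p => ¬ (p.1 ∩ X0).card ≤ 1)).card ≤ 1 := by
    rw [card_le_one]
    intro p hp q hq
    by_contra hne
    obtain ⟨hp1, hp2⟩ := mem_filter.mp hp
    obtain ⟨hq1, hq2⟩ := mem_filter.mp hq
    obtain ⟨x, hx, hxE⟩ := not_disjoint_iff.mp (hK p hp1).2.2
    obtain ⟨y, hy, hyE⟩ := not_disjoint_iff.mp (hK q hq1).2.2
    have hx' := sub_cl (hK p hp1).1 (by omega : 2 ≤ (p.1 ∩ X0).card) hx
    have hy' := sub_cl (hK q hq1).1 (by omega : 2 ≤ (q.1 ∩ X0).card) hy
    have := card_le_one.mp h1 x (mem_inter.mpr ⟨hxE, hx'⟩) y (mem_inter.mpr ⟨hyE, hy'⟩)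
    subst this
    exact disjoint_left.mp (hD p hp1 q hq1 hne) ((hK p hp1).2.1 hx) ((hK q hq1).2.1 hy)
  omega

theorem XX_sub_cl (P : Setup V) : ∀ l : List (Step V), Adm P l → XX l ⊆ cl P.F (XX l)
  | [], _ => by simp [XX]
  | p :: l, h => by
    have h1 := XX_sub_cl P l h.2
    simp only [XX]
    apply union_subset
    · exact sub_cl_of_sub P (ext_F P h.1) subset_union_left
    · refine h1.trans ?_
      intro x hx
      obtain ⟨A, hA, hxA⟩ := mem_biUnion.mp hx
      obtain ⟨hA1, hA2⟩ := mem_filter.mp hA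
      refine sub_cl hA1 (hA2.trans (card_le_card ?_)) hxA
      exact inter_subset_inter_left subset_union_right

theorem mem_ext_exp (P : Setup V) {l : List (Step V)} {E : Finset V} (b : Bool) (hE : E ∈ P.F)
    (h : l = [] ∨ ¬ Disjoint E (cl P.F (cl P.F (XX l)))) : (E, false, b) ∈ ext P l := by
  refine mem_filter.mpr ⟨mem_product.mpr ⟨hE, mem_univ _⟩, ?_⟩
  simpa using h

theorem Tree.expl {P : Setup V} {Mb E Z : Finset V} (t : Tree P Mb E Z) : Expl P Mb E Z := by
  induction t with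
  | mk E Z K hF hEZ hT hK hD h1 h2 ih =>
    refine ⟨hF, hEZ, ?_⟩
    intro l hl hc hm
    by_cases hch : 2 ≤ (E ∩ cl P.F (XX l)).card
    · have hp : (E, true, true) ∈ ext P l := by
        refine mem_filter.mpr ⟨mem_product.mpr ⟨hF, mem_univ _⟩, Or.inr ?_⟩
        simpa using hch
      have h := rel_cons_true Mb hl hp hc
      refine ⟨_, h.trans (s2 := 0) (Z2 := ∅) ⟨h.1, Subset.rfl, by simp, by simp, by omega, le_rfl, by simp⟩
        hEZ (empty_subset _) ?_, by simp [XX], by simp⟩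
      have := P.p3
      simp only [c1, if_true]
      omega
    · have hp := mem_ext_exp P true hF hm
      have h := rel_cons_true Mb hl hp hc
      have hc1 : (E ∩ XX l).card ≤ 1 := by
        have := card_le_card (inter_subset_inter_left (s := E) (XX_sub_cl P l hl))
        omega
      have hfew := few_bad P (E := E) (X0 := XX l) K
        (fun p hp => ⟨(ih p hp).1, (ih p hp).2.1, (hK p hp).2.1⟩) hD (by omega)
      set K' := K.filter (fun p => (p.1 ∩ XX l).card ≤ 1) with hK'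
      obtain ⟨l', h'⟩ := kids_explore P Mb hF ((E, false, true) :: l) h.1 (X0 := XX l) rfl K'
        (fun p hp => by
          obtain ⟨hp1, hp2⟩ := mem_filter.mp hp
          exact ⟨ih p hp1, (hK p hp1).1, (hK p hp1).2.1, hp2⟩)
        (fun p hp q hq => hD p (mem_filter.mp hp).1 q (mem_filter.mp hq).1)
      refine ⟨l', h.trans h' hEZ ?_ ?_, Subset.trans (by simp [XX]) h'.2.1, ?_⟩
      · intro x hx
        obtain ⟨p, hp, hxp⟩ := mem_biUnion.mp hx
        exact (hK p (mem_filter.mp hp).1).2.2 hxp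
      · have h4 := P.p4
        have h5 := P.p5
        have h6 : (P.r + 1) * K.card ≤ P.g * K'.card + P.g := by
          have : (P.r + 1) * K.card ≤ P.g * (K'.card + 1) := Nat.mul_le_mul (by omega) hfew
          linarith
        simp only [c1]
        have h7 : ((P.r + 1) * K.card : ℤ) ≤ P.g * K'.card + P.g := by exact_mod_cast h6
        have h8 : (P.n : ℤ) ≤ (E ∩ Mb).card + P.r + (P.r + 1) * K.card := by exact_mod_cast h1
        simp
        omega
      · have := h'.2.2.2.2.2.1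
        simp only [List.length_cons] at this
        omega

/-- Connectivity of a family of members through intersections and connectors. -/
def Conn (mem con : Finset (Finset V)) : Prop :=
  ∀ G ⊆ mem, G.Nonempty → G ≠ mem → ∃ A ∈ G, ∃ A' ∈ mem, A' ∉ G ∧
    (¬ Disjoint A A' ∨ ∃ B ∈ con, ¬ Disjoint B A ∧ ¬ Disjoint B A')

theorem explore_main (P : Setup V) (Mb U : Finset V) (mem con : Finset (Finset V))
    (hmem : ∀ A ∈ mem, ∃ Z ⊆ U, Z.card ≤ P.z ∧ Tree P Mb A Z)
    (hcon : ∀ B ∈ con, B ∈ P.F ∧ ∃ Z ⊆ U, Z.card ≤ P.z ∧ ∃ K, Kids P Mb B Z K ∧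
      P.j ≤ (P.r + 1) * K.card)
    (hC : Conn mem con) (hS : P.S < mem.card) :
    ∃ l, Adm P l ∧ l.length ≤ P.K ∧ YY l ⊆ U ∧ (cost P l + P.L ≤ (YY l ∩ Mb).card) := by
  let Q : List (Step V) → Prop := fun l => Adm P l ∧ YY l ⊆ U ∧ 0 ≤ sur P Mb l ∧
    l.length ≤ (XX l).card ∧ (l = [] ∨ ∃ A ∈ mem, A ⊆ XX l)
  have memF : ∀ A ∈ mem, A ∈ P.F := fun A hA => by
    obtain ⟨Z, -, -, t⟩ := hmem A hA
    exact t.sub.1
  have viaTree : ∀ l, Q l → ∀ A ∈ mem, (A ∩ XX l).card ≤ 2 →
      (l = [] ∨ ¬ Disjoint A (cl P.F (cl P.F (XX l)))) →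
      ∃ l', Q l' ∧ l.length < l'.length ∧ (XX l').card ≤ (XX l).card + P.n + P.z := by
    intro l hl A hA hc hm
    obtain ⟨Z, hZU, hZ, t⟩ := hmem A hA
    obtain ⟨l', h, hAl, hlen⟩ := t.expl.2.2 l hl.1 hc hm
    obtain ⟨b1, b2, b3, b4, b5, b6, b7⟩ := h
    refine ⟨l', ⟨b1, b4.trans (union_subset hl.2.1 hZU), ?_, ?_, Or.inr ⟨A, hA, hAl⟩⟩, hlen, ?_⟩
    · have := hl.2.2.1; omega
    · have := hl.2.2.2.1; omega
    · have h1 := card_le_card b3
      have h2 := card_union_le (XX l) Z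
      omega
  have step : ∀ l, Q l → l.length < P.L →
      ∃ l', Q l' ∧ l.length < l'.length ∧ (XX l').card ≤ (XX l).card + P.n + P.z := by
    intro l hl hlen
    rcases hl.2.2.2.2 with rfl | ⟨A0, hA0, hA0X⟩
    · obtain ⟨A, hA⟩ := card_pos.mp (by omega : 0 < mem.card)
      exact viaTree [] hl A hA (by simp [XX]) (Or.inl rfl)
    · set G := mem.filter (fun A => 2 ≤ (A ∩ XX l).card) with hG
      have hGne : G.Nonempty := ⟨A0, mem_filter.mpr ⟨hA0, by
        rw [inter_eq_left.mpr hA0X, P.unif _ (memF _ hA0)]; have := P.n3; omega⟩⟩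
      have hGmem : G ≠ mem := by
        intro h
        have h1 : G ⊆ heavy P.F (XX l) := fun A hA =>
          mem_filter.mpr ⟨memF A (mem_filter.mp hA).1, (mem_filter.mp hA).2⟩
        have h2 := (card_le_card h1).trans (heavy_card P _)
        have h3 := XX_card P l hl.1
        have h4 : (XX l).card ≤ P.n * P.L := h3.trans (Nat.mul_le_mul_left _ hlen.le)
        have h5 := Nat.pow_le_pow_left h4 2
        have h6 := P.p6
        rw [h] at h2
        omega
      obtain ⟨A, hA, A', hA', hA'G, hlink⟩ := hC G (filter_subset _ _) hGne hGmem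
      have hA'c : (A' ∩ XX l).card ≤ 2 := by
        by_contra hcon'
        exact hA'G (mem_filter.mpr ⟨hA', by omega⟩)
      obtain ⟨hAm, hA2⟩ := mem_filter.mp hA
      have hAcl : A ⊆ cl P.F (XX l) := sub_cl (memF A hAm) hA2
      rcases hlink with hlink | ⟨B, hB, hBA, hBA'⟩
      · refine viaTree l hl A' hA' hA'c (Or.inr ?_)
        exact fun h => hlink (h.symm.mono_left (sub_cl_of_sub P (memF A hAm) hAcl))
      · obtain ⟨hBF, Z, hZU, hZ, K, hK, hKj⟩ := hcon B hB
        by_cases hch : 2 ≤ (B ∩ cl P.F (XX l)).card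
        · refine viaTree l hl A' hA' hA'c (Or.inr ?_)
          exact fun h => hBA' (h.symm.mono_left (sub_cl hBF hch))
        · have hp := mem_ext_exp P (l := l) false hBF
            (Or.inr (fun h => hBA (h.mono_right (sub_cl_of_sub P (memF A hAm) hAcl))))
          have hc1 : (B ∩ XX l).card ≤ 1 := by
            have := card_le_card (inter_subset_inter_left (s := B) (XX_sub_cl P l hl.1))
            omega
          obtain ⟨c1', c2, c3, c4⟩ := rel_cons_false Mb hl.1 hp (by omega)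
          have hfew := few_bad P (E := B) (X0 := XX l) K
            (fun p hp => ⟨(hK.1 p hp).1.sub.1, (hK.1 p hp).1.sub.2, (hK.1 p hp).2.2.1⟩) hK.2 (by omega)
          set K' := K.filter (fun p => (p.1 ∩ XX l).card ≤ 1) with hK'
          obtain ⟨l', h'⟩ := kids_explore P Mb hBF ((B, false, false) :: l) c1' (X0 := XX l) rfl K'
            (fun p hp => by
              obtain ⟨hp1, hp2⟩ := mem_filter.mp hp
              exact ⟨(hK.1 p hp1).1.expl, (hK.1 p hp1).2.1, (hK.1 p hp1).2.2.1, hp2⟩)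
            (fun p hp q hq => hK.2 p (mem_filter.mp hp).1 q (mem_filter.mp hq).1)
          obtain ⟨b1, b2, b3, b4, b5, b6, b7⟩ := h'
          have hKZ : K'.biUnion Prod.snd ⊆ Z := by
            intro x hx
            obtain ⟨p, hp, hxp⟩ := mem_biUnion.mp hx
            exact (hK.1 p (mem_filter.mp hp).1).2.2.2 hxp
          refine ⟨l', ⟨b1, ?_, ?_, ?_, Or.inr ⟨A0, hA0, ?_⟩⟩, ?_, ?_⟩
          · rw [c2] at b4
            exact b4.trans (union_subset hl.2.1 (hKZ.trans hZU))
          · have h0 := hl.2.2.1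
            have h4 := P.p5'
            have h5 := P.p5
            have h6 : 2 * P.j ≤ P.g * K'.card + P.g := by
              have h7 : 2 * (P.r + 1) * K.card ≤ P.g * (K'.card + 1) := Nat.mul_le_mul h5 hfew
              nlinarith
            have h7 : (2 * P.j : ℤ) ≤ P.g * K'.card + P.g := by exact_mod_cast h6
            rw [c3] at b7
            simp only [c1] at b7
            simp at b7
            omega
          · have := hl.2.2.2.1; omega
          · exact hA0X.trans (Subset.trans (by simp [XX]) b2)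
          · simp only [List.length_cons] at b6; omega
          · have h1 := card_le_card b3
            have h2 := card_union_le (XX ((B, false, false) :: l)) (K'.biUnion Prod.snd)
            have h3 := card_le_card hKZ
            have h4 : (XX ((B, false, false) :: l)).card ≤ P.n + (XX l).card := by
              have := card_union_le B (XX l)
              rw [P.unif B hBF] at this
              exact this
            omega
  have iter : ∀ i, ∃ l, Q l ∧ min i P.L ≤ l.length ∧ (XX l).card ≤ P.n * P.L + P.n + P.z := by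
    intro i
    induction i with
    | zero => exact ⟨[], ⟨trivial, by simp [YY], by simp [sur, YY, cost], by simp, Or.inl rfl⟩,
        by simp, by simp [XX]⟩
    | succ i ih =>
      obtain ⟨l, h1, h2, h3⟩ := ih
      by_cases hL : l.length < P.L
      · obtain ⟨l', k1, k2, k3⟩ := step l h1 hL
        refine ⟨l', k1, by omega, ?_⟩
        have h4 : (XX l).card ≤ P.n * P.L := (XX_card P l h1.1).trans (Nat.mul_le_mul_left _ hL.le)
        omega
      · exact ⟨l, h1, by omega, h3⟩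
  obtain ⟨l, h1, h2, h3⟩ := iter P.L
  refine ⟨l, h1.1, ?_, h1.2.1, ?_⟩
  · have := h1.2.2.2.1; have := P.p6''; omega
  · have := h1.2.2.1
    simp only [sur] at this
    omega

end Pool.Agent.Lib.MP_614955_co
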