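import Mathlib

/-! Hitting codes (union bound) and the count of the secondary edges. -/

namespace Pool.Agent.Lib.MP_614955_co.HitCode

open Finset

/-- Union bound: a family of large subsets is met by a short list of points. -/
theorem exists_hitting {W : Type*} [Fintype W] [DecidableEq W] {I : Type*} (B : Finset I)
    (S : I → Finset W) (T M : ℕ) (hS : ∀ i ∈ B, T ≤ (S i).card)
    (h : B.card * (Fintype.card W - T) ^ M < Fintype.card W ^ M) :
    ∃ C : Finset W, C.card ≤ M ∧ ∀ i ∈ B, ∃ c ∈ C, c ∈ S i := by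
  classical
  set bad : Finset (Fin M → W) := B.biUnion fun i => Fintype.piFinset fun _ => (S i)ᶜ with hbad
  have h1 : bad.card ≤ B.card * (Fintype.card W - T) ^ M := by
    refine le_trans card_biUnion_le ?_
    rw [← smul_eq_mul]
    refine sum_le_card_nsmul _ _ _ fun i hi => ?_
    rw [Fintype.card_piFinset]
    simp only [prod_const, card_univ, Fintype.card_fin, card_compl]
    exact Nat.pow_le_pow_left (Nat.sub_le_sub_left (hS i hi) _) _
  have h2 : bad.card < (univ : Finset (Fin M → W)).card := by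
    rw [card_univ, Fintype.card_fun, Fintype.card_fin]
    exact lt_of_le_of_lt h1 h
  obtain ⟨f, -, hf⟩ := exists_mem_notMem_of_card_lt_card h2
  refine ⟨univ.image f, le_trans card_image_le (by simp), fun i hi => ?_⟩
  by_contra hc
  push Not at hc
  apply hf
  rw [hbad, mem_biUnion]
  refine ⟨i, hi, ?_⟩
  rw [Fintype.mem_piFinset]
  intro a
  rw [mem_compl]
  exact hc _ (mem_image_of_mem _ (mem_univ a))

/-- `(R - 1)^R * 2 ≤ R^R`. -/
theorem pred_pow_le (R : ℕ) (hR : 1 ≤ R) : 2 * (R - 1) ^ R ≤ R ^ R := by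
  obtain ⟨Q, rfl⟩ : ∃ Q, R = Q + 1 := ⟨R - 1, by omega⟩
  simp only [Nat.add_sub_cancel]
  have h := pow_add_mul_le_add_pow (a := Q) (b := 1) (Nat.zero_le _) (Nat.zero_le _) (Q + 1)
  simp only [Nat.add_sub_cancel, mul_one, Nat.cast_id] at h
  have h2 : Q ^ (Q + 1) ≤ (Q + 1) * Q ^ Q := by
    rw [pow_succ, mul_comm]
    exact Nat.mul_le_mul_right _ (Nat.le_succ _)
  omega

/-- Sets of relative size `≥ 1/R`, fewer than `2^r` of them: `R * r` points meet them all. -/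
theorem exists_hitting' {W : Type*} [Fintype W] [DecidableEq W] {I : Type*} (B : Finset I)
    (S : I → Finset W) (T R r : ℕ) (hT : 1 ≤ T) (hR : 1 ≤ R) (hW : Fintype.card W = T * R)
    (hS : ∀ i ∈ B, T ≤ (S i).card) (hB : B.card < 2 ^ r) :
    ∃ C : Finset W, C.card ≤ R * r ∧ ∀ i ∈ B, ∃ c ∈ C, c ∈ S i := by
  refine exists_hitting B S T (R * r) hS ?_
  have e1 : T * R - T = T * (R - 1) := by rw [Nat.mul_sub_one]
  rw [hW, e1, mul_pow, mul_pow, pow_mul (R - 1), pow_mul R]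
  have h1 : 2 ^ r * ((R - 1) ^ R) ^ r ≤ (R ^ R) ^ r := by
    rw [← mul_pow]
    exact Nat.pow_le_pow_left (pred_pow_le R hR) _
  have hz : 0 < (R ^ R) ^ r := by positivity
  have hT' : 0 < T ^ (R * r) := by positivity
  have h2 : B.card * ((R - 1) ^ R) ^ r < (R ^ R) ^ r := by
    rcases Nat.eq_zero_or_pos (((R - 1) ^ R) ^ r) with h0 | h0
    · rw [h0]; simpa using hz
    · exact lt_of_lt_of_le (Nat.mul_lt_mul_of_pos_right hB h0) h1
  calc B.card * (T ^ (R * r) * ((R - 1) ^ R) ^ r)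
      = T ^ (R * r) * (B.card * ((R - 1) ^ R) ^ r) := by ring
    _ < T ^ (R * r) * (R ^ R) ^ r := Nat.mul_lt_mul_of_pos_left h2 hT'

/-- Hitting code over an alphabet `A` with four letters: with `d` positions and `s ≤ d` there is a
code of at most `(4 d + 1) 2^(d - s)` words meeting every box of size at least `2^(d+s)`. -/
theorem exists_code {G A : Type*} [Fintype G] [DecidableEq G] [Fintype A] [DecidableEq A]
    (hA : Fintype.card A = 4) (s : ℕ) (hs : s ≤ Fintype.card G) :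
    ∃ C : Finset (G → A), C.card ≤ 2 ^ (Fintype.card G - s) * (4 * Fintype.card G + 1) ∧
      ∀ S : G → Finset A, 2 ^ (Fintype.card G + s) ≤ ∏ g, (S g).card →
        ∃ c ∈ C, ∀ g, c g ∈ S g := by
  classical
  set d := Fintype.card G with hd
  have hW : Fintype.card (G → A) = 2 ^ (d + s) * 2 ^ (d - s) := by
    rw [Fintype.card_fun, hA, ← hd, ← pow_add, show d + s + (d - s) = 2 * d by omega, pow_mul]
    norm_num
  obtain ⟨C, hC, h⟩ := exists_hitting'
    (univ.filter fun S : G → Finset A => 2 ^ (d + s) ≤ ∏ g, (S g).card)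
    (fun S => Fintype.piFinset S) (2 ^ (d + s)) (2 ^ (d - s)) (4 * d + 1)
    Nat.one_le_two_pow Nat.one_le_two_pow hW
    (fun S hS => by rw [Fintype.card_piFinset]; exact (mem_filter.1 hS).2)
    (by
      refine lt_of_le_of_lt (card_le_univ _) ?_
      rw [Fintype.card_fun, Fintype.card_finset, hA, ← hd, ← pow_mul]
      exact Nat.pow_lt_pow_right (by norm_num) (by omega))
  refine ⟨C, hC, fun S hS => ?_⟩
  obtain ⟨c, hc, hc'⟩ := h S (mem_filter.2 ⟨mem_univ _, hS⟩)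
  exact ⟨c, hc, Fintype.mem_piFinset.1 hc'⟩

/-- Every fixed base is eventually beaten by the factorial. -/
theorem exists_pow_le_factorial (a : ℕ) : ∃ K, ∀ k ≥ K, a ^ k ≤ k.factorial := by
  have h := FloorSemiring.tendsto_pow_div_factorial_atTop (a : ℝ)
  have h1 := (h.eventually (gt_mem_nhds (show (0 : ℝ) < 1 by norm_num)))
  obtain ⟨K, hK⟩ := Filter.eventually_atTop.1 h1
  refine ⟨K, fun k hk => ?_⟩
  have h2 := hK k hk
  have h3 : (0 : ℝ) < k.factorial := by exact_mod_cast k.factorial_pos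
  rw [div_lt_one h3] at h2
  exact_mod_cast h2.le

/-- Number of secondary edges: `C(a 2^k, 2k) (m k)^k ≤ 2^(2k^2 - k)` for large `k`. -/
theorem secondary_count (a m : ℕ) : ∃ K, ∀ k ≥ K,
    (a * 2 ^ k).choose (2 * k) * (m * k) ^ k * 2 ^ k ≤ 2 ^ (2 * k ^ 2) := by
  obtain ⟨K, hK⟩ := exists_pow_le_factorial (a ^ 2 * m * 2)
  refine ⟨K, fun k hk => ?_⟩
  have h1 : (2 * k).factorial * (a * 2 ^ k).choose (2 * k) ≤ (a * 2 ^ k) ^ (2 * k) := by
    rw [← Nat.descFactorial_eq_factorial_mul_choose]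
    exact Nat.descFactorial_le_pow _ _
  have h2 : k.factorial * k ^ k ≤ (2 * k).factorial := by
    have := @Nat.factorial_mul_pow_le_factorial k k
    rw [two_mul]
    exact le_trans (Nat.mul_le_mul_left _ (Nat.pow_le_pow_left (Nat.le_succ k) _)) this
  have h3 := hK k hk
  have hpos : 0 < (2 * k).factorial := Nat.factorial_pos _
  refine Nat.le_of_mul_le_mul_left ?_ hpos
  calc (2 * k).factorial * ((a * 2 ^ k).choose (2 * k) * (m * k) ^ k * 2 ^ k)
      = ((2 * k).factorial * (a * 2 ^ k).choose (2 * k)) * ((m * k) ^ k * 2 ^ k) := by ring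
    _ ≤ (a * 2 ^ k) ^ (2 * k) * ((m * k) ^ k * 2 ^ k) := Nat.mul_le_mul_right _ h1
    _ = ((a ^ 2 * m * 2) ^ k * k ^ k) * 2 ^ (2 * k ^ 2) := by
        rw [mul_pow, mul_pow, mul_pow, mul_pow, ← pow_mul, ← pow_mul]
        ring
    _ ≤ (k.factorial * k ^ k) * 2 ^ (2 * k ^ 2) := by gcongr
    _ ≤ (2 * k).factorial * 2 ^ (2 * k ^ 2) := by gcongr

/-- A quadratic is eventually below `2^w`. -/
theorem quad_lt_two_pow (A : ℕ) : ∃ W, ∀ w ≥ W, A * (w ^ 2 + 1) < 2 ^ w := by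
  have h := tendsto_pow_const_div_const_pow_of_one_lt 2 (show (1 : ℝ) < 2 by norm_num)
  have hpos : (0 : ℝ) < 1 / (2 * A + 1) := by positivity
  obtain ⟨W, hW⟩ := Filter.eventually_atTop.1 (h.eventually (gt_mem_nhds hpos))
  refine ⟨max W 1, fun w hw => ?_⟩
  have h1 := hW w (le_trans (le_max_left _ _) hw)
  have h2 : 1 ≤ w := le_trans (le_max_right _ _) hw
  have h3 : (0 : ℝ) < 2 ^ w := by positivity
  rw [div_lt_div_iff₀ h3 (by positivity), one_mul] at h1
  have h4 : (1 : ℝ) ≤ (w : ℝ) ^ 2 := by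
    have : (1 : ℝ) ≤ w := by exact_mod_cast h2
    nlinarith
  have h5 : (A : ℝ) * ((w : ℝ) ^ 2 + 1) < 2 ^ w := by
    have hA : (0 : ℝ) ≤ A := Nat.cast_nonneg _
    nlinarith
  exact_mod_cast h5

/-- The gap `c n^(1/2 - e)` is eventually below `sqrt n / 46`. -/
theorem gap_le (e c : ℝ) (he : 0 < e) :
    ∃ N : ℕ, ∀ n : ℕ, N ≤ n → c * (n : ℝ) ^ (1 / 2 - e) ≤ Real.sqrt n / 46 := by
  have h := (tendsto_rpow_atTop he).comp tendsto_natCast_atTop_atTop
  obtain ⟨N, hN⟩ := Filter.eventually_atTop.1 (h.eventually (Filter.eventually_ge_atTop (46 * c)))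
  refine ⟨max N 1, fun n hn => ?_⟩
  have h1 : 46 * c ≤ (n : ℝ) ^ e := hN n (le_trans (le_max_left _ _) hn)
  have h2 : (0 : ℝ) < n := by exact_mod_cast (le_trans (le_max_right _ _) hn : 1 ≤ n)
  have h3 : Real.sqrt n = (n : ℝ) ^ e * (n : ℝ) ^ (1 / 2 - e) := by
    rw [← Real.rpow_add h2, Real.sqrt_eq_rpow]
    congr 1
    ring
  have h4 : 0 ≤ (n : ℝ) ^ (1 / 2 - e) := by positivity
  rw [h3, le_div_iff₀ (by norm_num)]
  nlinarith

/-- For `n = 2048 w^2`, a degree `D < 2^(n - w)` is below `2^(n - sqrt n / 46)`. -/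
theorem deg_lt (w D : ℕ) (hD : D * 2 ^ w < 2 ^ (2048 * w ^ 2)) :
    (D : ℝ) < (2 : ℝ) ^ (((2048 * w ^ 2 : ℕ) : ℝ) - Real.sqrt ((2048 * w ^ 2 : ℕ) : ℝ) / 46) := by
  have h1 : Real.sqrt ((2048 * w ^ 2 : ℕ) : ℝ) ≤ 46 * w := by
    rw [Real.sqrt_le_left (by positivity)]
    push_cast
    nlinarith [sq_nonneg (w : ℝ)]
  have h2 : (D : ℝ) * 2 ^ w < 2 ^ (2048 * w ^ 2) := by exact_mod_cast hD
  have h3 : (D : ℝ) < (2 : ℝ) ^ (((2048 * w ^ 2 : ℕ) : ℝ) - (w : ℝ)) := by
    rw [Real.rpow_sub (by norm_num), Real.rpow_natCast, Real.rpow_natCast,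
      lt_div_iff₀ (by positivity)]
    exact h2
  refine lt_of_lt_of_le h3 (Real.rpow_le_rpow_of_exponent_le (by norm_num) ?_)
  linarith

end Pool.Agent.Lib.MP_614955_co.HitCode
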