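import Mathlib
import Pool.Agent.Shared.AdaptiveLLL

set_option autoImplicit false

namespace Pool.Agent.Lib.MP_614955_co.Local

open Finset Real

variable {V : Type*} [DecidableEq V]

/-- Sets not yet hit by the second player. -/
def alive (F : Finset (Finset V)) (B : Finset V) : Finset (Finset V) :=
  F.filter (fun e => Disjoint e B)

/-- Weight of a set. -/
noncomputable def wt (v0 ε : ℝ) (M e : Finset V) : ℝ := v0 * (1 + ε) ^ (e ∩ M).card

/-- Load of a point. -/
noncomputable def load (A : Finset (Finset V)) (v0 ε : ℝ) (M : Finset V) (z : V) : ℝ :=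
  ∑ e ∈ A.filter (fun e => z ∈ e), wt v0 ε M e

/-- Total exponential load of the points of `e` outside `M`. -/
noncomputable def tot (A : Finset (Finset V)) (v0 ε : ℝ) (M e : Finset V) : ℝ :=
  ∑ z ∈ e \ M, exp (load A v0 ε M z)

/-- The potential of a set. -/
noncomputable def pot (A : Finset (Finset V)) (v0 ε θ T : ℝ) (M e : Finset V) : ℝ :=
  if e ∈ A then exp (θ * (tot A v0 ε M e - T)) else 0

/-- Weight of the sets through both `x` and `z`. -/
noncomputable def both (A : Finset (Finset V)) (v0 ε : ℝ) (M : Finset V) (x z : V) : ℝ :=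
  ∑ e ∈ (A.filter (fun e => x ∈ e)).filter (fun e => z ∈ e), wt v0 ε M e

variable {A : Finset (Finset V)} {v0 ε θ T : ℝ} {M : Finset V}

theorem wt_nonneg (h0 : 0 ≤ v0) (hε : 0 ≤ ε) (e : Finset V) : 0 ≤ wt v0 ε M e := by
  unfold wt; positivity

theorem wt_insert {x : V} (hx : x ∉ M) (e : Finset V) :
    wt v0 ε (insert x M) e = wt v0 ε M e + if x ∈ e then ε * wt v0 ε M e else 0 := by
  unfold wt
  split_ifs with h
  · rw [inter_comm, insert_inter_of_mem h, card_insert_of_notMem (by simp [hx]), inter_comm]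
    ring
  · rw [inter_comm, insert_inter_of_notMem h, inter_comm]; ring

theorem load_insert {x : V} (hx : x ∉ M) (z : V) :
    load A v0 ε (insert x M) z = load A v0 ε M z + ε * both A v0 ε M x z := by
  unfold load both
  rw [sum_congr rfl (fun e _ => wt_insert hx e), sum_add_distrib, ← sum_filter, mul_sum,
    filter_comm]

theorem both_nonneg (h0 : 0 ≤ v0) (hε : 0 ≤ ε) (x z : V) : 0 ≤ both A v0 ε M x z :=
  sum_nonneg (fun e _ => wt_nonneg h0 hε e)

theorem both_le (h0 : 0 ≤ v0) (hε : 0 ≤ ε) (x z : V) : both A v0 ε M x z ≤ load A v0 ε M z := by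
  unfold both load
  rw [filter_comm]
  exact sum_le_sum_of_subset_of_nonneg (filter_subset _ _) (fun e _ _ => wt_nonneg h0 hε e)

theorem load_mono (h0 : 0 ≤ v0) (hε : 0 ≤ ε) {A' : Finset (Finset V)} (h : A' ⊆ A) (z : V) :
    load A' v0 ε M z ≤ load A v0 ε M z :=
  sum_le_sum_of_subset_of_nonneg (filter_subset_filter _ h) (fun e _ _ => wt_nonneg h0 hε e)

theorem tot_mono (h0 : 0 ≤ v0) (hε : 0 ≤ ε) {A' : Finset (Finset V)} (h : A' ⊆ A)
    (e : Finset V) : tot A' v0 ε M e ≤ tot A v0 ε M e :=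
  sum_le_sum (fun z _ => exp_le_exp.mpr (load_mono h0 hε h z))

theorem pot_nonneg (e : Finset V) : 0 ≤ pot A v0 ε θ T M e := by
  unfold pot; split_ifs
  · positivity
  · exact le_rfl

theorem pot_mono (h0 : 0 ≤ v0) (hε : 0 ≤ ε) (hθ : 0 ≤ θ) {A' : Finset (Finset V)} (h : A' ⊆ A)
    (e : Finset V) : pot A' v0 ε θ T M e ≤ pot A v0 ε θ T M e := by
  by_cases he : e ∈ A'
  · unfold pot
    rw [if_pos he, if_pos (h he)]
    have := tot_mono (M := M) h0 hε h e
    exact exp_le_exp.mpr (mul_le_mul_of_nonneg_left (by linarith) hθ)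
  · calc _ = 0 := by unfold pot; rw [if_neg he]
      _ ≤ _ := pot_nonneg e

/-- Growth of the total load under a move of the first player. -/
theorem tot_insert {x : V} (hx : x ∉ M) (e : Finset V) :
    tot A v0 ε (insert x M) e ≤ tot A v0 ε M e +
      ∑ z ∈ e \ insert x M, ε * both A v0 ε M x z * exp (load A v0 ε (insert x M) z) := by
  have h1 : ∑ z ∈ e \ insert x M, exp (load A v0 ε M z) ≤ tot A v0 ε M e :=
    sum_le_sum_of_subset_of_nonneg (sdiff_subset_sdiff Subset.rfl (subset_insert x M))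
      (fun _ _ _ => (exp_pos _).le)
  refine le_trans ?_ (add_le_add h1 le_rfl)
  rw [← sum_add_distrib]
  refine sum_le_sum (fun z _ => ?_)
  have e1 : load A v0 ε M z = load A v0 ε (insert x M) z + -(ε * both A v0 ε M x z) := by
    rw [load_insert hx]; ring
  rw [e1, exp_add]
  have := add_one_le_exp (-(ε * both A v0 ε M x z))
  have h2 := exp_pos (load A v0 ε (insert x M) z)
  nlinarith

/-- A move far from `e` does not raise the potential of `e`. -/
theorem pot_far (hθ : 0 ≤ θ) {x : V} (hx : x ∉ M) (e : Finset V)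
    (hfar : ∀ f ∈ A, x ∈ f → Disjoint e f) :
    pot A v0 ε θ T (insert x M) e ≤ pot A v0 ε θ T M e := by
  have h1 := tot_insert (A := A) (v0 := v0) (ε := ε) hx e
  have h2 : ∑ z ∈ e \ insert x M, ε * both A v0 ε M x z * exp (load A v0 ε (insert x M) z) = 0 := by
    refine sum_eq_zero (fun z hz => ?_)
    have : both A v0 ε M x z = 0 := by
      refine sum_eq_zero (fun f hf => ?_)
      simp only [mem_filter] at hf
      exact absurd hf.2 (disjoint_left.mp (hfar f hf.1.1 hf.1.2) (mem_sdiff.mp hz).1)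
    rw [this]; ring
  unfold pot
  split_ifs
  · exact exp_le_exp.mpr (mul_le_mul_of_nonneg_left (by linarith) hθ)
  · exact le_rfl

end Pool.Agent.Lib.MP_614955_co.Local
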