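import Mathlib
import Pool.Agent.Lib.MP_614955_co.LocalDefs

set_option autoImplicit false

namespace Pool.Agent.Lib.MP_614955_co.Local

open Finset Real

variable {V : Type*} [DecidableEq V]
variable {A : Finset (Finset V)} {v0 ε θ L : ℝ} {M : Finset V}

/-- The random reply to the move `x`. -/
noncomputable def mu (A : Finset (Finset V)) (v0 ε : ℝ) (M : Finset V) (x y : V) : ℝ :=
  ∑ f ∈ (A.filter (fun e => x ∈ e)).filter (fun e => y ∈ e),
    wt v0 ε M f * exp (load A v0 ε (insert x M) y) / (load A v0 ε M x * tot A v0 ε (insert x M) f)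

theorem tot_nonneg (e : Finset V) : 0 ≤ tot A v0 ε M e := sum_nonneg (fun _ _ => (exp_pos _).le)

theorem load_nonneg (h0 : 0 ≤ v0) (hε : 0 ≤ ε) (z : V) : 0 ≤ load A v0 ε M z :=
  sum_nonneg (fun e _ => wt_nonneg h0 hε e)

theorem mu_nonneg (h0 : 0 ≤ v0) (hε : 0 ≤ ε) (x y : V) : 0 ≤ mu A v0 ε M x y :=
  sum_nonneg (fun f _ => div_nonneg (mul_nonneg (wt_nonneg h0 hε f) (exp_pos _).le)
    (mul_nonneg (load_nonneg h0 hε x) (tot_nonneg f)))

theorem mu_sum {x : V} (Y : Finset V) (hY : ∀ e ∈ A, Y.filter (fun y => y ∈ e) = e \ insert x M)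
    (hW : 0 < load A v0 ε M x) (hne : ∀ e ∈ A, x ∈ e → (e \ insert x M).Nonempty) :
    ∑ y ∈ Y, mu A v0 ε M x y = 1 := by
  unfold mu
  simp_rw [sum_filter (s := A.filter (fun e => x ∈ e))]
  rw [sum_comm]
  have h1 : ∀ f ∈ A.filter (fun e => x ∈ e), (∑ y ∈ Y, if y ∈ f then wt v0 ε M f *
      exp (load A v0 ε (insert x M) y) / (load A v0 ε M x * tot A v0 ε (insert x M) f) else 0) =
      wt v0 ε M f / load A v0 ε M x := by
    intro f hf
    have hf' := mem_filter.mp hf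
    rw [← sum_filter, hY f hf'.1, ← sum_div, ← mul_sum]
    have hG : 0 < tot A v0 ε (insert x M) f := sum_pos (fun _ _ => exp_pos _) (hne f hf'.1 hf'.2)
    change wt v0 ε M f * tot A v0 ε (insert x M) f / _ = _
    field_simp
  rw [sum_congr rfl h1, ← sum_div]
  exact div_self hW.ne'

theorem load_le {e : Finset V} {z : V} (hz : z ∈ e \ M) (h : tot A v0 ε M e ≤ exp L) :
    load A v0 ε M z ≤ L :=
  exp_le_exp.mp ((single_le_sum (f := fun z => exp (load A v0 ε M z))
    (fun _ _ => (exp_pos _).le) hz).trans h)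

theorem tot_insert_le (h0 : 0 ≤ v0) (hε : 0 ≤ ε) (hL : ε * L ≤ log 2) {x : V} (hx : x ∉ M)
    {e : Finset V} (h : tot A v0 ε M e ≤ exp L) : tot A v0 ε (insert x M) e ≤ 2 * exp L := by
  have hs : e \ insert x M ⊆ e \ M := sdiff_subset_sdiff Subset.rfl (subset_insert x M)
  have h1 : tot A v0 ε (insert x M) e ≤ ∑ z ∈ e \ insert x M, 2 * exp (load A v0 ε M z) := by
    refine sum_le_sum (fun z hz => ?_)
    rw [load_insert hx, exp_add, mul_comm]
    refine mul_le_mul_of_nonneg_right ?_ (exp_pos _).le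
    have h2 := mul_le_mul_of_nonneg_left ((both_le h0 hε x z).trans (load_le (hs hz) h)) hε
    calc _ ≤ exp (log 2) := exp_le_exp.mpr (h2.trans hL)
      _ = 2 := exp_log (by norm_num)
  have h3 : ∑ z ∈ e \ insert x M, 2 * exp (load A v0 ε M z) ≤ 2 * tot A v0 ε M e := by
    rw [← mul_sum]
    exact mul_le_mul_of_nonneg_left
      (sum_le_sum_of_subset_of_nonneg hs (fun _ _ _ => (exp_pos _).le)) (by norm_num)
  linarith

theorem mu_ge (h0 : 0 ≤ v0) (hε : 0 ≤ ε) (hθ : 0 ≤ θ) (hL : ε * L ≤ log 2)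
    (hθL : θ * ε * (L * (2 * exp L)) ≤ 1) {x : V} (hx : x ∉ M)
    (hT : ∀ e ∈ A, tot A v0 ε M e ≤ exp L) (hW : 0 < load A v0 ε M x)
    (hne : ∀ e ∈ A, x ∈ e → (e \ insert x M).Nonempty) (y : V) :
    θ * (ε * both A v0 ε M x y * exp (load A v0 ε (insert x M) y)) ≤ mu A v0 ε M x y := by
  unfold both mu
  rw [mul_sum, sum_mul, mul_sum]
  refine sum_le_sum (fun f hf => ?_)
  have hf' := mem_filter.mp (mem_filter.mp hf).1
  have hG : 0 < tot A v0 ε (insert x M) f := sum_pos (fun _ _ => exp_pos _) (hne f hf'.1 hf'.2)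
  have hG2 := tot_insert_le h0 hε hL hx (hT f hf'.1)
  have hW2 : load A v0 ε M x ≤ L := load_le (mem_sdiff.mpr ⟨hf'.2, hx⟩) (hT f hf'.1)
  rw [le_div_iff₀ (mul_pos hW hG)]
  have h1 : load A v0 ε M x * tot A v0 ε (insert x M) f ≤ L * (2 * exp L) :=
    mul_le_mul hW2 hG2 hG.le (hW.le.trans hW2)
  have h2 : θ * ε * (load A v0 ε M x * tot A v0 ε (insert x M) f) ≤ 1 :=
    (mul_le_mul_of_nonneg_left h1 (mul_nonneg hθ hε)).trans hθL
  have h3 := mul_le_mul_of_nonneg_left h2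
    (mul_nonneg (wt_nonneg (M := M) h0 hε f) (exp_pos (load A v0 ε (insert x M) y)).le)
  nlinarith

/-- Each potential is a supermartingale under the random reply. -/
theorem avg_le (h0 : 0 ≤ v0) (hε : 0 ≤ ε) (hθ : 0 ≤ θ) (hL : ε * L ≤ log 2)
    (hθL : θ * ε * (L * (2 * exp L)) ≤ 1) {x : V} (hx : x ∉ M)
    (hT : ∀ e ∈ A, tot A v0 ε M e ≤ exp L) (hW : 0 < load A v0 ε M x)
    (hne : ∀ e ∈ A, x ∈ e → (e \ insert x M).Nonempty)
    (Y : Finset V) (hY : ∀ e ∈ A, Y.filter (fun y => y ∈ e) = e \ insert x M) (T : ℝ)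
    (e : Finset V) :
    ∑ y ∈ Y, mu A v0 ε M x y * pot (A.filter (fun f => y ∉ f)) v0 ε θ T (insert x M) e ≤
      pot A v0 ε θ T M e := by
  by_cases he : e ∈ A
  swap
  · refine le_trans (le_of_eq (sum_eq_zero (fun y _ => ?_))) (pot_nonneg e)
    unfold pot
    rw [if_neg (fun h => he (mem_filter.mp h).1), mul_zero]
  set E := exp (θ * (tot A v0 ε (insert x M) e - T)) with hE
  set H := ∑ y ∈ e \ insert x M, mu A v0 ε M x y with hH
  have h1 : ∀ y ∈ Y, mu A v0 ε M x y * pot (A.filter (fun f => y ∉ f)) v0 ε θ T (insert x M) e ≤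
      E * (mu A v0 ε M x y - if y ∈ e then mu A v0 ε M x y else 0) := by
    intro y _
    split_ifs with hy
    · have : pot (A.filter (fun f => y ∉ f)) v0 ε θ T (insert x M) e = 0 := by
        unfold pot
        rw [if_neg (by simp [hy])]
      rw [this]; simp
    · have h2 := pot_mono (M := insert x M) (T := T) h0 hε hθ (filter_subset (fun f => y ∉ f) A) e
      have h3 : pot A v0 ε θ T (insert x M) e = E := by unfold pot; rw [if_pos he]
      rw [h3] at h2
      have := mul_le_mul_of_nonneg_left h2 (mu_nonneg (A := A) (M := M) h0 hε x y)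
      linarith
  refine (sum_le_sum h1).trans ?_
  rw [← mul_sum, sum_sub_distrib, mu_sum Y hY hW hne, ← sum_filter, hY e he, ← hH]
  have h4 : θ * (tot A v0 ε (insert x M) e - tot A v0 ε M e) ≤ H := by
    have h5 := tot_insert (A := A) (v0 := v0) (ε := ε) hx e
    have h6 : θ * ∑ z ∈ e \ insert x M, ε * both A v0 ε M x z *
        exp (load A v0 ε (insert x M) z) ≤ H := by
      rw [mul_sum]
      exact sum_le_sum (fun y _ => mu_ge h0 hε hθ hL hθL hx hT hW hne y)
    exact (mul_le_mul_of_nonneg_left (by linarith) hθ).trans h6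
  have h7 : 1 - H ≤ exp (-H) := by have := add_one_le_exp (-H); linarith
  unfold pot
  rw [if_pos he]
  calc E * (1 - H) ≤ E * exp (-H) := mul_le_mul_of_nonneg_left h7 (exp_pos _).le
    _ = exp (θ * (tot A v0 ε (insert x M) e - T) + -H) := by rw [exp_add]
    _ ≤ _ := exp_le_exp.mpr (by nlinarith)

end Pool.Agent.Lib.MP_614955_co.Local
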