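import Mathlib
import Pool.Agent.Lib.MP_614955_co.LocalStep
import Pool.Agent.Lib.MP_614955_co.Game

set_option autoImplicit false

namespace Pool.Agent.Lib.MP_614955_co.Local

open Finset Real Pool.Agent.Shared.AdaptiveLLL

variable {V : Type*} [Fintype V] [DecidableEq V]

/-- The sets meeting a set through `x`. -/
def near (F : Finset (Finset V)) (x : V) : Finset (Finset V) :=
  F.filter (fun e => ∃ f ∈ F, x ∈ f ∧ ¬ Disjoint e f)

/-- The dependency neighbourhood. -/
def nbr (F : Finset (Finset V)) (e : Finset V) : Finset (Finset V) :=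
  univ.filter (fun f => f = e ∨ ∃ x, e ∈ near F x ∧ f ∈ near F x)

theorem nbr_refl (F : Finset (Finset V)) (e : Finset V) : e ∈ nbr F e := by simp [nbr]

theorem nbr_symm (F : Finset (Finset V)) (e f : Finset V) (h : e ∈ nbr F f) : f ∈ nbr F e := by
  simp only [nbr, mem_filter, mem_univ, true_and] at h ⊢
  rcases h with h | ⟨x, h1, h2⟩
  · exact Or.inl h.symm
  · exact Or.inr ⟨x, h2, h1⟩

theorem nbr_clique (F : Finset (Finset V)) (x : V) : ∀ e ∈ near F x, near F x ⊆ nbr F e := by
  intro e he f hf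
  simp only [nbr, mem_filter, mem_univ, true_and]
  exact Or.inr ⟨x, he, hf⟩

theorem nbr_card {F : Finset (Finset V)} {n d : ℕ} (hn : ∀ e ∈ F, e.card ≤ n)
    (hd : ∀ x, (F.filter (fun e => x ∈ e)).card ≤ d) (e : Finset V) :
    (nbr F e).card ≤ 1 + (n * d) ^ 3 := by
  have hK : ∀ x, (near F x).card ≤ d * (n * d) := by
    intro x
    have hs : near F x ⊆ (F.filter (fun f => x ∈ f)).biUnion
        (fun f => f.biUnion (fun z => F.filter (fun g => z ∈ g))) := by
      intro g hg
      simp only [near, mem_filter] at hg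
      obtain ⟨hg, f, hf, hx, hdis⟩ := hg
      obtain ⟨z, h1, h2⟩ := not_disjoint_iff.mp hdis
      simp only [mem_biUnion, mem_filter]
      exact ⟨f, ⟨hf, hx⟩, z, h2, hg, h1⟩
    refine (card_le_card hs).trans ((card_biUnion_le_card_mul _ _ (n * d) ?_).trans
      (Nat.mul_le_mul_right _ (hd x)))
    intro f hf
    exact (card_biUnion_le_card_mul _ _ d (fun z _ => hd z)).trans
      (Nat.mul_le_mul_right _ (hn f (mem_filter.mp hf).1))
  by_cases he : e ∈ F
  · have hs : nbr F e ⊆ insert e ((e.biUnion (fun z => (F.filter (fun g => z ∈ g)).biUnion id)).biUnion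
        (near F)) := by
      intro g hg
      simp only [nbr, mem_filter, mem_univ, true_and] at hg
      rcases hg with rfl | ⟨x, h1, h2⟩
      · exact mem_insert_self _ _
      · apply mem_insert_of_mem
        simp only [near, mem_filter] at h1
        obtain ⟨_, f, hf, hx, hdis⟩ := h1
        obtain ⟨z, h3, h4⟩ := not_disjoint_iff.mp hdis
        simp only [mem_biUnion, mem_filter, id]
        exact ⟨x, ⟨z, h3, f, ⟨hf, h4⟩, hx⟩, h2⟩
    have h1 : (e.biUnion (fun z => (F.filter (fun g => z ∈ g)).biUnion id)).card ≤ n * (d * n) := by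
      refine (card_biUnion_le_card_mul _ _ (d * n) (fun z _ => ?_)).trans
        (Nat.mul_le_mul_right _ (hn e he))
      exact (card_biUnion_le_card_mul _ _ n (fun f hf => hn f (mem_filter.mp hf).1)).trans
        (Nat.mul_le_mul_right _ (hd z))
    have h2 := (card_biUnion_le_card_mul _ (near F) _ (fun x _ => hK x)).trans
      (Nat.mul_le_mul_right _ h1)
    have h3 := (card_le_card hs).trans (card_insert_le _ _)
    have h4 : n * (d * n) * (d * (n * d)) = (n * d) ^ 3 := by ring
    omega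
  · have hs : nbr F e ⊆ {e} := by
      intro g hg
      simp only [nbr, mem_filter, mem_univ, true_and] at hg
      rcases hg with rfl | ⟨x, h1, _⟩
      · exact mem_singleton_self _
      · exact absurd (mem_filter.mp h1).1 he
    have := card_le_card hs
    rw [card_singleton] at this
    omega

/-- The invariant kept by the second player. -/
def Inv (F : Finset (Finset V)) (v0 ε θ L : ℝ) (M B : Finset V) : Prop :=
  Disjoint M B ∧ (∀ A ∈ F, ¬ A ⊆ M) ∧
    ∃ p, Reg (nbr F) p ∧ ∀ e, pot (alive F B) v0 ε θ (exp L) M e ≤ p e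

theorem Inv.step {F : Finset (Finset V)} {n : ℕ} {v0 ε θ L : ℝ} (hn : ∀ e ∈ F, e.card = n)
    (h0 : 0 < v0) (hε : 0 ≤ ε) (hθ : 0 < θ) (hL : ε * L ≤ log 2)
    (hθL : θ * ε * (L * (2 * exp L)) ≤ 1) (hbig : L < v0 * (1 + ε) ^ (n - 1))
    {M B : Finset V} {x : V} (h : Inv F v0 ε θ L M B) (hxM : x ∉ M) (hxB : x ∉ B) :
    (∀ A ∈ F, ¬ A ⊆ insert x M) ∧ ((∃ y, y ∉ insert x M ∧ y ∉ B) →
      ∃ y, y ∉ insert x M ∧ y ∉ B ∧ Inv F v0 ε θ L (insert x M) (insert y B)) := by
  obtain ⟨hd, hno, p, hp, hle⟩ := h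
  set A := alive F B with hA
  have hT : ∀ e ∈ A, tot A v0 ε M e ≤ exp L := by
    intro e he
    have h1 := (hle e).trans_lt (hp.lt_one (nbr_refl F) (nbr_symm F) e)
    unfold pot at h1
    rw [if_pos he, exp_lt_one_iff] at h1
    by_contra hc
    have := mul_nonneg hθ.le (sub_nonneg.mpr (not_le.mp hc).le)
    linarith
  have hdB : Disjoint (insert x M) B := by rw [disjoint_insert_left]; exact ⟨hxB, hd⟩
  have hno' : ∀ e ∈ F, ¬ e ⊆ insert x M := by
    intro e he hs
    by_cases hx : x ∈ e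
    · have heA : e ∈ A := mem_filter.mpr ⟨he, hdB.mono_left hs⟩
      have h1 : load A v0 ε M x ≤ L := load_le (mem_sdiff.mpr ⟨hx, hxM⟩) (hT e heA)
      have h2 : wt v0 ε M e ≤ load A v0 ε M x :=
        single_le_sum (f := fun e => wt v0 ε M e) (fun f _ => wt_nonneg h0.le hε f)
          (mem_filter.mpr ⟨heA, hx⟩)
      have h3 : e ∩ M = e.erase x := by
        ext z; simp only [mem_inter, mem_erase]
        constructor
        · exact fun h => ⟨fun e' => hxM (e' ▸ h.2), h.1⟩
        · exact fun h => ⟨h.2, (mem_insert.mp (hs h.2)).resolve_left h.1⟩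
      unfold wt at h2
      rw [h3, card_erase_of_mem hx, hn e he] at h2
      linarith
    · exact hno e he ((subset_insert_iff_of_notMem hx).mp hs)
  refine ⟨hno', fun ⟨y0, hy1, hy2⟩ => ?_⟩
  have hal : ∀ y, alive F (insert y B) = A.filter (fun f => y ∉ f) := by
    intro y; ext f
    simp only [hA, alive, mem_filter, disjoint_insert_right]; tauto
  have hdis : ∀ y, y ∉ insert x M → Disjoint (insert x M) (insert y B) := fun y hy => by
    rw [disjoint_insert_right]; exact ⟨hy, hdB⟩
  have hfar : ∀ y e, (∀ f ∈ A, x ∈ f → Disjoint e f) →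
      pot (alive F (insert y B)) v0 ε θ (exp L) (insert x M) e ≤ p e := by
    intro y e hf
    rw [hal]
    exact (pot_mono h0.le hε hθ.le (filter_subset _ _) e).trans
      ((pot_far hθ.le hxM e hf).trans (hle e))
  by_cases hex : ∃ f ∈ A, x ∈ f
  swap
  · exact ⟨y0, hy1, hy2, hdis y0 hy1, hno', p, hp,
      fun e => hfar y0 e (fun f hf hx => absurd ⟨f, hf, hx⟩ hex)⟩
  obtain ⟨f0, hf0, hxf0⟩ := hex
  have hW : 0 < load A v0 ε M x :=
    sum_pos (fun f _ => by unfold wt; positivity) ⟨f0, mem_filter.mpr ⟨hf0, hxf0⟩⟩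
  have hne : ∀ e ∈ A, x ∈ e → (e \ insert x M).Nonempty := fun e he _ =>
    sdiff_nonempty.mpr (hno' e (mem_filter.mp he).1)
  let Y : Finset V := univ.filter (fun y => y ∉ insert x M ∧ y ∉ B)
  have hY : ∀ e ∈ A, Y.filter (fun y => y ∈ e) = e \ insert x M := by
    intro e he
    ext z
    simp only [Y, mem_filter, mem_univ, true_and, mem_sdiff]
    exact ⟨fun h => ⟨h.2, h.1.1⟩, fun h => ⟨⟨h.2, disjoint_left.mp (mem_filter.mp he).2 h.1⟩, h.1⟩⟩
  obtain ⟨y, hy, hreg⟩ := hp.step (nbr_refl F) (nbr_symm F) (nbr_clique F x) Y (mu A v0 ε M x)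
    (fun y _ => mu_nonneg h0.le hε x y) (mu_sum Y hY hW hne)
    (fun y => pot (A.filter (fun f => y ∉ f)) v0 ε θ (exp L) (insert x M)) (fun y e => pot_nonneg e)
    (fun e _ => (avg_le h0.le hε hθ.le hL hθL hxM hT hW hne Y hY _ e).trans (hle e))
  have hy' := (mem_filter.mp hy).2
  refine ⟨y, hy'.1, hy'.2, hdis y hy'.1, hno', _, hreg, fun e => ?_⟩
  by_cases hK : e ∈ near F x
  · simp only [if_pos hK]; rw [hal]
  · simp only [if_neg hK]
    by_cases heF : e ∈ F
    · refine hfar y e (fun f hf hx => ?_)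
      by_contra hc
      exact hK (mem_filter.mpr ⟨heF, f, (mem_filter.mp hf).1, hx, hc⟩)
    · unfold pot
      rw [if_neg (fun h : e ∈ alive F (insert y B) => heF (mem_filter.mp h).1)]
      exact hp.1 e

end Pool.Agent.Lib.MP_614955_co.Local
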