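import Mathlib

set_option autoImplicit false

namespace Pool.Agent.Lib.MP_614955_co

open Finset

/-- From an invariant of positions (first player to move) to an explicit winning strategy of the
first player. -/
theorem maker_of_inv {V : Type*} [Fintype V] [DecidableEq V] [Nonempty V]
    (F : Finset (Finset V)) (I : Finset V → Finset V → Prop) (h0 : I ∅ ∅)
    (hstep : ∀ M B, I M B → (∃ A ∈ F, A ⊆ M) ∨ ∃ x, x ∉ M ∧ x ∉ B ∧
      ((∃ A ∈ F, A ⊆ insert x M) ∨ ((∃ y, y ∉ insert x M ∧ y ∉ B) ∧
        ∀ y, y ∉ insert x M → y ∉ B → I (insert x M) (insert y B)))) :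
    ∃ σ : List V → V, ∀ m : ℕ → V,
      (∀ k < Fintype.card V, Even k → m k = σ (List.ofFn (fun i : Fin k => m i.val))) →
      (∀ k < Fintype.card V, Odd k → ∀ i < k, m i ≠ m k) →
      (∀ k < Fintype.card V, Even k → ∀ i < k, m i ≠ m k) ∧
      ∃ A ∈ F, ∀ a ∈ A, ∃ k < Fintype.card V, Even k ∧ m k = a := by
  classical
  obtain ⟨v0⟩ := ‹Nonempty V›
  let G : Finset V → Finset V → V → Prop := fun M B x => x ∉ M ∧ x ∉ B ∧
      ((∃ A ∈ F, A ⊆ insert x M) ∨ ((∃ y, y ∉ insert x M ∧ y ∉ B) ∧
        ∀ y, y ∉ insert x M → y ∉ B → I (insert x M) (insert y B)))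
  let σ : Finset V → Finset V → V := fun M B =>
    if h : ∃ x, G M B x then Classical.choose h
    else if h : ∃ x, x ∉ M ∧ x ∉ B then Classical.choose h else v0
  have hσ : ∀ M B, (∃ x, G M B x) → G M B (σ M B) := by
    intro M B h
    have : σ M B = Classical.choose h := by simp only [σ]; rw [dif_pos h]
    rw [this]; exact Classical.choose_spec h
  have hσ2 : ∀ M B, (∃ x, x ∉ M ∧ x ∉ B) → σ M B ∉ M ∧ σ M B ∉ B := by
    intro M B h
    by_cases h1 : ∃ x, G M B x
    · exact ⟨(hσ M B h1).1, (hσ M B h1).2.1⟩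
    · have : σ M B = Classical.choose h := by simp only [σ]; rw [dif_neg h1, dif_pos h]
      rw [this]; exact Classical.choose_spec h
  refine ⟨fun l => σ (((range l.length).filter Even).image (fun i => l.getD i v0))
    (((range l.length).filter Odd).image (fun i => l.getD i v0)), ?_⟩
  intro m hτ hB
  set N := Fintype.card V with hN
  let Mk : ℕ → Finset V := fun k => ((range k).filter Even).image m
  let Bk : ℕ → Finset V := fun k => ((range k).filter Odd).image m
  have hτ' : ∀ k < N, Even k → m k = σ (Mk k) (Bk k) := by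
    intro k hk ho
    rw [hτ k hk ho]
    have key : ∀ i ∈ range k, (List.ofFn (fun i : Fin k => m i.val)).getD i v0 = m i := by
      intro i hi
      have hi' : i < k := mem_range.mp hi
      rw [List.getD_eq_getElem _ _ (by simpa using hi')]
      simp
    simp only [List.length_ofFn, Mk, Bk]
    congr 1
    · exact image_congr (fun i hi => key i (mem_filter.mp hi).1)
    · exact image_congr (fun i hi => key i (mem_filter.mp hi).1)
  have hMe : ∀ k, Even k → Mk (k+1) = insert (m k) (Mk k) ∧ Bk (k+1) = Bk k := by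
    intro k hk
    have : ¬ Odd k := Nat.not_odd_iff_even.mpr hk
    simp only [Mk, Bk, range_add_one, filter_insert, if_pos hk, if_neg this, image_insert]
    simp
  have hMo : ∀ k, Odd k → Mk (k+1) = Mk k ∧ Bk (k+1) = insert (m k) (Bk k) := by
    intro k hk
    have : ¬ Even k := Nat.not_even_iff_odd.mpr hk
    simp only [Mk, Bk, range_add_one, filter_insert, if_pos hk, if_neg this, image_insert]
    simp
  have hmem : ∀ k v, (v ∉ Mk k ∧ v ∉ Bk k) ↔ ∀ i < k, m i ≠ v := by
    intro k v
    simp only [Mk, Bk, mem_image, mem_filter, mem_range, not_exists, not_and]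
    constructor
    · rintro ⟨h1, h2⟩ i hi
      rcases Nat.even_or_odd i with h | h
      · exact h1 i ⟨hi, h⟩
      · exact h2 i ⟨hi, h⟩
    · intro h
      exact ⟨fun i hi => h i hi.1, fun i hi => h i hi.1⟩
  have hfree : ∀ k < N, ∃ v, ∀ i < k, m i ≠ v := by
    intro k hk
    by_contra hcon
    push Not at hcon
    have : (univ : Finset V) ⊆ (range k).image m := by
      intro v _
      obtain ⟨i, hi, hv⟩ := hcon v
      exact mem_image.mpr ⟨i, mem_range.mpr hi, hv⟩
    have h2 := card_le_card this
    have h3 := card_image_le (s := range k) (f := m)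
    rw [card_univ, ← hN] at h2
    rw [card_range] at h3
    omega
  have hleg : ∀ k < N, Even k → ∀ i < k, m i ≠ m k := by
    intro k hk he
    obtain ⟨v, hv⟩ := hfree k hk
    have h1 := hσ2 _ _ ⟨v, (hmem k v).mpr hv⟩
    rw [← hτ' k hk he] at h1
    exact (hmem _ _).mp h1
  have hfull : ∀ v, ¬ (v ∉ Mk N ∧ v ∉ Bk N) := by
    intro v hv
    have hv' := (hmem N v).mp hv
    have hinj : Set.InjOn m (range N : Finset ℕ) := by
      intro i hi j hj hij
      have hi' : i < N := by simpa using hi
      have hj' : j < N := by simpa using hj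
      by_contra hne'
      rcases lt_or_gt_of_ne hne' with h | h
      · rcases Nat.even_or_odd j with h' | h'
        · exact hleg j hj' h' i h hij
        · exact hB j hj' h' i h hij
      · rcases Nat.even_or_odd i with h' | h'
        · exact hleg i hi' h' j h hij.symm
        · exact hB i hi' h' j h hij.symm
    have hc : ((range N).image m).card = N := by rw [card_image_of_injOn hinj, card_range]
    have hu : (range N).image m = univ := eq_univ_of_card _ (by rw [hc])
    have : v ∈ (range N).image m := by rw [hu]; exact mem_univ _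
    obtain ⟨i, hi, e⟩ := mem_image.mp this
    exact hv' i (mem_range.mp hi) e
  have main : ∀ q, 2 * q ≤ N → I (Mk (2*q)) (Bk (2*q)) ∨ ∃ A ∈ F, A ⊆ Mk (2*q) := by
    intro q
    induction q with
    | zero => intro _; left; simpa [Mk, Bk] using h0
    | succ q ih =>
      intro hq
      have he : Even (2*q) := even_two_mul q
      have ho : Odd (2*q+1) := odd_two_mul_add_one q
      obtain ⟨e1, e2⟩ := hMe _ he
      obtain ⟨e3, e4⟩ := hMo _ ho
      have e5 : 2 * (q+1) = 2*q+1+1 := by ring
      rw [e5, e3, e4, e1, e2]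
      have hw : (∃ A ∈ F, A ⊆ Mk (2*q)) → ∃ A ∈ F, A ⊆ insert (m (2*q)) (Mk (2*q)) :=
        fun ⟨A, hA, hs⟩ => ⟨A, hA, hs.trans (subset_insert _ _)⟩
      rcases ih (by omega) with hI | hwin
      · rcases hstep _ _ hI with hwin | hx
        · exact Or.inr (hw hwin)
        · have h1 := hσ _ _ hx
          rw [← hτ' (2*q) (by omega) he] at h1
          rcases h1.2.2 with hwin | ⟨-, h2⟩
          · exact Or.inr hwin
          · have hy := (hmem _ _).mpr (hB (2*q+1) (by omega) ho)
            rw [e1, e2] at hy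
            exact Or.inl (h2 _ hy.1 hy.2)
      · exact Or.inr (hw hwin)
  have hfin : ∃ A ∈ F, A ⊆ Mk N := by
    rcases Nat.even_or_odd N with ⟨c, hc⟩ | ⟨c, hc⟩
    · have h1 := main c (by omega)
      rw [show 2 * c = N by omega] at h1
      rcases h1 with hI | hwin
      · rcases hstep _ _ hI with hwin | ⟨x, hx1, hx2, -⟩
        · exact hwin
        · exact absurd ⟨hx1, hx2⟩ (hfull x)
      · exact hwin
    · have he : Even (2*c) := even_two_mul c
      obtain ⟨e1, e2⟩ := hMe _ he
      rw [← hc] at e1 e2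
      have hw : (∃ A ∈ F, A ⊆ Mk (2*c)) → ∃ A ∈ F, A ⊆ Mk N :=
        fun ⟨A, hA, hs⟩ => ⟨A, hA, by rw [e1]; exact hs.trans (subset_insert _ _)⟩
      rcases main c (by omega) with hI | hwin
      · rcases hstep _ _ hI with hwin | hx
        · exact hw hwin
        · have h1 := hσ _ _ hx
          rw [← hτ' (2*c) (by omega) he] at h1
          rcases h1.2.2 with hwin | ⟨⟨y, hy⟩, -⟩
          · rwa [e1]
          · rw [← e1, ← e2] at hy
            exact absurd hy (hfull y)
      · exact hw hwin
  refine ⟨hleg, ?_⟩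
  obtain ⟨A, hA, hs⟩ := hfin
  refine ⟨A, hA, fun a ha => ?_⟩
  obtain ⟨k, hk, e⟩ := mem_image.mp (hs ha)
  exact ⟨k, mem_range.mp (mem_filter.mp hk).1, (mem_filter.mp hk).2, e⟩

end Pool.Agent.Lib.MP_614955_co
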