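import Mathlib
import Pool.Agent.Lib.MP_614955_co.Explore

set_option autoImplicit false

namespace Pool.Agent.Lib.MP_614955_co

open Finset

variable {V : Type*} [DecidableEq V]

/-- A cluster: members and connectors. -/
abbrev Cluster (V : Type*) := Finset (Finset V) × Finset (Finset V)

/-- The small board of a cluster. -/
def UU (c : Cluster V) : Finset V := c.1.biUnion id

/-- An edge with two marked points. -/
abbrev Trm (V : Type*) := Finset V × V × V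

/-- Edges with an ordered pair of distinct marked points in `U`. -/
def terms (P : Setup V) (U : Finset V) : Finset (Trm V) :=
  (P.F ×ˢ U ×ˢ U).filter (fun τ => τ.2.1 ≠ τ.2.2 ∧ τ.2.1 ∈ τ.1 ∧ τ.2.2 ∈ τ.1)

theorem mem_terms {P : Setup V} {U : Finset V} {τ : Trm V} : τ ∈ terms P U ↔
    τ.1 ∈ P.F ∧ τ.2.1 ∈ U ∧ τ.2.2 ∈ U ∧ τ.2.1 ≠ τ.2.2 ∧ τ.2.1 ∈ τ.1 ∧ τ.2.2 ∈ τ.1 := by
  simp [terms, and_assoc]

theorem terms_mono {P : Setup V} {U U' : Finset V} (h : U ⊆ U') : terms P U ⊆ terms P U' := by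
  intro τ hτ
  rw [mem_terms] at hτ ⊢
  exact ⟨hτ.1, h hτ.2.1, h hτ.2.2.1, hτ.2.2.2⟩

theorem terms_card (P : Setup V) (U : Finset V) : (terms P U).card ≤ U.card ^ 2 := by
  have := card_le_card_of_injOn (s := terms P U) (t := U ×ˢ U) Prod.snd
    (fun τ hτ => by
      have := mem_terms.mp (mem_coe.mp hτ)
      exact mem_coe.mpr (mem_product.mpr ⟨this.2.1, this.2.2.1⟩))
    (by
      rintro ⟨A, p⟩ hA ⟨B, q⟩ hB hAB
      simp only at hAB
      subst hAB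
      have h1 := mem_terms.mp (mem_coe.mp hA)
      have h2 := mem_terms.mp (mem_coe.mp hB)
      simp only at h1 h2
      by_contra hne
      have hne' : A ≠ B := by rintro rfl; exact hne rfl
      have h3 := P.ad A h1.1 B h2.1 hne'
      have : 1 < (A ∩ B).card := one_lt_card.mpr ⟨p.1, mem_inter.mpr ⟨h1.2.2.2.2.1, h2.2.2.2.2.1⟩,
        p.2, mem_inter.mpr ⟨h1.2.2.2.2.2, h2.2.2.2.2.2⟩, h1.2.2.2.1⟩
      omega)
  rw [card_product] at this
  nlinarith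

theorem exists_term (P : Setup V) {A U W : Finset V} (hA : A ∈ P.F) (hW : W ⊆ A) (hU : W ⊆ U)
    (h2 : 2 ≤ W.card) : ∃ τ ∈ terms P U, τ.1 = A := by
  obtain ⟨x, hx, y, hy, hxy⟩ := one_lt_card.mp (by omega : 1 < W.card)
  exact ⟨(A, x, y), mem_terms.mpr ⟨hA, hU hx, hU hy, hxy, hW hx, hW hy⟩, rfl⟩

/-- Weight of a term of a cluster potential. -/
noncomputable def cw (B : Finset V) (e : Trm V → ℕ) (τ : Trm V) : ℝ :=
  if Disjoint τ.1 B then 2 ^ e τ else 0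

/-- Cluster potential after a hypothetical move at `y`. -/
noncomputable def cpot (P : Setup V) (U B : Finset V) (e : Trm V → ℕ) (y : V) : ℝ :=
  ∑ τ ∈ terms P U, (if y ∈ τ.1 then 2 else 1) * cw B e τ

/-- Weight of a term of the global potential. -/
noncomputable def tw (P : Setup V) (Mb Bb : Finset V) (q : Σ _ : ℕ, List (Step V)) : ℝ :=
  if Disjoint (YY q.2) Bb then (1/2 : ℝ) ^ cost P q.2 * 2 ^ (YY q.2 ∩ Mb).card else 0

/-- Global potential after a hypothetical move at `y`. -/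
noncomputable def tpot (P : Setup V) (Mb Bb : Finset V) (y : V) : ℝ :=
  ∑ q ∈ TT P, (if y ∈ YY q.2 then 2 else 1) * tw P Mb Bb q

/-- Bound for the global potential. -/
noncomputable def cc (P : Setup V) : ℝ := 2 * ((P.K + 1) * (P.F.card + 1))

theorem cw_nonneg (B : Finset V) (e : Trm V → ℕ) (τ : Trm V) : 0 ≤ cw B e τ := by
  unfold cw; split_ifs <;> positivity

theorem tw_nonneg (P : Setup V) (Mb Bb : Finset V) (q : Σ _ : ℕ, List (Step V)) :
    0 ≤ tw P Mb Bb q := by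
  unfold tw; split_ifs <;> positivity

/-- The points of `A` lost inside `U` are paid for by children. -/
def Loss (P : Setup V) (Mb Ms : Finset V) (e : Trm V → ℕ) (A U : Finset V) : Prop :=
  A ∩ Ms ∩ U = ∅ ∨ ∃ K ε, Kids P Mb A U K ∧ (A ∩ Ms ∩ U).card + P.r ≤ (P.r + 1) * K.card + ε ∧
    (ε = 0 ∨ ∃ τ ∈ terms P U, τ.1 = A ∧ ε ≤ e τ)

theorem Loss.enlarge {P : Setup V} {Mb Ms : Finset V} {e : Trm V → ℕ} {A U U' : Finset V}
    (h : Loss P Mb Ms e A U) (hU : U ⊆ U') (he : A ∩ Ms ∩ U' = A ∩ Ms ∩ U) :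
    Loss P Mb Ms e A U' := by
  rcases h with h | ⟨K, ε, h1, h2, h3⟩
  · exact Or.inl (he.trans h)
  · refine Or.inr ⟨K, ε, h1.mono Subset.rfl hU, by rw [he]; exact h2, ?_⟩
    rcases h3 with h3 | ⟨τ, h3, h4⟩
    · exact Or.inl h3
    · exact Or.inr ⟨τ, terms_mono hU h3, h4⟩

theorem Loss.union {P : Setup V} {Mb Ms : Finset V} {e : Trm V → ℕ} {A U1 U2 : Finset V}
    (he : ∀ τ : Trm V, τ.1 = A → e τ < P.r) (hd : Disjoint U1 U2)
    (h1 : Loss P Mb Ms e A U1) (h2 : Loss P Mb Ms e A U2) : Loss P Mb Ms e A (U1 ∪ U2) := by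
  have e0 : A ∩ Ms ∩ (U1 ∪ U2) = A ∩ Ms ∩ U1 ∪ A ∩ Ms ∩ U2 := inter_union_distrib_left _ _ _
  rcases h2 with h2 | ⟨K2, ε2, b1, b2, b3⟩
  · exact h1.enlarge subset_union_left (by rw [e0, h2, union_empty])
  rcases h1 with h1 | ⟨K1, ε1, a1, a2, a3⟩
  · exact Loss.enlarge (Or.inr ⟨K2, ε2, b1, b2, b3⟩) subset_union_right (by rw [e0, h1, empty_union])
  have hdis : ∀ p ∈ K1, ∀ q ∈ K2, Disjoint p.2 q.2 := fun p hp q hq =>
    hd.mono (a1.1 p hp).2.2.2 (b1.1 q hq).2.2.2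
  have hK : Disjoint K1 K2 := by
    rw [disjoint_left]
    intro p hp hq
    obtain ⟨x, hx, -⟩ := not_disjoint_iff.mp (a1.1 p hp).2.2.1
    have := (a1.1 p hp).1.sub.2 hx
    exact disjoint_left.mp (hdis p hp p hq) this this
  refine Or.inr ⟨K1 ∪ K2, ε1, ⟨?_, ?_⟩, ?_, ?_⟩
  · intro p hp
    rcases mem_union.mp hp with hp | hp
    · exact (a1.mono Subset.rfl subset_union_left).1 p hp
    · exact (b1.mono Subset.rfl subset_union_right).1 p hp
  · intro p hp q hq hpq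
    rcases mem_union.mp hp with hp | hp <;> rcases mem_union.mp hq with hq | hq
    · exact a1.2 p hp q hq hpq
    · exact hdis p hp q hq
    · exact (hdis q hq p hp).symm
    · exact b1.2 p hp q hq hpq
  · rw [card_union_of_disjoint hK, e0, mul_add]
    have h3 := card_union_le (A ∩ Ms ∩ U1) (A ∩ Ms ∩ U2)
    have h4 : ε2 ≤ P.r := by
      rcases b3 with b3 | ⟨τ, -, b4, b5⟩
      · omega
      · have := he τ b4; omega
    omega
  · rcases a3 with a3 | ⟨τ, a3, a4⟩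
    · exact Or.inl a3
    · exact Or.inr ⟨τ, terms_mono subset_union_left a3, a4⟩

theorem Loss.biUnion {P : Setup V} {Mb Ms : Finset V} {e : Trm V → ℕ} {A : Finset V}
    (he : ∀ τ : Trm V, τ.1 = A → e τ < P.r) (C : Finset (Cluster V))
    (hd : ∀ c ∈ C, ∀ c' ∈ C, c ≠ c' → Disjoint (UU c) (UU c'))
    (h : ∀ c ∈ C, Loss P Mb Ms e A (UU c)) : Loss P Mb Ms e A (C.biUnion UU) := by
  induction C using Finset.induction_on with
  | empty => left; simp
  | insert c C hc ih =>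
    rw [biUnion_insert]
    refine Loss.union he ?_ (h c (mem_insert_self _ _))
      (ih (fun a ha b hb => hd a (mem_insert_of_mem ha) b (mem_insert_of_mem hb))
        (fun a ha => h a (mem_insert_of_mem ha)))
    rw [disjoint_biUnion_right]
    intro c' hc'
    exact hd c (mem_insert_self _ _) c' (mem_insert_of_mem hc') (by rintro rfl; exact hc hc')

/-- The invariant of the strategy. -/
structure Inv (P : Setup V) (M B Mb Bb : Finset V) (C : Finset (Cluster V)) (e : Trm V → ℕ) :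
    Prop where
  dMB : Disjoint M B
  mb : Mb ⊆ M
  bb : Bb ⊆ B
  ms : ∀ x ∈ M \ Mb, ∃ c ∈ C, x ∈ UU c
  dU : ∀ c ∈ C, ∀ c' ∈ C, c ≠ c' → Disjoint (UU c) (UU c')
  dC : ∀ c ∈ C, ∀ c' ∈ C, c ≠ c' → ∀ A ∈ c.2, Disjoint A (UU c')
  conn : ∀ c ∈ C, Conn c.1 c.2
  size : ∀ c ∈ C, c.1.card ≤ P.S
  dB : ∀ c ∈ C, Disjoint (UU c) Bb
  e0 : ∀ τ, e τ ≠ 0 → ∃ c ∈ C, τ ∈ terms P (UU c)
  e1 : ∀ τ : Trm V, Disjoint τ.1 B → e τ < P.r
  cp : ∀ c ∈ C, ∀ y, y ∉ M → y ∉ B → cpot P (UU c) B e y ≤ 2 * (terms P (UU c)).card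
  memb : ∀ c ∈ C, ∀ A ∈ c.1, Disjoint A B →
    ∃ τ ∈ terms P (UU c), τ.1 = A ∧ P.r ≤ e τ + (A \ M).card
  conb : ∀ c ∈ C, ∀ A ∈ c.2, Disjoint A B →
    ∃ τ ∈ terms P (UU c), τ.1 = A ∧ (A ∩ (M \ Mb)).card ≤ P.j + e τ
  fr : ∀ A ∈ P.F, Disjoint A B → (∀ c ∈ C, A ∉ c.1) → P.r ≤ (A \ M).card
  ls : ∀ A ∈ P.F, Disjoint A B → (∀ c ∈ C, A ∉ c.1) → (∀ c ∈ C, A ∉ c.2) →
    (A ∩ (M \ Mb)).card ≤ P.j
  loss : ∀ A ∈ P.F, Disjoint A B → (∀ c ∈ C, A ∉ c.1) → ∀ c ∈ C, Loss P Mb (M \ Mb) e A (UU c)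
  tr : ∀ c ∈ C, ∀ A ∈ c.1, Tree P Mb A (UU c)
  kd : ∀ c ∈ C, ∀ A ∈ c.2, A ∈ P.F ∧ ∃ K, Kids P Mb A (UU c) K ∧ P.j ≤ (P.r + 1) * K.card
  t1 : ∑ q ∈ TT P, tw P Mb Bb q ≤ cc P
  t2 : ∀ y, y ∉ M → y ∉ B → (∀ c ∈ C, y ∉ UU c) → tpot P Mb Bb y ≤ cc P

/-- No edge is waiting to become a member or a connector. -/
def Settled (P : Setup V) (M B Mb : Finset V) (C : Finset (Cluster V)) : Prop :=
  ∀ A ∈ P.F, Disjoint A B → (∀ c ∈ C, A ∉ c.1) → P.r < (A \ M).card ∧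
    ((∀ c ∈ C, A ∉ c.2) → (A ∩ (M \ Mb)).card < P.j)

theorem sub_UU {c : Cluster V} {A : Finset V} (h : A ∈ c.1) : A ⊆ UU c :=
  fun _ hx => mem_biUnion.mpr ⟨A, h, hx⟩

section
variable {P : Setup V} {M B Mb Bb : Finset V} {C : Finset (Cluster V)} {e : Trm V → ℕ}

theorem Inv.UU_card (h : Inv P M B Mb Bb C e) {c : Cluster V} (hc : c ∈ C) :
    (UU c).card ≤ P.n * P.S :=
  (biUnion_card P c.1 (fun A hA => (h.tr c hc A hA).sub.1)).trans
    (Nat.mul_le_mul_left _ (h.size c hc))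

theorem Inv.term_bound (h : Inv P M B Mb Bb C e) {c : Cluster V} (hc : c ∈ C) {y : V}
    (hM : y ∉ M) (hB : y ∉ B) {τ : Trm V} (hτ : τ ∈ terms P (UU c)) (ha : Disjoint τ.1 B)
    (hy : y ∈ τ.1) : e τ + 1 < P.r := by
  have h1 := h.cp c hc y hM hB
  have h2 : (if y ∈ τ.1 then 2 else 1) * cw B e τ ≤ cpot P (UU c) B e y :=
    single_le_sum (f := fun τ => (if y ∈ τ.1 then (2 : ℝ) else 1) * cw B e τ)
      (fun τ _ => by have := cw_nonneg B e τ; split_ifs <;> positivity) hτ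
  rw [if_pos hy, cw, if_pos ha] at h2
  have h3 := terms_card P (UU c)
  have h4 := Nat.pow_le_pow_left (h.UU_card hc) 2
  have h5 := P.p2
  have h6 : (2 : ℝ) * 2 ^ e τ ≤ 2 * (terms P (UU c)).card := h2.trans h1
  have h7 : 2 * 2 ^ e τ ≤ 2 * (terms P (UU c)).card := by exact_mod_cast h6
  have h8 : 2 ^ (e τ + 1) < 2 ^ P.r := by rw [pow_succ]; omega
  exact (Nat.pow_lt_pow_iff_right (by norm_num)).mp h8

theorem Inv.safe (h : Inv P M B Mb Bb C e) {x : V} (hM : x ∉ M) (hB : x ∉ B) :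
    ∀ A ∈ P.F, ¬ A ⊆ insert x M := by
  intro A hA hsub
  have ha : Disjoint A B := by
    refine Disjoint.mono_left hsub ?_
    rw [disjoint_insert_left]
    exact ⟨hB, h.dMB⟩
  have h1 : A \ M ⊆ {x} := by
    intro v hv
    obtain ⟨h1, h2⟩ := mem_sdiff.mp hv
    rcases mem_insert.mp (hsub h1) with h | h
    · exact mem_singleton.mpr h
    · exact absurd h h2
  have h2 := card_le_card h1
  rw [card_singleton] at h2
  by_cases hm : ∀ c ∈ C, A ∉ c.1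
  · have := h.fr A hA ha hm
    have := P.r2
    omega
  · push Not at hm
    obtain ⟨c, hc, hAc⟩ := hm
    obtain ⟨τ, hτ, rfl, h3⟩ := h.memb c hc A hAc ha
    have h4 := h.e1 τ ha
    obtain ⟨v, hv⟩ := card_pos.mp (by omega : 0 < (τ.1 \ M).card)
    have h5 := mem_singleton.mp (h1 hv)
    subst h5
    have := h.term_bound hc hM hB hτ ha (mem_sdiff.mp hv).1
    omega

theorem Inv.no_witness (h : Inv P M B Mb Bb C e) {l : List (Step V)} (hl : Adm P l)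
    (hK : l.length ≤ P.K) (hd : Disjoint (YY l) Bb) : ¬ (cost P l + P.L ≤ (YY l ∩ Mb).card) := by
  intro hc
  have hq : (⟨l.length, l⟩ : Σ _ : ℕ, List (Step V)) ∈ TT P :=
    mem_sigma.mpr ⟨mem_range.mpr (by simp only; omega), (mem_AdmF P _ _).mpr ⟨hl, rfl⟩⟩
  have h1 : tw P Mb Bb ⟨l.length, l⟩ ≤ ∑ q ∈ TT P, tw P Mb Bb q :=
    single_le_sum (f := tw P Mb Bb) (fun q _ => tw_nonneg P Mb Bb q) hq
  have h2 := h1.trans h.t1
  simp only [tw, if_pos hd, cc] at h2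
  have h3 : (2 : ℝ) ^ (cost P l + P.L) ≤ 2 ^ (YY l ∩ Mb).card := pow_le_pow_right₀ (by norm_num) hc
  have h4 : (2 : ℝ) ^ P.L ≤ (1/2 : ℝ) ^ cost P l * 2 ^ (YY l ∩ Mb).card := by
    rw [one_div_pow, one_div_mul_eq_div, le_div_iff₀ (by positivity), ← pow_add, add_comm]
    exact h3
  have h5 : (2 * ((P.K + 1) * (P.F.card + 1)) : ℝ) < 2 ^ P.L := by exact_mod_cast P.p8
  linarith

/-- The merged cluster. -/
def mrg (Am Ac : Finset (Finset V)) (D : Finset (Cluster V)) : Cluster V :=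
  (Am ∪ D.biUnion Prod.fst, Ac ∪ D.biUnion Prod.snd)

theorem mem_UU_mrg {Am Ac : Finset (Finset V)} {D : Finset (Cluster V)} {x : V} :
    x ∈ UU (mrg Am Ac D) ↔ (∃ A ∈ Am, x ∈ A) ∨ ∃ c ∈ D, x ∈ UU c := by
  simp only [UU, mrg, mem_biUnion, mem_union, id]
  constructor
  · rintro ⟨A, h | ⟨c, hc, hA⟩, hx⟩
    · exact Or.inl ⟨A, h, hx⟩
    · exact Or.inr ⟨c, hc, A, hA, hx⟩
  · rintro (⟨A, h, hx⟩ | ⟨c, hc, A, hA, hx⟩)
    · exact ⟨A, Or.inl h, hx⟩
    · exact ⟨A, Or.inr ⟨c, hc, hA⟩, hx⟩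

theorem UU_sub_mrg {Am Ac : Finset (Finset V)} {D : Finset (Cluster V)} {c : Cluster V}
    (hc : c ∈ D) : UU c ⊆ UU (mrg Am Ac D) := fun _ hx => mem_UU_mrg.mpr (Or.inr ⟨c, hc, hx⟩)

theorem Inv.merge (h : Inv P M B Mb Bb C e) (Am Ac : Finset (Finset V)) (D : Finset (Cluster V))
    (hD : D ⊆ C)
    (hAm : ∀ A ∈ Am, Disjoint A B ∧ P.r ≤ (A \ M).card ∧
      (∀ c ∈ C, c ∉ D → Disjoint A (UU c) ∧ ∀ A' ∈ c.2, Disjoint A' A) ∧
      ∃ Z ⊆ UU (mrg Am Ac D), Z.card ≤ P.z ∧ Tree P Mb A Z)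
    (hAc : ∀ A ∈ Ac, A ∈ P.F ∧ (∀ c ∈ C, c ∉ D → Disjoint A (UU c)) ∧
      (∃ τ ∈ terms P (UU (mrg Am Ac D)), τ.1 = A ∧ (A ∩ (M \ Mb)).card ≤ P.j + e τ) ∧
      ∃ Z ⊆ UU (mrg Am Ac D), Z.card ≤ P.z ∧ ∃ K, Kids P Mb A Z K ∧ P.j ≤ (P.r + 1) * K.card)
    (hconn : Conn (mrg Am Ac D).1 (mrg Am Ac D).2) :
    Inv P M B Mb Bb (insert (mrg Am Ac D) (C \ D)) e := by
  set s := mrg Am Ac D with hs
  have old : ∀ c ∈ C, ∃ c' ∈ insert s (C \ D), UU c ⊆ UU c' ∧ c.1 ⊆ c'.1 ∧ c.2 ⊆ c'.2 := by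
    intro c hc
    by_cases hcD : c ∈ D
    · refine ⟨s, mem_insert_self _ _, UU_sub_mrg hcD, ?_, ?_⟩
      · exact fun A hA => mem_union_right _ (mem_biUnion.mpr ⟨c, hcD, hA⟩)
      · exact fun A hA => mem_union_right _ (mem_biUnion.mpr ⟨c, hcD, hA⟩)
    · exact ⟨c, mem_insert_of_mem (mem_sdiff.mpr ⟨hc, hcD⟩), Subset.rfl, Subset.rfl, Subset.rfl⟩
  have ms1 : ∀ A, A ∈ s.1 ↔ A ∈ Am ∨ ∃ c ∈ D, A ∈ c.1 := by
    intro A; simp [hs, mrg]
  have ms2 : ∀ A, A ∈ s.2 ↔ A ∈ Ac ∨ ∃ c ∈ D, A ∈ c.2 := by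
    intro A; simp [hs, mrg]
  have dsU : ∀ c ∈ C, c ∉ D → Disjoint (UU s) (UU c) := by
    intro c hc hcD
    rw [disjoint_left]
    intro x hx hxc
    rcases mem_UU_mrg.mp hx with ⟨A, hA, hxA⟩ | ⟨c', hc', hxc'⟩
    · exact disjoint_left.mp ((hAm A hA).2.2.1 c hc hcD).1 hxA hxc
    · exact disjoint_left.mp (h.dU c' (hD hc') c hc (by rintro rfl; exact hcD hc')) hxc' hxc
  have dsB : Disjoint (UU s) Bb := by
    rw [disjoint_left]
    intro x hx hxc
    rcases mem_UU_mrg.mp hx with ⟨A, hA, hxA⟩ | ⟨c', hc', hxc'⟩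
    · exact disjoint_left.mp (hAm A hA).1 hxA (h.bb hxc)
    · exact disjoint_left.mp (h.dB c' (hD hc')) hxc' hxc
  have hz : P.n * P.S ≤ P.z := by
    have h1 := P.p6'
    have h2 := P.n3
    have : P.n * P.S ≤ P.n * (P.n * P.S) := Nat.le_mul_of_pos_left _ (by omega)
    omega
  have trs : ∀ A ∈ s.1, ∃ Z ⊆ UU s, Z.card ≤ P.z ∧ Tree P Mb A Z := by
    intro A hA
    rcases (ms1 A).mp hA with hA | ⟨c, hc, hA⟩
    · exact (hAm A hA).2.2.2
    · exact ⟨UU c, UU_sub_mrg hc, (h.UU_card (hD hc)).trans hz, h.tr c (hD hc) A hA⟩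
  have kds : ∀ A ∈ s.2, A ∈ P.F ∧ ∃ Z ⊆ UU s, Z.card ≤ P.z ∧ ∃ K, Kids P Mb A Z K ∧
      P.j ≤ (P.r + 1) * K.card := by
    intro A hA
    rcases (ms2 A).mp hA with hA | ⟨c, hc, hA⟩
    · exact ⟨(hAc A hA).1, (hAc A hA).2.2.2⟩
    · exact ⟨(h.kd c (hD hc) A hA).1, UU c, UU_sub_mrg hc, (h.UU_card (hD hc)).trans hz,
        (h.kd c (hD hc) A hA).2⟩
  have nm : ∀ A, (∀ c ∈ insert s (C \ D), A ∉ c.1) → ∀ c ∈ C, A ∉ c.1 := by
    intro A hA c hc hAc'
    obtain ⟨c', hc', -, h1, -⟩ := old c hc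
    exact hA c' hc' (h1 hAc')
  have nc : ∀ A, (∀ c ∈ insert s (C \ D), A ∉ c.2) → ∀ c ∈ C, A ∉ c.2 := by
    intro A hA c hc hAc'
    obtain ⟨c', hc', -, -, h1⟩ := old c hc
    exact hA c' hc' (h1 hAc')
  refine
    { dMB := h.dMB, mb := h.mb, bb := h.bb, ms := ?_, dU := ?_, dC := ?_, conn := ?_, size := ?_,
      dB := ?_, e0 := ?_, e1 := h.e1, cp := ?_, memb := ?_, conb := ?_,
      fr := fun A hA ha hm => h.fr A hA ha (nm A hm),
      ls := fun A hA ha hm hc => h.ls A hA ha (nm A hm) (nc A hc),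
      loss := ?_, tr := ?_, kd := ?_, t1 := h.t1, t2 := ?_ }
  · intro x hx
    obtain ⟨c, hc, hxc⟩ := h.ms x hx
    obtain ⟨c', hc', h1, -⟩ := old c hc
    exact ⟨c', hc', h1 hxc⟩
  · intro c hc c' hc' hne
    rcases mem_insert.mp hc with rfl | hc <;> rcases mem_insert.mp hc' with rfl | hc'
    · exact absurd rfl hne
    · exact dsU c' (mem_sdiff.mp hc').1 (mem_sdiff.mp hc').2
    · exact (dsU c (mem_sdiff.mp hc).1 (mem_sdiff.mp hc).2).symm
    · exact h.dU c (mem_sdiff.mp hc).1 c' (mem_sdiff.mp hc').1 hne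
  · intro c hc c' hc' hne A hA
    rcases mem_insert.mp hc with rfl | hc <;> rcases mem_insert.mp hc' with rfl | hc'
    · exact absurd rfl hne
    · obtain ⟨h1, h2⟩ := mem_sdiff.mp hc'
      rcases (ms2 A).mp hA with hA | ⟨c, hc, hA⟩
      · exact (hAc A hA).2.1 c' h1 h2
      · exact h.dC c (hD hc) c' h1 (by rintro rfl; exact h2 hc) A hA
    · obtain ⟨h1, h2⟩ := mem_sdiff.mp hc
      rw [disjoint_right]
      intro x hx hxA
      rcases mem_UU_mrg.mp hx with ⟨A', hA', hxA'⟩ | ⟨c', hc', hxc'⟩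
      · exact disjoint_left.mp (((hAm A' hA').2.2.1 c h1 h2).2 A hA) hxA hxA'
      · exact disjoint_left.mp (h.dC c h1 c' (hD hc') (by rintro rfl; exact h2 hc') A hA) hxA hxc'
    · exact h.dC c (mem_sdiff.mp hc).1 c' (mem_sdiff.mp hc').1 hne A hA
  · intro c hc
    rcases mem_insert.mp hc with rfl | hc
    · exact hconn
    · exact h.conn c (mem_sdiff.mp hc).1
  · intro c hc
    rcases mem_insert.mp hc with rfl | hc
    · by_contra hS
      obtain ⟨l, h1, h2, h3, h4⟩ := explore_main P Mb (UU s) s.1 s.2 trs kds hconn (by omega)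
      exact h.no_witness h1 h2 (dsB.mono_left h3) h4
    · exact h.size c (mem_sdiff.mp hc).1
  · intro c hc
    rcases mem_insert.mp hc with rfl | hc
    · exact dsB
    · exact h.dB c (mem_sdiff.mp hc).1
  · intro τ hτ
    obtain ⟨c, hc, h1⟩ := h.e0 τ hτ
    obtain ⟨c', hc', h2, -⟩ := old c hc
    exact ⟨c', hc', terms_mono h2 h1⟩
  · intro c hc y hyM hyB
    rcases mem_insert.mp hc with rfl | hc
    · set f : Trm V → ℝ := fun τ => (if y ∈ τ.1 then 2 else 1) * cw B e τ - 2 with hf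
      have conv : ∀ U, cpot P U B e y ≤ 2 * (terms P U).card ↔ ∑ τ ∈ terms P U, f τ ≤ 0 := by
        intro U
        simp only [hf, cpot]
        rw [sum_sub_distrib, sum_const, nsmul_eq_mul]
        constructor <;> intro <;> linarith
      rw [conv]
      have hsub : D.biUnion (fun c => terms P (UU c)) ⊆ terms P (UU s) := by
        intro τ hτ
        obtain ⟨c, hc, h1⟩ := mem_biUnion.mp hτ
        exact terms_mono (UU_sub_mrg hc) h1
      rw [← sum_sdiff hsub, sum_biUnion]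
      · have h1 : ∑ c ∈ D, ∑ τ ∈ terms P (UU c), f τ ≤ 0 :=
          sum_nonpos (fun c hc => (conv _).mp (h.cp c (hD hc) y hyM hyB))
        have h2 : ∑ τ ∈ terms P (UU s) \ D.biUnion (fun c => terms P (UU c)), f τ ≤ 0 := by
          apply sum_nonpos
          intro τ hτ
          obtain ⟨h3, h4⟩ := mem_sdiff.mp hτ
          have h5 : e τ = 0 := by
            by_contra h5
            obtain ⟨c, hc, h6⟩ := h.e0 τ h5
            by_cases hcD : c ∈ D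
            · exact h4 (mem_biUnion.mpr ⟨c, hcD, h6⟩)
            · exact disjoint_left.mp (dsU c hc hcD) (mem_terms.mp h3).2.1 (mem_terms.mp h6).2.1
          simp only [hf, cw, h5]
          split_ifs <;> norm_num
        linarith
      · intro c hc c' hc' hne
        simp only [Function.onFun]
        rw [disjoint_left]
        intro τ h1 h2
        exact disjoint_left.mp (h.dU c (hD hc) c' (hD hc') hne) (mem_terms.mp h1).2.1
          (mem_terms.mp h2).2.1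
    · exact h.cp c (mem_sdiff.mp hc).1 y hyM hyB
  · intro c hc A hA ha
    rcases mem_insert.mp hc with rfl | hc
    · rcases (ms1 A).mp hA with hA' | ⟨c, hc, hA'⟩
      · obtain ⟨-, h2, -, Z, -, -, t⟩ := hAm A hA'
        obtain ⟨τ, h3, h4⟩ := exists_term P t.sub.1 Subset.rfl (sub_UU hA)
          (by rw [P.unif A t.sub.1]; have := P.n3; omega)
        exact ⟨τ, h3, h4, by omega⟩
      · obtain ⟨τ, h1, h2⟩ := h.memb c (hD hc) A hA' ha
        exact ⟨τ, terms_mono (UU_sub_mrg hc) h1, h2⟩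
    · exact h.memb c (mem_sdiff.mp hc).1 A hA ha
  · intro c hc A hA ha
    rcases mem_insert.mp hc with rfl | hc
    · rcases (ms2 A).mp hA with hA' | ⟨c, hc, hA'⟩
      · exact (hAc A hA').2.2.1
      · obtain ⟨τ, h1, h2⟩ := h.conb c (hD hc) A hA' ha
        exact ⟨τ, terms_mono (UU_sub_mrg hc) h1, h2⟩
    · exact h.conb c (mem_sdiff.mp hc).1 A hA ha
  · intro A hA ha hm c hc
    rcases mem_insert.mp hc with rfl | hc
    · have h1 : Loss P Mb (M \ Mb) e A (D.biUnion UU) :=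
        Loss.biUnion (fun τ hτ => h.e1 τ (by rw [hτ]; exact ha)) D
          (fun c hc c' hc' => h.dU c (hD hc) c' (hD hc'))
          (fun c hc => h.loss A hA ha (nm A hm) c (hD hc))
      have hsub : D.biUnion UU ⊆ UU s := by
        intro x hx
        obtain ⟨c, hc, hxc⟩ := mem_biUnion.mp hx
        exact UU_sub_mrg hc hxc
      refine h1.enlarge hsub (Subset.antisymm ?_ (inter_subset_inter_left hsub))
      intro x hx
      obtain ⟨h2, h3⟩ := mem_inter.mp hx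
      refine mem_inter.mpr ⟨h2, ?_⟩
      obtain ⟨c, hc, hxc⟩ := h.ms x (mem_inter.mp h2).2
      by_cases hcD : c ∈ D
      · exact mem_biUnion.mpr ⟨c, hcD, hxc⟩
      · exact absurd hxc (disjoint_left.mp (dsU c hc hcD) h3)
    · exact h.loss A hA ha (nm A hm) c (mem_sdiff.mp hc).1
  · intro c hc A hA
    rcases mem_insert.mp hc with rfl | hc
    · obtain ⟨Z, h1, -, t⟩ := trs A hA
      exact t.mono_Z h1
    · exact h.tr c (mem_sdiff.mp hc).1 A hA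
  · intro c hc A hA
    rcases mem_insert.mp hc with rfl | hc
    · obtain ⟨h0, Z, h1, -, K, h2, h3⟩ := kds A hA
      exact ⟨h0, K, h2.mono Subset.rfl h1, h3⟩
    · exact h.kd c (mem_sdiff.mp hc).1 A hA
  · intro y hyM hyB hy
    refine h.t2 y hyM hyB (fun c hc hyc => ?_)
    obtain ⟨c', hc', h1, -⟩ := old c hc
    exact hy c' hc' (h1 hyc)

end

end Pool.Agent.Lib.MP_614955_co
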