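import Mathlib
import Pool.Agent.Lib.MP_614955_co.State

set_option autoImplicit false

namespace Pool.Agent.Lib.MP_614955_co

open Finset

variable {V : Type*} [DecidableEq V]
variable {P : Setup V} {M B Mb Bb : Finset V} {C : Finset (Cluster V)} {e : Trm V → ℕ}

theorem Inv.loss_kids (h : Inv P M B Mb Bb C e) {A : Finset V} (hA : A ∈ P.F) (ha : Disjoint A B)
    (hm : ∀ c ∈ C, A ∉ c.1) :
    ((C.filter (fun c => ¬ Disjoint A (UU c))).biUnion UU).card ≤ P.n * (P.n * P.S) ∧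
    A ∩ (M \ Mb) ⊆ (C.filter (fun c => ¬ Disjoint A (UU c))).biUnion UU ∧
    ∃ K, Kids P Mb A ((C.filter (fun c => ¬ Disjoint A (UU c))).biUnion UU) K ∧
      (A ∩ (M \ Mb)).card ≤ (P.r + 1) * K.card := by
  set D := C.filter (fun c => ¬ Disjoint A (UU c)) with hD
  have hDC : D ⊆ C := filter_subset _ _
  have hcard : D.card ≤ P.n := by
    have h1 : ∀ c ∈ D, 1 ≤ (A ∩ UU c).card := by
      intro c hc
      obtain ⟨x, h1, h2⟩ := not_disjoint_iff.mp (mem_filter.mp hc).2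
      exact card_pos.mpr ⟨x, mem_inter.mpr ⟨h1, h2⟩⟩
    have h2 : (D.biUnion (fun c => A ∩ UU c)).card = ∑ c ∈ D, (A ∩ UU c).card := by
      apply card_biUnion
      intro c hc c' hc' hne
      exact (h.dU c (hDC hc) c' (hDC hc') hne).mono inter_subset_right inter_subset_right
    have h3 : D.biUnion (fun c => A ∩ UU c) ⊆ A := by
      intro x hx
      obtain ⟨c, -, hxc⟩ := mem_biUnion.mp hx
      exact (mem_inter.mp hxc).1
    have h4 := card_le_card h3
    have h5 := card_nsmul_le_sum D _ 1 h1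
    rw [P.unif A hA] at h4
    simp only [smul_eq_mul, mul_one] at h5
    omega
  have hsub : A ∩ (M \ Mb) ⊆ D.biUnion UU := by
    intro x hx
    obtain ⟨c, hc, hxc⟩ := h.ms x (mem_inter.mp hx).2
    exact mem_biUnion.mpr ⟨c, mem_filter.mpr ⟨hc, not_disjoint_iff.mpr ⟨x, (mem_inter.mp hx).1, hxc⟩⟩, hxc⟩
  refine ⟨(card_biUnion_le_card_mul D UU (P.n * P.S) (fun c hc => h.UU_card (hDC hc))).trans
    (Nat.mul_le_mul_right _ hcard), hsub, ?_⟩
  have h1 : Loss P Mb (M \ Mb) e A (D.biUnion UU) :=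
    Loss.biUnion (fun τ hτ => h.e1 τ (by rw [hτ]; exact ha)) D
      (fun c hc c' hc' => h.dU c (hDC hc) c' (hDC hc'))
      (fun c hc => h.loss A hA ha hm c (hDC hc))
  unfold Loss at h1
  rw [inter_eq_left.mpr hsub] at h1
  rcases h1 with h1 | ⟨K, ε, h1, h2, h3⟩
  · exact ⟨∅, ⟨by simp, by simp⟩, by rw [h1]; simp⟩
  · refine ⟨K, h1, ?_⟩
    rcases h3 with h3 | ⟨τ, -, h3, h4⟩
    · omega
    · have := h.e1 τ (by rw [h3]; exact ha)
      omega

theorem conn_split (Am Ac : Finset (Finset V)) (D : Finset (Cluster V))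
    (hD : ∀ c ∈ D, Conn c.1 c.2) (G : Finset (Finset V)) :
    (∃ A ∈ G, ∃ A' ∈ (mrg Am Ac D).1, A' ∉ G ∧
      (¬ Disjoint A A' ∨ ∃ B ∈ (mrg Am Ac D).2, ¬ Disjoint B A ∧ ¬ Disjoint B A')) ∨
    ∀ c ∈ D, (∀ A ∈ c.1, A ∈ G) ∨ (∀ A ∈ c.1, A ∉ G) := by
  by_cases hc : ∀ c ∈ D, (∀ A ∈ c.1, A ∈ G) ∨ (∀ A ∈ c.1, A ∉ G)
  · exact Or.inr hc
  · left
    push Not at hc
    obtain ⟨c, hc, ⟨A1, h1, h1'⟩, ⟨A2, h2, h2'⟩⟩ := hc
    obtain ⟨A, hA, A', hA', hn, hl⟩ := hD c hc (c.1 ∩ G) inter_subset_left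
      ⟨A2, mem_inter.mpr ⟨h2, h2'⟩⟩ (by
        intro h
        rw [← h] at h1
        exact h1' (mem_inter.mp h1).2)
    refine ⟨A, (mem_inter.mp hA).2, A', mem_union_right _ (mem_biUnion.mpr ⟨c, hc, hA'⟩),
      fun h => hn (mem_inter.mpr ⟨hA', h⟩), ?_⟩
    rcases hl with hl | ⟨B, hB, hl⟩
    · exact Or.inl hl
    · exact Or.inr ⟨B, mem_union_right _ (mem_biUnion.mpr ⟨c, hc, hB⟩), hl⟩

theorem meet_member {A : Finset V} {c : Cluster V} (h : ¬ Disjoint A (UU c)) :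
    ∃ A' ∈ c.1, ¬ Disjoint A A' := by
  obtain ⟨x, h1, h2⟩ := not_disjoint_iff.mp h
  obtain ⟨A', h3, h4⟩ := mem_biUnion.mp h2
  exact ⟨A', h3, not_disjoint_iff.mpr ⟨x, h1, h4⟩⟩

theorem Inv.con_meets (h : Inv P M B Mb Bb C e) {c : Cluster V} (hc : c ∈ C) {A : Finset V}
    (hA : A ∈ c.2) : ¬ Disjoint A (UU c) := by
  obtain ⟨-, K, h1, h2⟩ := h.kd c hc A hA
  have := P.j2
  have hK : K.Nonempty := by
    rw [← card_pos]
    by_contra h0
    have : K.card = 0 := by omega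
    rw [this] at h2
    omega
  obtain ⟨p, hp⟩ := hK
  obtain ⟨t, -, h3, h4⟩ := h1.1 p hp
  exact fun hd => h3 (hd.symm.mono_left (t.sub.2.trans h4))

theorem card_split (h : Mb ⊆ M) (A : Finset V) :
    A.card = (A ∩ Mb).card + (A ∩ (M \ Mb)).card + (A \ M).card := by
  have h1 := card_sdiff_add_card_inter A M
  have h2 : A ∩ M = A ∩ Mb ∪ A ∩ (M \ Mb) := by
    rw [← inter_union_distrib_left, union_sdiff_of_subset h]
  have h3 : Disjoint (A ∩ Mb) (A ∩ (M \ Mb)) :=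
    Disjoint.mono inter_subset_right inter_subset_right disjoint_sdiff
  rw [h2, card_union_of_disjoint h3] at h1
  omega

theorem Inv.add_member (h : Inv P M B Mb Bb C e) {A : Finset V} (hA : A ∈ P.F) (ha : Disjoint A B)
    (hm : ∀ c ∈ C, A ∉ c.1) (hf : (A \ M).card ≤ P.r) :
    ∃ D ⊆ C, Inv P M B Mb Bb (insert (mrg {A} ∅ D) (C \ D)) e := by
  set D := C.filter (fun c => ¬ Disjoint A (UU c) ∨ ∃ A' ∈ c.2, ¬ Disjoint A' A) with hD
  have hDC : D ⊆ C := filter_subset _ _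
  refine ⟨D, hDC, h.merge {A} ∅ D hDC ?_ (by simp) ?_⟩
  · intro A' hA'
    rw [mem_singleton.mp hA']
    refine ⟨ha, h.fr A hA ha hm, ?_, ?_⟩
    · intro c hc hcD
      have : ¬ (¬ Disjoint A (UU c) ∨ ∃ A' ∈ c.2, ¬ Disjoint A' A) :=
        fun hh => hcD (mem_filter.mpr ⟨hc, hh⟩)
      push Not at this
      exact this
    · obtain ⟨h1, h2, K, h3, h4⟩ := h.loss_kids hA ha hm
      set W := (C.filter (fun c => ¬ Disjoint A (UU c))).biUnion UU with hW
      have hsp := card_split h.mb A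
      rw [P.unif A hA] at hsp
      have hl : (A ∩ (M \ Mb)).card ≤ P.j + P.r := by
        by_cases hcn : ∀ c ∈ C, A ∉ c.2
        · have := h.ls A hA ha hm hcn; omega
        · push Not at hcn
          obtain ⟨c, hc, hAc⟩ := hcn
          obtain ⟨τ, -, h5, h6⟩ := h.conb c hc A hAc ha
          have := h.e1 τ (by rw [h5]; exact ha)
          omega
      refine ⟨A ∪ W, ?_, ?_, Tree.mk A (A ∪ W) K hA subset_union_left (fun p hp => (h3.1 p hp).1)
        (fun p hp => ⟨(h3.1 p hp).2.1, (h3.1 p hp).2.2.1, (h3.1 p hp).2.2.2.trans subset_union_right⟩)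
        h3.2 (by omega) (by omega)⟩
      · intro x hx
        rw [mem_UU_mrg]
        rcases mem_union.mp hx with hx | hx
        · exact Or.inl ⟨A, mem_singleton_self _, hx⟩
        · obtain ⟨c, hc, hxc⟩ := mem_biUnion.mp hx
          exact Or.inr ⟨c, mem_filter.mpr ⟨(mem_filter.mp hc).1, Or.inl (mem_filter.mp hc).2⟩, hxc⟩
      · have h5 := card_union_le A W
        have h6 := P.p6'
        rw [P.unif A hA] at h5
        omega
  · intro G hG hGne hGp
    rcases conn_split {A} ∅ D (fun c hc => h.conn c (hDC hc)) G with h1 | h1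
    · exact h1
    have link : ∀ c ∈ D, ∃ A' ∈ c.1, ¬ Disjoint A A' ∨
        ∃ B' ∈ (mrg {A} ∅ D).2, ¬ Disjoint B' A ∧ ¬ Disjoint B' A' := by
      intro c hc
      rcases (mem_filter.mp hc).2 with h2 | ⟨B', h2, h3⟩
      · obtain ⟨A', h3, h4⟩ := meet_member h2
        exact ⟨A', h3, Or.inl h4⟩
      · obtain ⟨A', h4, h5⟩ := meet_member (h.con_meets (hDC hc) h2)
        exact ⟨A', h4, Or.inr ⟨B', mem_union_right _ (mem_biUnion.mpr ⟨c, hc, h2⟩), h3, h5⟩⟩
    have ms1 : ∀ A', A' ∈ (mrg {A} ∅ D).1 ↔ A' = A ∨ ∃ c ∈ D, A' ∈ c.1 := by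
      intro A'; simp [mrg]
    by_cases hAG : A ∈ G
    · obtain ⟨A1, h2, h3⟩ := exists_of_ssubset (ssubset_of_subset_of_ne hG hGp)
      rcases (ms1 A1).mp h2 with rfl | ⟨c, hc, h4⟩
      · exact absurd hAG h3
      · obtain ⟨A', h5, h6⟩ := link c hc
        rcases h1 c hc with h7 | h7
        · exact absurd (h7 A1 h4) h3
        · exact ⟨A, hAG, A', (ms1 A').mpr (Or.inr ⟨c, hc, h5⟩), h7 A' h5, h6⟩
    · obtain ⟨A1, h2⟩ := hGne
      rcases (ms1 A1).mp (hG h2) with rfl | ⟨c, hc, h4⟩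
      · exact absurd h2 hAG
      · obtain ⟨A', h5, h6⟩ := link c hc
        rcases h1 c hc with h7 | h7
        · refine ⟨A', h7 A' h5, A, (ms1 A).mpr (Or.inl rfl), hAG, ?_⟩
          rcases h6 with h6 | ⟨B', h6, h8, h9⟩
          · exact Or.inl (fun hh => h6 hh.symm)
          · exact Or.inr ⟨B', h6, h9, h8⟩
        · exact absurd h2 (h7 A1 h4)

theorem Inv.add_connector (h : Inv P M B Mb Bb C e) {A : Finset V} (hA : A ∈ P.F)
    (ha : Disjoint A B) (hm : ∀ c ∈ C, A ∉ c.1) (hcn : ∀ c ∈ C, A ∉ c.2)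
    (hf : P.j ≤ (A ∩ (M \ Mb)).card) :
    ∃ D ⊆ C, Inv P M B Mb Bb (insert (mrg ∅ {A} D) (C \ D)) e := by
  obtain ⟨h1, h2, K, h3, h4⟩ := h.loss_kids hA ha hm
  set D := C.filter (fun c => ¬ Disjoint A (UU c)) with hD
  have hDC : D ⊆ C := filter_subset _ _
  have hW : D.biUnion UU ⊆ UU (mrg ∅ {A} D) := by
    intro x hx
    obtain ⟨c, hc, hxc⟩ := mem_biUnion.mp hx
    exact UU_sub_mrg hc hxc
  refine ⟨D, hDC, h.merge ∅ {A} D hDC (by simp) ?_ ?_⟩
  · intro A' hA'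
    rw [mem_singleton.mp hA']
    refine ⟨hA, ?_, ?_, D.biUnion UU, hW, by have := P.p6'; omega, K, h3, by omega⟩
    · intro c hc hcD
      by_contra hh
      exact hcD (mem_filter.mpr ⟨hc, hh⟩)
    · obtain ⟨τ, h5, h6⟩ := exists_term P hA inter_subset_left (h2.trans hW)
        (by have := P.j2; omega)
      have := h.ls A hA ha hm hcn
      exact ⟨τ, h5, h6, by omega⟩
  · intro G hG hGne hGp
    rcases conn_split ∅ {A} D (fun c hc => h.conn c (hDC hc)) G with h1 | h1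
    · exact h1
    have ms1 : ∀ A', A' ∈ (mrg ∅ {A} D).1 ↔ ∃ c ∈ D, A' ∈ c.1 := by
      intro A'; simp [mrg]
    obtain ⟨A1, k2, k3⟩ := exists_of_ssubset (ssubset_of_subset_of_ne hG hGp)
    obtain ⟨A2, k4⟩ := hGne
    obtain ⟨c1, hc1, k5⟩ := (ms1 A1).mp k2
    obtain ⟨c2, hc2, k6⟩ := (ms1 A2).mp (hG k4)
    obtain ⟨E1, k7, k8⟩ := meet_member (mem_filter.mp hc1).2
    obtain ⟨E2, k9, k10⟩ := meet_member (mem_filter.mp hc2).2
    rcases h1 c1 hc1 with k11 | k11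
    · exact absurd (k11 A1 k5) k3
    rcases h1 c2 hc2 with k12 | k12
    · exact ⟨E2, k12 E2 k9, E1, (ms1 E1).mpr ⟨c1, hc1, k7⟩, k11 E1 k7,
        Or.inr ⟨A, by simp [mrg], k10, k8⟩⟩
    · exact absurd k4 (k12 A2 k6)

theorem mrg_fst (Am Ac : Finset (Finset V)) {D C : Finset (Cluster V)} (hD : D ⊆ C) :
    (insert (mrg Am Ac D) (C \ D)).biUnion Prod.fst = Am ∪ C.biUnion Prod.fst ∧
    (insert (mrg Am Ac D) (C \ D)).biUnion Prod.snd = Ac ∪ C.biUnion Prod.snd := by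
  rw [biUnion_insert, biUnion_insert]
  simp only [mrg]
  rw [union_assoc, union_assoc, ← union_biUnion, ← union_biUnion, union_sdiff_of_subset hD]
  exact ⟨rfl, rfl⟩

theorem Inv.settle (h : Inv P M B Mb Bb C e) :
    ∃ C', Inv P M B Mb Bb C' e ∧ Settled P M B Mb C' := by
  generalize hk : (P.F \ C.biUnion Prod.fst).card + (P.F \ C.biUnion Prod.snd).card = k
  induction k using Nat.strong_induction_on generalizing C with
  | _ k ih =>
    by_cases hs : Settled P M B Mb C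
    · exact ⟨C, h, hs⟩
    · unfold Settled at hs
      push Not at hs
      obtain ⟨A, hA, ha, hm, hs⟩ := hs
      have key : ∀ G : Finset (Finset V), A ∉ G → (P.F \ ({A} ∪ G)).card < (P.F \ G).card := by
        intro G hG
        apply card_lt_card
        refine ⟨sdiff_subset_sdiff Subset.rfl subset_union_right, fun hh => ?_⟩
        have := hh (mem_sdiff.mpr ⟨hA, hG⟩)
        simp at this
      by_cases hf : P.r < (A \ M).card
      · obtain ⟨hcn, hj⟩ := hs hf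
        obtain ⟨D, hD, h'⟩ := h.add_connector hA ha hm hcn hj
        refine ih _ ?_ h' rfl
        rw [(mrg_fst _ _ hD).1, (mrg_fst _ _ hD).2, empty_union, ← hk]
        have := key (C.biUnion Prod.snd) (by simpa using hcn)
        omega
      · obtain ⟨D, hD, h'⟩ := h.add_member hA ha hm (by omega)
        refine ih _ ?_ h' rfl
        rw [(mrg_fst _ _ hD).1, (mrg_fst _ _ hD).2, empty_union, ← hk]
        have := key (C.biUnion Prod.fst) (by simpa using hm)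
        omega

end Pool.Agent.Lib.MP_614955_co
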