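import Mathlib
import Pool.Agent.Lib.MP_614955_co.Game
import Pool.Agent.Lib.MP_614955_co.Settle

set_option autoImplicit false

namespace Pool.Agent.Lib.MP_614955_co

open Finset

variable {V : Type*} [DecidableEq V]
variable {P : Setup V} {M B Mb Bb : Finset V} {C : Finset (Cluster V)} {e : Trm V → ℕ}

theorem sdiff_insert_card (A M : Finset V) (x : V) : (A \ M).card ≤ (A \ insert x M).card + 1 := by
  rw [sdiff_insert]
  have := pred_card_le_card_erase (s := A \ M) (a := x)
  omega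

theorem inter_insert_card (A W : Finset V) (x : V) : (A ∩ insert x W).card ≤ (A ∩ W).card + 1 := by
  by_cases h : x ∈ A
  · rw [inter_insert_of_mem h]; exact card_insert_le _ _
  · rw [inter_insert_of_notMem h]; omega

theorem cw_insert (B : Finset V) (e : Trm V → ℕ) (y : V) (τ : Trm V) :
    cw (insert y B) e τ = if y ∈ τ.1 then 0 else cw B e τ := by
  simp only [cw, disjoint_insert_right]
  by_cases h : y ∈ τ.1 <;> simp [h]

theorem tw_insert_B (P : Setup V) (Mb Bb : Finset V) (y : V) (q : Σ _ : ℕ, List (Step V)) :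
    tw P Mb (insert y Bb) q = if y ∈ YY q.2 then 0 else tw P Mb Bb q := by
  simp only [tw, disjoint_insert_right]
  by_cases h : y ∈ YY q.2 <;> simp [h]

theorem tw_insert_M (P : Setup V) (Mb Bb : Finset V) {x : V} (hx : x ∉ Mb)
    (q : Σ _ : ℕ, List (Step V)) :
    tw P (insert x Mb) Bb q = (if x ∈ YY q.2 then 2 else 1) * tw P Mb Bb q := by
  simp only [tw]
  by_cases h : x ∈ YY q.2
  · rw [inter_insert_of_mem h, card_insert_of_notMem (fun hh => hx (mem_inter.mp hh).2), pow_succ]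
    simp only [if_pos h]
    split_ifs <;> ring
  · rw [inter_insert_of_notMem h]
    simp only [if_neg h, one_mul]

theorem cpot_mono (P : Setup V) (U B : Finset V) (e : Trm V → ℕ) (y z : V) :
    cpot P U (insert y B) e z ≤ cpot P U B e z := by
  apply sum_le_sum
  intro τ _
  rw [cw_insert]
  have := cw_nonneg B e τ
  split_ifs <;> linarith

theorem alive_of {A B : Finset V} {y : V} (h : Disjoint A (insert y B)) : Disjoint A B :=
  h.mono_right (subset_insert _ _)

theorem Inv.big_aux (h : Inv P M B Mb Bb C e) (hs : Settled P M B Mb C) {x y : V}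
    (hxM : x ∉ M) (hxB : x ∉ B) (hxU : ∀ c ∈ C, x ∉ UU c) (hyM : y ∉ insert x M)
    (Bb' : Finset V) (h1 : Bb' ⊆ insert y B) (h2 : ∀ c ∈ C, Disjoint (UU c) Bb')
    (h3 : ∑ q ∈ TT P, tw P (insert x Mb) Bb' q ≤ cc P)
    (h4 : ∀ z, z ∉ insert x M → z ∉ insert y B → (∀ c ∈ C, z ∉ UU c) →
      tpot P (insert x Mb) Bb' z ≤ cc P) :
    Inv P (insert x M) (insert y B) (insert x Mb) Bb' C e := by
  have hMs : insert x M \ insert x Mb = M \ Mb := by
    ext v
    simp only [mem_sdiff, mem_insert, not_or]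
    constructor
    · rintro ⟨h | h, h', h''⟩
      · exact absurd h h'
      · exact ⟨h, h''⟩
    · rintro ⟨h, h'⟩
      exact ⟨Or.inr h, by rintro rfl; exact hxM h, h'⟩
  have hsub : Mb ⊆ insert x Mb := subset_insert _ _
  refine
    { dMB := ?_, mb := insert_subset_insert _ h.mb, bb := h1, ms := by rw [hMs]; exact h.ms,
      dU := h.dU, dC := h.dC, conn := h.conn, size := h.size, dB := h2, e0 := h.e0,
      e1 := fun τ hτ => h.e1 τ (alive_of hτ), cp := ?_, memb := ?_, conb := ?_, fr := ?_, ls := ?_,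
      loss := ?_, tr := fun c hc A hA => (h.tr c hc A hA).mono_M hsub, kd := ?_, t1 := h3, t2 := h4 }
  · rw [disjoint_insert_right, disjoint_insert_left]
    exact ⟨hyM, hxB, h.dMB⟩
  · intro c hc z hz1 hz2
    exact (cpot_mono P _ _ _ _ _).trans (h.cp c hc z (fun hh => hz1 (mem_insert_of_mem hh))
      (fun hh => hz2 (mem_insert_of_mem hh)))
  · intro c hc A hA ha
    obtain ⟨τ, k1, k2, k3⟩ := h.memb c hc A hA (alive_of ha)
    refine ⟨τ, k1, k2, ?_⟩
    rw [sdiff_insert_of_notMem (fun hh => hxU c hc (sub_UU hA hh))]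
    exact k3
  · intro c hc A hA ha
    rw [hMs]
    exact h.conb c hc A hA (alive_of ha)
  · intro A hA ha hm
    have k1 := (hs A hA (alive_of ha) hm).1
    have k2 := sdiff_insert_card A M x
    omega
  · intro A hA ha hm hc
    rw [hMs]
    exact h.ls A hA (alive_of ha) hm hc
  · intro A hA ha hm c hc
    rw [hMs]
    rcases h.loss A hA (alive_of ha) hm c hc with k | ⟨K, ε, k1, k2⟩
    · exact Or.inl k
    · exact Or.inr ⟨K, ε, k1.mono hsub Subset.rfl, k2⟩
  · intro c hc A hA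
    obtain ⟨k0, K, k1, k2⟩ := h.kd c hc A hA
    exact ⟨k0, K, k1.mono hsub Subset.rfl, k2⟩

theorem Inv.big [Fintype V] (h : Inv P M B Mb Bb C e) (hs : Settled P M B Mb C) {x : V}
    (hxM : x ∉ M) (hxB : x ∉ B) (hxU : ∀ c ∈ C, x ∉ UU c) (hy : ∃ y, y ∉ insert x M ∧ y ∉ B) :
    ∃ y, y ∉ insert x M ∧ y ∉ B ∧ ∃ Bb', Inv P (insert x M) (insert y B) (insert x Mb) Bb' C e := by
  have hx : x ∉ Mb := fun hh => hxM (h.mb hh)
  have k1 : ∑ q ∈ TT P, tw P (insert x Mb) Bb q ≤ cc P := by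
    simp only [tw_insert_M P Mb Bb hx]
    exact h.t2 x hxM hxB hxU
  set R := (univ : Finset V).filter (fun z => z ∉ insert x M ∧ z ∉ B ∧ ∀ c ∈ C, z ∉ UU c) with hR
  have mR : ∀ z, z ∈ R ↔ z ∉ insert x M ∧ z ∉ B ∧ ∀ c ∈ C, z ∉ UU c := by
    intro z; rw [hR, mem_filter]; simp only [mem_univ, true_and]
  rcases R.eq_empty_or_nonempty with hRe | hRn
  · obtain ⟨y, hy1, hy2⟩ := hy
    refine ⟨y, hy1, hy2, Bb, h.big_aux hs hxM hxB hxU hy1 Bb (h.bb.trans (subset_insert _ _)) h.dB k1 ?_⟩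
    intro z z1 z2 z3
    have : z ∈ R := (mR z).mpr ⟨z1, fun hh => z2 (mem_insert_of_mem hh), z3⟩
    rw [hRe] at this
    simp at this
  · obtain ⟨y, hy, hES⟩ := es_reply (TT P) (fun q => YY q.2) (tw P (insert x Mb) Bb)
      (fun q _ => tw_nonneg _ _ _ _) R hRn
    obtain ⟨y1, y2, y3⟩ := (mR y).mp hy
    refine ⟨y, y1, y2, insert y Bb, h.big_aux hs hxM hxB hxU y1 _ (insert_subset_insert _ h.bb)
      ?_ ?_ ?_⟩
    · intro c hc
      rw [disjoint_insert_right]
      exact ⟨y3 c hc, h.dB c hc⟩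
    · refine le_trans (sum_le_sum ?_) k1
      intro q _
      rw [tw_insert_B]
      have := tw_nonneg P (insert x Mb) Bb q
      split_ifs <;> linarith
    · intro z z1 z2 z3
      have hz : z ∈ R := (mR z).mpr ⟨z1, fun hh => z2 (mem_insert_of_mem hh), z3⟩
      refine le_trans ?_ ((hES z hz).trans k1)
      simp only [tpot, tw_insert_B]
      exact le_rfl

theorem Inv.small [Fintype V] (h : Inv P M B Mb Bb C e) (hs : Settled P M B Mb C) {x : V}
    (hxM : x ∉ M) (hxB : x ∉ B) {c0 : Cluster V} (hc0 : c0 ∈ C) (hx0 : x ∈ UU c0)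
    (hy : ∃ y, y ∉ insert x M ∧ y ∉ B) :
    ∃ y, y ∉ insert x M ∧ y ∉ B ∧ ∃ e', Inv P (insert x M) (insert y B) Mb Bb C e' := by
  let e' : Trm V → ℕ := fun τ => if τ ∈ terms P (UU c0) ∧ x ∈ τ.1 then e τ + 1 else e τ
  have he1 : ∀ τ, e τ ≤ e' τ := by
    intro τ; simp only [e']; split_ifs <;> omega
  have he2 : ∀ τ ∈ terms P (UU c0), x ∈ τ.1 → e' τ = e τ + 1 := by
    intro τ h1 h2; simp only [e']; rw [if_pos ⟨h1, h2⟩]
  have he3 : ∀ τ, ¬ (τ ∈ terms P (UU c0) ∧ x ∈ τ.1) → e' τ = e τ := by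
    intro τ h1; simp only [e']; rw [if_neg h1]
  have huniq : ∀ c ∈ C, x ∈ UU c → c = c0 := by
    intro c hc hxc
    by_contra hne
    exact disjoint_left.mp (h.dU c hc c0 hc0 hne) hxc hx0
  have hx : x ∉ Mb := fun hh => hxM (h.mb hh)
  have hMs : insert x M \ Mb = insert x (M \ Mb) := insert_sdiff_of_notMem _ hx
  have hxMs : x ∉ M \ Mb := fun hh => hxM (mem_sdiff.mp hh).1
  have k1 : ∑ τ ∈ terms P (UU c0), cw B e' τ ≤ 2 * (terms P (UU c0)).card := by
    refine le_trans (le_of_eq ?_) (h.cp c0 hc0 x hxM hxB)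
    apply sum_congr rfl
    intro τ hτ
    by_cases h1 : x ∈ τ.1
    · simp only [cw, he2 τ hτ h1, if_pos h1, pow_succ]
      split_ifs <;> ring
    · simp only [cw, he3 τ (fun hh => h1 hh.2), if_neg h1, one_mul]
  set R := (univ : Finset V).filter (fun z => z ∉ insert x M ∧ z ∉ B) with hR
  have mR : ∀ z, z ∈ R ↔ z ∉ insert x M ∧ z ∉ B := by
    intro z; rw [hR, mem_filter]; simp only [mem_univ, true_and]
  have hRn : R.Nonempty := by
    obtain ⟨y, hy⟩ := hy
    exact ⟨y, (mR y).mpr hy⟩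
  obtain ⟨y, hy, hES⟩ := es_reply (terms P (UU c0)) (fun τ => τ.1) (cw B e')
    (fun τ _ => cw_nonneg _ _ _) R hRn
  obtain ⟨y1, y2⟩ := (mR y).mp hy
  refine ⟨y, y1, y2, e', ?_⟩
  refine
    { dMB := ?_, mb := h.mb.trans (subset_insert _ _), bb := h.bb.trans (subset_insert _ _),
      ms := ?_, dU := h.dU, dC := h.dC, conn := h.conn, size := h.size, dB := h.dB, e0 := ?_,
      e1 := ?_, cp := ?_, memb := ?_, conb := ?_, fr := ?_, ls := ?_,
      loss := ?_, tr := h.tr, kd := h.kd, t1 := h.t1, t2 := ?_ }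
  · rw [disjoint_insert_right, disjoint_insert_left]
    exact ⟨y1, hxB, h.dMB⟩
  · intro v hv
    rw [hMs] at hv
    rcases mem_insert.mp hv with rfl | hv
    · exact ⟨c0, hc0, hx0⟩
    · exact h.ms v hv
  · intro τ hτ
    by_cases h1 : τ ∈ terms P (UU c0) ∧ x ∈ τ.1
    · exact ⟨c0, hc0, h1.1⟩
    · rw [he3 τ h1] at hτ
      exact h.e0 τ hτ
  · intro τ ha
    by_cases h1 : τ ∈ terms P (UU c0) ∧ x ∈ τ.1
    · rw [he2 τ h1.1 h1.2]
      exact h.term_bound hc0 hxM hxB h1.1 (alive_of ha) h1.2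
    · rw [he3 τ h1]
      exact h.e1 τ (alive_of ha)
  · intro c hc z z1 z2
    by_cases hcc : c = c0
    · subst hcc
      have hz : z ∈ R := (mR z).mpr ⟨z1, fun hh => z2 (mem_insert_of_mem hh)⟩
      refine le_trans ?_ ((hES z hz).trans k1)
      simp only [cpot, cw_insert]
      exact le_rfl
    · refine (cpot_mono P _ _ _ _ _).trans (le_trans (le_of_eq ?_)
        (h.cp c hc z (fun hh => z1 (mem_insert_of_mem hh)) (fun hh => z2 (mem_insert_of_mem hh))))
      apply sum_congr rfl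
      intro τ hτ
      have : e' τ = e τ := he3 τ (fun hh => disjoint_left.mp (h.dU c hc c0 hc0 hcc)
        (mem_terms.mp hτ).2.1 (mem_terms.mp hh.1).2.1)
      simp only [cw, this]
  · intro c hc A hA ha
    obtain ⟨τ, k2, k3, k4⟩ := h.memb c hc A hA (alive_of ha)
    refine ⟨τ, k2, k3, ?_⟩
    by_cases hxA : x ∈ A
    · have := huniq c hc (sub_UU hA hxA)
      subst this
      rw [he2 τ k2 (by rw [k3]; exact hxA)]
      have := sdiff_insert_card A M x
      omega
    · rw [sdiff_insert_of_notMem hxA]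
      have := he1 τ
      omega
  · intro c hc A hA ha
    obtain ⟨τ, k2, k3, k4⟩ := h.conb c hc A hA (alive_of ha)
    refine ⟨τ, k2, k3, ?_⟩
    rw [hMs]
    by_cases hxA : x ∈ A
    · have : c = c0 := by
        by_contra hne
        exact disjoint_left.mp (h.dC c hc c0 hc0 hne A hA) hxA hx0
      subst this
      rw [he2 τ k2 (by rw [k3]; exact hxA)]
      have := inter_insert_card A (M \ Mb) x
      omega
    · rw [inter_insert_of_notMem hxA]
      have := he1 τ
      omega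
  · intro A hA ha hm
    have k2 := (hs A hA (alive_of ha) hm).1
    have k3 := sdiff_insert_card A M x
    omega
  · intro A hA ha hm hc
    have k2 := (hs A hA (alive_of ha) hm).2 hc
    rw [hMs]
    have := inter_insert_card A (M \ Mb) x
    omega
  · intro A hA ha hm c hc
    rw [hMs]
    have k0 := h.loss A hA (alive_of ha) hm c hc
    by_cases hxA : x ∈ A ∧ x ∈ UU c
    · have := huniq c hc hxA.2
      subst this
      have k2 : A ∩ insert x (M \ Mb) ∩ UU c = insert x (A ∩ (M \ Mb) ∩ UU c) := by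
        rw [inter_insert_of_mem hxA.1, insert_inter_of_mem hxA.2]
      have k3 : x ∉ A ∩ (M \ Mb) ∩ UU c := fun hh => hxMs (mem_inter.mp (mem_inter.mp hh).1).2
      right
      rw [k2, card_insert_of_notMem k3]
      by_cases hemp : A ∩ (M \ Mb) ∩ UU c = ∅
      · obtain ⟨A', k4, k5⟩ := mem_biUnion.mp hxA.2
        refine ⟨{(A', UU c)}, 0, ⟨?_, by simp⟩, by rw [hemp]; simp; omega, Or.inl rfl⟩
        intro p hp
        rw [mem_singleton.mp hp]
        exact ⟨h.tr c hc A' k4, by rintro rfl; exact hm c hc k4,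
          not_disjoint_iff.mpr ⟨x, k5, hxA.1⟩, Subset.rfl⟩
      · rcases k0 with k0 | ⟨K, ε, k4, k5, k6⟩
        · exact absurd k0 hemp
        refine ⟨K, ε + 1, k4, by omega, Or.inr ?_⟩
        rcases k6 with k6 | ⟨τ, k6, k7, k8⟩
        · obtain ⟨τ, k7, k8⟩ := exists_term P hA (W := insert x (A ∩ (M \ Mb) ∩ UU c)) (U := UU c)
            (insert_subset hxA.1 (inter_subset_left.trans inter_subset_left))
            (insert_subset hxA.2 inter_subset_right)
            (by
              rw [card_insert_of_notMem k3]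
              have := card_pos.mpr (nonempty_iff_ne_empty.mpr hemp)
              omega)
          refine ⟨τ, k7, k8, ?_⟩
          rw [he2 τ k7 (by rw [k8]; exact hxA.1)]
          omega
        · refine ⟨τ, k6, k7, ?_⟩
          rw [he2 τ k6 (by rw [k7]; exact hxA.1)]
          omega
    · have k2 : A ∩ insert x (M \ Mb) ∩ UU c = A ∩ (M \ Mb) ∩ UU c := by
        ext v
        simp only [mem_inter, mem_insert]
        constructor
        · rintro ⟨⟨a, rfl | b⟩, c⟩
          · exact absurd ⟨a, c⟩ hxA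
          · exact ⟨⟨a, b⟩, c⟩
        · rintro ⟨⟨a, b⟩, c⟩
          exact ⟨⟨a, Or.inr b⟩, c⟩
      unfold Loss
      rw [k2]
      rcases k0 with k0 | ⟨K, ε, k4, k5, k6⟩
      · exact Or.inl k0
      · refine Or.inr ⟨K, ε, k4, k5, ?_⟩
        rcases k6 with k6 | ⟨τ, k6, k7, k8⟩
        · exact Or.inl k6
        · exact Or.inr ⟨τ, k6, k7, k8.trans (he1 τ)⟩
  · intro z z1 z2 z3
    exact h.t2 z (fun hh => z1 (mem_insert_of_mem hh)) (fun hh => z2 (mem_insert_of_mem hh)) z3

theorem inv_init (P : Setup V) : Inv P ∅ ∅ ∅ ∅ ∅ (fun _ => 0) := by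
  have h0 : ∀ q, tw P ∅ ∅ q = (1/2 : ℝ) ^ cost P q.2 := by
    intro q; simp [tw]
  have h1 := sum_TT P
  have h2 : (0 : ℝ) ≤ (P.K + 1) * (P.F.card + 1) := by positivity
  refine
    { dMB := by simp, mb := by simp, bb := by simp, ms := by simp, dU := by simp, dC := by simp,
      conn := by simp, size := by simp, dB := by simp, e0 := by simp,
      e1 := fun _ _ => by have := P.r2; omega, cp := by simp, memb := by simp, conb := by simp,
      fr := ?_, ls := by simp, loss := by simp, tr := by simp, kd := by simp, t1 := ?_, t2 := ?_ }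
  · intro A hA _ _
    rw [sdiff_empty, P.unif A hA]
    have := P.p3; omega
  · simp only [h0, cc]; linarith
  · intro y _ _ _
    have : tpot P ∅ ∅ y ≤ ∑ q ∈ TT P, 2 * (1/2 : ℝ) ^ cost P q.2 := by
      apply sum_le_sum
      intro q _
      rw [h0]
      have : (0 : ℝ) ≤ (1/2 : ℝ) ^ cost P q.2 := by positivity
      split_ifs <;> linarith
    rw [← mul_sum] at this
    simp only [cc]; linarith

theorem Setup.strong_draw [Fintype V] [Nonempty V] (P : Setup V) :
    ∃ τ : List V → V, ∀ m : ℕ → V,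
      (∀ k < Fintype.card V, Odd k → m k = τ (List.ofFn (fun i : Fin k => m i.val))) →
      (∀ k < Fintype.card V, Even k → ∀ i < k, m i ≠ m k) →
      (∀ k < Fintype.card V, Odd k → ∀ i < k, m i ≠ m k) ∧
      ∀ A ∈ P.F, ∃ k < Fintype.card V, Odd k ∧ m k ∈ A := by
  apply strat_of_inv P.F (fun M B => ∃ Mb Bb C e, Inv P M B Mb Bb C e ∧ Settled P M B Mb C)
  · obtain ⟨C, h1, h2⟩ := (inv_init P).settle
    exact ⟨_, _, C, _, h1, h2⟩
  · intro A hA
    rw [← card_pos, P.unif A hA]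
    have := P.n3; omega
  · rintro M B x ⟨Mb, Bb, C, e, h, hs⟩ hxM hxB
    refine ⟨h.safe hxM hxB, fun hy => ?_⟩
    by_cases hxU : ∀ c ∈ C, x ∉ UU c
    · obtain ⟨y, y1, y2, Bb', h'⟩ := h.big hs hxM hxB hxU hy
      obtain ⟨C', h1, h2⟩ := h'.settle
      exact ⟨y, y1, y2, _, _, C', _, h1, h2⟩
    · push Not at hxU
      obtain ⟨c, hc, hxc⟩ := hxU
      obtain ⟨y, y1, y2, e', h'⟩ := h.small hs hxM hxB hc hxc hy
      obtain ⟨C', h1, h2⟩ := h'.settle
      exact ⟨y, y1, y2, _, _, C', _, h1, h2⟩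

end Pool.Agent.Lib.MP_614955_co
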