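import Mathlib

set_option autoImplicit false

namespace Pool.Agent.Lib.MP_614955_co

open Finset

/-- Pairing position (first player to move): `π` pairs up the points of `D`, the first player owns
no point of `D`, the second player at most one, and any extension of `M` meeting all pairs wins. -/
def PairInv {V : Type*} (F : Finset (Finset V)) (M B : Finset V) : Prop :=
  ∃ (D : Finset V) (π : V → V), (∀ x ∈ D, π x ∈ D ∧ π (π x) = x ∧ π x ≠ x ∧ x ∉ M) ∧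
    (∀ x ∈ D, ∀ y ∈ D, x ∈ B → y ∈ B → x = y) ∧
    ∀ M' : Finset V, M ⊆ M' → (∀ x ∈ D, x ∈ M' ∨ π x ∈ M') → ∃ A ∈ F, A ⊆ M'

theorem pair_step {V : Type*} [DecidableEq V] (F : Finset (Finset V)) (M B : Finset V)
    (h : PairInv F M B) :
    (∃ A ∈ F, A ⊆ M) ∨ ∃ x, x ∉ M ∧ x ∉ B ∧
      ((∃ A ∈ F, A ⊆ insert x M) ∨ ((∃ y, y ∉ insert x M ∧ y ∉ B) ∧
        ∀ y, y ∉ insert x M → y ∉ B → PairInv F (insert x M) (insert y B))) := by
  obtain ⟨D, π, h1, h2, h3⟩ := h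
  rcases D.eq_empty_or_nonempty with rfl | hD
  · exact Or.inl (h3 M subset_rfl (by simp))
  right
  have hx : ∃ x ∈ D, x ∉ B ∧ ∀ z ∈ D, z ≠ x → z ≠ π x → z ∉ B := by
    by_cases hb : ∃ y ∈ D, y ∈ B
    · obtain ⟨y, hy, hyB⟩ := hb
      refine ⟨π y, (h1 y hy).1, fun hc => (h1 y hy).2.2.1 (h2 _ (h1 y hy).1 _ hy hc hyB), ?_⟩
      intro z hz _ hz2 hzB
      rw [(h1 y hy).2.1] at hz2
      exact hz2 (h2 _ hz _ hy hzB hyB)
    · push Not at hb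
      obtain ⟨x, hx⟩ := hD
      exact ⟨x, hx, hb x hx, fun z hz _ _ => hb z hz⟩
  obtain ⟨x, hxD, hxB, hx⟩ := hx
  refine ⟨x, (h1 x hxD).2.2.2, hxB, ?_⟩
  set D' := (D.erase x).erase (π x) with hD'
  have hm : ∀ z, z ∈ D' ↔ z ≠ π x ∧ z ≠ x ∧ z ∈ D := by
    intro z; simp [hD']
  have g1 : ∀ z ∈ D', π z ∈ D' ∧ π (π z) = z ∧ π z ≠ z ∧ z ∉ insert x M := by
    intro z hz
    obtain ⟨a, b, c⟩ := (hm z).1 hz
    refine ⟨(hm _).2 ⟨fun e => b ?_, fun e => a ?_, (h1 z c).1⟩, (h1 z c).2.1, (h1 z c).2.2.1, ?_⟩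
    · rw [← (h1 z c).2.1, e, (h1 x hxD).2.1]
    · rw [← e, (h1 z c).2.1]
    · rw [mem_insert]; rintro (e | e)
      · exact b e
      · exact (h1 z c).2.2.2 e
  have g2 : ∀ z ∈ D', z ∉ B := fun z hz =>
    hx z ((hm z).1 hz).2.2 ((hm z).1 hz).2.1 ((hm z).1 hz).1
  have g3 : ∀ M' : Finset V, insert x M ⊆ M' → (∀ z ∈ D', z ∈ M' ∨ π z ∈ M') →
      ∃ A ∈ F, A ⊆ M' := by
    intro M' hM' hz
    refine h3 M' ((subset_insert _ _).trans hM') fun z hzD => ?_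
    have hxM : x ∈ M' := hM' (mem_insert_self _ _)
    by_cases a : z = π x
    · right; rw [a, (h1 x hxD).2.1]; exact hxM
    by_cases b : z = x
    · left; rw [b]; exact hxM
    exact hz z ((hm z).2 ⟨a, b, hzD⟩)
  rcases D'.eq_empty_or_nonempty with e | ⟨z, hz⟩
  · left
    exact g3 _ subset_rfl (by rw [e]; simp)
  right
  refine ⟨⟨z, (g1 z hz).2.2.2, g2 z hz⟩, fun y _ _ => ⟨D', π, g1, ?_, g3⟩⟩
  intro a ha b hb haB hbB
  rcases mem_insert.1 haB with e1 | e1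
  · rcases mem_insert.1 hbB with e2 | e2
    · rw [e1, e2]
    · exact absurd e2 (g2 b hb)
  · exact absurd e1 (g2 a ha)

end Pool.Agent.Lib.MP_614955_co
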