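import Mathlib

set_option autoImplicit false

namespace Pool.Agent.Lib.MP_614955_co.Sparse

open Finset

variable {ι : Type*} [DecidableEq ι]

/-- Every element of `X` is reached from `Q` by a path inside `X`. -/
def Conn (adj : ι → ι → Prop) (Q X : Finset ι) : Prop :=
  ∀ b ∈ X, ∃ q ∈ Q, Relation.TransGen (fun u v => v ∈ X ∧ adj u v) q b

omit [DecidableEq ι] in
theorem transGen_mem {adj : ι → ι → Prop} {X : Finset ι} {q b : ι}
    (h : Relation.TransGen (fun u v => v ∈ X ∧ adj u v) q b) : b ∈ X := by
  cases h with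
  | single h => exact h.1
  | tail _ h => exact h.1

theorem Conn.step {adj : ι → ι → Prop} {Q X N W : Finset ι} {q : ι} (h : Conn adj Q X)
    (hX : X ⊆ W) (hN : ∀ b ∈ W, adj q b → b ∈ N) :
    Conn adj (Q.erase q ∪ (X ∩ N)) (X \ N) := by
  have key : ∀ q0 ∈ Q, ∀ b, Relation.TransGen (fun u v => v ∈ X ∧ adj u v) q0 b →
      b ∈ N ∨ ∃ q' ∈ Q.erase q ∪ (X ∩ N),
        Relation.TransGen (fun u v => v ∈ X \ N ∧ adj u v) q' b := by
    intro q0 hq0 b hb
    induction hb with
    | single hb =>
      rename_i b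
      by_cases hbN : b ∈ N
      · exact Or.inl hbN
      · refine Or.inr ⟨q0, mem_union_left _ (mem_erase.mpr ⟨?_, hq0⟩),
          Relation.TransGen.single ⟨mem_sdiff.mpr ⟨hb.1, hbN⟩, hb.2⟩⟩
        rintro rfl
        exact hbN (hN b (hX hb.1) hb.2)
    | tail hc hb ih =>
      rename_i c b
      by_cases hbN : b ∈ N
      · exact Or.inl hbN
      · right
        rcases ih with ih | ⟨q', hq', ih⟩
        · exact ⟨c, mem_union_right _ (mem_inter.mpr ⟨transGen_mem hc, ih⟩),
            Relation.TransGen.single ⟨mem_sdiff.mpr ⟨hb.1, hbN⟩, hb.2⟩⟩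
        · exact ⟨q', hq', ih.tail ⟨mem_sdiff.mpr ⟨hb.1, hbN⟩, hb.2⟩⟩
  intro b hb
  obtain ⟨hbX, hbN⟩ := mem_sdiff.mp hb
  obtain ⟨q0, hq0, hp⟩ := h b hbX
  rcases key q0 hq0 b hp with h1 | h1
  · exact absurd h1 hbN
  · exact h1

theorem pow_bound (D : ℕ) (z : ℝ) (hz : 0 ≤ z) (hD : 4 * D * z ≤ 1) (m : ℕ) (hm : m ≤ D) :
    (1 + 2 * z) ^ m ≤ 2 := by
  have h1 : (1 + 2 * z) ^ m ≤ Real.exp (2 * z) ^ m :=
    pow_le_pow_left₀ (by linarith) (by linarith [Real.add_one_le_exp (2 * z)]) m
  have h2 : Real.exp (2 * z) ^ m = Real.exp (m * (2 * z)) := by rw [Real.exp_nat_mul]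
  have h3 : (m : ℝ) * (2 * z) ≤ 1 / 2 := by
    have : (m : ℝ) ≤ D := by exact_mod_cast hm
    nlinarith
  have h4 : Real.exp (m * (2 * z)) ≤ Real.exp (1 / 2) := Real.exp_le_exp.mpr h3
  have h5 : Real.exp (1 / 2) ≤ 2 := by
    have h6 : Real.exp (1 / 2) * Real.exp (1 / 2) = Real.exp 1 := by
      rw [← Real.exp_add]; norm_num
    have h7 := Real.exp_one_lt_d9
    have h8 := Real.exp_pos (1 / 2)
    nlinarith
  linarith

open Classical in
/-- Weighted count of connected sets. -/
theorem conn_sum (adj : ι → ι → Prop) (F : Finset ι) (D : ℕ) (z : ℝ) (hz : 0 ≤ z)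
    (hD : 4 * D * z ≤ 1) (hdeg : ∀ q ∈ F, (F.filter (adj q)).card ≤ D) :
    ∀ (m : ℕ) (Q W : Finset ι), Q ⊆ F → W ⊆ F → W.card + Q.card ≤ m →
      ∑ X ∈ W.powerset.filter (Conn adj Q), z ^ X.card ≤ 2 ^ Q.card := by
  intro m
  induction m with
  | zero =>
    intro Q W _ _ hm
    have hW : W = ∅ := card_eq_zero.mp (by omega)
    subst hW
    calc _ ≤ ∑ X ∈ (∅ : Finset ι).powerset, z ^ X.card :=
          sum_le_sum_of_subset_of_nonneg (filter_subset _ _) (fun _ _ _ => by positivity)
      _ = 1 := by simp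
      _ ≤ _ := one_le_pow₀ (by norm_num)
  | succ m ih =>
    intro Q W hQ hW hm
    rcases Q.eq_empty_or_nonempty with rfl | ⟨q, hq⟩
    · have : W.powerset.filter (Conn adj ∅) ⊆ {∅} := by
        intro X hX
        have h2 := (mem_filter.mp hX).2
        rw [mem_singleton, ← not_nonempty_iff_eq_empty]
        rintro ⟨b, hb⟩
        obtain ⟨q, hq, -⟩ := h2 b hb
        simp at hq
      calc _ ≤ ∑ X ∈ ({∅} : Finset (Finset ι)), z ^ X.card :=
            sum_le_sum_of_subset_of_nonneg this (fun _ _ _ => by positivity)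
        _ = 1 := by simp
        _ ≤ _ := by simp
    · set N := W.filter (adj q) with hNdef
      have hNW : N ⊆ W := filter_subset _ _
      have hND : N.card ≤ D :=
        (card_le_card (filter_subset_filter _ hW)).trans (hdeg q (hQ hq))
      have hQc : (Q.erase q).card + 1 = Q.card := card_erase_add_one hq
      rw [← sum_fiberwise_of_maps_to (t := N.powerset) (g := fun X => X ∩ N)
        (fun X _ => mem_powerset.mpr inter_subset_right)]
      have fib : ∀ T ∈ N.powerset,
          ∑ X ∈ (W.powerset.filter (Conn adj Q)).filter (fun X => X ∩ N = T), z ^ X.card ≤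
            (2 * z) ^ T.card * 2 ^ (Q.erase q).card := by
        intro T hT
        have hTN : T ⊆ N := mem_powerset.mp hT
        have h1 := ih (Q.erase q ∪ T) (W \ N)
          (union_subset ((erase_subset _ _).trans hQ) (hTN.trans (hNW.trans hW)))
          (sdiff_subset.trans hW) (by
            have a1 := card_union_le (Q.erase q) T
            have a2 := card_sdiff_add_card_eq_card hNW
            have a3 := card_le_card hTN
            omega)
        have h2 : (2 : ℝ) ^ (Q.erase q ∪ T).card ≤ 2 ^ T.card * 2 ^ (Q.erase q).card := by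
          rw [← pow_add]
          exact pow_le_pow_right₀ (by norm_num) (by have := card_union_le (Q.erase q) T; omega)
        set S := (W.powerset.filter (Conn adj Q)).filter (fun X => X ∩ N = T) with hS
        have h3 : ∑ X ∈ S, z ^ X.card = z ^ T.card * ∑ X ∈ S, z ^ (X \ N).card := by
          rw [mul_sum]
          apply sum_congr rfl
          intro X hX
          have := (mem_filter.mp hX).2
          rw [← pow_add, ← this, card_inter_add_card_sdiff]
        have hinj : Set.InjOn (fun X => X \ N) (S : Set (Finset ι)) := by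
          intro X hX Y hY hXY
          have e1 := (mem_filter.mp (mem_coe.mp hX)).2
          have e2 := (mem_filter.mp (mem_coe.mp hY)).2
          simp only at hXY
          rw [← sdiff_union_inter X N, ← sdiff_union_inter Y N, e1, e2, hXY]
        have h4 : ∑ X ∈ S, z ^ (X \ N).card =
            ∑ Y ∈ S.image (fun X => X \ N), z ^ Y.card := by
          rw [sum_image hinj]
        have h5 : S.image (fun X => X \ N) ⊆
            (W \ N).powerset.filter (Conn adj (Q.erase q ∪ T)) := by
          intro Y hY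
          obtain ⟨X, hX, rfl⟩ := mem_image.mp hY
          obtain ⟨hX1, hX2⟩ := mem_filter.mp hX
          obtain ⟨hX3, hX4⟩ := mem_filter.mp hX1
          have hXW := mem_powerset.mp hX3
          refine mem_filter.mpr ⟨mem_powerset.mpr (sdiff_subset_sdiff hXW Subset.rfl), ?_⟩
          rw [← hX2]
          exact hX4.step hXW (fun b hb hab => mem_filter.mpr ⟨hb, hab⟩)
        have h6 : ∑ Y ∈ S.image (fun X => X \ N), z ^ Y.card ≤
            ∑ Y ∈ (W \ N).powerset.filter (Conn adj (Q.erase q ∪ T)), z ^ Y.card :=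
          sum_le_sum_of_subset_of_nonneg h5 (fun _ _ _ => by positivity)
        rw [h3, h4, mul_pow]
        have h7 : 0 ≤ z ^ T.card := by positivity
        calc z ^ T.card * ∑ Y ∈ S.image (fun X => X \ N), z ^ Y.card
            ≤ z ^ T.card * (2 ^ T.card * 2 ^ (Q.erase q).card) :=
              mul_le_mul_of_nonneg_left (h6.trans (h1.trans h2)) h7
          _ = _ := by ring
      refine (sum_le_sum fib).trans ?_
      rw [← sum_mul]
      have h8 : ∑ T ∈ N.powerset, (2 * z) ^ T.card = (1 + 2 * z) ^ N.card := by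
        have := Finset.prod_one_add (s := N) (f := fun _ => 2 * z)
        simp only [prod_const] at this
        exact this.symm
      rw [h8, ← hQc, pow_succ, mul_comm]
      exact mul_le_mul_of_nonneg_left (pow_bound D z hz hD _ hND) (by positivity)

end Pool.Agent.Lib.MP_614955_co.Sparse
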