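import Mathlib
import Pool.Agent.Lib.MP_614955_co.SparseCount

set_option autoImplicit false

namespace Pool.Agent.Lib.MP_614955_co.Sparse

open Finset

variable {V : Type*} [DecidableEq V]

/-- Two sets meet. -/
def Meets (A B : Finset V) : Prop := ¬ Disjoint A B

/-- A family whose intersection graph is connected. -/
def Linked (G : Finset (Finset V)) : Prop := ∀ A ∈ G, Conn Meets {A} G

/-- The data of the theorem. -/
structure Setup (V : Type*) [DecidableEq V] where
  F : Finset (Finset V)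
  n : ℕ
  a : ℕ
  k : ℕ
  unif : ∀ A ∈ F, A.card = n
  expa : ∀ G ⊆ F, G.card ≤ 2 * k → n * G.card ≤ (G.biUnion id).card + a * G.card
  big : 2 * a + 2 ≤ n

open Classical in
/-- Witness families. -/
noncomputable def wits (P : Setup V) : Finset (Finset (Finset V)) :=
  P.F.powerset.filter (fun G => Linked G ∧ P.k + 1 ≤ G.card)

/-- Weight of a witness family. -/
noncomputable def wt (P : Setup V) (Mb Bb : Finset V) (G : Finset (Finset V)) : ℝ :=
  if Disjoint (G.biUnion id) Bb then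
    (1 / 2 : ℝ) ^ ((P.n - (2 * P.a + 2)) * (G.card - 1)) * 2 ^ (G.biUnion id ∩ Mb).card else 0

/-- The potential. -/
noncomputable def pot (P : Setup V) (Mb Bb : Finset V) : ℝ := ∑ G ∈ wits P, wt P Mb Bb G

theorem wt_nonneg (P : Setup V) (Mb Bb : Finset V) (G : Finset (Finset V)) :
    0 ≤ wt P Mb Bb G := by
  unfold wt; split_ifs <;> positivity

theorem wt_insert_M (P : Setup V) (Mb Bb : Finset V) (G : Finset (Finset V)) (x : V) :
    wt P (insert x Mb) Bb G ≤ (if x ∈ G.biUnion id then 2 else 1) * wt P Mb Bb G := by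
  unfold wt
  by_cases hd : Disjoint (G.biUnion id) Bb
  · rw [if_pos hd, if_pos hd]
    by_cases hx : x ∈ G.biUnion id
    · rw [if_pos hx]
      have h1 : (G.biUnion id ∩ insert x Mb).card ≤ (G.biUnion id ∩ Mb).card + 1 := by
        rw [inter_insert_of_mem hx]; exact card_insert_le _ _
      have h2 : (2 : ℝ) ^ (G.biUnion id ∩ insert x Mb).card ≤ 2 ^ ((G.biUnion id ∩ Mb).card + 1) :=
        pow_le_pow_right₀ (by norm_num) h1
      rw [pow_succ] at h2
      have h3 : (0 : ℝ) ≤ (1 / 2 : ℝ) ^ ((P.n - (2 * P.a + 2)) * (G.card - 1)) := by positivity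
      nlinarith
    · rw [if_neg hx, inter_insert_of_notMem hx, one_mul]
  · rw [if_neg hd, if_neg hd]; simp

theorem wt_insert_B (P : Setup V) (Mb Bb : Finset V) (G : Finset (Finset V)) (y : V) :
    wt P Mb (insert y Bb) G = if y ∈ G.biUnion id then 0 else wt P Mb Bb G := by
  unfold wt
  by_cases hy : y ∈ G.biUnion id
  · rw [if_pos hy, if_neg]
    rw [disjoint_insert_right]; tauto
  · rw [if_neg hy]
    simp only [disjoint_insert_right, hy, not_false_eq_true, true_and]

theorem pot_insert_B (P : Setup V) (Mb Bb : Finset V) (y : V) :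
    pot P Mb (insert y Bb) ≤ pot P Mb Bb := by
  apply sum_le_sum
  intro G _
  rw [wt_insert_B]
  split_ifs
  · exact wt_nonneg _ _ _ _
  · exact le_rfl

/-- The settled sets. -/
def SS (C : Finset (Finset (Finset V))) : Finset (Finset V) := C.biUnion id

/-- The small board. -/
def UU (C : Finset (Finset (Finset V))) : Finset V := (SS C).biUnion id

theorem mem_SS {C : Finset (Finset (Finset V))} {A : Finset V} : A ∈ SS C ↔ ∃ c ∈ C, A ∈ c := by
  simp [SS]

theorem mem_UU {C : Finset (Finset (Finset V))} {x : V} : x ∈ UU C ↔ ∃ A ∈ SS C, x ∈ A := by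
  simp [UU]

theorem UU_mono {C C' : Finset (Finset (Finset V))} (h : SS C ⊆ SS C') : UU C ⊆ UU C' :=
  biUnion_subset_biUnion_of_subset_left _ h

/-- A system of clusters. -/
structure Good (P : Setup V) (Mb Bb : Finset V) (C : Finset (Finset (Finset V))) : Prop where
  sub : ∀ c ∈ C, c ⊆ P.F
  link : ∀ c ∈ C, Linked c
  size : ∀ c ∈ C, c.card ≤ P.k
  acc : ∀ c ∈ C, (c.biUnion id \ Mb).card ≤ (P.a + 2) * c.card
  disj : ∀ c ∈ C, ∀ c' ∈ C, c ≠ c' → Disjoint (c.biUnion id) (c'.biUnion id)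
  hB : ∀ c ∈ C, Disjoint (c.biUnion id) Bb

theorem Setup.ne (P : Setup V) {A : Finset V} (hA : A ∈ P.F) : A.Nonempty := by
  rw [← card_pos, P.unif A hA]; have := P.big; omega

theorem linked_merge {A : Finset V} (hA : A.Nonempty) (D : Finset (Finset (Finset V)))
    (hl : ∀ c ∈ D, Linked c) (hm : ∀ c ∈ D, ¬ Disjoint A (c.biUnion id)) :
    Linked (insert A (D.biUnion id)) := by
  set X := insert A (D.biUnion id) with hX
  have hsub : ∀ c ∈ D, c ⊆ X := fun c hc B hB =>
    mem_insert_of_mem (mem_biUnion.mpr ⟨c, hc, hB⟩)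
  have hmono : ∀ c ∈ D, ∀ u v, Relation.TransGen (fun u v => v ∈ c ∧ Meets u v) u v →
      Relation.TransGen (fun u v => v ∈ X ∧ Meets u v) u v := fun c hc u v h =>
    Relation.TransGen.mono (fun _ _ h => ⟨hsub c hc h.1, h.2⟩) u v h
  have hpath : ∀ c ∈ D, ∀ u ∈ c, ∀ v ∈ c,
      Relation.TransGen (fun u v => v ∈ X ∧ Meets u v) u v := by
    intro c hc u hu v hv
    obtain ⟨q, hq, h⟩ := hl c hc u hu v hv
    rw [mem_singleton] at hq
    subst hq
    exact hmono c hc _ _ h
  have hmeet : ∀ c ∈ D, ∃ A1 ∈ c, Meets A A1 ∧ Meets A1 A := by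
    intro c hc
    obtain ⟨x, hx1, hx2⟩ := not_disjoint_iff.mp (hm c hc)
    obtain ⟨A1, h1, h2⟩ := mem_biUnion.mp hx2
    exact ⟨A1, h1, not_disjoint_iff.mpr ⟨x, hx1, h2⟩, not_disjoint_iff.mpr ⟨x, h2, hx1⟩⟩
  have hAX : A ∈ X := mem_insert_self _ _
  have hAA : Relation.TransGen (fun u v => v ∈ X ∧ Meets u v) A A := by
    obtain ⟨x, hx⟩ := hA
    exact Relation.TransGen.single ⟨hAX, not_disjoint_iff.mpr ⟨x, hx, hx⟩⟩
  have hfrom : ∀ v ∈ X, Relation.TransGen (fun u v => v ∈ X ∧ Meets u v) A v := by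
    intro v hv
    rcases mem_insert.mp hv with rfl | hv
    · exact hAA
    · obtain ⟨c, hc, hv⟩ := mem_biUnion.mp hv
      obtain ⟨A1, h1, h2, -⟩ := hmeet c hc
      exact (Relation.TransGen.single ⟨hsub c hc h1, h2⟩).trans (hpath c hc A1 h1 v hv)
  have hto : ∀ u ∈ X, Relation.TransGen (fun u v => v ∈ X ∧ Meets u v) u A := by
    intro u hu
    rcases mem_insert.mp hu with rfl | hu
    · exact hAA
    · obtain ⟨c, hc, hu⟩ := mem_biUnion.mp hu
      obtain ⟨A1, h1, -, h2⟩ := hmeet c hc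
      exact (hpath c hc u hu A1 h1).tail ⟨hAX, h2⟩
  intro u hu v hv
  exact ⟨u, mem_singleton_self u, (hto u hu).trans (hfrom v hv)⟩

theorem exists_window {α : Type*} [DecidableEq α] (f : α → ℕ) (k : ℕ) (D : Finset α)
    (hf : ∀ c ∈ D, f c ≤ k) (hD : k ≤ ∑ c ∈ D, f c) :
    ∃ D' ⊆ D, k ≤ ∑ c ∈ D', f c ∧ ∑ c ∈ D', f c ≤ 2 * k := by
  induction D using Finset.induction_on with
  | empty => exact ⟨∅, Subset.rfl, hD, by simp⟩
  | insert c D hc ih =>
    by_cases h : k ≤ ∑ c ∈ D, f c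
    · obtain ⟨D', h1, h2⟩ := ih (fun c hc => hf c (mem_insert_of_mem hc)) h
      exact ⟨D', h1.trans (subset_insert _ _), h2⟩
    · refine ⟨insert c D, Subset.rfl, hD, ?_⟩
      rw [sum_insert hc]
      have := hf c (mem_insert_self _ _)
      omega

variable {P : Setup V} {Mb Bb : Finset V} {C : Finset (Finset (Finset V))}

theorem Good.card_sub (h : Good P Mb Bb C) {D : Finset (Finset (Finset V))} (hD : D ⊆ C) :
    (D.biUnion id).card = ∑ c ∈ D, c.card := by
  apply card_biUnion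
  intro c hc c' hc' hne
  have hd := h.disj c (hD hc) c' (hD hc') hne
  simp only [Function.onFun, id]
  rw [disjoint_left]
  intro A h1 h2
  obtain ⟨x, hx⟩ := P.ne (h.sub c (hD hc) h1)
  exact disjoint_left.mp hd (mem_biUnion.mpr ⟨A, h1, hx⟩) (mem_biUnion.mpr ⟨A, h2, hx⟩)

theorem Good.acc_sub (h : Good P Mb Bb C) {D : Finset (Finset (Finset V))} (hD : D ⊆ C) :
    ((D.biUnion id).biUnion id \ Mb).card ≤ (P.a + 2) * (D.biUnion id).card := by
  have h1 : (D.biUnion id).biUnion id \ Mb ⊆ D.biUnion (fun c => c.biUnion id \ Mb) := by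
    intro x hx
    obtain ⟨hx1, hx2⟩ := mem_sdiff.mp hx
    obtain ⟨A, hA, hxA⟩ := mem_biUnion.mp hx1
    obtain ⟨c, hc, hAc⟩ := mem_biUnion.mp hA
    exact mem_biUnion.mpr ⟨c, hc, mem_sdiff.mpr ⟨mem_biUnion.mpr ⟨A, hAc, hxA⟩, hx2⟩⟩
  rw [h.card_sub hD, mul_sum]
  exact (card_le_card h1).trans (card_biUnion_le.trans
    (sum_le_sum (fun c hc => h.acc c (hD hc))))

theorem Good.sub_F (h : Good P Mb Bb C) {D : Finset (Finset (Finset V))} (hD : D ⊆ C) :
    D.biUnion id ⊆ P.F := biUnion_subset.mpr (fun c hc => h.sub c (hD hc))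

theorem Good.disj_B (h : Good P Mb Bb C) {D : Finset (Finset (Finset V))} (hD : D ⊆ C)
    {A : Finset V} (hA : Disjoint A Bb) :
    Disjoint ((insert A (D.biUnion id)).biUnion id) Bb := by
  rw [disjoint_left]
  intro x hx hxB
  obtain ⟨A', hA', hxA⟩ := mem_biUnion.mp hx
  rcases mem_insert.mp hA' with rfl | hA'
  · exact disjoint_left.mp hA hxA hxB
  · obtain ⟨c, hc, hAc⟩ := mem_biUnion.mp hA'
    exact disjoint_left.mp (h.hB c (hD hc)) (mem_biUnion.mpr ⟨A', hAc, hxA⟩) hxB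

theorem Good.small (h : Good P Mb Bb C) (hp : pot P Mb Bb < 1) {A : Finset V} (hA : A ∈ P.F)
    (hAS : A ∉ SS C) (hAB : Disjoint A Bb) {D : Finset (Finset (Finset V))} (hD : D ⊆ C)
    (hm : ∀ c ∈ D, ¬ Disjoint A (c.biUnion id)) : ∑ c ∈ D, c.card < P.k := by
  classical
  by_contra hcon
  obtain ⟨D', hD', h1, h2⟩ := exists_window card P.k D (fun c hc => h.size c (hD hc))
    (not_lt.mp hcon)
  have hD'C := hD'.trans hD
  set G' := D'.biUnion id with hG'
  have hc : G'.card = ∑ c ∈ D', c.card := h.card_sub hD'C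
  have hAG : A ∉ G' := by
    intro hh
    obtain ⟨c, hc, hAc⟩ := mem_biUnion.mp hh
    exact hAS (mem_SS.mpr ⟨c, hD'C hc, hAc⟩)
  have hcard : (insert A G').card = G'.card + 1 := card_insert_of_notMem hAG
  have hw : insert A G' ∈ wits P := by
    unfold wits
    refine mem_filter.mpr ⟨mem_powerset.mpr (insert_subset hA (h.sub_F hD'C)), ?_, by omega⟩
    exact linked_merge (P.ne hA) D' (fun c hc => h.link c (hD'C hc)) (fun c hc => hm c (hD' hc))
  have e1 := P.expa G' (h.sub_F hD'C) (by omega)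
  have e2 := h.acc_sub hD'C
  rw [← hG'] at e2
  have e3 := card_sdiff_add_card_inter (G'.biUnion id) Mb
  have e4 : (G'.biUnion id ∩ Mb).card ≤ ((insert A G').biUnion id ∩ Mb).card :=
    card_le_card (inter_subset_inter
      (biUnion_subset_biUnion_of_subset_left _ (subset_insert _ _)) Subset.rfl)
  have e5 : (P.n - (2 * P.a + 2)) * ((insert A G').card - 1) ≤
      ((insert A G').biUnion id ∩ Mb).card := by
    rw [hcard, Nat.add_sub_cancel]
    obtain ⟨e, he⟩ := Nat.exists_eq_add_of_le P.big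
    have : P.n - (2 * P.a + 2) = e := by omega
    rw [this]
    rw [he] at e1
    nlinarith
  have e6 : 1 ≤ wt P Mb Bb (insert A G') := by
    unfold wt
    rw [if_pos (h.disj_B hD'C hAB), one_div, inv_pow, ← div_eq_inv_mul, le_div_iff₀ (by positivity),
      one_mul]
    exact pow_le_pow_right₀ (by norm_num) e5
  have e7 : wt P Mb Bb (insert A G') ≤ pot P Mb Bb :=
    single_le_sum (f := wt P Mb Bb) (fun G _ => wt_nonneg _ _ _ _) hw
  linarith

theorem Good.extend (h : Good P Mb Bb C) (hp : pot P Mb Bb < 1) {A : Finset V} (hA : A ∈ P.F)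
    (hAS : A ∉ SS C) (hAB : Disjoint A Bb) (hr : (A \ (Mb ∪ UU C)).card ≤ P.a + 2) :
    ∃ C', Good P Mb Bb C' ∧ SS C' = insert A (SS C) := by
  classical
  set D := C.filter (fun c => ¬ Disjoint A (c.biUnion id)) with hDdef
  have hD : D ⊆ C := filter_subset _ _
  have hm : ∀ c ∈ D, ¬ Disjoint A (c.biUnion id) := fun c hc => (mem_filter.mp hc).2
  have hs := h.small hp hA hAS hAB hD hm
  set G := D.biUnion id with hG
  have hc : G.card = ∑ c ∈ D, c.card := h.card_sub hD
  have hAG : A ∉ G := by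
    intro hh
    obtain ⟨c, hc, hAc⟩ := mem_biUnion.mp hh
    exact hAS (mem_SS.mpr ⟨c, hD hc, hAc⟩)
  have hcard : (insert A G).card = G.card + 1 := card_insert_of_notMem hAG
  have hdis : ∀ c ∈ C \ D, Disjoint ((insert A G).biUnion id) (c.biUnion id) := by
    intro c hc
    obtain ⟨hc1, hc2⟩ := mem_sdiff.mp hc
    rw [disjoint_left]
    intro x hx hxc
    obtain ⟨A', hA', hxA⟩ := mem_biUnion.mp hx
    rcases mem_insert.mp hA' with rfl | hA'
    · exact hc2 (mem_filter.mpr ⟨hc1, not_disjoint_iff.mpr ⟨x, hxA, hxc⟩⟩)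
    · obtain ⟨c', hc', hAc⟩ := mem_biUnion.mp hA'
      have hne : c' ≠ c := by rintro rfl; exact hc2 hc'
      exact disjoint_left.mp (h.disj c' (hD hc') c hc1 hne) (mem_biUnion.mpr ⟨A', hAc, hxA⟩) hxc
  refine ⟨insert (insert A G) (C \ D), ⟨?_, ?_, ?_, ?_, ?_, ?_⟩, ?_⟩
  · intro c hc
    rcases mem_insert.mp hc with rfl | hc
    · exact insert_subset hA (h.sub_F hD)
    · exact h.sub c (mem_sdiff.mp hc).1
  · intro c hc
    rcases mem_insert.mp hc with rfl | hc
    · exact linked_merge (P.ne hA) D (fun c hc => h.link c (hD hc)) hm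
    · exact h.link c (mem_sdiff.mp hc).1
  · intro c hc
    rcases mem_insert.mp hc with rfl | hc
    · omega
    · exact h.size c (mem_sdiff.mp hc).1
  · intro c hc
    rcases mem_insert.mp hc with rfl | hc
    · have e2 := h.acc_sub hD
      rw [← hG] at e2
      have e3 : (insert A G).biUnion id \ Mb ⊆ (A \ (Mb ∪ UU C)) ∪ (G.biUnion id \ Mb) := by
        intro x hx
        obtain ⟨hx1, hx2⟩ := mem_sdiff.mp hx
        obtain ⟨A', hA', hxA⟩ := mem_biUnion.mp hx1
        rcases mem_insert.mp hA' with rfl | hA'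
        · by_cases hxU : x ∈ UU C
          · obtain ⟨A1, hA1, hx1⟩ := mem_UU.mp hxU
            obtain ⟨c, hc, hA1c⟩ := mem_SS.mp hA1
            have hcD : c ∈ D := mem_filter.mpr ⟨hc, not_disjoint_iff.mpr
              ⟨x, hxA, mem_biUnion.mpr ⟨A1, hA1c, hx1⟩⟩⟩
            exact mem_union_right _ (mem_sdiff.mpr
              ⟨mem_biUnion.mpr ⟨A1, mem_biUnion.mpr ⟨c, hcD, hA1c⟩, hx1⟩, hx2⟩)
          · exact mem_union_left _ (mem_sdiff.mpr ⟨hxA, by
              rw [mem_union]; tauto⟩)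
        · exact mem_union_right _ (mem_sdiff.mpr ⟨mem_biUnion.mpr ⟨A', hA', hxA⟩, hx2⟩)
      have e4 := (card_le_card e3).trans (card_union_le _ _)
      rw [hcard, mul_add]
      omega
    · exact h.acc c (mem_sdiff.mp hc).1
  · intro c hc c' hc' hne
    rcases mem_insert.mp hc with rfl | hc <;> rcases mem_insert.mp hc' with rfl | hc'
    · exact absurd rfl hne
    · exact hdis c' hc'
    · exact (hdis c hc).symm
    · exact h.disj c (mem_sdiff.mp hc).1 c' (mem_sdiff.mp hc').1 hne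
  · intro c hc
    rcases mem_insert.mp hc with rfl | hc
    · exact h.disj_B hD hAB
    · exact h.hB c (mem_sdiff.mp hc).1
  · ext A'
    simp only [mem_SS, mem_insert, mem_sdiff]
    constructor
    · rintro ⟨c, rfl | hc, hA'⟩
      · rcases mem_insert.mp hA' with rfl | hA'
        · exact Or.inl rfl
        · obtain ⟨c, hc, hAc⟩ := mem_biUnion.mp hA'
          exact Or.inr ⟨c, hD hc, hAc⟩
      · exact Or.inr ⟨c, hc.1, hA'⟩
    · rintro (rfl | ⟨c, hc, hA'⟩)
      · exact ⟨_, Or.inl rfl, mem_insert_self _ _⟩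
      · by_cases hcD : c ∈ D
        · exact ⟨_, Or.inl rfl, mem_insert_of_mem (mem_biUnion.mpr ⟨c, hcD, hA'⟩)⟩
        · exact ⟨c, Or.inr ⟨hc, hcD⟩, hA'⟩

theorem Good.settle (hp : pot P Mb Bb < 1) : ∀ (m : ℕ) (C : Finset (Finset (Finset V))),
    Good P Mb Bb C → (P.F \ SS C).card ≤ m → ∃ C', Good P Mb Bb C' ∧ SS C ⊆ SS C' ∧
      ∀ A ∈ P.F, A ∉ SS C' → Disjoint A Bb → P.a + 2 < (A \ (Mb ∪ UU C')).card := by
  intro m
  induction m with
  | zero =>
    intro C h hm
    refine ⟨C, h, Subset.rfl, fun A hA hAS _ => ?_⟩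
    have : P.F \ SS C = ∅ := card_eq_zero.mp (by omega)
    exact absurd (mem_sdiff.mpr ⟨hA, hAS⟩) (by rw [this]; simp)
  | succ m ih =>
    intro C h hm
    by_cases hex : ∃ A ∈ P.F, A ∉ SS C ∧ Disjoint A Bb ∧ (A \ (Mb ∪ UU C)).card ≤ P.a + 2
    · obtain ⟨A, hA, hAS, hAB, hr⟩ := hex
      obtain ⟨C1, h1, h2⟩ := h.extend hp hA hAS hAB hr
      have h3 : (P.F \ SS C1).card ≤ m := by
        rw [h2, sdiff_insert]
        have := card_erase_add_one (mem_sdiff.mpr ⟨hA, hAS⟩)
        omega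
      obtain ⟨C', g1, g2, g3⟩ := ih C1 h1 h3
      exact ⟨C', g1, (subset_insert _ _).trans (h2 ▸ g2), g3⟩
    · refine ⟨C, h, Subset.rfl, fun A hA hAS hAB => ?_⟩
      by_contra hc
      exact hex ⟨A, hA, hAS, hAB, not_lt.mp hc⟩

theorem Setup.hall1 (P : Setup V) {G : Finset (Finset V)} (hG : G ⊆ P.F) (hk : G.card ≤ 2 * P.k)
    (Z : Finset V) (hZ : ∀ A ∈ G, P.a + 2 ≤ (A \ Z).card) :
    2 * G.card ≤ (G.biUnion id \ Z).card := by
  have e1 := P.expa G hG hk
  have e2 := card_sdiff_add_card_inter (G.biUnion id) Z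
  have e3 : (G.biUnion id ∩ Z).card ≤ ∑ A ∈ G, (A ∩ Z).card := by
    rw [biUnion_inter]; exact card_biUnion_le
  have e4 : ∑ A ∈ G, ((A ∩ Z).card + (P.a + 2)) ≤ ∑ _A ∈ G, P.n := by
    apply sum_le_sum
    intro A hA
    have := card_sdiff_add_card_inter A Z
    have := P.unif A (hG hA)
    have := hZ A hA
    omega
  rw [sum_add_distrib, sum_const, sum_const, smul_eq_mul, smul_eq_mul] at e4
  nlinarith

theorem Good.hall2 (h : Good P Mb Bb C) {G : Finset (Finset V)} (hG : G ⊆ SS C)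
    (Z : Finset V) (hZ : ∀ A ∈ G, P.a + 2 ≤ (A \ Z).card) :
    2 * G.card ≤ (G.biUnion id \ Z).card := by
  have e1 : G ⊆ C.biUnion (fun c => G ∩ c) := by
    intro A hA
    obtain ⟨c, hc, hAc⟩ := mem_SS.mp (hG hA)
    exact mem_biUnion.mpr ⟨c, hc, mem_inter.mpr ⟨hA, hAc⟩⟩
  have e2 : G.card ≤ ∑ c ∈ C, (G ∩ c).card := (card_le_card e1).trans card_biUnion_le
  have e3 : (C.biUnion (fun c => (G ∩ c).biUnion id \ Z)).card =
      ∑ c ∈ C, ((G ∩ c).biUnion id \ Z).card := by
    apply card_biUnion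
    intro c hc c' hc' hne
    exact (h.disj c hc c' hc' hne).mono
      (sdiff_subset.trans (biUnion_subset_biUnion_of_subset_left _ inter_subset_right))
      (sdiff_subset.trans (biUnion_subset_biUnion_of_subset_left _ inter_subset_right))
  have e4 : C.biUnion (fun c => (G ∩ c).biUnion id \ Z) ⊆ G.biUnion id \ Z :=
    biUnion_subset.mpr (fun c _ => sdiff_subset_sdiff
      (biUnion_subset_biUnion_of_subset_left _ inter_subset_left) Subset.rfl)
  have e5 : ∑ c ∈ C, 2 * (G ∩ c).card ≤ ∑ c ∈ C, ((G ∩ c).biUnion id \ Z).card := by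
    apply sum_le_sum
    intro c hc
    have := card_le_card (inter_subset_right (s₁ := G) (s₂ := c))
    have := h.size c hc
    exact P.hall1 (inter_subset_right.trans (h.sub c hc)) (by omega) Z
      (fun A hA => hZ A (mem_inter.mp hA).1)
  rw [← mul_sum] at e5
  have := card_le_card e4
  omega

theorem Good.pairs [Nonempty V] (h : Good P Mb Bb C) {Q : Finset (Finset V)} (hQ : Q ⊆ SS C)
    (Z : Finset V) (hZ : ∀ A ∈ Q, P.a + 2 ≤ (A \ Z).card) :
    ∃ f : Finset V → Bool → V, (∀ A ∈ Q, ∀ b, f A b ∈ A \ Z) ∧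
      ∀ A ∈ Q, ∀ A' ∈ Q, ∀ b b', f A b = f A' b' → A = A' ∧ b = b' := by
  obtain ⟨g, hg1, hg2⟩ := (all_card_le_biUnion_card_iff_exists_injective
    (fun q : {A // A ∈ Q} × Bool => q.1.1 \ Z)).mp (by
      intro s
      set G := s.image (fun q => q.1.1) with hG
      have hGQ : G ⊆ Q := by
        intro A hA
        obtain ⟨q, -, rfl⟩ := mem_image.mp hA
        exact q.1.2
      have e1 := h.hall2 (hGQ.trans hQ) Z (fun A hA => hZ A (hGQ hA))
      have e2 : s.card ≤ (G ×ˢ (univ : Finset Bool)).card := by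
        apply card_le_card_of_injOn (fun q => (q.1.1, q.2))
        · intro q hq
          exact mem_coe.mpr (mem_product.mpr ⟨mem_image_of_mem _ (mem_coe.mp hq), mem_univ _⟩)
        · intro q _ q' _ hqq
          simp only [Prod.mk.injEq] at hqq
          exact Prod.ext (Subtype.ext hqq.1) hqq.2
      rw [card_product, card_univ, Fintype.card_bool] at e2
      have e3 : G.biUnion id \ Z ⊆ s.biUnion (fun q => q.1.1 \ Z) := by
        intro x hx
        obtain ⟨hx1, hx2⟩ := mem_sdiff.mp hx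
        obtain ⟨A, hA, hxA⟩ := mem_biUnion.mp hx1
        obtain ⟨q, hq, rfl⟩ := mem_image.mp hA
        exact mem_biUnion.mpr ⟨q, hq, mem_sdiff.mpr ⟨hxA, hx2⟩⟩
      have := card_le_card e3
      omega)
  refine ⟨fun A b => if hA : A ∈ Q then g (⟨A, hA⟩, b) else Classical.arbitrary V, ?_, ?_⟩
  · intro A hA b
    simp only [dif_pos hA]
    exact hg2 (⟨A, hA⟩, b)
  · intro A hA A' hA' b b' he
    simp only [dif_pos hA, dif_pos hA'] at he
    have := hg1 he
    simp only [Prod.mk.injEq, Subtype.mk.injEq] at this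
    exact this

end Pool.Agent.Lib.MP_614955_co.Sparse
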