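import Mathlib
import Pool.Agent.Lib.MP_614955_co.Game
import Pool.Agent.Lib.MP_614955_co.SparseCluster

set_option autoImplicit false

namespace Pool.Agent.Lib.MP_614955_co.Sparse

open Finset

variable {V : Type*} [DecidableEq V]

/-- A position with its bookkeeping. -/
structure St (P : Setup V) (c : ℝ) (t : ℕ) (M B Mb Bb : Finset V)
    (C : Finset (Finset (Finset V))) (p : Finset V → Bool → V) : Prop where
  good : Good P Mb Bb C
  m1 : Mb ⊆ M
  m2 : M ⊆ Mb ∪ UU C
  b1 : Bb ⊆ B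
  b2 : B ⊆ Bb ∪ UU C
  mb : Disjoint M B
  pt : pot P Mb Bb ≤ c
  un : ∀ A ∈ P.F, A ∉ SS C → Disjoint A Bb → t ≤ (A \ (Mb ∪ UU C)).card
  pm : ∀ A ∈ SS C, Disjoint A B → ∀ b, p A b ∈ A ∧ p A b ∉ M
  pi : ∀ A ∈ SS C, Disjoint A B → ∀ A' ∈ SS C, Disjoint A' B → ∀ b b',
    p A b = p A' b' → A = A' ∧ b = b'

/-- Look-ahead bound for the potential. -/
def LA (P : Setup V) (c : ℝ) (M B Mb Bb : Finset V) (C : Finset (Finset (Finset V))) : Prop :=
  ∀ x, x ∉ UU C → x ∉ M → x ∉ B → pot P (insert x Mb) Bb ≤ c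

variable {P : Setup V} {c : ℝ} {t : ℕ} {M B Mb Bb : Finset V}
  {C : Finset (Finset (Finset V))} {p : Finset V → Bool → V}

theorem St.bsmall (h : St P c t M B Mb Bb C p) {y : V} (hU : y ∈ UU C) (hM : y ∉ M) :
    St P c t M (insert y B) Mb Bb C p where
  good := h.good
  m1 := h.m1
  m2 := h.m2
  b1 := h.b1.trans (subset_insert _ _)
  b2 := insert_subset (mem_union_right _ hU) h.b2
  mb := disjoint_insert_right.mpr ⟨hM, h.mb⟩
  pt := h.pt
  un := h.un
  pm := fun A hA hd => h.pm A hA (disjoint_insert_right.mp hd).2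
  pi := fun A hA hd A' hA' hd' =>
    h.pi A hA (disjoint_insert_right.mp hd).2 A' hA' (disjoint_insert_right.mp hd').2

theorem sub_UU {c0 : Finset (Finset V)} (hc : c0 ∈ C) : c0.biUnion id ⊆ UU C := by
  intro x hx
  obtain ⟨A, hA, hx⟩ := mem_biUnion.mp hx
  exact mem_UU.mpr ⟨A, mem_SS.mpr ⟨c0, hc, hA⟩, hx⟩

theorem St.bbig (h : St P c t M B Mb Bb C p) {y : V} (hU : y ∉ UU C) (hM : y ∉ M) :
    St P c t M (insert y B) Mb (insert y Bb) C p where
  good := ⟨h.good.sub, h.good.link, h.good.size, h.good.acc, h.good.disj, fun c0 hc =>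
    disjoint_insert_right.mpr ⟨fun hy => hU (sub_UU hc hy), h.good.hB c0 hc⟩⟩
  m1 := h.m1
  m2 := h.m2
  b1 := insert_subset_insert _ h.b1
  b2 := insert_subset (mem_union_left _ (mem_insert_self _ _))
    (h.b2.trans (union_subset_union (subset_insert _ _) Subset.rfl))
  mb := disjoint_insert_right.mpr ⟨hM, h.mb⟩
  pt := (pot_insert_B _ _ _ _).trans h.pt
  un := fun A hA hS hd => h.un A hA hS (disjoint_insert_right.mp hd).2
  pm := fun A hA hd => h.pm A hA (disjoint_insert_right.mp hd).2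
  pi := fun A hA hd A' hA' hd' =>
    h.pi A hA (disjoint_insert_right.mp hd).2 A' hA' (disjoint_insert_right.mp hd').2

theorem St.msmall (h : St P c t M B Mb Bb C p) {x : V} (hU : x ∈ UU C) (hB : x ∉ B)
    (hp : ∀ A ∈ SS C, Disjoint A B → ∀ b, p A b ≠ x) :
    St P c t (insert x M) B Mb Bb C p where
  good := h.good
  m1 := h.m1.trans (subset_insert _ _)
  m2 := insert_subset (mem_union_right _ hU) h.m2
  b1 := h.b1
  b2 := h.b2
  mb := disjoint_insert_left.mpr ⟨hB, h.mb⟩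
  pt := h.pt
  un := h.un
  pm := fun A hA hd b => ⟨(h.pm A hA hd b).1, by
    rw [mem_insert, not_or]; exact ⟨hp A hA hd b, (h.pm A hA hd b).2⟩⟩
  pi := h.pi

theorem St.mbig (h : St P c (t + 1) M B Mb Bb C p) (hl : LA P c M B Mb Bb C) {x : V}
    (hU : x ∉ UU C) (hM : x ∉ M) (hB : x ∉ B) :
    St P c t (insert x M) B (insert x Mb) Bb C p where
  good := ⟨h.good.sub, h.good.link, h.good.size, fun c0 hc =>
    (card_le_card (sdiff_subset_sdiff Subset.rfl (subset_insert _ _))).trans (h.good.acc c0 hc),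
    h.good.disj, h.good.hB⟩
  m1 := insert_subset_insert _ h.m1
  m2 := insert_subset (mem_union_left _ (mem_insert_self _ _))
    (h.m2.trans (union_subset_union (subset_insert _ _) Subset.rfl))
  b1 := h.b1
  b2 := h.b2
  mb := disjoint_insert_left.mpr ⟨hB, h.mb⟩
  pt := hl x hU hM hB
  un := by
    intro A hA hS hd
    have h1 := h.un A hA hS hd
    rw [insert_union, sdiff_insert]
    have := pred_card_le_card_erase (s := A \ (Mb ∪ UU C)) (a := x)
    omega
  pm := fun A hA hd b => ⟨(h.pm A hA hd b).1, by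
    rw [mem_insert, not_or]
    refine ⟨?_, (h.pm A hA hd b).2⟩
    intro he
    exact hU (mem_UU.mpr ⟨A, hA, he ▸ (h.pm A hA hd b).1⟩)⟩
  pi := h.pi

theorem St.settle [Nonempty V] (hc : c < 1) (h : St P c (P.a + 2) M B Mb Bb C p) :
    ∃ C' p', St P c (P.a + 2 + 1) M B Mb Bb C' p' ∧ UU C ⊆ UU C' := by
  obtain ⟨C', g1, g2, g3⟩ := Good.settle (lt_of_le_of_lt h.pt hc) _ C h.good le_rfl
  have hU := UU_mono g2
  have hQ : ∀ A ∈ SS C' \ SS C, P.a + 2 ≤ (A \ (Mb ∪ UU C)).card := by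
    intro A hA
    obtain ⟨h1, h2⟩ := mem_sdiff.mp hA
    obtain ⟨c0, hc0, hAc⟩ := mem_SS.mp h1
    exact h.un A (g1.sub c0 hc0 hAc) h2
      ((g1.hB c0 hc0).mono_left (subset_biUnion_of_mem id hAc))
  obtain ⟨f, f1, f2⟩ := g1.pairs (Q := SS C' \ SS C) sdiff_subset (Mb ∪ UU C) hQ
  refine ⟨C', fun A b => if A ∈ SS C then p A b else f A b,
    ⟨g1, h.m1, h.m2.trans (union_subset_union Subset.rfl hU), h.b1,
      h.b2.trans (union_subset_union Subset.rfl hU), h.mb, h.pt, g3, ?_, ?_⟩, hU⟩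
  · intro A hA hd b
    by_cases hS : A ∈ SS C
    · simp only [if_pos hS]; exact h.pm A hS hd b
    · simp only [if_neg hS]
      obtain ⟨e1, e2⟩ := mem_sdiff.mp (f1 A (mem_sdiff.mpr ⟨hA, hS⟩) b)
      exact ⟨e1, fun hM => e2 (h.m2 hM)⟩
  · intro A hA hd A' hA' hd' b b' he
    by_cases hS : A ∈ SS C <;> by_cases hS' : A' ∈ SS C
    · simp only [if_pos hS, if_pos hS'] at he
      exact h.pi A hS hd A' hS' hd' b b' he
    · simp only [if_pos hS, if_neg hS'] at he
      obtain ⟨-, e2⟩ := mem_sdiff.mp (f1 A' (mem_sdiff.mpr ⟨hA', hS'⟩) b')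
      exact absurd (mem_union_right _ (mem_UU.mpr ⟨A, hS, he ▸ (h.pm A hS hd b).1⟩)) e2
    · simp only [if_neg hS, if_pos hS'] at he
      obtain ⟨-, e2⟩ := mem_sdiff.mp (f1 A (mem_sdiff.mpr ⟨hA, hS⟩) b)
      exact absurd (mem_union_right _ (mem_UU.mpr ⟨A', hS', he ▸ (h.pm A' hS' hd' b').1⟩)) e2
    · simp only [if_neg hS, if_neg hS'] at he
      exact f2 A (mem_sdiff.mpr ⟨hA, hS⟩) A' (mem_sdiff.mpr ⟨hA', hS'⟩) b b' he

/-- The invariant at the first player's turn. -/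
def Inv (P : Setup V) (c : ℝ) (M B : Finset V) : Prop :=
  ∃ Mb Bb C p, St P c (P.a + 2 + 1) M B Mb Bb C p ∧ LA P c M B Mb Bb C

theorem St.safe (h : St P c (t + 2) M B Mb Bb C p) {x : V} (hB : x ∉ B) :
    ∀ A ∈ P.F, ¬ A ⊆ insert x M := by
  intro A hA hsub
  have hd : Disjoint A B := (disjoint_insert_left.mpr ⟨hB, h.mb⟩).mono_left hsub
  by_cases hS : A ∈ SS C
  · have e1 := h.pm A hS hd true
    have e2 := h.pm A hS hd false
    have a1 := (mem_insert.mp (hsub e1.1)).resolve_right e1.2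
    have a2 := (mem_insert.mp (hsub e2.1)).resolve_right e2.2
    have := (h.pi A hS hd A hS hd true false (a1.trans a2.symm)).2
    exact absurd this (by decide)
  · have e1 := h.un A hA hS (hd.mono_right h.b1)
    have hAU : A \ (Mb ∪ UU C) ⊆ {x} := by
      intro z hz
      obtain ⟨h1, h2⟩ := mem_sdiff.mp hz
      rcases mem_insert.mp (hsub h1) with h3 | h3
      · exact mem_singleton.mpr h3
      · exact absurd (h.m2 h3) h2
    have := card_le_card hAU
    rw [card_singleton] at this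
    omega

theorem Inv.step [Fintype V] [Nonempty V] (hc : c < 1) (h : Inv P c M B) {x : V} (hM : x ∉ M)
    (hB : x ∉ B) : (∀ A ∈ P.F, ¬ A ⊆ insert x M) ∧
      ((∃ y, y ∉ insert x M ∧ y ∉ B) →
        ∃ y, y ∉ insert x M ∧ y ∉ B ∧ Inv P c (insert x M) (insert y B)) := by
  obtain ⟨Mb, Bb, C, p, h, hl⟩ := h
  refine ⟨St.safe (t := P.a + 1) h hB, ?_⟩
  rintro ⟨y0, hy1, hy2⟩
  by_cases hU : x ∈ UU C
  · by_cases hp : ∃ A ∈ SS C, Disjoint A B ∧ ∃ b, p A b = x
    · obtain ⟨A, hA, hd, b, hb⟩ := hp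
      obtain ⟨e1, e2⟩ := h.pm A hA hd (!b)
      have hne : p A (!b) ≠ x := by
        intro he
        have := (h.pi A hA hd A hA hd _ _ (he.trans hb.symm)).2
        cases b <;> simp at this
      have hyU : p A (!b) ∈ UU C := mem_UU.mpr ⟨A, hA, e1⟩
      refine ⟨p A (!b), by rw [mem_insert, not_or]; exact ⟨hne, e2⟩,
        disjoint_left.mp hd e1, Mb, Bb, C, p, ?_, ?_⟩
      · apply (h.bsmall hyU e2).msmall hU
        · rw [mem_insert, not_or]; exact ⟨hne.symm, hB⟩
        · intro A' hA' hd' b' he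
          obtain ⟨d1, d2⟩ := disjoint_insert_right.mp hd'
          have := (h.pi A' hA' d2 A hA hd _ _ (he.trans hb.symm)).1
          subst this
          exact d1 e1
      · intro z z1 z2 z3
        exact hl z z1 (fun hz => z2 (mem_insert_of_mem hz)) (fun hz => z3 (mem_insert_of_mem hz))
    · have h1 := h.msmall hU hB (fun A hA hd b he => hp ⟨A, hA, hd, b, he⟩)
      by_cases hyU : y0 ∈ UU C
      · refine ⟨y0, hy1, hy2, Mb, Bb, C, p, h1.bsmall hyU hy1, ?_⟩
        intro z z1 z2 z3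
        exact hl z z1 (fun hz => z2 (mem_insert_of_mem hz)) (fun hz => z3 (mem_insert_of_mem hz))
      · refine ⟨y0, hy1, hy2, Mb, insert y0 Bb, C, p, h1.bbig hyU hy1, ?_⟩
        intro z z1 z2 z3
        exact (pot_insert_B _ _ _ _).trans
          (hl z z1 (fun hz => z2 (mem_insert_of_mem hz)) (fun hz => z3 (mem_insert_of_mem hz)))
  · have h1 := h.mbig hl hU hM hB
    set R := (univ : Finset V).filter (fun z => z ∉ UU C ∧ z ∉ insert x M ∧ z ∉ B) with hR
    have key : ∃ y Bb', y ∉ insert x M ∧ y ∉ B ∧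
        St P c (P.a + 2) (insert x M) (insert y B) (insert x Mb) Bb' C p ∧
        LA P c (insert x M) (insert y B) (insert x Mb) Bb' C := by
      rcases R.eq_empty_or_nonempty with hRe | hRn
      · have hno : ∀ z, z ∉ UU C → z ∉ insert x M → z ∉ B → False := by
          intro z z1 z2 z3
          have : z ∈ R := mem_filter.mpr ⟨mem_univ _, z1, z2, z3⟩
          rw [hRe] at this
          simp at this
        have hyU : y0 ∈ UU C := by
          by_contra hcon
          exact hno y0 hcon hy1 hy2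
        exact ⟨y0, Bb, hy1, hy2, h1.bsmall hyU hy1, fun z z1 z2 z3 =>
          (hno z z1 z2 (fun hz => z3 (mem_insert_of_mem hz))).elim⟩
      · obtain ⟨y, hy, hy'⟩ := es_reply (wits P) (fun G => G.biUnion id)
          (wt P (insert x Mb) Bb) (fun G _ => wt_nonneg _ _ _ _) R hRn
        obtain ⟨-, y1, y2, y3⟩ := mem_filter.mp hy
        refine ⟨y, insert y Bb, y2, y3, h1.bbig y1 y2, fun z z1 z2 z3 => ?_⟩
        have hz : z ∈ R :=
          mem_filter.mpr ⟨mem_univ _, z1, z2, fun hz => z3 (mem_insert_of_mem hz)⟩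
        refine le_trans ?_ ((hy' z hz).trans h1.pt)
        apply sum_le_sum
        intro G _
        rw [← wt_insert_B]
        exact wt_insert_M _ _ _ _ _
    obtain ⟨y, Bb', y1, y2, s1, s2⟩ := key
    obtain ⟨C', p', s3, s4⟩ := s1.settle hc
    exact ⟨y, y1, y2, insert x Mb, Bb', C', p', s3,
      fun z z1 z2 z3 => s2 z (fun hz => z1 (s4 hz)) z2 z3⟩

theorem Inv.init [Nonempty V] (hn : P.a + 2 + 1 ≤ P.n) : Inv P (2 * pot P ∅ ∅) ∅ ∅ := by
  have h0 : 0 ≤ pot P (∅ : Finset V) ∅ := sum_nonneg (fun G _ => wt_nonneg _ _ _ _)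
  refine ⟨∅, ∅, ∅, fun _ _ => Classical.arbitrary V,
    ⟨⟨by simp, by simp, by simp, by simp, by simp, by simp⟩, by simp, by simp, by simp, by simp,
      by simp, by linarith, ?_, by simp [SS], by simp [SS]⟩, ?_⟩
  · intro A hA _ _
    have : UU (∅ : Finset (Finset (Finset V))) = ∅ := by simp [UU, SS]
    rw [this, union_empty, sdiff_empty, P.unif A hA]
    exact hn
  · intro x _ _ _
    unfold pot
    rw [mul_sum]
    apply sum_le_sum
    intro G _
    refine (wt_insert_M _ _ _ _ _).trans ?_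
    have := wt_nonneg P ∅ ∅ G
    split_ifs <;> linarith

/-- The initial potential. -/
theorem pot_init (P : Setup V) (d s : ℕ) (hd : P.n = d + (2 * P.a + s + 4))
    (hdeg : ∀ A ∈ P.F, ∑ x ∈ A, (P.F.filter (fun A => x ∈ A)).card ≤ 2 ^ d)
    (hsize : 2 ^ P.n * P.F.card ≤ 2 ^ (s * P.k)) : pot P ∅ ∅ ≤ 1 / 2 ^ (s + 1) := by
  classical
  set e := P.n - (2 * P.a + 2) with he
  have he' : e = d + 2 + s := by omega
  set z : ℝ := (1 / 2) ^ (d + 2) with hz
  have hz0 : 0 ≤ z := by positivity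
  have hnb : ∀ A ∈ P.F, (P.F.filter (Meets A)).card ≤ 2 ^ d := by
    intro A hA
    have : P.F.filter (Meets A) ⊆ A.biUnion (fun x => P.F.filter (fun A => x ∈ A)) := by
      intro B hB
      obtain ⟨h1, h2⟩ := mem_filter.mp hB
      obtain ⟨x, hx1, hx2⟩ := not_disjoint_iff.mp h2
      exact mem_biUnion.mpr ⟨x, hx1, mem_filter.mpr ⟨h1, hx2⟩⟩
    exact (card_le_card this).trans (card_biUnion_le.trans (hdeg A hA))
  have hDz : 4 * ((2 ^ d : ℕ) : ℝ) * z ≤ 1 := by
    rw [hz]; push_cast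
    rw [one_div, inv_pow, pow_add]
    field_simp
    norm_num
  have hc : ∀ A ∈ P.F, ∑ X ∈ P.F.powerset.filter (Conn Meets {A}), z ^ X.card ≤ 2 := by
    intro A hA
    have := conn_sum Meets P.F (2 ^ d) z hz0 hDz (by convert hnb) _ {A} P.F
      (singleton_subset_iff.mpr hA) Subset.rfl le_rfl
    simpa using this
  set K : ℝ := 2 ^ e * (1 / 2) ^ (s * (P.k + 1)) with hK
  have hK0 : 0 ≤ K := by positivity
  have h1 : ∀ G ∈ wits P, wt P ∅ ∅ G ≤
      ∑ A ∈ P.F, if G ∈ P.F.powerset.filter (Conn Meets {A}) then K * z ^ G.card else 0 := by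
    intro G hG
    unfold wits at hG
    obtain ⟨g1, g2, g3⟩ := mem_filter.mp hG
    obtain ⟨A, hA⟩ : G.Nonempty := card_pos.mp (by omega)
    have hAF : A ∈ P.F := mem_powerset.mp g1 hA
    have hmem : G ∈ P.F.powerset.filter (Conn Meets {A}) := mem_filter.mpr ⟨g1, g2 A hA⟩
    refine le_trans ?_ (single_le_sum (f := fun A =>
      if G ∈ P.F.powerset.filter (Conn Meets {A}) then K * z ^ G.card else 0)
      (fun A _ => by split_ifs <;> positivity) hAF)
    simp only [if_pos hmem]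
    unfold wt
    rw [if_pos (disjoint_empty_right _), inter_empty, card_empty, pow_zero, mul_one, ← he]
    obtain ⟨g, hg⟩ : ∃ g, G.card = g + 1 := ⟨G.card - 1, by omega⟩
    rw [hg, Nat.add_sub_cancel, hK, hz, ← pow_mul, mul_assoc, ← pow_add]
    have h2 : (1 / 2 : ℝ) ^ (e * g) = 2 ^ e * (1 / 2) ^ (e * (g + 1)) := by
      rw [mul_add, mul_one, pow_add, mul_comm ((1 / 2 : ℝ) ^ (e * g)), ← mul_assoc, ← mul_pow]
      norm_num
    rw [h2]
    apply mul_le_mul_of_nonneg_left _ (by positivity)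
    apply pow_le_pow_of_le_one (by norm_num) (by norm_num)
    rw [he']
    have : s * (P.k + 1) ≤ s * (g + 1) := Nat.mul_le_mul_left _ (by omega)
    nlinarith
  have h2 : pot P ∅ ∅ ≤ ∑ A ∈ P.F, K * 2 := by
    refine (sum_le_sum h1).trans ?_
    rw [sum_comm]
    apply sum_le_sum
    intro A hA
    refine le_trans ?_ (mul_le_mul_of_nonneg_left (hc A hA) hK0)
    rw [← sum_filter, mul_sum]
    apply sum_le_sum_of_subset_of_nonneg
    · intro G hG
      exact (mem_filter.mp hG).2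
    · intro G _ _
      positivity
  refine h2.trans ?_
  rw [sum_const, nsmul_eq_mul, hK]
  have h3 : (2 : ℝ) ^ P.n * P.F.card ≤ 2 ^ (s * P.k) := by exact_mod_cast hsize
  have h4 : (2 : ℝ) ^ P.n = 2 ^ e * 2 ^ (2 * P.a) * 4 := by
    have : P.n = e + 2 * P.a + 2 := by omega
    rw [this, pow_add, pow_add]; norm_num
  have h5 : (1 : ℝ) ≤ 2 ^ (2 * P.a) := one_le_pow₀ (by norm_num)
  have h6 : (0 : ℝ) ≤ P.F.card := by positivity
  have h7 : (2 : ℝ) ^ e * P.F.card * 4 ≤ 2 ^ (s * P.k) := by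
    have : (0 : ℝ) ≤ 2 ^ e * P.F.card * 4 := by positivity
    nlinarith
  rw [one_div, inv_pow, mul_add, mul_one, pow_add, pow_succ, le_div_iff₀ (by positivity)]
  have h8 : (0 : ℝ) < 2 ^ (s * P.k) := by positivity
  have h9 : (0 : ℝ) < 2 ^ s := by positivity
  calc (P.F.card : ℝ) * (2 ^ e * (2 ^ (s * P.k) * 2 ^ s)⁻¹ * 2) * (2 ^ s * 2)
      = (2 ^ e * P.F.card * 4) / 2 ^ (s * P.k) := by field_simp; norm_num
    _ ≤ 1 := (div_le_one h8).mpr h7

end Pool.Agent.Lib.MP_614955_co.Sparse
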